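import Mathlib

/-!
Regular shrinkers for the curvature flow of planar networks: definitions used in the statement.
-/

namespace Pool.Agent.Work.MP_dd6b33_gt

open Set

variable {V : Type} [NormedAddCommGroup V] [InnerProductSpace ℝ V]

/-- Parameter domain of a curve: `[0, ∞)` for an unbounded curve, `[0, 1]` for a bounded one. -/
def dom (unb : Bool) : Set ℝ := if unb = true then Ici 0 else Icc 0 1

/-- Parameters of the endpoints: `0`, and also `1` for a bounded curve. -/
def IsEnd (unb : Bool) (t : ℝ) : Prop := t = 0 ∨ (unb = false ∧ t = 1)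

/-- Velocity `γ'(t)` (one-sided at the endpoints). -/
noncomputable def vel (unb : Bool) (γ : ℝ → V) (t : ℝ) : V := derivWithin γ (dom unb) t

/-- Acceleration `γ''(t)` (one-sided at the endpoints). -/
noncomputable def acc (unb : Bool) (γ : ℝ → V) (t : ℝ) : V := derivWithin (vel unb γ) (dom unb) t

/-- Unit tangent vector `γ'(t) / |γ'(t)|`. -/
noncomputable def tang (unb : Bool) (γ : ℝ → V) (t : ℝ) : V := ‖vel unb γ t‖⁻¹ • vel unb γ t

/-- Component of the vector `w` normal to the curve at `γ(t)`. -/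
noncomputable def perp (unb : Bool) (γ : ℝ → V) (t : ℝ) (w : V) : V :=
  w - (inner ℝ w (tang unb γ t) : ℝ) • tang unb γ t

/-- Curvature vector `(γ''(t))^⊥ / |γ'(t)|²`. -/
noncomputable def curv (unb : Bool) (γ : ℝ → V) (t : ℝ) : V :=
  (‖vel unb γ t‖ ^ 2)⁻¹ • perp unb γ t (acc unb γ t)

/-- Unit tangent at an endpoint, pointing into the curve. -/
noncomputable def inTang (unb : Bool) (γ : ℝ → V) (t : ℝ) : V :=
  if t = 0 then tang unb γ t else -tang unb γ t

/-- An embedded regular shrinker whose curves are indexed by `ι`. -/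
structure RegularShrinker (V : Type) [NormedAddCommGroup V] [InnerProductSpace ℝ V]
    (ι : Type) where
  /-- `unb i = true` when the `i`-th curve is unbounded -/
  unb : ι → Bool
  /-- the parametrisation of the `i`-th curve on `dom (unb i)` -/
  γ : ι → ℝ → V
  smooth : ∀ i, ContDiffOn ℝ 2 (γ i) (dom (unb i))
  regular : ∀ i, ∀ t ∈ dom (unb i), vel (unb i) (γ i) t ≠ 0
  proper : ∀ i, unb i = true → Filter.Tendsto (fun t => ‖γ i t‖) Filter.atTop Filter.atTop
  embedded : ∀ i j, ∀ s ∈ dom (unb i), ∀ t ∈ dom (unb j), γ i s = γ j t →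
    (i = j ∧ s = t) ∨ (IsEnd (unb i) s ∧ IsEnd (unb j) t)
  triple : ∀ i s, IsEnd (unb i) s →
    {p : ι × ℝ | IsEnd (unb p.1) p.2 ∧ γ p.1 p.2 = γ i s}.ncard = 3
  angle : ∀ i s j t, IsEnd (unb i) s → IsEnd (unb j) t → γ i s = γ j t → (i, s) ≠ (j, t) →
    InnerProductGeometry.angle (inTang (unb i) (γ i) s) (inTang (unb j) (γ j) t) = 2 * Real.pi / 3
  connected : IsConnected (⋃ i, γ i '' dom (unb i))
  shrink : ∀ i, ∀ t ∈ dom (unb i), curv (unb i) (γ i) t + perp (unb i) (γ i) t (γ i t) = 0

end Pool.Agent.Work.MP_dd6b33_gt
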