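import Mathlib

-- merged part: Pool.Agent.Work.MP_dd6b33_gt.NumC
section
-- merged part: Pool.Agent.Work.MP_dd6b33_gt.Model
section
/-!
Polar arcs of shrinker curves and the combinatorial sweep model.
-/

namespace Pool.Agent.Work.MP_dd6b33_gt

open Set Real

/-- `ψ(r) = r e^{-r²/2}` -/
noncomputable def ψ (r : ℝ) : ℝ := r * exp (-(r ^ 2) / 2)

/-- A non-radial shrinker arc, parametrised by the polar angle. -/
structure Arc where
  a : ℝ
  b : ℝ
  r : ℝ → ℝ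
  φ : ℝ → ℝ
  hab : a < b
  rc : ContinuousOn r (Icc a b)
  φc : ContinuousOn φ (Icc a b)
  rpos : ∀ t ∈ Icc a b, 0 < r t
  φpos : ∀ t ∈ Icc a b, 0 < φ t
  φlt : ∀ t ∈ Icc a b, φ t < π
  rd : ∀ t ∈ Ioo a b, HasDerivAt r (r t * cos (φ t) / sin (φ t)) t
  φd : ∀ t ∈ Ioo a b, HasDerivAt φ (r t ^ 2 - 1) t

namespace Arc

/-- radius at the start -/
def ra (x : Arc) : ℝ := x.r x.a
/-- radius at the end -/
def rb (x : Arc) : ℝ := x.r x.b
/-- angle at the start -/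
def φa (x : Arc) : ℝ := x.φ x.a
/-- angle at the end -/
def φb (x : Arc) : ℝ := x.φ x.b

/-- rotate an arc by the angle `d` -/
def shift (x : Arc) (d : ℝ) : Arc where
  a := x.a + d
  b := x.b + d
  r := fun t => x.r (t - d)
  φ := fun t => x.φ (t - d)
  hab := by linarith [x.hab]
  rc := x.rc.comp (by fun_prop) (fun t ht => ⟨by linarith [ht.1], by linarith [ht.2]⟩)
  φc := x.φc.comp (by fun_prop) (fun t ht => ⟨by linarith [ht.1], by linarith [ht.2]⟩)
  rpos := fun t ht => x.rpos _ ⟨by linarith [ht.1], by linarith [ht.2]⟩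
  φpos := fun t ht => x.φpos _ ⟨by linarith [ht.1], by linarith [ht.2]⟩
  φlt := fun t ht => x.φlt _ ⟨by linarith [ht.1], by linarith [ht.2]⟩
  rd := fun t ht => by
    have h := x.rd (t - d) ⟨by linarith [ht.1], by linarith [ht.2]⟩
    exact h.comp_sub_const t d
  φd := fun t ht => by
    have h := x.φd (t - d) ⟨by linarith [ht.1], by linarith [ht.2]⟩
    exact h.comp_sub_const t d

/-- reflect an arc -/
noncomputable def mirror (x : Arc) : Arc where
  a := -x.b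
  b := -x.a
  r := fun t => x.r (-t)
  φ := fun t => π - x.φ (-t)
  hab := by linarith [x.hab]
  rc := x.rc.comp (by fun_prop) (fun t ht => ⟨by linarith [ht.2], by linarith [ht.1]⟩)
  φc := continuousOn_const.sub
    (x.φc.comp (by fun_prop) (fun t ht => ⟨by linarith [ht.2], by linarith [ht.1]⟩))
  rpos := fun t ht => x.rpos _ ⟨by linarith [ht.2], by linarith [ht.1]⟩
  φpos := fun t ht => by
    have := x.φlt (-t) ⟨by linarith [ht.2], by linarith [ht.1]⟩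
    linarith
  φlt := fun t ht => by
    have := x.φpos (-t) ⟨by linarith [ht.2], by linarith [ht.1]⟩
    linarith
  rd := fun t ht => by
    have h := x.rd (-t) ⟨by linarith [ht.2], by linarith [ht.1]⟩
    have h2 : HasDerivAt (fun s => x.r (-s)) (x.r (-t) * cos (x.φ (-t)) / sin (x.φ (-t)) * (-1)) t :=
      h.comp t (hasDerivAt_neg t)
    refine h2.congr_deriv ?_
    simp only [cos_pi_sub, sin_pi_sub]
    ring
  φd := fun t ht => by
    have h := x.φd (-t) ⟨by linarith [ht.2], by linarith [ht.1]⟩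
    have h1 : HasDerivAt (fun s => x.φ (-s)) ((x.r (-t) ^ 2 - 1) * (-1)) t :=
      h.comp t (hasDerivAt_neg t)
    refine (h1.const_sub π).congr_deriv ?_
    ring

end Arc

/-- `y` continues `x` after a left turn by 60 degrees -/
def TL (x y : Arc) : Prop := x.b = y.a ∧ x.rb = y.ra ∧ y.φa = x.φb + π / 3

/-- `y` continues `x` after a right turn by 60 degrees -/
def TR (x y : Arc) : Prop := x.b = y.a ∧ x.rb = y.ra ∧ y.φa = x.φb - π / 3

variable {X : Type}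

/-- no arc passes above radius `lo` at the angle `θ` -/
def NoAbove (arc : X → Arc) (θ lo : ℝ) : Prop :=
  ∀ z, (arc z).a ≤ θ → θ ≤ (arc z).b → (arc z).r θ ≤ lo

/-- no arc passes below radius `hi` at the angle `θ` -/
def NoBelow (arc : X → Arc) (θ hi : ℝ) : Prop :=
  ∀ z, (arc z).a ≤ θ → θ ≤ (arc z).b → hi ≤ (arc z).r θ

/-- no arc passes strictly between the radii `lo` and `hi` at the angle `θ` -/
def NoBetween (arc : X → Arc) (θ lo hi : ℝ) : Prop :=
  ∀ z, (arc z).a ≤ θ → θ ≤ (arc z).b → (arc z).r θ ≤ lo ∨ hi ≤ (arc z).r θ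

/-- the arc `x` ends at the foot of an unbounded halfline -/
def Ray (arc : X → Arc) (x : X) : Prop :=
  (arc x).φb = π / 3 ∧ NoAbove arc (arc x).b (arc x).rb

/-- the arc `x` ends at the outer end of a radial segment reaching the origin -/
def Od (arc : X → Arc) (x : X) : Prop :=
  (arc x).φb = 2 * π / 3 ∧ NoBelow arc (arc x).b (arc x).rb

/-- The lifted family of non-radial arcs of a regular shrinker. -/
structure LModel (X : Type) where
  arc : X → Arc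
  fin : ∀ s t : ℝ, {x | (arc x).a ≤ t ∧ s ≤ (arc x).b}.Finite
  emb : ∀ x y, x ≠ y → ∀ θ, (arc x).a < θ → θ < (arc x).b → (arc y).a ≤ θ → θ ≤ (arc y).b →
    (arc x).r θ ≠ (arc y).r θ
  ee : ∀ x y, (arc x).b = (arc y).b → (arc x).rb = (arc y).rb →
    x = y ∨ (arc y).φb = (arc x).φb + 2 * π / 3 ∨ (arc x).φb = (arc y).φb + 2 * π / 3
  ss : ∀ x y, (arc x).a = (arc y).a → (arc x).ra = (arc y).ra →
    x = y ∨ (arc y).φa = (arc x).φa + 2 * π / 3 ∨ (arc x).φa = (arc y).φa + 2 * π / 3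
  es : ∀ x y, (arc x).b = (arc y).a → (arc x).rb = (arc y).ra →
    (arc y).φa = (arc x).φb + π / 3 ∨ (arc y).φa = (arc x).φb - π / 3
  exL : ∀ x, (arc x).φb < 2 * π / 3 → ∃ y, TL (arc x) (arc y)
  exR : ∀ x, π / 3 < (arc x).φb → ∃ y, TR (arc x) (arc y)
  exL' : ∀ y, π / 3 < (arc y).φa → ∃ x, TL (arc x) (arc y)
  exR' : ∀ y, (arc y).φa < 2 * π / 3 → ∃ x, TR (arc x) (arc y)
  up : ∀ x, (arc x).φb = π / 3 → NoAbove arc (arc x).b (arc x).rb ∨
    ∃ y, (arc y).b = (arc x).b ∧ (arc y).φb = 2 * π / 3 ∧ (arc x).rb < (arc y).rb ∧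
      NoBetween arc (arc x).b (arc x).rb (arc y).rb
  down : ∀ x, (arc x).φb = 2 * π / 3 → NoBelow arc (arc x).b (arc x).rb ∨
    ∃ y, (arc y).b = (arc x).b ∧ (arc y).φb = π / 3 ∧ (arc y).rb < (arc x).rb ∧
      NoBetween arc (arc x).b (arc y).rb (arc x).rb

/-- The periodic model: finitely many arcs and all their lifts. -/
structure GModel (E : Type) extends LModel (E × ℤ) where
  sh : ∀ e (k : ℤ), arc (e, k) = (arc (e, 0)).shift (2 * π * k)
  orig : ((∀ x, Od arc x → ∃ y, Od arc y ∧ (arc y).b = (arc x).b + π) ∧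
      {e | Od arc (e, 0)}.ncard ≤ 2) ∨
    ((∀ x, Od arc x → ∃ y, Od arc y ∧ (arc y).b = (arc x).b + 2 * π / 3) ∧
      {e | Od arc (e, 0)}.ncard ≤ 3)

end Pool.Agent.Work.MP_dd6b33_gt
end

-- merged part: Pool.Agent.Work.MP_dd6b33_gt.NumC
section
/-!
A one-parameter numeric inequality used in the sweep argument.
-/

namespace Pool.Agent.Work.MP_dd6b33_gt

open Set Real

namespace NumCAux

lemma nonneg_of_deriv {f f' : ℝ → ℝ} (hd : ∀ x, HasDerivAt f (f' x) x) (h0 : f 0 = 0)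
    (hp : ∀ x, 0 ≤ x → 0 ≤ f' x) {x : ℝ} (hx : 0 ≤ x) : 0 ≤ f x := by
  have hm : MonotoneOn f (Ici 0) := by
    refine monotoneOn_of_deriv_nonneg (convex_Ici 0)
      (fun y _ => (hd y).continuousAt.continuousWithinAt)
      (fun y _ => (hd y).differentiableAt.differentiableWithinAt) (fun y hy => ?_)
    rw [(hd y).deriv]
    exact hp y (interior_subset hy)
  have := hm (self_mem_Ici) hx hx
  rwa [h0] at this

lemma cos_le_c4 {x : ℝ} (hx : 0 ≤ x) : cos x ≤ 1 - x ^ 2 / 2 + x ^ 4 / 24 := by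
  have h := nonneg_of_deriv (f := fun x => 1 - x ^ 2 / 2 + x ^ 4 / 24 - cos x)
    (f' := fun x => sin x - (x - x ^ 3 / 6)) (fun x => by
      have h1 := (((hasDerivAt_const x (1 : ℝ)).sub ((hasDerivAt_pow 2 x).div_const 2)).add
        ((hasDerivAt_pow 4 x).div_const 24)).sub (hasDerivAt_cos x)
      refine h1.congr_deriv ?_
      norm_num; ring) (by simp) (fun x hx => by linarith only [hx, sin_ge_sub_cube hx]) hx
  linarith only [h]

lemma sin_le_s5 {x : ℝ} (hx : 0 ≤ x) : sin x ≤ x - x ^ 3 / 6 + x ^ 5 / 120 := by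
  have h := nonneg_of_deriv (f := fun x => x - x ^ 3 / 6 + x ^ 5 / 120 - sin x)
    (f' := fun x => 1 - x ^ 2 / 2 + x ^ 4 / 24 - cos x) (fun x => by
      have h1 := (((hasDerivAt_id' x).sub ((hasDerivAt_pow 3 x).div_const 6)).add
        ((hasDerivAt_pow 5 x).div_const 120)).sub (hasDerivAt_sin x)
      refine h1.congr_deriv ?_
      norm_num; ring) (by simp) (fun x hx => by linarith only [hx, cos_le_c4 hx]) hx
  linarith only [h]

/-- Taylor lower bound for the cosine -/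
noncomputable def c6 (x : ℝ) : ℝ := 1 - x ^ 2 / 2 + x ^ 4 / 24 - x ^ 6 / 720

/-- Taylor lower bound for the sine -/
noncomputable def s7 (x : ℝ) : ℝ := x - x ^ 3 / 6 + x ^ 5 / 120 - x ^ 7 / 5040

lemma c6_le_cos {x : ℝ} (hx : 0 ≤ x) : c6 x ≤ cos x := by
  have h := nonneg_of_deriv (f := fun x => cos x - (1 - x ^ 2 / 2 + x ^ 4 / 24 - x ^ 6 / 720))
    (f' := fun x => x - x ^ 3 / 6 + x ^ 5 / 120 - sin x) (fun x => by
      have h1 := (hasDerivAt_cos x).sub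
        ((((hasDerivAt_const x (1 : ℝ)).sub ((hasDerivAt_pow 2 x).div_const 2)).add
        ((hasDerivAt_pow 4 x).div_const 24)).sub ((hasDerivAt_pow 6 x).div_const 720))
      refine h1.congr_deriv ?_
      norm_num; ring) (by simp) (fun x hx => by linarith only [hx, sin_le_s5 hx]) hx
  unfold c6
  linarith only [h]

lemma s7_le_sin {x : ℝ} (hx : 0 ≤ x) : s7 x ≤ sin x := by
  have h := nonneg_of_deriv (f := fun x => sin x - (x - x ^ 3 / 6 + x ^ 5 / 120 - x ^ 7 / 5040))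
    (f' := fun x => cos x - c6 x) (fun x => by
      have h1 := (hasDerivAt_sin x).sub
        ((((hasDerivAt_id' x).sub ((hasDerivAt_pow 3 x).div_const 6)).add
        ((hasDerivAt_pow 5 x).div_const 120)).sub ((hasDerivAt_pow 7 x).div_const 5040))
      refine h1.congr_deriv ?_
      unfold c6
      norm_num; ring) (by simp) (fun x hx => by linarith [c6_le_cos hx]) hx
  unfold s7
  linarith only [h]

/-- upper bound for the exponential on `[0, 4]` -/
noncomputable def eU (w : ℝ) : ℝ :=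
  (1 + w / 4 + (w / 4) ^ 2 / 2 + (w / 4) ^ 3 / 6 + (w / 4) ^ 4 / 24 + (w / 4) ^ 5 / 100) ^ 4

/-- lower bound for the exponential on `[0, ∞)` -/
noncomputable def eL (w : ℝ) : ℝ :=
  1 + w + w ^ 2 / 2 + w ^ 3 / 6 + w ^ 4 / 24 + w ^ 5 / 120 + w ^ 6 / 720

lemma exp_le_eU {w : ℝ} (h0 : 0 ≤ w) (h4 : w ≤ 4) : exp w ≤ eU w := by
  have h := Real.exp_bound' (x := w / 4) (by linarith only [h0]) (by linarith) (n := 5) (by norm_num)
  have e : exp w = exp (w / 4) ^ 4 := by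
    rw [← Real.exp_nat_mul]; congr 1; push_cast; ring
  rw [e, eU]
  refine pow_le_pow_left₀ (exp_pos _).le (h.trans (le_of_eq ?_)) 4
  simp only [Finset.sum_range_succ, Finset.sum_range_zero, Nat.factorial]
  norm_num
  ring

lemma eL_le_exp {w : ℝ} (h0 : 0 ≤ w) : eL w ≤ exp w := by
  have h := Real.sum_le_exp_of_nonneg h0 7
  refine le_trans (le_of_eq ?_) h
  simp only [Finset.sum_range_succ, Finset.sum_range_zero, Nat.factorial, eL]
  norm_num

lemma ψ_deriv (r : ℝ) : HasDerivAt ψ ((1 - r ^ 2) * exp (-(r ^ 2) / 2)) r := by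
  have h := (hasDerivAt_id' r).mul ((((hasDerivAt_pow 2 r).neg).div_const 2).exp)
  refine h.congr_deriv ?_
  simp only [Pi.neg_apply]
  norm_num; ring

lemma ψ_anti : AntitoneOn ψ (Ici 1) := by
  refine antitoneOn_of_deriv_nonpos (convex_Ici 1)
    (fun y _ => (ψ_deriv y).continuousAt.continuousWithinAt)
    (fun y _ => (ψ_deriv y).differentiableAt.differentiableWithinAt) (fun y hy => ?_)
  rw [(ψ_deriv y).deriv]
  have hy1 : 1 ≤ y := interior_subset hy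
  exact mul_nonpos_of_nonpos_of_nonneg (by linarith only [hy1, mul_nonneg_of_nonpos_of_nonpos (Mathlib.Tactic.Linarith.sub_nonpos_of_le hy1) (Mathlib.Tactic.Linarith.sub_nonpos_of_le hy1)]) (exp_pos _).le

lemma ψ_smono : StrictMonoOn ψ (Icc 0 1) := by
  refine strictMonoOn_of_deriv_pos (convex_Icc 0 1)
    (fun y _ => (ψ_deriv y).continuousAt.continuousWithinAt) (fun y hy => ?_)
  rw [(ψ_deriv y).deriv]
  rw [interior_Icc] at hy
  exact mul_pos (by linarith only [hy, hy.1, hy.2, mul_pos_of_neg_of_neg (Mathlib.Tactic.Linarith.sub_neg_of_lt hy.left) (Mathlib.Tactic.Linarith.sub_neg_of_lt hy.right)]) (exp_pos _)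

lemma ψ_le_of_eU {a b c : ℝ} (ha : 0 ≤ a) (h0 : 0 ≤ (b ^ 2 - a ^ 2) / 2)
    (h4 : (b ^ 2 - a ^ 2) / 2 ≤ 4) (h : a * eU ((b ^ 2 - a ^ 2) / 2) ≤ c * b) :
    ψ a ≤ c * ψ b := by
  have h1 := exp_le_eU h0 h4
  have e : exp (-(a ^ 2) / 2) = exp ((b ^ 2 - a ^ 2) / 2) * exp (-(b ^ 2) / 2) := by
    rw [← exp_add]; congr 1; ring
  unfold ψ
  rw [e]
  have h2 : a * exp ((b ^ 2 - a ^ 2) / 2) ≤ c * b :=
    (mul_le_mul_of_nonneg_left h1 ha).trans h
  have h3 := mul_le_mul_of_nonneg_right h2 (exp_pos (-(b ^ 2) / 2)).le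
  linarith only [h3]

lemma sqrt3_bounds : (8660254 / 10000000 : ℝ) ≤ √3 / 2 ∧ √3 / 2 ≤ (8660255 / 10000000 : ℝ) := by
  have h1 : (17320508 / 10000000 : ℝ) ≤ √3 := Real.le_sqrt_of_sq_le (by norm_num)
  have h2 : √3 ≤ (17320510 / 10000000 : ℝ) := Real.sqrt_le_iff.2 ⟨by norm_num, by norm_num⟩
  constructor <;> linarith only [h1, h2]

lemma ψ_pos {r : ℝ} (h : 0 < r) : 0 < ψ r := mul_pos h (exp_pos _)

/-- from the defining relation, an upper bound for `t` -/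
lemma t_le {ρ t a T : ℝ} (ht1 : t ≤ π / 3) (ht : ψ 1 * sin t = ψ ρ * (√3 / 2))
    (ha : 1 ≤ a) (haρ : a ≤ ρ) (hT : 0 ≤ T)
    (h : 8660255 / 10000000 * a ≤ s7 T * eL ((a ^ 2 - 1) / 2)) : t ≤ T := by
  by_contra hlt
  push Not at hlt
  have hs : sin T < sin t :=
    sin_lt_sin_of_lt_of_le_pi_div_two (by linarith only [ht1, hT, hlt, pi_pos]) (by linarith only [ht1, hT, hlt, pi_pos]) hlt
  have h1 : ψ ρ ≤ ψ a := ψ_anti ha (ha.trans haρ) haρ
  have hw : 0 ≤ (a ^ 2 - 1) / 2 := by linarith only [one_le_pow₀ (n := 2) ha]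
  have h2 := eL_le_exp hw
  have hL : 0 < eL ((a ^ 2 - 1) / 2) := by unfold eL; positivity
  have hs7 : 0 < s7 T := by
    by_contra hn
    push Not at hn
    linarith only [mul_nonneg (neg_nonneg.2 hn) hL.le, h, ha]
  have h3 := s7_le_sin hT
  have e : ψ 1 = exp ((a ^ 2 - 1) / 2) * exp (-(a ^ 2) / 2) := by
    unfold ψ
    rw [← exp_add, one_mul]; congr 1; ring
  have hE := exp_pos (-(a ^ 2) / 2)
  have hρ0 : 0 < ψ ρ := ψ_pos (by linarith only [ha, haρ])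
  have h4 : ψ ρ * (√3 / 2) ≤ ψ a * (8660255 / 10000000) :=
    mul_le_mul h1 sqrt3_bounds.2 (by positivity) (ψ_pos (by linarith only [ha])).le
  have h5 : ψ a * (8660255 / 10000000) ≤ s7 T * eL ((a ^ 2 - 1) / 2) * exp (-(a ^ 2) / 2) := by
    have := mul_le_mul_of_nonneg_right h hE.le
    unfold ψ
    linarith only [this]
  have h6 : s7 T * eL ((a ^ 2 - 1) / 2) ≤ sin T * exp ((a ^ 2 - 1) / 2) :=
    mul_le_mul h3 h2 hL.le (hs7.le.trans h3)
  have h7 := mul_le_mul_of_nonneg_right h6 hE.le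
  have h8 : ψ 1 * sin T < ψ 1 * sin t := mul_lt_mul_of_pos_left hs (ψ_pos one_pos)
  have h9 : ψ 1 * sin T = sin T * exp ((a ^ 2 - 1) / 2) * exp (-(a ^ 2) / 2) := by
    rw [e]; ring
  linarith only [ht, h4, h5, h7, h8, h9]

/-- the rational side conditions for one interval `[a, b]` -/
def Good (a b T m q0 : ℝ) : Prop :=
  1 ≤ a ∧ 1 < b ∧ b ≤ 11 / 5 ∧ 0 ≤ T ∧ T ≤ 3 ∧ 0 < m ∧ m < 1 ∧ 0 < q0 ∧ q0 ≤ 1 ∧
  8660255 / 10000000 * a ≤ s7 T * eL ((a ^ 2 - 1) / 2) ∧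
  m * eU ((b ^ 2 - m ^ 2) / 2) ≤ 8660254 / 10000000 * b ∧
  q0 * eU ((b ^ 2 - q0 ^ 2) / 2) ≤ 1 * b ∧
  (b ^ 2 - 1) * (T - m / (1 - m ^ 2) * (c6 T + q0 / 2)) < 314159 / 300000 - T

lemma numC_body {ρ q t : ℝ} (hq0 : 0 < q) (hq1 : q ≤ 1) (hq : ψ q = ψ ρ)
    (ht0 : 0 < t) (ht1 : t ≤ π / 3) (ht : ψ 1 * sin t = ψ ρ * (√3 / 2))
    (a b T m q0 : ℝ) (haρ : a ≤ ρ) (hρb : ρ ≤ b) (hg : Good a b T m q0) :
    ∃ m v : ℝ, 0 < m ∧ m < 1 ∧ ψ m ≤ ψ ρ * (√3 / 2) ∧ 0 < v ∧ ρ ^ 2 - 1 ≤ v ∧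
      (v = ρ ^ 2 - 1 ∨ v ≤ 4) ∧ v * (t - m / (1 - m ^ 2) * (cos t + q / 2)) < π / 3 - t := by
  obtain ⟨ha, hb1, hb2, hT0, hT3, hm0, hm1, hq00, hq01, g1, g2, g3, g4⟩ := hg
  have hρ : 1 ≤ ρ := ha.trans haρ
  have htT : t ≤ T := t_le ht1 ht ha haρ hT0 g1
  have hψb : ψ b ≤ ψ ρ := ψ_anti hρ (hρ.trans hρb) hρb
  have hb3 : 1 < b ^ 2 := one_lt_pow₀ hb1 two_ne_zero
  have hb4 : b ^ 2 ≤ (11 / 5) ^ 2 := pow_le_pow_left₀ (by linarith only [hb1]) hb2 2
  have hm2 : m ^ 2 < 1 := pow_lt_one₀ hm0.le hm1 two_ne_zero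
  have hq2 : q0 ^ 2 ≤ 1 := pow_le_one₀ hq00.le hq01
  have hm : ψ m ≤ 8660254 / 10000000 * ψ b :=
    ψ_le_of_eU hm0.le (by linarith only [hb3, hm2]) (by linarith only [hb4, sq_nonneg m]) g2
  have hq0' : ψ q0 ≤ 1 * ψ b :=
    ψ_le_of_eU hq00.le (by linarith only [hb3, hq2]) (by linarith only [hb4, sq_nonneg q0]) g3
  have hqq : q0 ≤ q := by
    by_contra hn
    push Not at hn
    have := ψ_smono ⟨hq0.le, hq1⟩ ⟨hq00.le, hq01⟩ hn
    linarith only [hq, hψb, hq0', this]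
  have hv : 0 < b ^ 2 - 1 := sub_pos.2 hb3
  have hk : 0 < m / (1 - m ^ 2) := div_pos hm0 (sub_pos.2 hm2)
  have hc : c6 T ≤ cos t :=
    (c6_le_cos hT0).trans (cos_le_cos_of_nonneg_of_le_pi ht0.le (by linarith only [hT3, pi_gt_three]) htT)
  refine ⟨m, b ^ 2 - 1, hm0, hm1, ?_, hv,
    sub_le_sub_right (pow_le_pow_left₀ (zero_le_one.trans hρ) hρb 2) 1,
    Or.inr (by linarith only [hb4]), ?_⟩
  · have h1 : ψ b * (8660254 / 10000000) ≤ ψ ρ * (√3 / 2) :=
      mul_le_mul hψb sqrt3_bounds.1 (by norm_num) (ψ_pos (by linarith only [haρ, ha, hm0, hm1])).le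
    linarith only [hm, h1]
  · have h1 : m / (1 - m ^ 2) * (c6 T + q0 / 2) ≤ m / (1 - m ^ 2) * (cos t + q / 2) :=
      mul_le_mul_of_nonneg_left (by linarith only [hqq, hc]) hk.le
    have h2 : (b ^ 2 - 1) * (t - m / (1 - m ^ 2) * (cos t + q / 2)) ≤
        (b ^ 2 - 1) * (T - m / (1 - m ^ 2) * (c6 T + q0 / 2)) :=
      mul_le_mul_of_nonneg_left (by linarith only [htT, h1]) hv.le
    linarith only [pi_gt_d6, h2, g4, htT]

lemma numC_tail {ρ q t : ℝ} (hq0 : 0 < q)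
    (ht0 : 0 < t) (ht1 : t ≤ π / 3) (ht : ψ 1 * sin t = ψ ρ * (√3 / 2)) (hρ : 419 / 200 ≤ ρ) :
    ∃ m v : ℝ, 0 < m ∧ m < 1 ∧ ψ m ≤ ψ ρ * (√3 / 2) ∧ 0 < v ∧ ρ ^ 2 - 1 ≤ v ∧
      (v = ρ ^ 2 - 1 ∨ v ≤ 4) ∧ v * (t - m / (1 - m ^ 2) * (cos t + q / 2)) < π / 3 - t := by
  have htT : t ≤ 7 / 20 := t_le ht1 ht (a := 419 / 200) (by norm_num) hρ (by norm_num)
    (by norm_num [s7, eL])
  have hρ0 : 0 < ψ ρ := ψ_pos (by linarith only [ht0, hρ, htT])
  have hs : (419 / 200) ^ 2 ≤ ρ ^ 2 := pow_le_pow_left₀ (by norm_num) hρ 2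
  have hv : 0 < ρ ^ 2 - 1 := by linarith only [hs]
  -- `ψ ρ (ρ² - 1) ≤ 1`
  have hψv : ψ ρ * (ρ ^ 2 - 1) ≤ 1 := by
    have h1 := Real.sum_le_exp_of_nonneg (x := ρ ^ 2 / 2) (by positivity) 4
    simp only [Finset.sum_range_succ, Finset.sum_range_zero, Nat.factorial] at h1
    norm_num at h1
    have h2 : ρ ≤ ρ ^ 2 / (21 / 5) + 21 / 20 := by linarith only [sq_nonneg (ρ - 21 / 10)]
    have h3 : ρ * (ρ ^ 2 - 1) ≤ (ρ ^ 2 / (21 / 5) + 21 / 20) * (ρ ^ 2 - 1) :=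
      mul_le_mul_of_nonneg_right h2 hv.le
    have hs : 4 ≤ ρ ^ 2 := by linarith only [hs]
    have h4 : (ρ ^ 2 / (21 / 5) + 21 / 20) * (ρ ^ 2 - 1) ≤
        1 + ρ ^ 2 / 2 + (ρ ^ 2 / 2) ^ 2 / 2 + (ρ ^ 2 / 2) ^ 3 / 6 := by
      generalize ρ ^ 2 = s at hs
      nlinarith only [mul_nonneg (sub_nonneg.2 hs) (sq_nonneg (s - 5)), sq_nonneg (s - 24 / 5), hs]
    have h5 : ρ * (ρ ^ 2 - 1) ≤ exp (ρ ^ 2 / 2) := by linarith only [h1, h3, h4]
    have e : exp (ρ ^ 2 / 2) * exp (-(ρ ^ 2) / 2) = 1 := by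
      rw [← exp_add, ← exp_zero]; congr 1; ring
    have h6 := mul_le_mul_of_nonneg_right h5 (exp_pos (-(ρ ^ 2) / 2)).le
    unfold ψ
    linarith only [e, h6]
  obtain ⟨x, hx⟩ : ∃ x, x = ψ ρ * (√3 / 2) := ⟨_, rfl⟩
  rw [← hx] at ht ⊢
  have hx0 : 0 < x := by rw [hx]; positivity
  have hxv : x * (ρ ^ 2 - 1) ≤ 8660255 / 10000000 := by
    have h1 : ψ ρ * (ρ ^ 2 - 1) * (√3 / 2) ≤ 1 * (8660255 / 10000000) :=
      mul_le_mul hψv sqrt3_bounds.2 (by positivity) (by norm_num)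
    rw [hx]; linarith only [h1]
  have hx1 : x < 1 := by
    have : x * 1 ≤ x * (ρ ^ 2 - 1) := mul_le_mul_of_nonneg_left (by linarith only [hs]) hx0.le
    linarith only [this, hxv]
  have hsin : sin t ≤ 1.6488 * x := by
    have h1 : exp (1 / 2) ≤ 1.6488 :=
      (exp_le_eU (by norm_num) (by norm_num)).trans (by norm_num [eU])
    have e : exp (1 / 2) * ψ 1 = 1 := by
      unfold ψ
      rw [one_mul, ← exp_add]; norm_num
    have h2 : sin t = exp (1 / 2) * x := by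
      rw [← ht, ← mul_assoc, e, one_mul]
    rw [h2]
    exact mul_le_mul_of_nonneg_right h1 hx0.le
  have ht2 : t ^ 2 ≤ 49 / 400 := (pow_le_pow_left₀ ht0.le htT 2).trans (by norm_num)
  have hts : t ≤ 1.021 * sin t := by
    have h1 := sin_ge_sub_cube ht0.le
    linarith only [mul_le_mul_of_nonneg_left ht2 ht0.le, h1, ht0]
  have hcos : 0.938 ≤ cos t := by
    have h1 := Real.one_sub_sq_div_two_le_cos (x := t)
    linarith only [ht0, htT, ht2, h1]
  have hk : x ≤ x / (1 - x ^ 2) := by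
    rw [le_div_iff₀ (sub_pos.2 (pow_lt_one₀ hx0.le hx1 two_ne_zero))]
    linarith only [mul_pos hx0 (mul_pos hx0 hx0)]
  refine ⟨x, ρ ^ 2 - 1, hx0, hx1, ?_, hv, le_rfl, Or.inl rfl, ?_⟩
  · unfold ψ
    have : exp (-(x ^ 2) / 2) ≤ 1 := exp_le_one_iff.2 (by linarith only [sq_nonneg x])
    linarith only [mul_le_mul_of_nonneg_left this hx0.le]
  · have h1 : x * 0.938 ≤ x / (1 - x ^ 2) * (cos t + q / 2) :=
      mul_le_mul hk (by linarith only [hq0, hcos]) (by norm_num) (hx0.le.trans hk)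
    have h2 : t - x / (1 - x ^ 2) * (cos t + q / 2) ≤ 0.746 * x := by linarith only [hx0, hsin, hts, h1]
    have h3 := mul_le_mul_of_nonneg_left h2 hv.le
    linarith only [ht0, htT, hxv, h3, pi_gt_d6]

lemma good0 : Good 1 (213 / 200) (131 / 125) (643 / 1000) (117 / 125) := by
  norm_num [Good, eU, eL, s7, c6]

lemma good1 : Good (213 / 200) (221 / 200) (1041 / 1000) (159 / 250) (449 / 500) := by
  norm_num [Good, eU, eL, s7, c6]

lemma good2 : Good (221 / 200) (57 / 50) (103 / 100) (627 / 1000) (433 / 500) := by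
  norm_num [Good, eU, eL, s7, c6]

lemma good3 : Good (57 / 50) (47 / 40) (127 / 125) (617 / 1000) (417 / 500) := by
  norm_num [Good, eU, eL, s7, c6]

lemma good4 : Good (47 / 40) (241 / 200) 1 (607 / 1000) (101 / 125) := by
  norm_num [Good, eU, eL, s7, c6]

lemma good5 : Good (241 / 200) (247 / 200) (123 / 125) (119 / 200) (391 / 500) := by
  norm_num [Good, eU, eL, s7, c6]

lemma good6 : Good (247 / 200) (253 / 200) (483 / 500) (583 / 1000) (189 / 250) := by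
  norm_num [Good, eU, eL, s7, c6]

lemma good7 : Good (253 / 200) (259 / 200) (947 / 1000) (57 / 100) (731 / 1000) := by
  norm_num [Good, eU, eL, s7, c6]

lemma good8 : Good (259 / 200) (53 / 40) (927 / 1000) (557 / 1000) (707 / 1000) := by
  norm_num [Good, eU, eL, s7, c6]

lemma good9 : Good (53 / 40) (271 / 200) (453 / 500) (543 / 1000) (683 / 1000) := by
  norm_num [Good, eU, eL, s7, c6]

lemma good10 : Good (271 / 200) (277 / 200) (883 / 1000) (66 / 125) (659 / 1000) := by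
  norm_num [Good, eU, eL, s7, c6]

lemma good11 : Good (277 / 200) (141 / 100) (861 / 1000) (129 / 250) (16 / 25) := by
  norm_num [Good, eU, eL, s7, c6]

lemma good12 : Good (141 / 100) (36 / 25) (841 / 1000) (501 / 1000) (309 / 500) := by
  norm_num [Good, eU, eL, s7, c6]

lemma good13 : Good (36 / 25) (147 / 100) (817 / 1000) (243 / 500) (119 / 200) := by
  norm_num [Good, eU, eL, s7, c6]

lemma good14 : Good (147 / 100) (3 / 2) (397 / 500) (471 / 1000) (287 / 500) := by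
  norm_num [Good, eU, eL, s7, c6]

lemma good15 : Good (3 / 2) (307 / 200) (769 / 1000) (453 / 1000) (549 / 1000) := by
  norm_num [Good, eU, eL, s7, c6]

lemma good16 : Good (307 / 200) (157 / 100) (741 / 1000) (87 / 200) (21 / 40) := by
  norm_num [Good, eU, eL, s7, c6]

lemma good17 : Good (157 / 100) (161 / 100) (713 / 1000) (83 / 200) (249 / 500) := by
  norm_num [Good, eU, eL, s7, c6]

lemma good18 : Good (161 / 100) (33 / 20) (681 / 1000) (99 / 250) (473 / 1000) := by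
  norm_num [Good, eU, eL, s7, c6]

lemma good19 : Good (33 / 20) (339 / 200) (649 / 1000) (187 / 500) (111 / 250) := by
  norm_num [Good, eU, eL, s7, c6]

lemma good20 : Good (339 / 200) (7 / 4) (307 / 500) (87 / 250) (411 / 1000) := by
  norm_num [Good, eU, eL, s7, c6]

lemma good21 : Good (7 / 4) (363 / 200) (571 / 1000) (159 / 500) (3 / 8) := by
  norm_num [Good, eU, eL, s7, c6]

lemma good22 : Good (363 / 200) (189 / 100) (523 / 1000) (57 / 200) (67 / 200) := by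
  norm_num [Good, eU, eL, s7, c6]

lemma good23 : Good (189 / 100) (99 / 50) (47 / 100) (249 / 1000) (29 / 100) := by
  norm_num [Good, eU, eL, s7, c6]

lemma good24 : Good (99 / 50) (419 / 200) (41 / 100) (103 / 500) (6 / 25) := by
  norm_num [Good, eU, eL, s7, c6]

end NumCAux

open NumCAux in
theorem numC {ρ q t : ℝ} (hρ : 1 ≤ ρ) (hq0 : 0 < q) (hq1 : q ≤ 1) (hq : ψ q = ψ ρ)
    (ht0 : 0 < t) (ht1 : t ≤ π / 3) (ht : ψ 1 * sin t = ψ ρ * (√3 / 2)) :
    ∃ m v : ℝ, 0 < m ∧ m < 1 ∧ ψ m ≤ ψ ρ * (√3 / 2) ∧ 0 < v ∧ ρ ^ 2 - 1 ≤ v ∧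
      (v = ρ ^ 2 - 1 ∨ v ≤ 4) ∧ v * (t - m / (1 - m ^ 2) * (cos t + q / 2)) < π / 3 - t := by
  rcases le_total ρ (213 / 200) with h0 | h0
  · exact numC_body hq0 hq1 hq ht0 ht1 ht _ _ _ _ _ hρ h0 good0
  rcases le_total ρ (221 / 200) with h1 | h1
  · exact numC_body hq0 hq1 hq ht0 ht1 ht _ _ _ _ _ h0 h1 good1
  rcases le_total ρ (57 / 50) with h2 | h2
  · exact numC_body hq0 hq1 hq ht0 ht1 ht _ _ _ _ _ h1 h2 good2
  rcases le_total ρ (47 / 40) with h3 | h3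
  · exact numC_body hq0 hq1 hq ht0 ht1 ht _ _ _ _ _ h2 h3 good3
  rcases le_total ρ (241 / 200) with h4 | h4
  · exact numC_body hq0 hq1 hq ht0 ht1 ht _ _ _ _ _ h3 h4 good4
  rcases le_total ρ (247 / 200) with h5 | h5
  · exact numC_body hq0 hq1 hq ht0 ht1 ht _ _ _ _ _ h4 h5 good5
  rcases le_total ρ (253 / 200) with h6 | h6
  · exact numC_body hq0 hq1 hq ht0 ht1 ht _ _ _ _ _ h5 h6 good6
  rcases le_total ρ (259 / 200) with h7 | h7
  · exact numC_body hq0 hq1 hq ht0 ht1 ht _ _ _ _ _ h6 h7 good7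
  rcases le_total ρ (53 / 40) with h8 | h8
  · exact numC_body hq0 hq1 hq ht0 ht1 ht _ _ _ _ _ h7 h8 good8
  rcases le_total ρ (271 / 200) with h9 | h9
  · exact numC_body hq0 hq1 hq ht0 ht1 ht _ _ _ _ _ h8 h9 good9
  rcases le_total ρ (277 / 200) with h10 | h10
  · exact numC_body hq0 hq1 hq ht0 ht1 ht _ _ _ _ _ h9 h10 good10
  rcases le_total ρ (141 / 100) with h11 | h11
  · exact numC_body hq0 hq1 hq ht0 ht1 ht _ _ _ _ _ h10 h11 good11
  rcases le_total ρ (36 / 25) with h12 | h12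
  · exact numC_body hq0 hq1 hq ht0 ht1 ht _ _ _ _ _ h11 h12 good12
  rcases le_total ρ (147 / 100) with h13 | h13
  · exact numC_body hq0 hq1 hq ht0 ht1 ht _ _ _ _ _ h12 h13 good13
  rcases le_total ρ (3 / 2) with h14 | h14
  · exact numC_body hq0 hq1 hq ht0 ht1 ht _ _ _ _ _ h13 h14 good14
  rcases le_total ρ (307 / 200) with h15 | h15
  · exact numC_body hq0 hq1 hq ht0 ht1 ht _ _ _ _ _ h14 h15 good15
  rcases le_total ρ (157 / 100) with h16 | h16
  · exact numC_body hq0 hq1 hq ht0 ht1 ht _ _ _ _ _ h15 h16 good16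
  rcases le_total ρ (161 / 100) with h17 | h17
  · exact numC_body hq0 hq1 hq ht0 ht1 ht _ _ _ _ _ h16 h17 good17
  rcases le_total ρ (33 / 20) with h18 | h18
  · exact numC_body hq0 hq1 hq ht0 ht1 ht _ _ _ _ _ h17 h18 good18
  rcases le_total ρ (339 / 200) with h19 | h19
  · exact numC_body hq0 hq1 hq ht0 ht1 ht _ _ _ _ _ h18 h19 good19
  rcases le_total ρ (7 / 4) with h20 | h20
  · exact numC_body hq0 hq1 hq ht0 ht1 ht _ _ _ _ _ h19 h20 good20
  rcases le_total ρ (363 / 200) with h21 | h21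
  · exact numC_body hq0 hq1 hq ht0 ht1 ht _ _ _ _ _ h20 h21 good21
  rcases le_total ρ (189 / 100) with h22 | h22
  · exact numC_body hq0 hq1 hq ht0 ht1 ht _ _ _ _ _ h21 h22 good22
  rcases le_total ρ (99 / 50) with h23 | h23
  · exact numC_body hq0 hq1 hq ht0 ht1 ht _ _ _ _ _ h22 h23 good23
  rcases le_total ρ (419 / 200) with h24 | h24
  · exact numC_body hq0 hq1 hq ht0 ht1 ht _ _ _ _ _ h23 h24 good24
  exact numC_tail hq0 ht0 ht1 ht h24

end Pool.Agent.Work.MP_dd6b33_gt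
end
end

-- merged part: Pool.Agent.Work.MP_dd6b33_gt.ExtractModel
section
-- merged part: Pool.Agent.Work.MP_dd6b33_gt.ExtractNet
section
/-!
Abstract planar networks made of radial pieces and polar arcs, and the sweep model they define.
-/

namespace Pool.Agent.Work.MP_dd6b33_gt

open Set Real

/-- `e^{it}` -/
noncomputable def ei (t : ℝ) : ℂ := Complex.exp (t * Complex.I)

theorem ei_add (s t : ℝ) : ei (s + t) = ei s * ei t := by
  simp [ei, add_mul, Complex.exp_add]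

theorem ei_re (t : ℝ) : (ei t).re = cos t := Complex.exp_ofReal_mul_I_re t

theorem ei_im (t : ℝ) : (ei t).im = sin t := Complex.exp_ofReal_mul_I_im t

theorem norm_ei (t : ℝ) : ‖ei t‖ = 1 := Complex.norm_exp_ofReal_mul_I t

theorem ei_ne_zero (t : ℝ) : ei t ≠ 0 := Complex.exp_ne_zero _

theorem ei_pi : ei π = -1 := by simp [ei]

theorem ei_zero : ei 0 = 1 := by simp [ei]

theorem ei_int (k : ℤ) : ei (2 * π * k) = 1 := by
  unfold ei
  rw [Complex.exp_eq_one_iff]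
  exact ⟨k, by push_cast; ring⟩

theorem ei_add_int (t : ℝ) (k : ℤ) : ei (t + 2 * π * k) = ei t := by
  rw [ei_add, ei_int, mul_one]

theorem ei_sub_int (t : ℝ) (k : ℤ) : ei (t - 2 * π * k) = ei t := by
  have := ei_add_int (t - 2 * π * k) k
  rw [sub_add_cancel] at this
  exact this.symm

theorem ei_add_pi (t : ℝ) : ei (t + π) = -ei t := by rw [ei_add, ei_pi]; ring

theorem ei_add_two_pi (t : ℝ) : ei (t + 2 * π) = ei t := by
  have := ei_add_int t 1
  simpa using this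

theorem exists_int_of_ei_eq {s t : ℝ} (h : ei s = ei t) : ∃ k : ℤ, s + 2 * π * k = t := by
  obtain ⟨n, hn⟩ := Complex.exp_eq_exp_iff_exists_int.1 h.symm
  refine ⟨n, ?_⟩
  have h2 := congrArg Complex.im hn
  simp at h2
  linarith

theorem conj_ei_mul (s t : ℝ) : (starRingEnd ℂ) (ei s) * ei t = ei (t - s) := by
  have h : (starRingEnd ℂ) (ei s) = ei (-s) := by
    unfold ei
    rw [← Complex.exp_conj]
    simp
  rw [h, ← ei_add]
  congr 1
  ring

theorem eq_of_ei_eq {s t : ℝ} (hs0 : 0 < s) (hs : s < π) (ht0 : 0 < t) (ht : t < π)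
    (h : ei s = ei t) : s = t := by
  have h2 := congrArg Complex.re h
  rw [ei_re, ei_re] at h2
  exact injOn_cos ⟨hs0.le, hs.le⟩ ⟨ht0.le, ht.le⟩ h2

theorem polar_inj {ρ ρ' s t : ℝ} (hρ : 0 < ρ) (hρ' : 0 < ρ') (h : (ρ : ℂ) * ei s = ρ' * ei t) :
    ρ = ρ' ∧ ei s = ei t := by
  have h1 : ρ = ρ' := by
    have := congrArg norm h
    rw [norm_mul, norm_mul, norm_ei, norm_ei, Complex.norm_real, Complex.norm_real,
      Real.norm_of_nonneg hρ.le, Real.norm_of_nonneg hρ'.le] at this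
    linarith
  refine ⟨h1, ?_⟩
  subst h1
  exact mul_left_cancel₀ (by exact_mod_cast hρ.ne') h

theorem im_polar (ρ β α : ℝ) :
    ((starRingEnd ℂ) ((ρ : ℂ) * ei β) * ei (β + α)).im = ρ * sin α := by
  rw [map_mul, mul_assoc, conj_ei_mul, Complex.conj_ofReal, Complex.im_ofReal_mul, ei_im]
  congr 2
  ring

theorem exists_ei {u : ℂ} (hu : ‖u‖ = 1) : ∃ β, u = ei β := by
  refine ⟨Complex.arg u, ?_⟩
  have := Complex.norm_mul_exp_arg_mul_I u
  rw [hu] at this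
  simpa [ei] using this.symm

theorem exists_polar {z : ℂ} (hz : z ≠ 0) : ∃ ρ β : ℝ, 0 < ρ ∧ z = ρ * ei β :=
  ⟨‖z‖, Complex.arg z, norm_pos_iff.2 hz, (Complex.norm_mul_exp_arg_mul_I z).symm⟩

theorem cos_eq_neg_half {d : ℝ} (h1 : -π < d) (h2 : d < π) (h : cos d = -1 / 2) :
    d = 2 * π / 3 ∨ d = -(2 * π / 3) := by
  have h3 : cos (2 * π / 3) = -1 / 2 := by
    rw [show 2 * π / 3 = π - π / 3 by ring, cos_pi_sub, cos_pi_div_three]; norm_num
  have hp := pi_pos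
  rcases le_total 0 d with hd | hd
  · left
    exact injOn_cos ⟨hd, h2.le⟩ ⟨by linarith only [h1, h2], by linarith only [h1, h2]⟩ (h.trans h3.symm)
  · right
    have : -d = 2 * π / 3 :=
      injOn_cos ⟨by linarith only [hd], by linarith only [h1]⟩ ⟨by linarith only [h1, h2], by linarith only [h1, h2]⟩ (by rw [cos_neg, h, h3])
    linarith only [this]

theorem cos_eq_half {d : ℝ} (h1 : -π < d) (h2 : d < π) (h : cos d = 1 / 2) :
    d = π / 3 ∨ d = -(π / 3) := by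
  have h3 : cos (π / 3) = 1 / 2 := cos_pi_div_three
  have hp := pi_pos
  rcases le_total 0 d with hd | hd
  · left
    exact injOn_cos ⟨hd, h2.le⟩ ⟨by linarith only [h1, h2], by linarith only [h1, h2]⟩ (h.trans h3.symm)
  · right
    have : -d = π / 3 :=
      injOn_cos ⟨by linarith, by linarith⟩ ⟨by linarith only [h1, h2], by linarith only [h1, h2]⟩ (by rw [cos_neg, h, h3])
    linarith only [this]

/-- An abstract network: curves `ι`, ends `W`; every curve is radial or a polar arc. -/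
structure Net (ι W : Type) where
  cv : W → ι
  pt : W → ℂ
  dir : W → ℂ
  unb : ι → Prop
  rad : ι → Prop
  In : ι → Set ℂ
  All : ι → Set ℂ
  A : {i // ¬ rad i} → Arc
  st : {i // ¬ rad i} → W
  tm : {i // ¬ rad i} → W
  dn : ∀ w, ‖dir w‖ = 1
  rot : ∀ w, ∃ y, pt y = pt w ∧ dir y = ei (2 * π / 3) * dir w
  ang : ∀ w y, pt w = pt y → w ≠ y → ((starRingEnd ℂ) (dir w) * dir y).re = -1 / 2
  three : ∀ w, {y | pt y = pt w}.ncard ≤ 3
  two : ∀ w y z, cv y = cv w → cv z = cv w → y ≠ w → z ≠ w → y = z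
  emb : ∀ i j z, z ∈ In i → z ∈ All j → i = j
  ptI : ∀ w i, pt w ∉ In i
  IA : ∀ i, In i ⊆ All i
  unb_rad : ∀ i, unb i → rad i
  has_end : ∀ i, ∃ w, cv w = i
  st_cv : ∀ e, cv (st e) = e.1
  tm_cv : ∀ e, cv (tm e) = e.1
  ends : ∀ (e : {i // ¬ rad i}) w, cv w = e.1 → w = st e ∨ w = tm e
  st_pt : ∀ e, pt (st e) = (A e).ra * ei (A e).a
  st_dir : ∀ e, dir (st e) = ei ((A e).a + (A e).φa)
  tm_pt : ∀ e, pt (tm e) = (A e).rb * ei (A e).b
  tm_dir : ∀ e, dir (tm e) = -ei ((A e).b + (A e).φb)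
  arcA : ∀ e θ, θ ∈ Icc (A e).a (A e).b → ((A e).r θ : ℂ) * ei θ ∈ All e.1
  arcE : ∀ e e' θ θ', θ ∈ Ioo (A e).a (A e).b → θ' ∈ Icc (A e').a (A e').b →
    ((A e).r θ : ℂ) * ei θ = (A e').r θ' * ei θ' → e = e' ∧ θ = θ'
  rad_im : ∀ w, rad (cv w) → ((starRingEnd ℂ) (pt w) * dir w).im = 0
  rad_unb : ∀ w, unb (cv w) → ∀ s : ℝ, 0 < s → pt w + s * dir w ∈ In (cv w)
  rad_bd : ∀ w, rad (cv w) → ¬ unb (cv w) → ∃ y, ∃ l : ℝ, cv y = cv w ∧ y ≠ w ∧ 0 < l ∧
    pt y = pt w + l * dir w ∧ dir y = -dir w ∧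
    ∀ s : ℝ, 0 < s → s < l → pt w + s * dir w ∈ In (cv w)

namespace Arc

theorem ra_pos (x : Arc) : 0 < x.ra := x.rpos _ ⟨le_rfl, x.hab.le⟩
theorem rb_pos (x : Arc) : 0 < x.rb := x.rpos _ ⟨x.hab.le, le_rfl⟩
theorem φa_pos (x : Arc) : 0 < x.φa := x.φpos _ ⟨le_rfl, x.hab.le⟩
theorem φb_pos (x : Arc) : 0 < x.φb := x.φpos _ ⟨x.hab.le, le_rfl⟩
theorem φa_lt (x : Arc) : x.φa < π := x.φlt _ ⟨le_rfl, x.hab.le⟩
theorem φb_lt (x : Arc) : x.φb < π := x.φlt _ ⟨x.hab.le, le_rfl⟩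

end Arc

namespace Net

variable {ι W : Type} (N : Net ι W)

/-- the non-radial curves -/
abbrev E : Type := {i // ¬ N.rad i}

/-- the lifted arcs -/
noncomputable def arc (x : N.E × ℤ) : Arc := (N.A x.1).shift (2 * π * x.2)

theorem arc_a (x : N.E × ℤ) : (N.arc x).a = (N.A x.1).a + 2 * π * x.2 := rfl
theorem arc_b (x : N.E × ℤ) : (N.arc x).b = (N.A x.1).b + 2 * π * x.2 := rfl
theorem arc_r (x : N.E × ℤ) (t : ℝ) : (N.arc x).r t = (N.A x.1).r (t - 2 * π * x.2) := rfl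
theorem arc_φ (x : N.E × ℤ) (t : ℝ) : (N.arc x).φ t = (N.A x.1).φ (t - 2 * π * x.2) := rfl
theorem arc_ra (x : N.E × ℤ) : (N.arc x).ra = (N.A x.1).ra := by
  rw [Arc.ra, Arc.ra, arc_r, arc_a, add_sub_cancel_right]
theorem arc_rb (x : N.E × ℤ) : (N.arc x).rb = (N.A x.1).rb := by
  rw [Arc.rb, Arc.rb, arc_r, arc_b, add_sub_cancel_right]
theorem arc_φa (x : N.E × ℤ) : (N.arc x).φa = (N.A x.1).φa := by
  rw [Arc.φa, Arc.φa, arc_φ, arc_a, add_sub_cancel_right]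
theorem arc_φb (x : N.E × ℤ) : (N.arc x).φb = (N.A x.1).φb := by
  rw [Arc.φb, Arc.φb, arc_φ, arc_b, add_sub_cancel_right]

theorem stP (x : N.E × ℤ) : N.pt (N.st x.1) = (N.arc x).ra * ei (N.arc x).a := by
  rw [arc_ra, arc_a, ei_add_int, N.st_pt]

theorem tmP (x : N.E × ℤ) : N.pt (N.tm x.1) = (N.arc x).rb * ei (N.arc x).b := by
  rw [arc_rb, arc_b, ei_add_int, N.tm_pt]

theorem stD (x : N.E × ℤ) : N.dir (N.st x.1) = ei ((N.arc x).a + (N.arc x).φa) := by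
  rw [arc_φa, arc_a, add_right_comm, ei_add_int, N.st_dir]

theorem tmD (x : N.E × ℤ) : N.dir (N.tm x.1) = -ei ((N.arc x).b + (N.arc x).φb) := by
  rw [arc_φb, arc_b, add_right_comm, ei_add_int, N.tm_dir]

theorem uniq {w y : W} (hp : N.pt w = N.pt y) (hd : N.dir w = N.dir y) : w = y := by
  by_contra hne
  have h := N.ang w y hp hne
  rw [← hd, Complex.conj_mul', N.dn] at h
  norm_num at h

theorem rot2 (w : W) : ∃ y, N.pt y = N.pt w ∧ N.dir y = ei (4 * π / 3) * N.dir w := by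
  obtain ⟨y, h1, h2⟩ := N.rot w
  obtain ⟨z, h3, h4⟩ := N.rot y
  refine ⟨z, h3.trans h1, ?_⟩
  rw [h4, h2, ← mul_assoc, ← ei_add]
  congr 2
  ring

theorem onArc (x : N.E × ℤ) {θ : ℝ} (h1 : (N.arc x).a ≤ θ) (h2 : θ ≤ (N.arc x).b) :
    ((N.arc x).r θ : ℂ) * ei θ ∈ N.All x.1.1 := by
  rw [arc_a] at h1
  rw [arc_b] at h2
  have := N.arcA x.1 (θ - 2 * π * x.2) ⟨by linarith, by linarith⟩
  rwa [ei_sub_int] at this

theorem noArc {i : ι} (hi : N.rad i) (x : N.E × ℤ) {θ : ℝ} (h1 : (N.arc x).a ≤ θ)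
    (h2 : θ ≤ (N.arc x).b) : ((N.arc x).r θ : ℂ) * ei θ ∉ N.In i := fun h =>
  x.1.2 (N.emb _ _ _ h (N.onArc x h1 h2) ▸ hi)

theorem clsS {w : W} {ρ β α : ℝ} (hρ : 0 < ρ) (h0 : 0 < α) (h1 : α < π)
    (hp : N.pt w = ρ * ei β) (hd : N.dir w = ei (β + α)) :
    ∃ x : N.E × ℤ, N.st x.1 = w ∧ (N.arc x).a = β ∧ (N.arc x).ra = ρ ∧ (N.arc x).φa = α := by
  have hs : 0 < ρ * sin α := mul_pos hρ (sin_pos_of_pos_of_lt_pi h0 h1)
  have him : ((starRingEnd ℂ) (N.pt w) * N.dir w).im = ρ * sin α := by rw [hp, hd, im_polar]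
  have hr : ¬ N.rad (N.cv w) := fun h => by
    have := N.rad_im w h
    linarith
  set e : N.E := ⟨N.cv w, hr⟩
  rcases N.ends e w rfl with h | h
  · have h2 := N.st_pt e
    rw [← h, hp] at h2
    obtain ⟨h3, h4⟩ := polar_inj hρ (N.A e).ra_pos h2
    obtain ⟨k, hk⟩ := exists_int_of_ei_eq h4.symm
    refine ⟨(e, k), h.symm, hk, by rw [arc_ra, h3], ?_⟩
    rw [arc_φa]
    have h5 := N.st_dir e
    rw [← h, hd, ei_add, ei_add, h4] at h5
    exact (eq_of_ei_eq h0 h1 (N.A e).φa_pos (N.A e).φa_lt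
      (mul_left_cancel₀ (ei_ne_zero _) h5)).symm
  · exfalso
    have h2 : ((starRingEnd ℂ) (N.pt w) * N.dir w).im = -((N.A e).rb * sin (N.A e).φb) := by
      rw [h, N.tm_pt, N.tm_dir, mul_neg, Complex.neg_im, im_polar]
    have h3 := mul_pos (N.A e).rb_pos (sin_pos_of_pos_of_lt_pi (N.A e).φb_pos (N.A e).φb_lt)
    linarith

theorem clsT {w : W} {ρ β α : ℝ} (hρ : 0 < ρ) (h0 : 0 < α) (h1 : α < π)
    (hp : N.pt w = ρ * ei β) (hd : N.dir w = -ei (β + α)) :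
    ∃ x : N.E × ℤ, N.tm x.1 = w ∧ (N.arc x).b = β ∧ (N.arc x).rb = ρ ∧ (N.arc x).φb = α := by
  have hs : 0 < ρ * sin α := mul_pos hρ (sin_pos_of_pos_of_lt_pi h0 h1)
  have him : ((starRingEnd ℂ) (N.pt w) * N.dir w).im = -(ρ * sin α) := by
    rw [hp, hd, mul_neg, Complex.neg_im, im_polar]
  have hr : ¬ N.rad (N.cv w) := fun h => by
    have := N.rad_im w h
    linarith
  set e : N.E := ⟨N.cv w, hr⟩
  rcases N.ends e w rfl with h | h
  · exfalso
    have h2 : ((starRingEnd ℂ) (N.pt w) * N.dir w).im = (N.A e).ra * sin (N.A e).φa := by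
      rw [h, N.st_pt, N.st_dir, im_polar]
    have h3 := mul_pos (N.A e).ra_pos (sin_pos_of_pos_of_lt_pi (N.A e).φa_pos (N.A e).φa_lt)
    linarith
  · have h2 := N.tm_pt e
    rw [← h, hp] at h2
    obtain ⟨h3, h4⟩ := polar_inj hρ (N.A e).rb_pos h2
    obtain ⟨k, hk⟩ := exists_int_of_ei_eq h4.symm
    refine ⟨(e, k), h.symm, hk, by rw [arc_rb, h3], ?_⟩
    rw [arc_φb]
    have h5 := N.tm_dir e
    rw [← h, hd, neg_inj, ei_add, ei_add, h4] at h5
    exact (eq_of_ei_eq h0 h1 (N.A e).φb_pos (N.A e).φb_lt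
      (mul_left_cancel₀ (ei_ne_zero _) h5)).symm

theorem clsR {w : W} (h : ((starRingEnd ℂ) (N.pt w) * N.dir w).im = 0) : N.rad (N.cv w) := by
  by_contra hr
  set e : N.E := ⟨N.cv w, hr⟩
  rcases N.ends e w rfl with h1 | h1
  · rw [h1, N.st_pt, N.st_dir, im_polar] at h
    exact (mul_pos (N.A e).ra_pos (sin_pos_of_pos_of_lt_pi (N.A e).φa_pos (N.A e).φa_lt)).ne' h
  · rw [h1, N.tm_pt, N.tm_dir, mul_neg, Complex.neg_im, im_polar, neg_eq_zero] at h
    exact (mul_pos (N.A e).rb_pos (sin_pos_of_pos_of_lt_pi (N.A e).φb_pos (N.A e).φb_lt)).ne' h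

theorem clsR_out {w : W} {ρ β : ℝ} (hp : N.pt w = ρ * ei β) (hd : N.dir w = ei β) :
    N.rad (N.cv w) := by
  apply N.clsR
  have := im_polar ρ β 0
  rw [add_zero, sin_zero, mul_zero] at this
  rw [hp, hd, this]

theorem clsR_in {w : W} {ρ β : ℝ} (hp : N.pt w = ρ * ei β) (hd : N.dir w = -ei β) :
    N.rad (N.cv w) := by
  apply N.clsR
  have := im_polar ρ β 0
  rw [add_zero, sin_zero, mul_zero] at this
  rw [hp, hd, mul_neg, Complex.neg_im, this, neg_zero]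

theorem ext_tm {x y : N.E × ℤ} (h : N.tm x.1 = N.tm y.1) (hb : (N.arc x).b = (N.arc y).b) :
    x = y := by
  have h1 : x.1 = y.1 := Subtype.ext (by rw [← N.tm_cv, h, N.tm_cv])
  refine Prod.ext h1 ?_
  rw [arc_b, arc_b, h1] at hb
  have h2 : (x.2 : ℝ) = y.2 := by
    have := pi_pos
    have h3 : 2 * π * (x.2 : ℝ) = 2 * π * y.2 := by linarith only [hb]
    exact mul_left_cancel₀ (by positivity) h3
  exact_mod_cast h2

theorem ext_st {x y : N.E × ℤ} (h : N.st x.1 = N.st y.1) (hb : (N.arc x).a = (N.arc y).a) :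
    x = y := by
  have h1 : x.1 = y.1 := Subtype.ext (by rw [← N.st_cv, h, N.st_cv])
  refine Prod.ext h1 ?_
  rw [arc_a, arc_a, h1] at hb
  have h2 : (x.2 : ℝ) = y.2 := by
    have := pi_pos
    have h3 : 2 * π * (x.2 : ℝ) = 2 * π * y.2 := by linarith only [hb]
    exact mul_left_cancel₀ (by positivity) h3
  exact_mod_cast h2

theorem fin [Finite ι] (s t : ℝ) : {x | (N.arc x).a ≤ t ∧ s ≤ (N.arc x).b}.Finite := by
  have hp := pi_pos
  have h : {x | (N.arc x).a ≤ t ∧ s ≤ (N.arc x).b} ⊆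
      ⋃ e : N.E, (fun k : ℤ => (e, k)) ''
        Icc ⌈(s - (N.A e).b) / (2 * π)⌉ ⌊(t - (N.A e).a) / (2 * π)⌋ := by
    rintro ⟨e, k⟩ ⟨h1, h2⟩
    rw [arc_a] at h1
    rw [arc_b] at h2
    refine mem_iUnion.2 ⟨e, k, ⟨?_, ?_⟩, rfl⟩
    · rw [Int.ceil_le, div_le_iff₀ (by positivity)]
      simp only at h2
      linarith
    · rw [Int.le_floor, le_div_iff₀ (by positivity)]
      simp only at h1
      linarith
  exact (finite_iUnion fun e => (finite_Icc _ _).image _).subset h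

theorem emb' (x y : N.E × ℤ) (hne : x ≠ y) (θ : ℝ) (h1 : (N.arc x).a < θ) (h2 : θ < (N.arc x).b)
    (h3 : (N.arc y).a ≤ θ) (h4 : θ ≤ (N.arc y).b) : (N.arc x).r θ ≠ (N.arc y).r θ := by
  intro h
  rw [arc_a] at h1 h3
  rw [arc_b] at h2 h4
  rw [arc_r, arc_r] at h
  obtain ⟨h5, h6⟩ := N.arcE x.1 y.1 (θ - 2 * π * x.2) (θ - 2 * π * y.2) ⟨by linarith, by linarith⟩
    ⟨by linarith, by linarith⟩ (by rw [ei_sub_int, ei_sub_int, h])
  apply hne
  refine Prod.ext h5 ?_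
  have h7 : (x.2 : ℝ) = y.2 := by
    have := pi_pos
    have h3 : 2 * π * (x.2 : ℝ) = 2 * π * y.2 := by linarith only [h6]
    exact mul_left_cancel₀ (by positivity) h3
  exact_mod_cast h7

theorem ee (x y : N.E × ℤ) (hb : (N.arc x).b = (N.arc y).b) (hr : (N.arc x).rb = (N.arc y).rb) :
    x = y ∨ (N.arc y).φb = (N.arc x).φb + 2 * π / 3 ∨ (N.arc x).φb = (N.arc y).φb + 2 * π / 3 := by
  by_cases h : N.tm x.1 = N.tm y.1
  · exact Or.inl (N.ext_tm h hb)
  right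
  have h1 := N.ang _ _ (by rw [tmP, tmP, hb, hr]) h
  rw [tmD, tmD, map_neg, neg_mul_neg, conj_ei_mul, ei_re, hb, add_sub_add_left_eq_sub] at h1
  have := (N.arc x).φb_pos
  have := (N.arc x).φb_lt
  have := (N.arc y).φb_pos
  have := (N.arc y).φb_lt
  rcases cos_eq_neg_half (by linarith) (by linarith) h1 with h2 | h2
  · left; linarith only [h2]
  · right; linarith only [h2]

theorem ss (x y : N.E × ℤ) (hb : (N.arc x).a = (N.arc y).a) (hr : (N.arc x).ra = (N.arc y).ra) :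
    x = y ∨ (N.arc y).φa = (N.arc x).φa + 2 * π / 3 ∨ (N.arc x).φa = (N.arc y).φa + 2 * π / 3 := by
  by_cases h : N.st x.1 = N.st y.1
  · exact Or.inl (N.ext_st h hb)
  right
  have h1 := N.ang _ _ (by rw [stP, stP, hb, hr]) h
  rw [stD, stD, conj_ei_mul, ei_re, hb, add_sub_add_left_eq_sub] at h1
  have := (N.arc x).φa_pos
  have := (N.arc x).φa_lt
  have := (N.arc y).φa_pos
  have := (N.arc y).φa_lt
  rcases cos_eq_neg_half (by linarith) (by linarith) h1 with h2 | h2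
  · left; linarith only [h2]
  · right; linarith only [h2]

theorem es (x y : N.E × ℤ) (hb : (N.arc x).b = (N.arc y).a) (hr : (N.arc x).rb = (N.arc y).ra) :
    (N.arc y).φa = (N.arc x).φb + π / 3 ∨ (N.arc y).φa = (N.arc x).φb - π / 3 := by
  have hx0 := (N.arc x).φb_pos
  have hx1 := (N.arc x).φb_lt
  have hy0 := (N.arc y).φa_pos
  have hy1 := (N.arc y).φa_lt
  have hne : N.tm x.1 ≠ N.st y.1 := fun h => by
    have h1 := N.tmD x
    rw [h, stD, ← hb, ei_add, ei_add, ← mul_neg] at h1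
    have h2 := congrArg Complex.im (mul_left_cancel₀ (ei_ne_zero _) h1)
    rw [Complex.neg_im, ei_im, ei_im] at h2
    have := sin_pos_of_pos_of_lt_pi hx0 hx1
    have := sin_pos_of_pos_of_lt_pi hy0 hy1
    linarith
  have h1 := N.ang _ _ (by rw [tmP, stP, hb, hr]) hne
  rw [tmD, stD, map_neg, neg_mul, Complex.neg_re, conj_ei_mul, ei_re, hb,
    add_sub_add_left_eq_sub] at h1
  rcases cos_eq_half (d := (N.arc y).φa - (N.arc x).φb) (by linarith only [hx1, hy0]) (by linarith)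
    (by linarith only [h1]) with h2 | h2
  · left; linarith only [h2]
  · right; linarith only [h2]

theorem exL (x : N.E × ℤ) (h : (N.arc x).φb < 2 * π / 3) : ∃ y, TL (N.arc x) (N.arc y) := by
  obtain ⟨w, h1, h2⟩ := N.rot2 (N.tm x.1)
  have hp := pi_pos
  have hx0 := (N.arc x).φb_pos
  obtain ⟨y, -, h3, h4, h5⟩ := N.clsS (w := w) (β := (N.arc x).b) (α := (N.arc x).φb + π / 3)
    (N.arc x).rb_pos (by linarith only [h, hx0]) (by linarith only [h]) (by rw [h1, tmP]) (by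
      rw [h2, tmD, ← ei_add_pi, ← ei_add, ← ei_add_two_pi ((N.arc x).b + _)]
      congr 1
      ring)
  exact ⟨y, h3.symm, h4.symm, h5⟩

theorem exR (x : N.E × ℤ) (h : π / 3 < (N.arc x).φb) : ∃ y, TR (N.arc x) (N.arc y) := by
  obtain ⟨w, h1, h2⟩ := N.rot (N.tm x.1)
  have hp := pi_pos
  have hx0 := (N.arc x).φb_lt
  obtain ⟨y, -, h3, h4, h5⟩ := N.clsS (w := w) (β := (N.arc x).b) (α := (N.arc x).φb - π / 3)
    (N.arc x).rb_pos (by linarith only [h]) (by linarith only [h, hx0]) (by rw [h1, tmP]) (by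
      rw [h2, tmD, ← ei_add_pi, ← ei_add, ← ei_add_two_pi ((N.arc x).b + _)]
      congr 1
      ring)
  exact ⟨y, h3.symm, h4.symm, h5⟩

theorem exL' (y : N.E × ℤ) (h : π / 3 < (N.arc y).φa) : ∃ x, TL (N.arc x) (N.arc y) := by
  obtain ⟨w, h1, h2⟩ := N.rot (N.st y.1)
  have hp := pi_pos
  have hx0 := (N.arc y).φa_lt
  obtain ⟨x, -, h3, h4, h5⟩ := N.clsT (w := w) (β := (N.arc y).a) (α := (N.arc y).φa - π / 3)
    (N.arc y).ra_pos (by linarith only [h]) (by linarith only [h, hx0]) (by rw [h1, stP]) (by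
      rw [h2, stD, ← ei_add_pi, ← ei_add]
      congr 1
      ring)
  exact ⟨x, h3, h4, by rw [h5]; ring⟩

theorem exR' (y : N.E × ℤ) (h : (N.arc y).φa < 2 * π / 3) : ∃ x, TR (N.arc x) (N.arc y) := by
  obtain ⟨w, h1, h2⟩ := N.rot2 (N.st y.1)
  have hp := pi_pos
  have hx0 := (N.arc y).φa_pos
  obtain ⟨x, -, h3, h4, h5⟩ := N.clsT (w := w) (β := (N.arc y).a) (α := (N.arc y).φa + π / 3)
    (N.arc y).ra_pos (by linarith only [h, hx0]) (by linarith only [h]) (by rw [h1, stP]) (by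
      rw [h2, stD, ← ei_add_pi, ← ei_add]
      congr 1
      ring)
  exact ⟨x, h3, h4, by rw [h5]; ring⟩

end Net

end Pool.Agent.Work.MP_dd6b33_gt
end

-- merged part: Pool.Agent.Work.MP_dd6b33_gt.ArcBasic
section
/-!
Elementary facts on arcs.
-/

namespace Pool.Agent.Work.MP_dd6b33_gt

open Set Real

theorem le_of_deriv {f f' : ℝ → ℝ} {x y : ℝ} (hxy : x ≤ y) (hc : ContinuousOn f (Icc x y))
    (hd : ∀ t ∈ Ioo x y, HasDerivAt f (f' t) t) (h : ∀ t ∈ Ioo x y, 0 ≤ f' t) : f x ≤ f y := by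
  rcases hxy.eq_or_lt with rfl | hlt
  · exact le_rfl
  obtain ⟨ξ, hξ, he⟩ := exists_hasDerivAt_eq_slope f f' hlt hc hd
  have h1 := h ξ hξ
  rw [he, le_div_iff₀ (by linarith)] at h1
  linarith

theorem lt_of_deriv {f f' : ℝ → ℝ} {x y : ℝ} (hxy : x < y) (hc : ContinuousOn f (Icc x y))
    (hd : ∀ t ∈ Ioo x y, HasDerivAt f (f' t) t) (h : ∀ t ∈ Ioo x y, 0 < f' t) : f x < f y := by
  obtain ⟨ξ, hξ, he⟩ := exists_hasDerivAt_eq_slope f f' hxy hc hd
  have h1 := h ξ hξ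
  rw [he, lt_div_iff₀ (by linarith)] at h1
  linarith

theorem first_ge {f : ℝ → ℝ} {x y k : ℝ} (hxy : x ≤ y) (hc : ContinuousOn f (Icc x y))
    (hx : f x ≤ k) (hy : k ≤ f y) :
    ∃ t, x ≤ t ∧ t ≤ y ∧ f t = k ∧ ∀ s, x ≤ s → s < t → f s < k := by
  have hcl : IsClosed (Icc x y ∩ f ⁻¹' Ici k) :=
    hc.preimage_isClosed_of_isClosed isClosed_Icc isClosed_Ici
  have hcp : IsCompact (Icc x y ∩ f ⁻¹' Ici k) :=
    isCompact_Icc.of_isClosed_subset hcl inter_subset_left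
  obtain ⟨t, ⟨ht, htk⟩, hle⟩ := hcp.exists_isLeast ⟨y, ⟨hxy, le_rfl⟩, hy⟩
  have hlt : ∀ s, x ≤ s → s < t → f s < k := by
    intro s hs hst
    by_contra hcon
    have := hle ⟨⟨hs, hst.le.trans ht.2⟩, not_lt.mp hcon⟩
    linarith
  obtain ⟨s, hs, hsk⟩ := intermediate_value_Icc ht.1
    (hc.mono (Icc_subset_Icc le_rfl ht.2)) ⟨hx, htk⟩
  rcases hs.2.eq_or_lt with h | h
  · exact ⟨t, ht.1, ht.2, h ▸ hsk, hlt⟩
  · exact absurd hsk (hlt s hs.1 h).ne

theorem last_ge {f : ℝ → ℝ} {x y k : ℝ} (hxy : x ≤ y) (hc : ContinuousOn f (Icc x y))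
    (hx : k ≤ f x) (hy : f y ≤ k) :
    ∃ t, x ≤ t ∧ t ≤ y ∧ f t = k ∧ ∀ s, t < s → s ≤ y → f s < k := by
  have hc' : ContinuousOn (fun s => f (-s)) (Icc (-y) (-x)) :=
    hc.comp (by fun_prop) (fun t ht => ⟨by linarith [ht.2], by linarith [ht.1]⟩)
  obtain ⟨t, h1, h2, h3, h4⟩ := first_ge (f := fun s => f (-s)) (k := k) (by linarith) hc'
    (by simpa using hy) (by simpa using hx)
  refine ⟨-t, by linarith, by linarith, h3, fun s hs1 hs2 => ?_⟩
  simpa using h4 (-s) (by linarith) (by linarith)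

theorem first_le {f : ℝ → ℝ} {x y k : ℝ} (hxy : x ≤ y) (hc : ContinuousOn f (Icc x y))
    (hx : k ≤ f x) (hy : f y ≤ k) :
    ∃ t, x ≤ t ∧ t ≤ y ∧ f t = k ∧ ∀ s, x ≤ s → s < t → k < f s := by
  obtain ⟨t, h1, h2, h3, h4⟩ := first_ge (f := fun s => -f s) (k := -k) hxy hc.neg
    (by linarith) (by linarith)
  exact ⟨t, h1, h2, by linarith, fun s hs1 hs2 => by linarith [h4 s hs1 hs2]⟩

theorem last_le {f : ℝ → ℝ} {x y k : ℝ} (hxy : x ≤ y) (hc : ContinuousOn f (Icc x y))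
    (hx : f x ≤ k) (hy : k ≤ f y) :
    ∃ t, x ≤ t ∧ t ≤ y ∧ f t = k ∧ ∀ s, t < s → s ≤ y → k < f s := by
  obtain ⟨t, h1, h2, h3, h4⟩ := last_ge (f := fun s => -f s) (k := -k) hxy hc.neg
    (by linarith) (by linarith)
  exact ⟨t, h1, h2, by linarith, fun s hs1 hs2 => by linarith [h4 s hs1 hs2]⟩

/-! ### the function ψ -/

theorem ψ_pos {r : ℝ} (h : 0 < r) : 0 < ψ r := mul_pos h (exp_pos _)

theorem ψ_deriv (r : ℝ) : HasDerivAt ψ ((1 - r ^ 2) * exp (-(r ^ 2) / 2)) r := by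
  have h1 : HasDerivAt (fun s : ℝ => -(s ^ 2) / 2) (-r) r := by
    have := ((hasDerivAt_pow 2 r).neg).div_const 2
    refine this.congr_deriv ?_
    simp; ring
  have h2 := (hasDerivAt_id r).mul h1.exp
  refine h2.congr_deriv ?_
  simp; ring

theorem ψ_cont : Continuous ψ := by unfold ψ; fun_prop

theorem ψ_lt_in {x y : ℝ} (hx : 0 ≤ x) (hxy : x < y) (hy : y ≤ 1) : ψ x < ψ y :=
  lt_of_deriv hxy ψ_cont.continuousOn (fun t _ => ψ_deriv t) (fun t ht =>
    mul_pos (by linarith only [hy, hx, ht, hxy, ht.1, ht.2, mul_nonneg_of_nonpos_of_nonpos (Mathlib.Tactic.Linarith.sub_nonpos_of_le hx) (Mathlib.Tactic.Linarith.sub_nonpos_of_le hy), mul_nonneg_of_nonpos_of_nonpos (Mathlib.Tactic.Linarith.sub_nonpos_of_le hx) (le_of_lt (Mathlib.Tactic.Linarith.sub_neg_of_lt ht.right)), mul_nonneg_of_nonpos_of_nonpos (le_of_lt (Mathlib.Tactic.Linarith.sub_neg_of_lt hxy)) (Mathlib.Tactic.Linarith.sub_nonpos_of_le hy), mul_pos_of_neg_of_neg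 (Mathlib.Tactic.Linarith.sub_neg_of_lt hxy) (Mathlib.Tactic.Linarith.sub_neg_of_lt ht.right), mul_pos_of_neg_of_neg (Mathlib.Tactic.Linarith.sub_neg_of_lt ht.left) (Mathlib.Tactic.Linarith.sub_neg_of_lt ht.right)]) (exp_pos _))

theorem ψ_le_in {x y : ℝ} (hx : 0 ≤ x) (hxy : x ≤ y) (hy : y ≤ 1) : ψ x ≤ ψ y := by
  rcases hxy.eq_or_lt with rfl | h
  · exact le_rfl
  · exact (ψ_lt_in hx h hy).le

theorem ψ_lt_out {x y : ℝ} (hx : 1 ≤ x) (hxy : x < y) : ψ y < ψ x := by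
  have := lt_of_deriv (f := fun s => -ψ s) hxy ψ_cont.neg.continuousOn
    (fun t _ => (ψ_deriv t).neg) (fun t ht => by
      have : 0 < (t ^ 2 - 1) * exp (-(t ^ 2) / 2) :=
        mul_pos (by linarith only [hx, ht, ht.1, ht.2, mul_nonneg_of_nonpos_of_nonpos (Mathlib.Tactic.Linarith.sub_nonpos_of_le hx) (Mathlib.Tactic.Linarith.sub_nonpos_of_le hx), mul_nonneg_of_nonpos_of_nonpos (Mathlib.Tactic.Linarith.sub_nonpos_of_le hx) (le_of_lt (Mathlib.Tactic.Linarith.sub_neg_of_lt ht.left)), mul_pos_of_neg_of_neg (Mathlib.Tactic.Linarith.sub_neg_of_lt ht.left) (Mathlib.Tactic.Linarith.sub_neg_of_lt ht.left)]) (exp_pos _)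
      linarith only [this])
  linarith

theorem ψ_le_out {x y : ℝ} (hx : 1 ≤ x) (hxy : x ≤ y) : ψ y ≤ ψ x := by
  rcases hxy.eq_or_lt with rfl | h
  · exact le_rfl
  · exact (ψ_lt_out hx h).le

theorem ψ_le_one {x : ℝ} (hx : 0 ≤ x) : ψ x ≤ ψ 1 := by
  rcases le_total x 1 with h | h
  · exact ψ_le_in hx h le_rfl
  · exact ψ_le_out le_rfl h

theorem ψ_one : ψ 1 = exp (-1 / 2) := by simp [ψ]

theorem ψ_one_pos : 0 < ψ 1 := ψ_pos one_pos

theorem ψ_le_self {x : ℝ} (hx : 0 ≤ x) : ψ x ≤ x := by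
  have : exp (-(x ^ 2) / 2) ≤ 1 := exp_le_one_iff.mpr (by linarith only [sq_nonneg x, sq_nonneg x])
  unfold ψ; nlinarith

namespace Arc

variable (x : Arc)

theorem sin_pos {t : ℝ} (ha : x.a ≤ t) (hb : t ≤ x.b) : 0 < sin (x.φ t) :=
  sin_pos_of_pos_of_lt_pi (x.φpos t ⟨ha, hb⟩) (x.φlt t ⟨ha, hb⟩)

theorem r_pos {t : ℝ} (ha : x.a ≤ t) (hb : t ≤ x.b) : 0 < x.r t := x.rpos t ⟨ha, hb⟩
theorem φ_pos {t : ℝ} (ha : x.a ≤ t) (hb : t ≤ x.b) : 0 < x.φ t := x.φpos t ⟨ha, hb⟩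
theorem φ_lt {t : ℝ} (ha : x.a ≤ t) (hb : t ≤ x.b) : x.φ t < π := x.φlt t ⟨ha, hb⟩

theorem rc' {s t : ℝ} (ha : x.a ≤ s) (hb : t ≤ x.b) : ContinuousOn x.r (Icc s t) :=
  x.rc.mono (Icc_subset_Icc ha hb)

theorem φc' {s t : ℝ} (ha : x.a ≤ s) (hb : t ≤ x.b) : ContinuousOn x.φ (Icc s t) :=
  x.φc.mono (Icc_subset_Icc ha hb)

theorem rd' {s t u : ℝ} (ha : x.a ≤ s) (hb : t ≤ x.b) (hu : u ∈ Ioo s t) :
    HasDerivAt x.r (x.r u * cos (x.φ u) / sin (x.φ u)) u :=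
  x.rd u ⟨by linarith [hu.1], by linarith [hu.2]⟩

theorem φd' {s t u : ℝ} (ha : x.a ≤ s) (hb : t ≤ x.b) (hu : u ∈ Ioo s t) :
    HasDerivAt x.φ (x.r u ^ 2 - 1) u :=
  x.φd u ⟨by linarith [hu.1], by linarith [hu.2]⟩

/-- the conserved angular momentum -/
noncomputable def c : ℝ := ψ x.ra * sin x.φa

theorem c_eq {t : ℝ} (ha : x.a ≤ t) (hb : t ≤ x.b) : ψ (x.r t) * sin (x.φ t) = x.c := by
  have hc : ContinuousOn (fun u => ψ (x.r u) * sin (x.φ u)) (Icc x.a t) :=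
    (ψ_cont.comp_continuousOn (x.rc' le_rfl hb)).mul
      (continuous_sin.comp_continuousOn (x.φc' le_rfl hb))
  have hd : ∀ u ∈ Ioo x.a t, HasDerivAt (fun u => ψ (x.r u) * sin (x.φ u)) 0 u := by
    intro u hu
    have h1 := ((ψ_deriv (x.r u)).comp u (x.rd' le_rfl hb hu)).mul (x.φd' le_rfl hb hu).sin
    refine h1.congr_deriv ?_
    have := (x.sin_pos hu.1.le (hu.2.le.trans hb)).ne'
    simp only [Function.comp, ψ]
    field_simp
    ring
  have h1 := le_of_deriv (f' := fun _ => 0) ha hc hd (fun _ _ => le_rfl)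
  have h2 := le_of_deriv (f := fun u => -(ψ (x.r u) * sin (x.φ u))) (f' := fun _ => 0) ha hc.neg
    (fun u hu => (hd u hu).fun_neg.congr_deriv (by simp)) (fun _ _ => le_rfl)
  unfold c ra φa
  linarith

theorem c_a : ψ x.ra * sin x.φa = x.c := rfl
theorem c_b : ψ x.rb * sin x.φb = x.c := x.c_eq x.hab.le le_rfl

theorem c_pos : 0 < x.c := mul_pos (ψ_pos x.ra_pos) (x.sin_pos le_rfl x.hab.le)

theorem c_le_ψ {t : ℝ} (ha : x.a ≤ t) (hb : t ≤ x.b) : x.c ≤ ψ (x.r t) := by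
  rw [← x.c_eq ha hb]
  have := ψ_pos (x.r_pos ha hb)
  linarith only [this, sin_le_one (x.φ t), mul_nonneg_of_nonpos_of_nonpos (le_of_lt (Mathlib.Tactic.Linarith.sub_neg_of_lt this)) (Mathlib.Tactic.Linarith.sub_nonpos_of_le (sin_le_one (x.φ t)))]

/-- `p = r sin φ = c e^{r²/2}` -/
theorem p_eq {t : ℝ} (ha : x.a ≤ t) (hb : t ≤ x.b) :
    x.r t * sin (x.φ t) = x.c * exp (x.r t ^ 2 / 2) := by
  rw [← x.c_eq ha hb, ψ]
  have : exp (-(x.r t ^ 2) / 2) * exp (x.r t ^ 2 / 2) = 1 := by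
    rw [← exp_add]; simp [neg_div]
  linear_combination (-(x.r t * sin (x.φ t))) * this

theorem r_mono {s t : ℝ} (ha : x.a ≤ s) (hst : s ≤ t) (hb : t ≤ x.b)
    (h : ∀ u, s < u → u < t → x.φ u ≤ π / 2) : x.r s ≤ x.r t :=
  le_of_deriv hst (x.rc' ha hb) (fun _ hu => x.rd' ha hb hu) (fun u hu => by
    have h1 := x.r_pos (ha.trans hu.1.le) (hu.2.le.trans hb)
    have h2 := x.sin_pos (ha.trans hu.1.le) (hu.2.le.trans hb)
    have h3 := x.φ_pos (ha.trans hu.1.le) (hu.2.le.trans hb)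
    have h4 : 0 ≤ cos (x.φ u) :=
      cos_nonneg_of_neg_pi_div_two_le_of_le (by linarith only [h3, pi_pos]) (h u hu.1 hu.2)
    positivity)

theorem r_anti {s t : ℝ} (ha : x.a ≤ s) (hst : s ≤ t) (hb : t ≤ x.b)
    (h : ∀ u, s < u → u < t → π / 2 ≤ x.φ u) : x.r t ≤ x.r s := by
  have := le_of_deriv (f := fun u => -x.r u) hst (x.rc' ha hb).neg
    (fun _ hu => (x.rd' ha hb hu).neg) (fun u hu => by
    have h1 := x.r_pos (ha.trans hu.1.le) (hu.2.le.trans hb)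
    have h2 := x.sin_pos (ha.trans hu.1.le) (hu.2.le.trans hb)
    have h3 := x.φ_lt (ha.trans hu.1.le) (hu.2.le.trans hb)
    have h4 : cos (x.φ u) ≤ 0 :=
      cos_nonpos_of_pi_div_two_le_of_le (h u hu.1 hu.2) (by linarith only [h3, pi_pos])
    have : x.r u * cos (x.φ u) / sin (x.φ u) ≤ 0 :=
      div_nonpos_of_nonpos_of_nonneg (mul_nonpos_of_nonneg_of_nonpos h1.le h4) h2.le
    linarith only [this])
  linarith

/-- rate bound: if `r² - 1 ≤ v` then `φ` grows at most at rate `v` -/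
theorem φ_rate_le {s t v : ℝ} (ha : x.a ≤ s) (hst : s ≤ t) (hb : t ≤ x.b)
    (h : ∀ u, s < u → u < t → x.r u ^ 2 - 1 ≤ v) : x.φ t - x.φ s ≤ v * (t - s) := by
  have := le_of_deriv (f := fun u => v * u - x.φ u) (f' := fun u => v - (x.r u ^ 2 - 1)) hst
    (by have := x.φc' ha hb; fun_prop)
    (fun u hu => (((hasDerivAt_id' u).const_mul v).fun_sub (x.φd' ha hb hu)).congr_deriv (by ring))
    (fun u hu => by linarith [h u hu.1 hu.2])
  linarith

theorem φ_rate_ge {s t v : ℝ} (ha : x.a ≤ s) (hst : s ≤ t) (hb : t ≤ x.b)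
    (h : ∀ u, s < u → u < t → v ≤ x.r u ^ 2 - 1) : v * (t - s) ≤ x.φ t - x.φ s := by
  have := le_of_deriv (f := fun u => x.φ u - v * u) (f' := fun u => (x.r u ^ 2 - 1) - v) hst
    (by have := x.φc' ha hb; fun_prop)
    (fun u hu => ((x.φd' ha hb hu).fun_sub ((hasDerivAt_id' u).const_mul v)).congr_deriv (by ring))
    (fun u hu => by linarith [h u hu.1 hu.2])
  linarith

theorem φ_anti {s t : ℝ} (ha : x.a ≤ s) (hst : s ≤ t) (hb : t ≤ x.b)
    (h : ∀ u, s < u → u < t → x.r u ≤ 1) : x.φ t ≤ x.φ s := by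
  have := x.φ_rate_le (v := 0) ha hst hb (fun u h1 h2 => by
    have := x.r_pos (ha.trans h1.le) (h2.le.trans hb)
    linarith only [h, h1, h2, this, h u h1 h2, mul_nonneg_of_nonpos_of_nonpos (le_of_lt (Mathlib.Tactic.Linarith.sub_neg_of_lt this)) (Mathlib.Tactic.Linarith.sub_nonpos_of_le (h u h1 h2))])
  linarith

theorem φ_mono {s t : ℝ} (ha : x.a ≤ s) (hst : s ≤ t) (hb : t ≤ x.b)
    (h : ∀ u, s < u → u < t → 1 ≤ x.r u) : x.φ s ≤ x.φ t := by
  have := x.φ_rate_ge (v := 0) ha hst hb (fun u h1 h2 => by linarith only [h, h1, h2, h u h1 h2, mul_nonneg_of_nonpos_of_nonpos (Mathlib.Tactic.Linarith.sub_nonpos_of_le (h u h1 h2)) (Mathlib.Tactic.Linarith.sub_nonpos_of_le (h u h1 h2))])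
  linarith

theorem φ_anti_lt {s t : ℝ} (ha : x.a ≤ s) (hst : s < t) (hb : t ≤ x.b)
    (h : ∀ u, s < u → u < t → x.r u < 1) : x.φ t < x.φ s := by
  have := lt_of_deriv (f := fun u => -x.φ u) hst (x.φc' ha hb).neg
    (fun _ hu => (x.φd' ha hb hu).neg) (fun u hu => by
      have := x.r_pos (ha.trans hu.1.le) (hu.2.le.trans hb)
      linarith only [h, hu, this, h u hu.1 hu.2, mul_pos_of_neg_of_neg (Mathlib.Tactic.Linarith.sub_neg_of_lt this) (Mathlib.Tactic.Linarith.sub_neg_of_lt (h u hu.left hu.right))])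
  linarith

/-- (N0) the tangent angle `θ + φ` is strictly increasing -/
theorem N0 {s t : ℝ} (ha : x.a ≤ s) (hst : s < t) (hb : t ≤ x.b) : x.φ s - x.φ t < t - s := by
  have := lt_of_deriv (f := fun u => u + x.φ u) (f' := fun u => x.r u ^ 2) hst
    (by have := x.φc' ha hb; fun_prop)
    (fun u hu => ((hasDerivAt_id' u).fun_add (x.φd' ha hb hu)).congr_deriv (by ring))
    (fun u hu => pow_pos (x.r_pos (ha.trans hu.1.le) (hu.2.le.trans hb)) 2)
  linarith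

theorem N0' {s t : ℝ} (ha : x.a ≤ s) (hst : s ≤ t) (hb : t ≤ x.b) : x.φ s - x.φ t ≤ t - s := by
  rcases hst.eq_or_lt with rfl | h
  · simp
  · exact (x.N0 ha h hb).le

/-- crossing 90 degrees downwards happens inside the unit disc -/
theorem ex_min {s t : ℝ} (ha : x.a ≤ s) (hst : s ≤ t) (hb : t ≤ x.b)
    (hs : π / 2 ≤ x.φ s) (ht : x.φ t < π / 2) :
    ∃ u, s ≤ u ∧ u < t ∧ x.φ u = π / 2 ∧ x.r u < 1 := by
  obtain ⟨u, h1, h2, h3, h4⟩ := last_ge hst (x.φc' ha hb) hs ht.le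
  have hut : u < t := lt_of_le_of_ne h2 (by rintro rfl; linarith only [h3, ht])
  refine ⟨u, h1, hut, h3, ?_⟩
  by_contra hcon
  have h5 : x.φ u ≤ x.φ t := x.φ_mono (ha.trans h1) h2 hb (fun w hw1 hw2 =>
    (not_lt.mp hcon).trans (x.r_mono (ha.trans h1) hw1.le (hw2.le.trans hb)
      (fun z hz1 hz2 => (h4 z hz1 (by linarith only [hw2, hz2])).le)))
  linarith only [ht, h3, h5]

theorem ex_min' {s t : ℝ} (ha : x.a ≤ s) (hst : s ≤ t) (hb : t ≤ x.b)
    (hs : π / 2 < x.φ s) (ht : x.φ t ≤ π / 2) :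
    ∃ u, s < u ∧ u ≤ t ∧ x.φ u = π / 2 ∧ x.r u < 1 ∧ ∀ w, s ≤ w → w < u → π / 2 < x.φ w := by
  obtain ⟨u, h1, h2, h3, h4⟩ := first_le hst (x.φc' ha hb) hs.le ht
  have hut : s < u := lt_of_le_of_ne h1 (by rintro rfl; linarith only [hs, h3])
  refine ⟨u, hut, h2, h3, ?_, h4⟩
  by_contra hcon
  have h5 : x.φ s ≤ x.φ u := x.φ_mono ha h1 (h2.trans hb) (fun w hw1 hw2 =>
    (not_lt.mp hcon).trans (x.r_anti (ha.trans hw1.le) hw2.le (h2.trans hb)
      (fun z hz1 hz2 => (h4 z (by linarith only [hw1, hz1]) hz2).le)))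
  linarith only [hs, h3, h5]

/-- crossing 90 degrees upwards happens outside the unit disc -/
theorem ex_max {s t : ℝ} (ha : x.a ≤ s) (hst : s ≤ t) (hb : t ≤ x.b)
    (hs : x.φ s ≤ π / 2) (ht : π / 2 < x.φ t) :
    ∃ u, s ≤ u ∧ u < t ∧ x.φ u = π / 2 ∧ 1 < x.r u := by
  obtain ⟨u, h1, h2, h3, h4⟩ := last_le hst (x.φc' ha hb) hs ht.le
  have hut : u < t := lt_of_le_of_ne h2 (by rintro rfl; linarith only [h3, ht])
  refine ⟨u, h1, hut, h3, ?_⟩
  by_contra hcon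
  have h5 : x.φ t ≤ x.φ u := x.φ_anti (ha.trans h1) h2 hb (fun w hw1 hw2 =>
    (x.r_anti (ha.trans h1) hw1.le (hw2.le.trans hb)
      (fun z hz1 hz2 => (h4 z hz1 (by linarith only [hw2, hz2])).le)).trans (not_lt.mp hcon))
  linarith only [ht, h3, h5]

theorem ex_max' {s t : ℝ} (ha : x.a ≤ s) (hst : s ≤ t) (hb : t ≤ x.b)
    (hs : x.φ s < π / 2) (ht : π / 2 ≤ x.φ t) :
    ∃ u, s < u ∧ u ≤ t ∧ x.φ u = π / 2 ∧ 1 < x.r u ∧ ∀ w, s ≤ w → w < u → x.φ w < π / 2 := by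
  obtain ⟨u, h1, h2, h3, h4⟩ := first_ge hst (x.φc' ha hb) hs.le ht
  have hut : s < u := lt_of_le_of_ne h1 (by rintro rfl; linarith only [hs, h3])
  refine ⟨u, hut, h2, h3, ?_, h4⟩
  by_contra hcon
  have h5 : x.φ u ≤ x.φ s := x.φ_anti ha h1 (h2.trans hb) (fun w hw1 hw2 =>
    (x.r_mono (ha.trans hw1.le) hw2.le (h2.trans hb)
      (fun z hz1 hz2 => (h4 z (by linarith only [hw1, hz1]) hz2).le)).trans (not_lt.mp hcon))
  linarith only [hs, h3, h5]

theorem ex_lt_of_r_lt {s t : ℝ} (ha : x.a ≤ s) (hst : s ≤ t) (hb : t ≤ x.b)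
    (h : x.r s < x.r t) : ∃ u, s < u ∧ u < t ∧ x.φ u < π / 2 := by
  by_contra hcon
  push Not at hcon
  linarith [x.r_anti ha hst hb hcon]

theorem ex_gt_of_r_gt {s t : ℝ} (ha : x.a ≤ s) (hst : s ≤ t) (hb : t ≤ x.b)
    (h : x.r t < x.r s) : ∃ u, s < u ∧ u < t ∧ π / 2 < x.φ u := by
  by_contra hcon
  push Not at hcon
  linarith [x.r_mono ha hst hb hcon]

/-- up and down again: a radial maximum in between -/
theorem ex_max_r {s u t : ℝ} (ha : x.a ≤ s) (hsu : s ≤ u) (hut : u ≤ t) (hb : t ≤ x.b)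
    (h1 : x.r s < x.r u) (h2 : x.r t < x.r u) :
    ∃ w, s < w ∧ w < t ∧ x.φ w = π / 2 ∧ 1 < x.r w := by
  obtain ⟨w1, a1, a2, a3⟩ := x.ex_lt_of_r_lt ha hsu (hut.trans hb) h1
  obtain ⟨w2, b1, b2, b3⟩ := x.ex_gt_of_r_gt (ha.trans hsu) hut hb h2
  obtain ⟨w, c1, c2, c3, c4⟩ := x.ex_max (ha.trans a1.le) (by linarith only [a2, b1]) (b2.le.trans hb) a3.le b3
  exact ⟨w, by linarith only [a1, c1], by linarith only [b2, c2], c3, c4⟩

/-- down and up again: a radial minimum in between -/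
theorem ex_min_r {s u t : ℝ} (ha : x.a ≤ s) (hsu : s ≤ u) (hut : u ≤ t) (hb : t ≤ x.b)
    (h1 : x.r u < x.r s) (h2 : x.r u < x.r t) :
    ∃ w, s < w ∧ w < t ∧ x.φ w = π / 2 ∧ x.r w < 1 := by
  obtain ⟨w1, a1, a2, a3⟩ := x.ex_gt_of_r_gt ha hsu (hut.trans hb) h1
  obtain ⟨w2, b1, b2, b3⟩ := x.ex_lt_of_r_lt (ha.trans hsu) hut hb h2
  obtain ⟨w, c1, c2, c3, c4⟩ := x.ex_min (ha.trans a1.le) (by linarith only [a2, b1]) (b2.le.trans hb) a3.le b3
  exact ⟨w, by linarith only [a1, c1], by linarith only [b2, c2], c3, c4⟩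

theorem ex_out_of_φ_lt {s t : ℝ} (ha : x.a ≤ s) (hst : s ≤ t) (hb : t ≤ x.b)
    (h : x.φ s < x.φ t) : ∃ u, s < u ∧ u < t ∧ 1 < x.r u := by
  by_contra hcon
  push Not at hcon
  linarith [x.φ_anti ha hst hb hcon]

theorem ex_in_of_φ_gt {s t : ℝ} (ha : x.a ≤ s) (hst : s ≤ t) (hb : t ≤ x.b)
    (h : x.φ t < x.φ s) : ∃ u, s < u ∧ u < t ∧ x.r u < 1 := by
  by_contra hcon
  push Not at hcon
  linarith [x.φ_mono ha hst hb hcon]

/-- (L3) below a radial minimum the momentum is smaller -/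
theorem c_lt_of_min (y : Arc) {t : ℝ} (ha : x.a ≤ t) (hb : t ≤ x.b) (ha' : y.a ≤ t) (hb' : t ≤ y.b)
    (h : x.r t < y.r t) (h1 : y.φ t = π / 2) (h2 : y.r t < 1) : x.c < y.c := by
  have := y.c_eq ha' hb'
  rw [h1, sin_pi_div_two, mul_one] at this
  linarith only [this, ha, hb, h, h2, x.c_le_ψ ha hb, ψ_lt_in (x.r_pos ha hb).le h h2.le]

/-- (L3) above a radial maximum the momentum is smaller -/
theorem c_lt_of_max (y : Arc) {t : ℝ} (ha : x.a ≤ t) (hb : t ≤ x.b) (ha' : y.a ≤ t) (hb' : t ≤ y.b)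
    (h : x.r t < y.r t) (h1 : x.φ t = π / 2) (h2 : 1 < x.r t) : y.c < x.c := by
  have := x.c_eq ha hb
  rw [h1, sin_pi_div_two, mul_one] at this
  linarith only [this, ha', hb', h2, h, y.c_le_ψ ha' hb', ψ_lt_out h2.le h]

@[simp] theorem mirror_a : x.mirror.a = -x.b := rfl
@[simp] theorem mirror_b : x.mirror.b = -x.a := rfl
@[simp] theorem mirror_r (t : ℝ) : x.mirror.r t = x.r (-t) := rfl
@[simp] theorem mirror_φ (t : ℝ) : x.mirror.φ t = π - x.φ (-t) := rfl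
@[simp] theorem mirror_ra : x.mirror.ra = x.rb := by simp [ra, rb]
@[simp] theorem mirror_rb : x.mirror.rb = x.ra := by simp [ra, rb]
@[simp] theorem mirror_φa : x.mirror.φa = π - x.φb := by simp [φa, φb]
@[simp] theorem mirror_φb : x.mirror.φb = π - x.φa := by simp [φa, φb]
@[simp] theorem mirror_c : x.mirror.c = x.c := by
  rw [← x.c_b]; simp [c]

@[simp] theorem shift_a (d : ℝ) : (x.shift d).a = x.a + d := rfl
@[simp] theorem shift_b (d : ℝ) : (x.shift d).b = x.b + d := rfl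
@[simp] theorem shift_r (d t : ℝ) : (x.shift d).r t = x.r (t - d) := rfl
@[simp] theorem shift_φ (d t : ℝ) : (x.shift d).φ t = x.φ (t - d) := rfl
@[simp] theorem shift_ra (d : ℝ) : (x.shift d).ra = x.ra := by simp [ra]
@[simp] theorem shift_rb (d : ℝ) : (x.shift d).rb = x.rb := by simp [rb]
@[simp] theorem shift_φa (d : ℝ) : (x.shift d).φa = x.φa := by simp [φa]
@[simp] theorem shift_φb (d : ℝ) : (x.shift d).φb = x.φb := by simp [φb]

end Arc

theorem TL.mirror {x y : Arc} (h : TL x y) : TL y.mirror x.mirror :=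
  ⟨by simp [h.1], by simp [h.2.1], by simp [h.2.2]; ring⟩

theorem TR.mirror {x y : Arc} (h : TR x y) : TR y.mirror x.mirror :=
  ⟨by simp [h.1], by simp [h.2.1], by simp [h.2.2]; ring⟩

end Pool.Agent.Work.MP_dd6b33_gt
end

-- merged part: Pool.Agent.Work.MP_dd6b33_gt.Sweep1
section
/-!
Local order of arcs, successors, the mirror model and the gap lemma.
-/

namespace Pool.Agent.Work.MP_dd6b33_gt

open Set Real Filter Topology

theorem evlt (x y : Arc) {t : ℝ} (xa : x.a ≤ t) (xb : t ≤ x.b) (ya : y.a ≤ t) (yb : t ≤ y.b)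
    (h : x.r t < y.r t) :
    ∀ᶠ θ in 𝓝 t, x.a ≤ θ → θ ≤ x.b → y.a ≤ θ → θ ≤ y.b → x.r θ < y.r θ := by
  have h1 : ContinuousWithinAt x.r (Icc x.a x.b ∩ Icc y.a y.b) t :=
    (x.rc t ⟨xa, xb⟩).mono inter_subset_left
  have h2 : ContinuousWithinAt y.r (Icc x.a x.b ∩ Icc y.a y.b) t :=
    (y.rc t ⟨ya, yb⟩).mono inter_subset_right
  have := h1.tendsto.eventually_lt h2.tendsto h
  rw [eventually_nhdsWithin_iff] at this
  exact this.mono fun θ hθ a1 a2 a3 a4 => hθ ⟨⟨a1, a2⟩, ⟨a3, a4⟩⟩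

theorem evltR (x y : Arc) {t : ℝ} (xa : x.a ≤ t) (xb : t < x.b) (ya : y.a ≤ t) (yb : t < y.b)
    (h : x.r t < y.r t) : ∀ᶠ θ in 𝓝[>] t, x.r θ < y.r θ := by
  filter_upwards [nhdsWithin_le_nhds (evlt x y xa xb.le ya yb.le h), Ioo_mem_nhdsGT xb,
    Ioo_mem_nhdsGT yb] with θ h1 h2 h3
  exact h1 (by linarith [h2.1]) h2.2.le (by linarith [h2.1]) h3.2.le

theorem evltL (x y : Arc) {t : ℝ} (xa : x.a < t) (xb : t ≤ x.b) (ya : y.a < t) (yb : t ≤ y.b)
    (h : x.r t < y.r t) : ∀ᶠ θ in 𝓝[<] t, x.r θ < y.r θ := by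
  filter_upwards [nhdsWithin_le_nhds (evlt x y xa.le xb ya.le yb h), Ioo_mem_nhdsLT xa,
    Ioo_mem_nhdsLT ya] with θ h1 h2 h3
  exact h1 h2.1.le (by linarith [h2.2]) h3.1.le (by linarith [h2.2])

/-- of two arcs leaving the same point, the one with the smaller angle is above -/
theorem ordS (x y : Arc) (ha : x.a = y.a) (hr : x.ra = y.ra) (h : x.φa < y.φa) :
    ∀ᶠ θ in 𝓝[>] x.a, y.r θ < x.r θ := by
  have h1 : ContinuousWithinAt x.φ (Icc x.a x.b ∩ Icc y.a y.b) x.a :=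
    (x.φc _ ⟨le_rfl, x.hab.le⟩).mono inter_subset_left
  have h2 : ContinuousWithinAt y.φ (Icc x.a x.b ∩ Icc y.a y.b) x.a :=
    (y.φc _ ⟨ha.ge, ha ▸ y.hab.le⟩).mono inter_subset_right
  have := h1.tendsto.eventually_lt h2.tendsto (by unfold Arc.φa at h; rwa [← ha] at h)
  rw [eventually_nhdsWithin_iff, Metric.eventually_nhds_iff] at this
  obtain ⟨ε, e0, he⟩ := this
  filter_upwards [Ioo_mem_nhdsGT x.hab, Ioo_mem_nhdsGT (show x.a < y.b from ha ▸ y.hab),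
    Ioo_mem_nhdsGT (show x.a < x.a + ε by linarith)] with θ b1 b2 b3
  have xa : x.a ≤ x.a := le_rfl
  have ya : y.a ≤ x.a := ha.ge
  have := lt_of_deriv (f := fun u => log (x.r u) - log (y.r u))
    (f' := fun u => cos (x.φ u) / sin (x.φ u) - cos (y.φ u) / sin (y.φ u)) b1.1
    (((x.rc' xa b1.2.le).log fun u hu => (x.r_pos hu.1 (hu.2.trans b1.2.le)).ne').sub
      ((y.rc' ya b2.2.le).log fun u hu => (y.r_pos (ya.trans hu.1) (hu.2.trans b2.2.le)).ne'))
    (fun u hu => by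
      have p1 := x.r_pos hu.1.le (hu.2.le.trans b1.2.le)
      have p2 := y.r_pos (ya.trans hu.1.le) (hu.2.le.trans b2.2.le)
      refine (((x.rd' xa b1.2.le hu).log p1.ne').fun_sub
        ((y.rd' ya b2.2.le hu).log p2.ne')).congr_deriv ?_
      field_simp)
    (fun u hu => by
      have c1 : x.a ≤ u := hu.1.le
      have c2 : u ≤ x.b := hu.2.le.trans b1.2.le
      have c3 : y.a ≤ u := ya.trans hu.1.le
      have c4 : u ≤ y.b := hu.2.le.trans b2.2.le
      have d := he (y := u) (by rw [Real.dist_eq, abs_lt]; constructor <;> linarith only [e0, c1, hu, b3, hu.1, hu.2, b3.2])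
        ⟨⟨c1, c2⟩, ⟨c3, c4⟩⟩
      have s1 := x.sin_pos c1 c2
      have s2 := y.sin_pos c3 c4
      have s3 := sin_pos_of_pos_of_lt_pi (x := y.φ u - x.φ u) (by linarith)
        (by linarith [y.φ_lt c3 c4, x.φ_pos c1 c2])
      rw [sin_sub] at s3
      rw [sub_pos, div_lt_div_iff₀ s2 s1]
      linarith)
  have e : x.r x.a = y.r x.a := by unfold Arc.ra at hr; rwa [← ha] at hr
  rw [e, sub_self, sub_pos] at this
  exact (log_lt_log_iff (y.r_pos (ya.trans b1.1.le) b2.2.le) (x.r_pos b1.1.le b1.2.le)).mp this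

/-- of two arcs reaching the same point, the one with the smaller angle is below -/
theorem ordE (x y : Arc) (hb : x.b = y.b) (hr : x.rb = y.rb) (h : x.φb < y.φb) :
    ∀ᶠ θ in 𝓝[<] x.b, x.r θ < y.r θ := by
  have := ordS y.mirror x.mirror (by simp [hb]) (by simp [hr]) (by simp [h])
  rw [Arc.mirror_a, ← hb] at this
  simpa using (tendsto_neg_nhdsLT (a := x.b)).eventually this

theorem Dlt (f g : Arc) {s t : ℝ} (hst : s < t) (fa : f.a ≤ s) (fb : t ≤ f.b) (ga : g.a ≤ s)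
    (gb : t ≤ g.b) (h : ∀ σ, s < σ → σ < t → f.r σ < g.r σ) :
    f.φ t - g.φ t < f.φ s - g.φ s := by
  have := lt_of_deriv (f := fun u => g.φ u - f.φ u)
    (f' := fun u => (g.r u ^ 2 - 1) - (f.r u ^ 2 - 1)) hst
    ((g.φc' ga gb).sub (f.φc' fa fb))
    (fun u hu => (g.φd' ga gb hu).fun_sub (f.φd' fa fb hu))
    (fun u hu => by
      have := f.r_pos (fa.trans hu.1.le) (hu.2.le.trans fb)
      linarith only [this, h, hu, h u hu.1 hu.2, mul_pos_of_neg_of_neg (Mathlib.Tactic.Linarith.sub_neg_of_lt this) (Mathlib.Tactic.Linarith.sub_neg_of_lt (h u hu.left hu.right)), mul_pos_of_neg_of_neg (Mathlib.Tactic.Linarith.sub_neg_of_lt (h u hu.left hu.right)) (Mathlib.Tactic.Linarith.sub_neg_of_lt (h u hu.left hu.right))])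
  linarith

namespace LModel

variable {X : Type} (M : LModel X)

theorem start_eq {y z : X} (ha : (M.arc y).a = (M.arc z).a) (hr : (M.arc y).ra = (M.arc z).ra)
    (h1 : (M.arc z).φa < (M.arc y).φa + 2 * π / 3) (h2 : (M.arc y).φa < (M.arc z).φa + 2 * π / 3) :
    y = z := by
  rcases M.ss y z ha hr with h | h | h
  · exact h
  · linarith only [h1, h]
  · linarith only [h2, h]

theorem end_eq {y z : X} (ha : (M.arc y).b = (M.arc z).b) (hr : (M.arc y).rb = (M.arc z).rb)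
    (h1 : (M.arc z).φb < (M.arc y).φb + 2 * π / 3) (h2 : (M.arc y).φb < (M.arc z).φb + 2 * π / 3) :
    y = z := by
  rcases M.ee y z ha hr with h | h | h
  · exact h
  · linarith only [h1, h]
  · linarith only [h2, h]

open Classical in
/-- successor after a left turn -/
noncomputable def L (x : X) : X :=
  if h : (M.arc x).φb < 2 * π / 3 then (M.exL x h).choose else x

open Classical in
/-- successor after a right turn -/
noncomputable def R (x : X) : X :=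
  if h : π / 3 < (M.arc x).φb then (M.exR x h).choose else x

theorem TL_L {x : X} (h : (M.arc x).φb < 2 * π / 3) : TL (M.arc x) (M.arc (M.L x)) := by
  unfold L; rw [dif_pos h]; exact (M.exL x h).choose_spec

theorem TR_R {x : X} (h : π / 3 < (M.arc x).φb) : TR (M.arc x) (M.arc (M.R x)) := by
  unfold R; rw [dif_pos h]; exact (M.exR x h).choose_spec

theorem L_eq {x y : X} (h : TL (M.arc x) (M.arc y)) : M.L x = y := by
  have h1 := M.TL_L (x := x) (by linarith only [h, h.2.2, (M.arc y).φa_lt])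
  exact M.start_eq (h1.1.symm.trans h.1) (h1.2.1.symm.trans h.2.1)
    (by linarith only [h, h1, h.2.2, h1.2.2, pi_pos]) (by linarith only [h, h1, h.2.2, h1.2.2, pi_pos])

theorem R_eq {x y : X} (h : TR (M.arc x) (M.arc y)) : M.R x = y := by
  have h1 := M.TR_R (x := x) (by linarith only [h, h.2.2, (M.arc y).φa_pos])
  exact M.start_eq (h1.1.symm.trans h.1) (h1.2.1.symm.trans h.2.1)
    (by linarith only [h, h1, h.2.2, h1.2.2, pi_pos]) (by linarith only [h, h1, h.2.2, h1.2.2, pi_pos])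

theorem TL_inj {x y z : X} (h : TL (M.arc x) (M.arc z)) (h1 : TL (M.arc y) (M.arc z)) : x = y :=
  M.end_eq (h.1.trans h1.1.symm) (h.2.1.trans h1.2.1.symm)
    (by linarith only [h, h1, h.2.2, h1.2.2, pi_pos]) (by linarith only [h, h1, h.2.2, h1.2.2, pi_pos])

theorem TR_inj {x y z : X} (h : TR (M.arc x) (M.arc z)) (h1 : TR (M.arc y) (M.arc z)) : x = y :=
  M.end_eq (h.1.trans h1.1.symm) (h.2.1.trans h1.2.1.symm)
    (by linarith only [h, h1, h.2.2, h1.2.2, pi_pos]) (by linarith only [h, h1, h.2.2, h1.2.2, pi_pos])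

/-- a lower incoming arc at a merge vertex has an upper partner -/
theorem partU {x : X} (h : (M.arc x).φb < π / 3) : ∃ y, (M.arc y).b = (M.arc x).b ∧
    (M.arc y).rb = (M.arc x).rb ∧ (M.arc y).φb = (M.arc x).φb + 2 * π / 3 := by
  have h1 := M.TL_L (x := x) (by linarith only [h, pi_pos])
  obtain ⟨y, h2⟩ := M.exR' (M.L x) (by linarith only [h, h1, h1.2.2])
  exact ⟨y, h2.1.trans h1.1.symm, h2.2.1.trans h1.2.1.symm, by linarith only [h1, h2, h1.2.2, h2.2.2]⟩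

theorem partD {x : X} (h : 2 * π / 3 < (M.arc x).φb) : ∃ y, (M.arc y).b = (M.arc x).b ∧
    (M.arc y).rb = (M.arc x).rb ∧ (M.arc x).φb = (M.arc y).φb + 2 * π / 3 := by
  have h1 := M.TR_R (x := x) (by linarith only [h, pi_pos])
  obtain ⟨y, h2⟩ := M.exL' (M.R x) (by linarith only [h, h1, h1.2.2])
  exact ⟨y, h2.1.trans h1.1.symm, h2.2.1.trans h1.2.1.symm, by linarith only [h1, h2, h1.2.2, h2.2.2]⟩

theorem ex_right (z : X) {t : ℝ} (ha : (M.arc z).a ≤ t) (hb : t ≤ (M.arc z).b) :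
    ∃ y, (M.arc y).a ≤ t ∧ t < (M.arc y).b ∧ (M.arc y).r t = (M.arc z).r t := by
  rcases hb.eq_or_lt with h | h
  · have : ∃ y, (M.arc z).b = (M.arc y).a ∧ (M.arc z).rb = (M.arc y).ra := by
      rcases lt_or_ge (M.arc z).φb (2 * π / 3) with h1 | h1
      · exact ⟨_, (M.TL_L h1).1, (M.TL_L h1).2.1⟩
      · have := M.TR_R (x := z) (by linarith only [h1, pi_pos])
        exact ⟨_, this.1, this.2.1⟩
    obtain ⟨y, h1, h2⟩ := this
    refine ⟨y, by linarith, by linarith [(M.arc y).hab], ?_⟩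
    unfold Arc.rb Arc.ra at h2
    rw [h, h2, h1]
  · exact ⟨z, ha, h, rfl⟩

theorem ex_left (z : X) {t : ℝ} (ha : (M.arc z).a ≤ t) (hb : t ≤ (M.arc z).b) :
    ∃ y, (M.arc y).a < t ∧ t ≤ (M.arc y).b ∧ (M.arc y).r t = (M.arc z).r t := by
  rcases ha.eq_or_lt with h | h
  · have : ∃ y, (M.arc y).b = (M.arc z).a ∧ (M.arc y).rb = (M.arc z).ra := by
      rcases lt_or_ge (M.arc z).φa (2 * π / 3) with h1 | h1
      · obtain ⟨y, h2⟩ := M.exR' z h1
        exact ⟨_, h2.1, h2.2.1⟩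
      · obtain ⟨y, h2⟩ := M.exL' z (by linarith only [h1, pi_pos])
        exact ⟨_, h2.1, h2.2.1⟩
    obtain ⟨y, h1, h2⟩ := this
    refine ⟨y, by linarith [(M.arc y).hab], by linarith, ?_⟩
    unfold Arc.rb Arc.ra at h2
    rw [← h, ← h2, h1]
  · exact ⟨z, h, hb, rfl⟩

theorem noAbove_mirror {θ v : ℝ} :
    NoAbove (fun x => (M.arc x).mirror) θ v ↔ NoAbove M.arc (-θ) v :=
  forall_congr' fun z => by
    simp only [Arc.mirror_a, Arc.mirror_b, Arc.mirror_r]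
    exact ⟨fun h a1 a2 => h (by linarith) (by linarith), fun h a1 a2 => h (by linarith) (by linarith)⟩

theorem noBelow_mirror {θ v : ℝ} :
    NoBelow (fun x => (M.arc x).mirror) θ v ↔ NoBelow M.arc (-θ) v :=
  forall_congr' fun z => by
    simp only [Arc.mirror_a, Arc.mirror_b, Arc.mirror_r]
    exact ⟨fun h a1 a2 => h (by linarith) (by linarith), fun h a1 a2 => h (by linarith) (by linarith)⟩

theorem noBetween_mirror {θ v w : ℝ} :
    NoBetween (fun x => (M.arc x).mirror) θ v w ↔ NoBetween M.arc (-θ) v w :=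
  forall_congr' fun z => by
    simp only [Arc.mirror_a, Arc.mirror_b, Arc.mirror_r]
    exact ⟨fun h a1 a2 => h (by linarith) (by linarith), fun h a1 a2 => h (by linarith) (by linarith)⟩

theorem mirror_TL {x y : Arc} (h : TL x y) : TL y.mirror x.mirror := h.mirror

/-- the reflected model -/
noncomputable def mirror : LModel X where
  arc := fun x => (M.arc x).mirror
  fin := fun s t => (M.fin (-t) (-s)).subset fun x hx => by
    simp only [mem_ofPred_eq, Arc.mirror_a, Arc.mirror_b] at hx ⊢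
    exact ⟨by linarith [hx.2], by linarith [hx.1]⟩
  emb := fun x y h θ a1 a2 a3 a4 => by
    simp only [Arc.mirror_a, Arc.mirror_b, Arc.mirror_r] at *
    exact M.emb x y h (-θ) (by linarith) (by linarith) (by linarith) (by linarith)
  ee := fun x y h1 h2 => by
    simp only [Arc.mirror_b, Arc.mirror_rb, Arc.mirror_φb] at *
    rcases M.ss x y (by linarith) h2 with h | h | h
    · exact Or.inl h
    · exact Or.inr (Or.inr (by linarith))
    · exact Or.inr (Or.inl (by linarith))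
  ss := fun x y h1 h2 => by
    simp only [Arc.mirror_a, Arc.mirror_ra, Arc.mirror_φa] at *
    rcases M.ee x y (by linarith) h2 with h | h | h
    · exact Or.inl h
    · exact Or.inr (Or.inr (by linarith))
    · exact Or.inr (Or.inl (by linarith))
  es := fun x y h1 h2 => by
    simp only [Arc.mirror_a, Arc.mirror_b, Arc.mirror_ra, Arc.mirror_rb, Arc.mirror_φa,
      Arc.mirror_φb] at *
    rcases M.es y x (by linarith) h2.symm with h | h
    · exact Or.inl (by linarith)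
    · exact Or.inr (by linarith)
  exL := fun x h => by
    obtain ⟨y, hy⟩ := M.exL' x (by rw [Arc.mirror_φb] at h; linarith)
    exact ⟨y, hy.mirror⟩
  exR := fun x h => by
    obtain ⟨y, hy⟩ := M.exR' x (by rw [Arc.mirror_φb] at h; linarith)
    exact ⟨y, hy.mirror⟩
  exL' := fun x h => by
    obtain ⟨y, hy⟩ := M.exL x (by rw [Arc.mirror_φa] at h; linarith)
    exact ⟨y, hy.mirror⟩
  exR' := fun x h => by
    obtain ⟨y, hy⟩ := M.exR x (by rw [Arc.mirror_φa] at h; linarith)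
    exact ⟨y, hy.mirror⟩
  up := fun x h => by
    rw [Arc.mirror_φb] at h
    obtain ⟨p, p1, p2, p3⟩ := M.exL' x (by linarith [pi_pos])
    simp only [noAbove_mirror, noBetween_mirror, Arc.mirror_b, Arc.mirror_rb, Arc.mirror_φb, neg_neg]
    rcases M.up p (by linarith) with h1 | ⟨y, y1, y2, y3, y4⟩
    · exact Or.inl (p1 ▸ p2 ▸ h1)
    · obtain ⟨q1, q2, q3⟩ := M.TR_R (x := y) (by linarith [pi_pos])
      exact Or.inr ⟨M.R y, by linarith, by linarith, by linarith, p1 ▸ p2 ▸ q2 ▸ y4⟩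
  down := fun x h => by
    rw [Arc.mirror_φb] at h
    obtain ⟨p, p1, p2, p3⟩ := M.exR' x (by linarith [pi_pos])
    simp only [noBelow_mirror, noBetween_mirror, Arc.mirror_b, Arc.mirror_rb, Arc.mirror_φb, neg_neg]
    rcases M.down p (by linarith) with h1 | ⟨y, y1, y2, y3, y4⟩
    · exact Or.inl (p1 ▸ p2 ▸ h1)
    · obtain ⟨q1, q2, q3⟩ := M.TL_L (x := y) (by linarith [pi_pos])
      exact Or.inr ⟨M.L y, by linarith, by linarith, by linarith, p1 ▸ p2 ▸ q2 ▸ y4⟩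

@[simp] theorem mirror_arc (x : X) : M.mirror.arc x = (M.arc x).mirror := rfl

theorem ev_all (t : ℝ) (P : X → ℝ → Prop)
    (h : ∀ z, (M.arc z).a ≤ t → t ≤ (M.arc z).b → ∀ᶠ θ in 𝓝 t, P z θ) :
    ∀ᶠ θ in 𝓝 t, ∀ z, (M.arc z).a ≤ θ → θ ≤ (M.arc z).b → P z θ := by
  have h1 : ∀ᶠ θ in 𝓝 t, ∀ z ∈ {x | (M.arc x).a ≤ t + 1 ∧ t - 1 ≤ (M.arc x).b},
      (M.arc z).a ≤ θ → θ ≤ (M.arc z).b → P z θ := by
    rw [eventually_all_finite (M.fin _ _)]
    intro z _
    rcases lt_or_ge t (M.arc z).a with a1 | a1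
    · filter_upwards [Iio_mem_nhds a1] with θ b1 b2
      exact absurd b2 (not_le.mpr b1)
    rcases lt_or_ge (M.arc z).b t with a2 | a2
    · filter_upwards [Ioi_mem_nhds a2] with θ b1 _ b2
      exact absurd b2 (not_le.mpr b1)
    exact (h z a1 a2).mono fun θ b1 _ _ => b1
  filter_upwards [h1, Ioo_mem_nhds (show t - 1 < t by linarith) (show t < t + 1 by linarith)]
    with θ b1 b2 z b3 b4
  exact b1 z ⟨by linarith [b2.2], by linarith [b2.1]⟩ b3 b4

theorem ev_allR (t : ℝ) (P : X → ℝ → Prop)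
    (h : ∀ z, (M.arc z).a ≤ t → t < (M.arc z).b → ∀ᶠ θ in 𝓝[>] t, P z θ) :
    ∀ᶠ θ in 𝓝[>] t, ∀ z, (M.arc z).a ≤ θ → θ ≤ (M.arc z).b → P z θ := by
  have := M.ev_all t (fun z θ => θ ≤ (M.arc z).b → θ ∈ Ioi t → P z θ) (fun z a1 a2 => by
    rcases a2.eq_or_lt with a3 | a3
    · exact Eventually.of_forall fun θ b1 b2 => absurd (a3 ▸ b1) (not_le.mpr b2)
    · exact (eventually_nhdsWithin_iff.mp (h z a1 a3)).mono fun θ b1 _ => b1)
  rw [eventually_nhdsWithin_iff]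
  exact this.mono fun θ b1 b2 z b3 b4 => b1 z b3 b4 b4 b2

/-- a gap that is free at one angle is free at every angle -/
theorem gap (G : ℝ → ℝ → Prop) {s t : ℝ}
    (ho : ∀ z θ, s < θ → θ < t → (M.arc z).a ≤ θ → θ ≤ (M.arc z).b → G θ ((M.arc z).r θ) →
      ∀ᶠ σ in 𝓝 θ, (M.arc z).a ≤ σ → σ ≤ (M.arc z).b → G σ ((M.arc z).r σ))
    (hc : ∀ z θ, s < θ → θ < t → (M.arc z).a ≤ θ → θ ≤ (M.arc z).b → ¬ G θ ((M.arc z).r θ) →
      ∀ᶠ σ in 𝓝 θ, (M.arc z).a ≤ σ → σ ≤ (M.arc z).b → ¬ G σ ((M.arc z).r σ))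
    {θ0 : ℝ} (h1 : s < θ0) (h2 : θ0 < t)
    (h0 : ∀ z, (M.arc z).a ≤ θ0 → θ0 ≤ (M.arc z).b → ¬ G θ0 ((M.arc z).r θ0)) :
    ∀ θ, s < θ → θ < t → ∀ z, (M.arc z).a ≤ θ → θ ≤ (M.arc z).b → ¬ G θ ((M.arc z).r θ) := by
  have key := (isPreconnected_Ioo (a := s) (b := t)).subset_of_closure_inter_subset
    (u := {θ | θ ∈ Ioo s t ∧ ∀ z, (M.arc z).a ≤ θ → θ ≤ (M.arc z).b → ¬ G θ ((M.arc z).r θ)})
    (by
      rw [isOpen_iff_eventually]
      rintro θ ⟨a1, a2⟩
      filter_upwards [Ioo_mem_nhds a1.1 a1.2, M.ev_all θ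
        (fun z σ => (M.arc z).a ≤ σ → σ ≤ (M.arc z).b → ¬ G σ ((M.arc z).r σ))
        (fun z b1 b2 => hc z θ a1.1 a1.2 b1 b2 (a2 z b1 b2))] with σ c1 c2
      exact ⟨c1, fun z d1 d2 => c2 z d1 d2 d1 d2⟩)
    ⟨θ0, ⟨h1, h2⟩, ⟨h1, h2⟩, h0⟩
    (by
      rintro θ ⟨a1, a2⟩
      refine ⟨a2, fun z b1 b2 b3 => ?_⟩
      obtain ⟨y, y1, y2, y3⟩ := M.ex_right z b1 b2
      obtain ⟨w, w1, w2, w3⟩ := M.ex_left z b1 b2
      rw [mem_closure_iff_frequently] at a1
      apply a1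
      filter_upwards [ho y θ a2.1 a2.2 y1 y2.le (y3 ▸ b3), ho w θ a2.1 a2.2 w1.le w2 (w3 ▸ b3),
        Ioo_mem_nhds w1 y2] with σ c1 c2 c3 c4
      rcases le_total σ θ with d | d
      · exact c4.2 w c3.1.le (d.trans w2) (c2 c3.1.le (d.trans w2))
      · exact c4.2 y (y1.trans d) c3.2.le (c1 (y1.trans d) c3.2.le))
  exact fun θ a1 a2 => (key ⟨a1, a2⟩).2

end LModel

end Pool.Agent.Work.MP_dd6b33_gt
end

-- merged part: Pool.Agent.Work.MP_dd6b33_gt.Sweep2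
section
/-!
Top arcs, bottom arcs and adjacent pairs.
-/

namespace Pool.Agent.Work.MP_dd6b33_gt

open Set Real Filter Topology

theorem exLT {P : ℝ → Prop} {t s1 s2 : ℝ} (h : ∀ᶠ θ in 𝓝[<] t, P θ) (h1 : s1 < t) (h2 : s2 < t) :
    ∃ θ, s1 < θ ∧ s2 < θ ∧ θ < t ∧ P θ := by
  have : ∀ᶠ θ in 𝓝[<] t, s1 < θ ∧ s2 < θ ∧ θ < t ∧ P θ := by
    filter_upwards [h, Ioo_mem_nhdsLT h1, Ioo_mem_nhdsLT h2] with θ a1 a2 a3
    exact ⟨a2.1, a3.1, a2.2, a1⟩
  exact this.exists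

theorem exGT {P : ℝ → Prop} {t s1 s2 : ℝ} (h : ∀ᶠ θ in 𝓝[>] t, P θ) (h1 : t < s1) (h2 : t < s2) :
    ∃ θ, t < θ ∧ θ < s1 ∧ θ < s2 ∧ P θ := by
  have : ∀ᶠ θ in 𝓝[>] t, t < θ ∧ θ < s1 ∧ θ < s2 ∧ P θ := by
    filter_upwards [h, Ioo_mem_nhdsGT h1, Ioo_mem_nhdsGT h2] with θ a1 a2 a3
    exact ⟨a2.1, a2.2, a3.2, a1⟩
  exact this.exists

namespace LModel

variable {X : Type} (M : LModel X)

/-- nothing lies above `x` -/
def Top (x : X) : Prop :=
  ∀ θ, (M.arc x).a < θ → θ < (M.arc x).b → NoAbove M.arc θ ((M.arc x).r θ)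

/-- nothing lies below `x` -/
def Bot (x : X) : Prop :=
  ∀ θ, (M.arc x).a < θ → θ < (M.arc x).b → NoBelow M.arc θ ((M.arc x).r θ)

/-- `l` lies directly below `u` at some angle -/
def Adj (l u : X) : Prop :=
  ∃ θ, (M.arc l).a < θ ∧ θ < (M.arc l).b ∧ (M.arc u).a < θ ∧ θ < (M.arc u).b ∧
    (M.arc l).r θ < (M.arc u).r θ ∧ NoBetween M.arc θ ((M.arc l).r θ) ((M.arc u).r θ)

variable {M}

theorem top_mirror {x : X} : M.mirror.Top x ↔ M.Top x :=
  ⟨fun h θ a1 a2 => by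
    have := h (-θ) (by simpa) (by simpa)
    simpa using M.noAbove_mirror.mp this,
  fun h θ a1 a2 => M.noAbove_mirror.mpr
    (h (-θ) (by simp at a2; linarith) (by simp at a1; linarith))⟩

theorem bot_mirror {x : X} : M.mirror.Bot x ↔ M.Bot x :=
  ⟨fun h θ a1 a2 => by
    have := h (-θ) (by simpa) (by simpa)
    simpa using M.noBelow_mirror.mp this,
  fun h θ a1 a2 => M.noBelow_mirror.mpr
    (h (-θ) (by simp at a2; linarith) (by simp at a1; linarith))⟩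

theorem Adj.mirror {l u : X} (h : M.Adj l u) : M.mirror.Adj l u := by
  obtain ⟨θ, a1, a2, a3, a4, a5, a6⟩ := h
  exact ⟨-θ, by simpa, by simpa, by simpa, by simpa, by simpa,
    M.noBetween_mirror.mpr (by simpa)⟩

theorem ev_le {z y : X} {t : ℝ} (ya : (M.arc y).a ≤ t) (yb : t < (M.arc y).b)
    (za : (M.arc z).a ≤ t) (zb : t < (M.arc z).b) (h : (M.arc z).r t ≤ (M.arc y).r t)
    (hs : (M.arc y).a = t → (M.arc z).a = t → (M.arc z).ra = (M.arc y).ra →
      z = y ∨ (M.arc y).φa < (M.arc z).φa) :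
    ∀ᶠ θ in 𝓝[>] t, (M.arc z).r θ ≤ (M.arc y).r θ := by
  by_cases e : z = y
  · exact Eventually.of_forall fun θ => e ▸ le_rfl
  rcases h.eq_or_lt with h | h
  · rcases ya.eq_or_lt with a1 | a1
    · rcases za.eq_or_lt with a2 | a2
      · have e1 : (M.arc z).ra = (M.arc y).ra := by unfold Arc.ra; rw [a1, a2, h]
        have := ordS (M.arc y) (M.arc z) (a1.trans a2.symm) e1.symm
          ((hs a1 a2 e1).resolve_left e)
        rw [a1] at this
        exact this.mono fun θ => le_of_lt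
      · exact absurd h (M.emb z y e t a2 zb ya yb.le)
    · exact absurd h.symm (M.emb y z (Ne.symm e) t a1 yb za zb.le)
  · exact (evltR _ _ za zb ya yb h).mono fun θ => le_of_lt

theorem cov_lt {x z : X} {θ : ℝ} (a1 : (M.arc x).a < θ) (a2 : θ < (M.arc x).b)
    (a3 : (M.arc z).a ≤ θ) (a4 : θ ≤ (M.arc z).b) (h : (M.arc x).r θ < (M.arc z).r θ) :
    ∀ᶠ σ in 𝓝 θ, (M.arc z).a ≤ σ → σ ≤ (M.arc z).b → (M.arc x).r σ < (M.arc z).r σ := by
  filter_upwards [evlt _ _ a1.le a2.le a3 a4 h, Ioo_mem_nhds a1 a2] with σ b1 b2 b3 b4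
  exact b1 b2.1.le b2.2.le b3 b4

theorem cov_gt {x z : X} {θ : ℝ} (a1 : (M.arc x).a < θ) (a2 : θ < (M.arc x).b)
    (a3 : (M.arc z).a ≤ θ) (a4 : θ ≤ (M.arc z).b) (h : (M.arc z).r θ < (M.arc x).r θ) :
    ∀ᶠ σ in 𝓝 θ, (M.arc z).a ≤ σ → σ ≤ (M.arc z).b → (M.arc z).r σ < (M.arc x).r σ := by
  filter_upwards [evlt _ _ a3 a4 a1.le a2.le h, Ioo_mem_nhds a1 a2] with σ b1 b2 b3 b4
  exact b1 b3 b4 b2.1.le b2.2.le

theorem cov_le {x z : X} {θ : ℝ} (a1 : (M.arc x).a < θ) (a2 : θ < (M.arc x).b)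
    (a3 : (M.arc z).a ≤ θ) (a4 : θ ≤ (M.arc z).b) (h : (M.arc x).r θ ≤ (M.arc z).r θ) :
    ∀ᶠ σ in 𝓝 θ, (M.arc z).a ≤ σ → σ ≤ (M.arc z).b → (M.arc x).r σ ≤ (M.arc z).r σ := by
  by_cases e : x = z
  · exact Eventually.of_forall fun σ _ _ => e ▸ le_rfl
  · exact (cov_lt a1 a2 a3 a4 (lt_of_le_of_ne h (M.emb x z e θ a1 a2 a3 a4))).mono
      fun σ b1 b2 b3 => (b1 b2 b3).le

theorem cov_ge {x z : X} {θ : ℝ} (a1 : (M.arc x).a < θ) (a2 : θ < (M.arc x).b)
    (a3 : (M.arc z).a ≤ θ) (a4 : θ ≤ (M.arc z).b) (h : (M.arc z).r θ ≤ (M.arc x).r θ) :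
    ∀ᶠ σ in 𝓝 θ, (M.arc z).a ≤ σ → σ ≤ (M.arc z).b → (M.arc z).r σ ≤ (M.arc x).r σ := by
  by_cases e : x = z
  · exact Eventually.of_forall fun σ _ _ => e ▸ le_rfl
  · exact (cov_gt a1 a2 a3 a4 (lt_of_le_of_ne h (M.emb x z e θ a1 a2 a3 a4).symm)).mono
      fun σ b1 b2 b3 => (b1 b2 b3).le

theorem top_of_one {x : X} {θ : ℝ} (a1 : (M.arc x).a < θ) (a2 : θ < (M.arc x).b)
    (h : NoAbove M.arc θ ((M.arc x).r θ)) : M.Top x := fun σ b1 b2 z b3 b4 =>
  not_lt.mp (M.gap (fun θ v => (M.arc x).r θ < v)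
    (fun _ _ c1 c2 c3 c4 c5 => cov_lt c1 c2 c3 c4 c5)
    (fun _ _ c1 c2 c3 c4 c5 => (cov_ge c1 c2 c3 c4 (not_lt.mp c5)).mono
      fun _ d1 d2 d3 => not_lt.mpr (d1 d2 d3))
    a1 a2 (fun z c1 c2 => not_lt.mpr (h z c1 c2)) σ b1 b2 z b3 b4)

theorem bot_of_one {x : X} {θ : ℝ} (a1 : (M.arc x).a < θ) (a2 : θ < (M.arc x).b)
    (h : NoBelow M.arc θ ((M.arc x).r θ)) : M.Bot x := fun σ b1 b2 z b3 b4 =>
  not_lt.mp (M.gap (fun θ v => v < (M.arc x).r θ)
    (fun _ _ c1 c2 c3 c4 c5 => cov_gt c1 c2 c3 c4 c5)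
    (fun _ _ c1 c2 c3 c4 c5 => (cov_le c1 c2 c3 c4 (not_lt.mp c5)).mono
      fun _ d1 d2 d3 => not_lt.mpr (d1 d2 d3))
    a1 a2 (fun z c1 c2 => not_lt.mpr (h z c1 c2)) σ b1 b2 z b3 b4)

theorem Adj.ne {l u : X} (h : M.Adj l u) : l ≠ u := by
  rintro rfl
  obtain ⟨θ, -, -, -, -, a5, -⟩ := h
  exact lt_irrefl _ a5

theorem Adj.lt {l u : X} (h : M.Adj l u) {θ : ℝ} (a1 : (M.arc l).a < θ) (a2 : θ < (M.arc l).b)
    (a3 : (M.arc u).a < θ) (a4 : θ < (M.arc u).b) : (M.arc l).r θ < (M.arc u).r θ := by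
  have hne := h.ne
  obtain ⟨t, b1, b2, b3, b4, b5, -⟩ := h
  by_contra hh
  have s1 : uIcc t θ ⊆ Ioo (M.arc l).a (M.arc l).b := ordConnected_Ioo.uIcc_subset ⟨b1, b2⟩ ⟨a1, a2⟩
  have s2 : uIcc t θ ⊆ Ioo (M.arc u).a (M.arc u).b := ordConnected_Ioo.uIcc_subset ⟨b3, b4⟩ ⟨a3, a4⟩
  obtain ⟨w, w1, w2⟩ := intermediate_value_uIcc (f := fun σ => (M.arc u).r σ - (M.arc l).r σ)
    (((M.arc u).rc.mono (s2.trans Ioo_subset_Icc_self)).sub
      ((M.arc l).rc.mono (s1.trans Ioo_subset_Icc_self)))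
    (show (0 : ℝ) ∈ _ from mem_uIcc.mpr (Or.inr ⟨by linarith, by linarith⟩))
  exact M.emb l u hne w (s1 w1).1 (s1 w1).2 (s2 w1).1.le (s2 w1).2.le (by
    simp only at w2; linarith)

theorem Adj.nb {l u : X} (h : M.Adj l u) {θ : ℝ} (a1 : (M.arc l).a < θ) (a2 : θ < (M.arc l).b)
    (a3 : (M.arc u).a < θ) (a4 : θ < (M.arc u).b) :
    NoBetween M.arc θ ((M.arc l).r θ) ((M.arc u).r θ) := by
  obtain ⟨t, b1, b2, b3, b4, -, b6⟩ := h
  intro z c1 c2
  have := M.gap (fun θ v => ¬ (v ≤ (M.arc l).r θ ∨ (M.arc u).r θ ≤ v))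
    (s := max (M.arc l).a (M.arc u).a) (t := min (M.arc l).b (M.arc u).b)
    (fun z σ d1 d2 d3 d4 d5 => by
      rw [max_lt_iff] at d1
      rw [lt_min_iff] at d2
      push Not at d5
      filter_upwards [cov_lt d1.1 d2.1 d3 d4 d5.1, cov_gt d1.2 d2.2 d3 d4 d5.2] with w e1 e2 e3 e4
      push Not
      exact ⟨e1 e3 e4, e2 e3 e4⟩)
    (fun z σ d1 d2 d3 d4 d5 => by
      rw [max_lt_iff] at d1
      rw [lt_min_iff] at d2
      rcases not_not.mp d5 with e | e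
      · exact (cov_ge d1.1 d2.1 d3 d4 e).mono fun w e1 e2 e3 => not_not.mpr (Or.inl (e1 e2 e3))
      · exact (cov_le d1.2 d2.2 d3 d4 e).mono fun w e1 e2 e3 => not_not.mpr (Or.inr (e1 e2 e3)))
    (max_lt b1 b3) (lt_min b2 b4) (fun z d1 d2 => not_not.mpr (b6 z d1 d2))
    θ (max_lt a1 a3) (lt_min a2 a4) z c1 c2
  exact not_not.mp this

theorem Top.nab {x : X} (h : M.Top x) : NoAbove M.arc (M.arc x).b (M.arc x).rb := by
  intro z a1 a2
  obtain ⟨y, y1, y2, y3⟩ := M.ex_left z a1 a2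
  by_contra hh
  obtain ⟨θ, b1, b2, b3, b4⟩ := exLT (evltL (M.arc x) (M.arc y) (M.arc x).hab le_rfl y1 y2
    (by rw [y3]; exact not_le.mp hh)) (M.arc x).hab y1
  linarith only [b4, h, b1, b3, b2, y2, h θ b1 b3 y b2.le (by linarith)]

theorem Bot.nbb {x : X} (h : M.Bot x) : NoBelow M.arc (M.arc x).b (M.arc x).rb := by
  intro z a1 a2
  obtain ⟨y, y1, y2, y3⟩ := M.ex_left z a1 a2
  by_contra hh
  obtain ⟨θ, b1, b2, b3, b4⟩ := exLT (evltL (M.arc y) (M.arc x) y1 y2 (M.arc x).hab le_rfl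
    (by rw [y3]; exact not_le.mp hh)) (M.arc x).hab y1
  linarith only [b4, h, b1, b3, b2, y2, h θ b1 b3 y b2.le (by linarith)]

theorem Top.naa {x : X} (h : M.Top x) : NoAbove M.arc (M.arc x).a (M.arc x).ra := by
  simpa using M.noAbove_mirror.mp (top_mirror.mpr h).nab

theorem Bot.nba {x : X} (h : M.Bot x) : NoBelow M.arc (M.arc x).a (M.arc x).ra := by
  simpa using M.noBelow_mirror.mp (bot_mirror.mpr h).nbb

theorem top_ext {y : X} (h : NoAbove M.arc (M.arc y).a (M.arc y).ra)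
    (hφ : (M.arc y).φa ≤ 2 * π / 3) : M.Top y := by
  obtain ⟨θ, b1, b2, -, b3⟩ := exGT (M.ev_allR (M.arc y).a (fun z θ => (M.arc z).r θ ≤ (M.arc y).r θ)
    (fun z a1 a2 => ev_le le_rfl (M.arc y).hab a1 a2 (h z a1 a2.le) (fun _ c2 c3 => by
      rcases M.ss z y c2 c3 with d | d | d
      · exact Or.inl d
      · linarith only [hφ, d, (M.arc z).φa_pos]
      · exact Or.inr (by linarith only [d, pi_pos])))) (M.arc y).hab (M.arc y).hab
  exact top_of_one b1 b2 b3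

theorem bot_ext {y : X} (h : NoBelow M.arc (M.arc y).a (M.arc y).ra)
    (hφ : π / 3 ≤ (M.arc y).φa) : M.Bot y := by
  obtain ⟨θ, b1, b2, -, b3⟩ := exGT (M.ev_allR (M.arc y).a (fun z θ => (M.arc y).r θ ≤ (M.arc z).r θ)
    (fun z a1 a2 => ev_le a1 a2 le_rfl (M.arc y).hab (h z a1 a2.le) (fun c2 _ c3 => by
      rcases M.ss y z c2.symm c3 with d | d | d
      · exact Or.inl d
      · linarith only [hφ, d, (M.arc z).φa_lt]
      · exact Or.inr (by linarith only [d, pi_pos])))) (M.arc y).hab (M.arc y).hab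
  exact bot_of_one b1 b2 b3

theorem top_ext' {y : X} (h : NoAbove M.arc (M.arc y).b (M.arc y).rb)
    (hφ : π / 3 ≤ (M.arc y).φb) : M.Top y :=
  top_mirror.mp (top_ext (M.noAbove_mirror.mpr (by simpa)) (by simp; linarith only [hφ]))

theorem bot_ext' {y : X} (h : NoBelow M.arc (M.arc y).b (M.arc y).rb)
    (hφ : (M.arc y).φb ≤ 2 * π / 3) : M.Bot y :=
  bot_mirror.mp (bot_ext (M.noBelow_mirror.mpr (by simpa)) (by simp; linarith only [hφ]))

theorem Top.φb {x : X} (h : M.Top x) : π / 3 ≤ (M.arc x).φb := by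
  by_contra hh
  obtain ⟨y, y1, y2, y3⟩ := M.partU (not_le.mp hh)
  obtain ⟨θ, b1, b2, b3, b4⟩ := exLT (ordE _ _ y1.symm y2.symm (by linarith only [y3, pi_pos]))
    (M.arc x).hab (show (M.arc y).a < _ by linarith [(M.arc y).hab])
  linarith only [b4, h, b1, b3, b2, y1, h θ b1 b3 y b2.le (by linarith)]

theorem Bot.φb {x : X} (h : M.Bot x) : (M.arc x).φb ≤ 2 * π / 3 := by
  by_contra hh
  obtain ⟨y, y1, y2, y3⟩ := M.partD (not_le.mp hh)
  obtain ⟨θ, b1, b2, b3, b4⟩ := exLT (ordE _ _ y1 y2 (by linarith only [y3, pi_pos]))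
    (show (M.arc x).a < _ by linarith [(M.arc x).hab]) (M.arc y).hab
  linarith only [b4, h, b1, y1, b3, b2, h θ b1 (by linarith) y b2.le b3.le]

theorem Top.φa {x : X} (h : M.Top x) : (M.arc x).φa ≤ 2 * π / 3 := by
  have := (top_mirror.mpr h).φb
  simp at this; linarith only [this]

theorem Bot.φa {x : X} (h : M.Bot x) : π / 3 ≤ (M.arc x).φa := by
  have := (bot_mirror.mpr h).φb
  simp at this; linarith only [this]

theorem top_TR {x y : X} (h : TR (M.arc x) (M.arc y)) : M.Top y ↔ M.Top x :=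
  ⟨fun t => top_ext' (by rw [h.1, h.2.1]; exact t.naa) (by linarith only [h, h.2.2, (M.arc y).φa_pos]),
    fun t => top_ext (by rw [← h.1, ← h.2.1]; exact t.nab) (by linarith only [h, h.2.2, (M.arc x).φb_lt])⟩

theorem top_TL {x y : X} (h : TL (M.arc x) (M.arc y)) (h1 : (M.arc x).φb = π / 3) :
    M.Top y ↔ M.Top x :=
  ⟨fun t => top_ext' (by rw [h.1, h.2.1]; exact t.naa) h1.ge,
    fun t => top_ext (by rw [← h.1, ← h.2.1]; exact t.nab) (by linarith only [h1, h, h.2.2])⟩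

theorem bot_TL {x y : X} (h : TL (M.arc x) (M.arc y)) : M.Bot y ↔ M.Bot x :=
  ⟨fun t => bot_ext' (by rw [h.1, h.2.1]; exact t.nba) (by linarith only [h, h.2.2, (M.arc y).φa_lt]),
    fun t => bot_ext (by rw [← h.1, ← h.2.1]; exact t.nbb) (by linarith [h.2.2, (M.arc x).φb_pos])⟩

theorem bot_TR {x y : X} (h : TR (M.arc x) (M.arc y)) (h1 : (M.arc x).φb = 2 * π / 3) :
    M.Bot y ↔ M.Bot x :=
  ⟨fun t => bot_ext' (by rw [h.1, h.2.1]; exact t.nba) h1.le,
    fun t => bot_ext (by rw [← h.1, ← h.2.1]; exact t.nbb) (by linarith only [h1, h, h.2.2])⟩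

theorem ray_iff {x : X} : Ray M.arc x ↔ M.Top x ∧ (M.arc x).φb = π / 3 :=
  ⟨fun h => ⟨top_ext' h.2 h.1.ge, h.1⟩, fun h => ⟨h.2, h.1.nab⟩⟩

theorem od_iff {x : X} : Od M.arc x ↔ M.Bot x ∧ (M.arc x).φb = 2 * π / 3 :=
  ⟨fun h => ⟨bot_ext' h.2 h.1.le, h.1⟩, fun h => ⟨h.2, h.1.nbb⟩⟩

end LModel

end Pool.Agent.Work.MP_dd6b33_gt
end

-- merged part: Pool.Agent.Work.MP_dd6b33_gt.Sweep3
section
/-!
Sweeping a face from left to right.
-/

namespace Pool.Agent.Work.MP_dd6b33_gt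

open Set Real Filter Topology

namespace LModel

variable {X : Type} {M : LModel X}

theorem Adj.closed {l u : X} (h : M.Adj l u) {t : ℝ} (la : (M.arc l).a < t) (lb : t ≤ (M.arc l).b)
    (ua : (M.arc u).a < t) (ub : t ≤ (M.arc u).b) :
    (M.arc l).r t ≤ (M.arc u).r t ∧ NoBetween M.arc t ((M.arc l).r t) ((M.arc u).r t) := by
  constructor
  · by_contra hh
    obtain ⟨θ, b1, b2, b3, b4⟩ := exLT (evltL _ _ ua ub la lb (not_le.mp hh)) la ua
    linarith only [b4, h, b1, lb, b3, b2, ub, h.lt b1 (by linarith) b2 (by linarith)]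
  · intro z a1 a2
    obtain ⟨y, y1, y2, y3⟩ := M.ex_left z a1 a2
    by_contra hh
    push Not at hh
    obtain ⟨θ, b1, b2, b3, b4, b5⟩ := exLT ((evltL _ _ la lb y1 y2 (by linarith [hh.1])).and
      (evltL _ _ y1 y2 ua ub (by linarith [hh.2]))) (max_lt la ua) y1
    rw [max_lt_iff] at b1
    rcases h.nb b1.1 (by linarith) b1.2 (by linarith) y b2.le (by linarith) with c | c <;> linarith only [b4, c, b5]

theorem adj_ext {l u : X} {t : ℝ} (la : (M.arc l).a ≤ t) (lb : t < (M.arc l).b)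
    (ua : (M.arc u).a ≤ t) (ub : t < (M.arc u).b)
    (hlt : ∀ᶠ θ in 𝓝[>] t, (M.arc l).r θ < (M.arc u).r θ)
    (nb : NoBetween M.arc t ((M.arc l).r t) ((M.arc u).r t))
    (hl : (M.arc l).a = t → ∀ z, (M.arc z).a = t → (M.arc z).ra = (M.arc l).ra →
      z = l ∨ z = u ∨ (M.arc l).φa < (M.arc z).φa)
    (hu : (M.arc u).a = t → ∀ z, (M.arc z).a = t → (M.arc z).ra = (M.arc u).ra →
      z = u ∨ z = l ∨ (M.arc z).φa < (M.arc u).φa) : M.Adj l u := by
  obtain ⟨θ, b1, b2, b3, b4, b5⟩ := exGT (hlt.and (M.ev_allR t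
    (fun z θ => (M.arc z).r θ ≤ (M.arc l).r θ ∨ (M.arc u).r θ ≤ (M.arc z).r θ) (fun z a1 a2 => by
      by_cases e1 : z = l
      · exact Eventually.of_forall fun θ => Or.inl (e1 ▸ le_rfl)
      by_cases e2 : z = u
      · exact Eventually.of_forall fun θ => Or.inr (e2 ▸ le_rfl)
      rcases nb z a1 a2.le with c | c
      · exact (ev_le la lb a1 a2 c fun d1 d2 d3 =>
          Or.inr (((hl d1 z d2 d3).resolve_left e1).resolve_left e2)).mono fun θ => Or.inl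
      · exact (ev_le a1 a2 ua ub c fun d1 d2 d3 =>
          Or.inr (((hu d2 z d1 d3.symm).resolve_left e2).resolve_left e1)).mono fun θ => Or.inr)))
    lb ub
  exact ⟨θ, by linarith, b2, by linarith, b3, b4, b5⟩

theorem Adj.lowOK {l u : X} (h : M.Adj l u) (hb : (M.arc l).b ≤ (M.arc u).b)
    (hr : (M.arc l).rb < (M.arc u).r (M.arc l).b) :
    π / 3 ≤ (M.arc l).φb ∧
      ((M.arc l).φb = π / 3 → (M.arc l).b = (M.arc u).b ∧ (M.arc u).φb = 2 * π / 3) := by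
  have ua : (M.arc u).a < (M.arc l).b := by
    obtain ⟨θ, a1, a2, a3, -⟩ := h
    linarith
  have la := (M.arc l).hab
  constructor
  · by_contra hh
    obtain ⟨y, y1, y2, y3⟩ := M.partU (not_le.mp hh)
    have ya : (M.arc y).a < (M.arc l).b := y1 ▸ (M.arc y).hab
    obtain ⟨θ, b1, b2, b3, b4, b5⟩ := exLT ((ordE _ _ y1.symm y2.symm (by linarith only [y3, pi_pos])).and
      (evltL (M.arc y) (M.arc u) ya y1.ge ua hb (by rw [← y1] at hr ⊢; exact y2.trans_lt hr)))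
      (max_lt la ua) ya
    rw [max_lt_iff] at b1
    rcases h.nb b1.1 b3 b1.2 (by linarith only [hb, b3]) y b2.le (by linarith only [y1, b3]) with c | c <;> linarith only [b4, c, b5]
  · intro e
    rcases M.up l e with c | ⟨y, y1, y2, y3, y4⟩
    · linarith [c u ua.le hb]
    have c1 := (y4 u ua.le hb).resolve_left (not_le.mpr hr)
    have yb : (M.arc y).r (M.arc l).b = (M.arc y).rb := by rw [← y1]; rfl
    have ya : (M.arc y).a ≤ (M.arc l).b := y1 ▸ (M.arc y).hab.le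
    have c2 := ((h.closed la le_rfl ua hb).2 y ya y1.ge).resolve_left
      (by rw [yb]; exact not_le.mpr y3)
    have c3 : (M.arc u).r (M.arc l).b = (M.arc y).r (M.arc l).b := by linarith only [c1, yb, c2]
    rcases hb.eq_or_lt with d | d
    · have : u = y := M.end_eq (d.symm.trans y1.symm) (by rw [← yb, ← c3, d]; rfl)
        (by linarith only [y2, (M.arc u).φb_pos]) (by linarith only [y2, (M.arc u).φb_lt, pi_pos])
      exact ⟨d, this ▸ y2⟩
    · exact absurd c3 (M.emb u y (by rintro rfl; linarith only [d, y1]) _ ua d ya y1.ge)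

theorem Adj.upOK {l u : X} (h : M.Adj l u) (hb : (M.arc u).b ≤ (M.arc l).b)
    (hr : (M.arc l).r (M.arc u).b < (M.arc u).rb) :
    (M.arc u).φb ≤ 2 * π / 3 ∧
      ((M.arc u).φb = 2 * π / 3 → (M.arc l).b = (M.arc u).b ∧ (M.arc l).φb = π / 3) := by
  have la : (M.arc l).a < (M.arc u).b := by
    obtain ⟨θ, a1, a2, a3, a4, -⟩ := h
    linarith
  have ua := (M.arc u).hab
  constructor
  · by_contra hh
    obtain ⟨y, y1, y2, y3⟩ := M.partD (not_le.mp hh)
    have ya : (M.arc y).a < (M.arc u).b := y1 ▸ (M.arc y).hab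
    have o := ordE _ _ y1 y2 (by linarith only [y3, pi_pos])
    rw [y1] at o
    obtain ⟨θ, b1, b2, b3, b4, b5⟩ := exLT (o.and
      (evltL (M.arc l) (M.arc y) la hb ya y1.ge (by rw [← y1] at hr ⊢; exact hr.trans_eq y2.symm)))
      (max_lt la ua) ya
    rw [max_lt_iff] at b1
    rcases h.nb b1.1 (by linarith only [hb, b3]) b1.2 b3 y b2.le (by linarith only [y1, b3]) with c | c <;> linarith only [b5, c, b4]
  · intro e
    rcases M.down u e with c | ⟨y, y1, y2, y3, y4⟩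
    · linarith [c l la.le hb]
    have c1 := (y4 l la.le hb).resolve_right (not_le.mpr hr)
    have yb : (M.arc y).r (M.arc u).b = (M.arc y).rb := by rw [← y1]; rfl
    have ya : (M.arc y).a ≤ (M.arc u).b := y1 ▸ (M.arc y).hab.le
    have c2 := ((h.closed la hb ua le_rfl).2 y ya y1.ge).resolve_right
      (by rw [yb]; exact not_le.mpr y3)
    have c3 : (M.arc l).r (M.arc u).b = (M.arc y).r (M.arc u).b := by linarith only [c2, c1, yb]
    rcases hb.eq_or_lt with d | d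
    · have : l = y := M.end_eq (d.symm.trans y1.symm) (by rw [← yb, ← c3, d]; rfl)
        (by linarith only [y2, (M.arc l).φb_pos, pi_pos]) (by linarith only [y2, (M.arc l).φb_lt])
      exact ⟨d.symm, this ▸ y2⟩
    · exact absurd c3 (M.emb l y (by rintro rfl; linarith only [d, y1]) _ la d ya y1.ge)

variable (M) in
/-- right end of a face -/
def FEnd (u l : X) : Prop :=
  (M.arc l).b = (M.arc u).b ∧
    (((M.arc l).rb = (M.arc u).rb ∧ (M.arc u).φb = (M.arc l).φb + 2 * π / 3) ∨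
      ((M.arc l).φb = π / 3 ∧ (M.arc u).φb = 2 * π / 3 ∧ (M.arc l).rb < (M.arc u).rb ∧
        NoBetween M.arc (M.arc l).b (M.arc l).rb (M.arc u).rb))

variable (M) in
/-- the lower boundary passes the angle `t` with `e` turns -/
def LStep (l : X) (e : ℕ) (t : ℝ) : Prop :=
  (e = 0 ∧ t < (M.arc l).b) ∨ (e = 1 ∧ t = (M.arc l).b ∧ π / 3 < (M.arc l).φb)

variable (M) in
/-- the upper boundary passes the angle `t` with `e` turns -/
def UStep (u : X) (e : ℕ) (t : ℝ) : Prop :=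
  (e = 0 ∧ t < (M.arc u).b) ∨ (e = 1 ∧ t = (M.arc u).b ∧ (M.arc u).φb < 2 * π / 3)

theorem LStep.facts {l : X} {e : ℕ} {t : ℝ} (h : M.LStep l e t) (la : (M.arc l).a < t) :
    t ≤ (M.arc l).b ∧ (M.arc (M.R^[e] l)).a ≤ t ∧ t < (M.arc (M.R^[e] l)).b ∧
      (M.arc (M.R^[e] l)).r t = (M.arc l).r t ∧
      (M.arc (M.R^[e] l)).φ t = (M.arc l).φ t - e * (π / 3) ∧
      ((M.arc (M.R^[e] l)).a = t → (M.arc (M.R^[e] l)).φa < 2 * π / 3) ∧
      (1 ≤ e → (M.arc (M.R^[e] l)).a = t) := by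
  rcases h with ⟨rfl, h⟩ | ⟨rfl, rfl, h⟩
  · exact ⟨h.le, la.le, h, rfl, by simp, fun e => absurd e la.ne, fun e => absurd e (by simp)⟩
  · obtain ⟨p1, p2, p3⟩ := M.TR_R h
    have := (M.arc l).φb_lt
    simp only [Function.iterate_one]
    refine ⟨le_rfl, p1.ge, p1 ▸ (M.arc _).hab, ?_, ?_, fun _ => by linarith only [p3, this], fun _ => p1.symm⟩
    · unfold Arc.ra Arc.rb at p2; rw [p2, p1]
    · unfold Arc.φa Arc.φb at p3; rw [← p1] at p3; simpa using p3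

theorem UStep.facts {u : X} {e : ℕ} {t : ℝ} (h : M.UStep u e t) (ua : (M.arc u).a < t) :
    t ≤ (M.arc u).b ∧ (M.arc (M.L^[e] u)).a ≤ t ∧ t < (M.arc (M.L^[e] u)).b ∧
      (M.arc (M.L^[e] u)).r t = (M.arc u).r t ∧
      (M.arc (M.L^[e] u)).φ t = (M.arc u).φ t + e * (π / 3) ∧
      ((M.arc (M.L^[e] u)).a = t → π / 3 < (M.arc (M.L^[e] u)).φa) ∧
      (1 ≤ e → (M.arc (M.L^[e] u)).a = t) := by
  rcases h with ⟨rfl, h⟩ | ⟨rfl, rfl, h⟩
  · exact ⟨h.le, ua.le, h, rfl, by simp, fun e => absurd e ua.ne, fun e => absurd e (by simp)⟩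
  · obtain ⟨p1, p2, p3⟩ := M.TL_L h
    have := (M.arc u).φb_pos
    simp only [Function.iterate_one]
    refine ⟨le_rfl, p1.ge, p1 ▸ (M.arc _).hab, ?_, ?_, fun _ => by linarith only [p3, this], fun _ => p1.symm⟩
    · unfold Arc.ra Arc.rb at p2; rw [p2, p1]
    · unfold Arc.φa Arc.φb at p3; rw [← p1] at p3; simpa using p3

theorem Adj.next {l u : X} (h : M.Adj l u) {e1 e2 : ℕ} {t : ℝ} (h1 : M.LStep l e1 t)
    (h2 : M.UStep u e2 t) (la : (M.arc l).a < t) (ua : (M.arc u).a < t)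
    (hlt : (M.arc l).r t < (M.arc u).r t) : M.Adj (M.R^[e1] l) (M.L^[e2] u) := by
  obtain ⟨a1, a2, a3, a4, -, a6, -⟩ := h1.facts la
  obtain ⟨b1, b2, b3, b4, -, b6, -⟩ := h2.facts ua
  refine adj_ext a2 a3 b2 b3 (evltR _ _ a2 a3 b2 b3 (by linarith))
    (by rw [a4, b4]; exact (h.closed la a1 ua b1).2) (fun c1 z c2 c3 => ?_) (fun c1 z c2 c3 => ?_)
  · rcases M.ss z _ (c2.trans c1.symm) c3 with d | d | d
    · exact Or.inl d
    · linarith only [d, a6, c1, a6 c1, (M.arc z).φa_pos]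
    · exact Or.inr (Or.inr (by linarith only [d, pi_pos]))
  · rcases M.ss z _ (c2.trans c1.symm) c3 with d | d | d
    · exact Or.inl d
    · exact Or.inr (Or.inr (by linarith only [d, pi_pos]))
    · linarith only [d, b6, c1, b6 c1, (M.arc z).φa_lt]

theorem Adj.step {l u : X} (h : M.Adj l u) : M.FEnd u l ∨ ∃ e1 e2 t, 1 ≤ e1 + e2 ∧
    M.LStep l e1 t ∧ M.UStep u e2 t ∧ (M.arc l).a < t ∧ (M.arc u).a < t ∧
    (M.arc l).r t < (M.arc u).r t := by
  have ⟨la, ua⟩ : (M.arc l).a < (M.arc u).b ∧ (M.arc u).a < (M.arc l).b := by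
    obtain ⟨θ, a1, a2, a3, a4, -⟩ := h
    constructor <;> linarith
  have lab := (M.arc l).hab
  have uab := (M.arc u).hab
  rcases lt_trichotomy (M.arc l).b (M.arc u).b with c | c | c
  · have d := lt_of_le_of_ne (h.closed lab le_rfl ua c.le).1
      (M.emb u l h.ne.symm _ ua c lab.le le_rfl).symm
    obtain ⟨e1, e2⟩ := h.lowOK c.le d
    exact Or.inr ⟨1, 0, _, le_rfl, Or.inr ⟨rfl, rfl, lt_of_le_of_ne e1 fun e => c.ne (e2 e.symm).1⟩,
      Or.inl ⟨rfl, c⟩, lab, ua, d⟩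
  · obtain ⟨d1, d2⟩ := h.closed lab le_rfl ua c.le
    have ub : (M.arc u).r (M.arc l).b = (M.arc u).rb := by rw [c]; rfl
    rcases d1.eq_or_lt with d | d
    · rw [ub] at d
      rcases M.ee l u c d with e | e | e
      · exact absurd e h.ne
      · exact Or.inl ⟨c, Or.inl ⟨d, e⟩⟩
      · have o := ordE _ _ c.symm d.symm (by linarith only [e, pi_pos])
        obtain ⟨θ, b1, b2, b3, b4⟩ := exLT o la uab
        linarith only [b4, h, b1, c, b3, b2, h.lt b1 (by linarith) b2 b3]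
    · obtain ⟨e1, e2⟩ := h.lowOK c.le d
      obtain ⟨f1, f2⟩ := h.upOK c.ge (by rw [← ub, ← c]; exact d)
      rw [ub] at d2
      have d' : (M.arc l).rb < (M.arc u).rb := ub ▸ d
      rcases e1.eq_or_lt with g | g
      · exact Or.inl ⟨c, Or.inr ⟨g.symm, (e2 g.symm).2, d', d2⟩⟩
      rcases f1.eq_or_lt with g' | g'
      · exact Or.inl ⟨c, Or.inr ⟨(f2 g').2, g', d', d2⟩⟩
      exact Or.inr ⟨1, 1, _, by norm_num, Or.inr ⟨rfl, rfl, g⟩, Or.inr ⟨rfl, c, g'⟩, lab, ua, d⟩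
  · have d := lt_of_le_of_ne (h.closed la c.le uab le_rfl).1
      (M.emb l u h.ne _ la c uab.le le_rfl)
    obtain ⟨e1, e2⟩ := h.upOK c.le d
    exact Or.inr ⟨0, 1, _, le_rfl, Or.inl ⟨rfl, c⟩,
      Or.inr ⟨rfl, rfl, lt_of_le_of_ne e1 fun e => c.ne' (e2 e).1⟩, la, uab, d⟩

theorem chainL {u : X} {n : ℕ} (h : ∀ i, i < n → (M.arc (M.L^[i] u)).φb < 2 * π / 3) :
    ∀ i, i < n → (M.arc u).b ≤ (M.arc (M.L^[i + 1] u)).a := by
  intro i
  induction i with
  | zero => exact fun hi => (M.TL_L (h 0 hi)).1.le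
  | succ i ih =>
    intro hi
    have := (M.TL_L (h _ hi)).1
    rw [Function.iterate_succ_apply' M.L (i + 1)]
    linarith only [this, ih, hi, ih (by omega), (M.arc (M.L^[i + 1] u)).hab]

theorem chainR {l : X} {n : ℕ} (h : ∀ i, i < n → π / 3 < (M.arc (M.R^[i] l)).φb) :
    ∀ i, i < n → (M.arc l).b ≤ (M.arc (M.R^[i + 1] l)).a := by
  intro i
  induction i with
  | zero => exact fun hi => (M.TR_R (h 0 hi)).1.le
  | succ i ih =>
    intro hi
    have := (M.TR_R (h _ hi)).1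
    rw [Function.iterate_succ_apply' M.R (i + 1)]
    linarith only [this, ih, hi, ih (by omega), (M.arc (M.R^[i + 1] l)).hab]

variable (M) in
/-- the part of a face to the right of the angle `s`: `n` turns above, `m` turns below -/
structure Sw (l u : X) (s : ℝ) (n m : ℕ) : Prop where
  uc : ∀ i, i < n → (M.arc (M.L^[i] u)).φb < 2 * π / 3
  lc : ∀ j, j < m → π / 3 < (M.arc (M.R^[j] l)).φb
  fe : M.FEnd (M.L^[n] u) (M.R^[m] l)
  bel : ∀ i, i ≤ n → ∀ j, j ≤ m → ∀ σ, s ≤ σ → σ < (M.arc (M.L^[n] u)).b →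
    (σ = s → (M.arc l).r s < (M.arc u).r s) →
    (M.arc (M.R^[j] l)).a ≤ σ → σ ≤ (M.arc (M.R^[j] l)).b →
    (M.arc (M.L^[i] u)).a ≤ σ → σ ≤ (M.arc (M.L^[i] u)).b →
    (M.arc (M.R^[j] l)).r σ < (M.arc (M.L^[i] u)).r σ
  bd : (n + m) * (π / 3) + ((M.arc (M.R^[m] l)).φb - (M.arc (M.L^[n] u)).φb) <
    (M.arc l).φ s - (M.arc u).φ s

theorem Adj.sweep_aux (k : ℕ) : ∀ {l u : X} {s : ℝ}, M.Adj l u → (M.arc l).a ≤ s →
    (M.arc u).a ≤ s → ((M.arc l).a = s ∨ (M.arc u).a = s) →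
    (M.arc l).φ s - (M.arc u).φ s + π ≤ k * (π / 3) → ∃ n m, M.Sw l u s n m := by
  induction k with
  | zero =>
    intro l u s h la ua hs hk
    have ⟨lb, ub⟩ : s < (M.arc l).b ∧ s < (M.arc u).b := by
      obtain ⟨θ, a1, a2, a3, a4, -⟩ := h
      rcases hs with rfl | rfl <;> constructor <;> linarith only [a1, a2, a4, a3]
    have := (M.arc l).φ_pos la lb.le
    have := (M.arc u).φ_lt ua ub.le
    simp at hk
    linarith
  | succ k ih =>
    intro l u s h la ua hs hk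
    have ⟨lb, ub⟩ : s < (M.arc l).b ∧ s < (M.arc u).b := by
      obtain ⟨θ, a1, a2, a3, a4, -⟩ := h
      rcases hs with rfl | rfl <;> constructor <;> linarith only [a1, a2, a4, a3]
    have base : ∀ σ, s ≤ σ → σ < (M.arc l).b → σ < (M.arc u).b →
        (σ = s → (M.arc l).r s < (M.arc u).r s) → (M.arc l).r σ < (M.arc u).r σ := by
      intro σ a1 a2 a3 a4
      rcases a1.eq_or_lt with a5 | a5
      · rw [← a5]; exact a4 a5.symm
      · exact h.lt (by linarith) a2 (by linarith) a3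
    rcases h.step with hF | ⟨e1, e2, t, he, h1, h2, la', ua', hlt⟩
    · refine ⟨0, 0, fun _ hi => absurd hi (by simp), fun _ hi => absurd hi (by simp), hF,
        fun i hi j hj σ a1 a2 a3 _ _ _ _ => ?_, ?_⟩
      · obtain rfl : i = 0 := by omega
        obtain rfl : j = 0 := by omega
        exact base σ a1 (hF.1 ▸ a2) a2 a3
      · have := Dlt (M.arc l) (M.arc u) lb la le_rfl ua hF.1.le
          (fun σ a1 a2 => h.lt (by linarith only [la, a1]) a2 (by linarith) (hF.1 ▸ a2))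
        simp only [Function.iterate_zero, id, Arc.φb, ← hF.1]
        simpa using this
    obtain ⟨a1, a2, a3, a4, a5, -, a7⟩ := h1.facts la'
    obtain ⟨b1, b2, b3, b4, b5, -, b7⟩ := h2.facts ua'
    have st : s < t := by rcases hs with rfl | rfl <;> assumption
    have D := Dlt (M.arc l) (M.arc u) st la a1 ua b1
      (fun σ c1 c2 => h.lt (by linarith only [la, c1]) (by linarith only [a1, c2]) (by linarith only [ua, c1]) (by linarith only [b1, c2]))
    have he' : (1 : ℝ) ≤ e1 + e2 := by exact_mod_cast he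
    have he'' : 1 * (π / 3) ≤ (e1 + e2) * (π / 3) :=
      mul_le_mul_of_nonneg_right he' (by positivity)
    obtain ⟨n, m, S⟩ := ih (s := t) (h.next h1 h2 la' ua' hlt) a2 b2
      (by rcases Nat.eq_zero_or_pos e1 with c | c
          · exact Or.inr (b7 (by omega))
          · exact Or.inl (a7 c))
      (by rw [a5, b5]; push_cast at hk; linarith only [D, he'', hk])
    have uc : ∀ i, i < n + e2 → (M.arc (M.L^[i] u)).φb < 2 * π / 3 := by
      intro i hi
      rcases h2 with ⟨rfl, -⟩ | ⟨rfl, -, c⟩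
      · exact S.uc i hi
      · cases i with
        | zero => exact c
        | succ i => exact S.uc i (by omega)
    have lc : ∀ i, i < m + e1 → π / 3 < (M.arc (M.R^[i] l)).φb := by
      intro i hi
      rcases h1 with ⟨rfl, -⟩ | ⟨rfl, -, c⟩
      · exact S.lc i hi
      · cases i with
        | zero => exact c
        | succ i => exact S.lc i (by omega)
    refine ⟨n + e2, m + e1, uc, lc, ?_, fun i hi j hj σ c1 c2 c3 c4 c5 c6 c7 => ?_, ?_⟩
    · rw [Function.iterate_add_apply, Function.iterate_add_apply]; exact S.fe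
    · rcases lt_or_ge σ t with d | d
      · obtain rfl : i = 0 := by
          by_contra hh
          obtain ⟨i, rfl⟩ := Nat.exists_eq_succ_of_ne_zero hh
          linarith only [b1, d, c6, uc, hi, chainL uc i (by omega)]
        obtain rfl : j = 0 := by
          by_contra hh
          obtain ⟨j, rfl⟩ := Nat.exists_eq_succ_of_ne_zero hh
          linarith only [a1, d, c4, lc, hj, chainR lc j (by omega)]
        exact base σ c1 (by linarith only [a1, d]) (by linarith only [b1, d]) c3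
      obtain ⟨j', j1, j2, j3, j4⟩ : ∃ j', j' ≤ m ∧ (M.arc (M.R^[j'] (M.R^[e1] l))).a ≤ σ ∧
          σ ≤ (M.arc (M.R^[j'] (M.R^[e1] l))).b ∧
          (M.arc (M.R^[j'] (M.R^[e1] l))).r σ = (M.arc (M.R^[j] l)).r σ := by
        rcases h1 with ⟨rfl, -⟩ | ⟨rfl, rfl, -⟩
        · exact ⟨j, hj, c4, c5, rfl⟩
        · cases j with
          | zero =>
            obtain rfl := le_antisymm d c5
            exact ⟨0, by omega, a2, a3.le, a4⟩
          | succ j => exact ⟨j, by omega, c4, c5, rfl⟩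
      obtain ⟨i', i1, i2, i3, i4⟩ : ∃ i', i' ≤ n ∧ (M.arc (M.L^[i'] (M.L^[e2] u))).a ≤ σ ∧
          σ ≤ (M.arc (M.L^[i'] (M.L^[e2] u))).b ∧
          (M.arc (M.L^[i'] (M.L^[e2] u))).r σ = (M.arc (M.L^[i] u)).r σ := by
        rcases h2 with ⟨rfl, -⟩ | ⟨rfl, rfl, -⟩
        · exact ⟨i, hi, c6, c7, rfl⟩
        · cases i with
          | zero =>
            obtain rfl := le_antisymm d c7
            exact ⟨0, by omega, b2, b3.le, b4⟩
          | succ i => exact ⟨i, by omega, c6, c7, rfl⟩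
      rw [← j4, ← i4]
      rw [Function.iterate_add_apply] at c2
      exact S.bel i' i1 j' j1 σ d c2 (fun _ => by linarith only [hlt, a4, b4]) j2 j3 i2 i3
    · have := S.bd
      rw [Function.iterate_add_apply, Function.iterate_add_apply]
      push_cast
      linarith only [a5, b5, D, this]

theorem Adj.sweep {l u : X} {s : ℝ} (h : M.Adj l u) (la : (M.arc l).a ≤ s) (ua : (M.arc u).a ≤ s)
    (hs : (M.arc l).a = s ∨ (M.arc u).a = s) : ∃ n m, M.Sw l u s n m := by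
  obtain ⟨k, hk⟩ := exists_nat_ge (((M.arc l).φ s - (M.arc u).φ s + π) / (π / 3))
  exact Adj.sweep_aux k h la ua hs ((div_le_iff₀ (by positivity)).mp hk)

end LModel

end Pool.Agent.Work.MP_dd6b33_gt
end

-- merged part: Pool.Agent.Work.MP_dd6b33_gt.Sweep4
section
/-!
Faces, coverage, origin faces and the central cycle.
-/

namespace Pool.Agent.Work.MP_dd6b33_gt

open Set Real Filter Topology

theorem TL.unmirror {x y : Arc} (h : TL x.mirror y.mirror) : TL y x := by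
  obtain ⟨h1, h2, h3⟩ := h
  simp at h1 h2 h3
  exact ⟨h1.symm, h2.symm, by linarith only [h3]⟩

theorem TR.unmirror {x y : Arc} (h : TR x.mirror y.mirror) : TR y x := by
  obtain ⟨h1, h2, h3⟩ := h
  simp at h1 h2 h3
  exact ⟨h1.symm, h2.symm, by linarith only [h3]⟩

theorem Arc.vt (x : Arc) : x.a + x.φa < x.b + x.φb := by
  have := x.N0 le_rfl x.hab le_rfl
  unfold Arc.φa Arc.φb
  linarith

namespace LModel

variable {X : Type} {M : LModel X}

variable (M) in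
/-- a radial segment joins the end of `x` to the end of `y` -/
def Seg (x y : X) : Prop :=
  (M.arc x).φb = π / 3 ∧ (M.arc y).b = (M.arc x).b ∧ (M.arc y).φb = 2 * π / 3 ∧
    (M.arc x).rb < (M.arc y).rb ∧ NoBetween M.arc (M.arc x).b (M.arc x).rb (M.arc y).rb

theorem rb_eq {x y : X} (h : (M.arc y).b = (M.arc x).b) : (M.arc y).r (M.arc x).b = (M.arc y).rb := by
  rw [← h]; rfl

theorem Seg.uniq {x y z : X} (h : M.Seg x y) (h' : M.Seg x z) : y = z := by
  obtain ⟨-, a2, a3, a4, a5⟩ := h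
  obtain ⟨-, b2, b3, b4, b5⟩ := h'
  have c1 := a5 z (b2 ▸ (M.arc z).hab.le) b2.ge
  have c2 := b5 y (a2 ▸ (M.arc y).hab.le) a2.ge
  rw [rb_eq b2] at c1
  rw [rb_eq a2] at c2
  exact M.end_eq (a2.trans b2.symm) (by rcases c1 with c | c <;> rcases c2 with d | d <;> linarith only [b4, c, a4, d])
    (by linarith only [a3, b3, pi_pos]) (by linarith only [a3, b3, pi_pos])

theorem Seg.inj {x y z : X} (h : M.Seg x z) (h' : M.Seg y z) : x = y := by
  obtain ⟨a1, a2, -, a4, a5⟩ := h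
  obtain ⟨b1, b2, -, b4, b5⟩ := h'
  have e : (M.arc y).b = (M.arc x).b := b2.symm.trans a2
  have c1 := a5 y (e ▸ (M.arc y).hab.le) e.ge
  have c2 := b5 x (e ▸ (M.arc x).hab.le) e.le
  rw [rb_eq e] at c1
  rw [rb_eq e.symm] at c2
  exact M.end_eq e.symm (by rcases c1 with c | c <;> rcases c2 with d | d <;> linarith only [c, d, a4, b4])
    (by linarith only [a1, b1, pi_pos]) (by linarith only [a1, b1, pi_pos])

theorem Seg.not_top {x y : X} (h : M.Seg x y) : ¬ M.Top x := fun t => by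
  have := t.nab y (h.2.1 ▸ (M.arc y).hab.le) h.2.1.ge
  rw [rb_eq h.2.1] at this
  linarith [h.2.2.2.1]

theorem Seg.not_od {x y : X} (h : M.Seg x y) : ¬ Od M.arc y := fun t => by
  have := t.2 x (h.2.1 ▸ (M.arc x).hab.le) h.2.1.le
  rw [rb_eq h.2.1.symm] at this
  linarith [h.2.2.2.1]

theorem seg_up {x : X} (h1 : (M.arc x).φb = π / 3) (h2 : ¬ M.Top x) : ∃ y, M.Seg x y := by
  rcases M.up x h1 with h | ⟨y, h⟩
  · exact absurd (top_ext' h h1.ge) h2
  · exact ⟨y, h1, h⟩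

theorem seg_down {y : X} (h1 : (M.arc y).φb = 2 * π / 3) (h2 : ¬ Od M.arc y) : ∃ x, M.Seg x y := by
  rcases M.down y h1 with h | ⟨x, a1, a2, a3, a4⟩
  · exact absurd ⟨h1, h⟩ h2
  · exact ⟨x, a2, a1.symm, h1, a3, a1 ▸ a4⟩

variable (M) in
open Classical in
/-- the arc ending at the upper end of the radial segment -/
noncomputable def upS (x : X) : X := if h : ∃ y, M.Seg x y then h.choose else x

theorem Seg.up_eq {x y : X} (h : M.Seg x y) : M.upS x = y := by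
  have h' : ∃ y, M.Seg x y := ⟨y, h⟩
  unfold upS
  rw [dif_pos h']
  exact h'.choose_spec.uniq h

variable (M) in
/-- left end of a face -/
def FBeg (u l : X) : Prop :=
  (M.arc l).a = (M.arc u).a ∧
    (((M.arc l).ra = (M.arc u).ra ∧ (M.arc l).φa = (M.arc u).φa + 2 * π / 3) ∨
      ((M.arc u).φa = π / 3 ∧ (M.arc l).φa = 2 * π / 3 ∧ (M.arc l).ra < (M.arc u).ra ∧
        NoBetween M.arc (M.arc l).a (M.arc l).ra (M.arc u).ra))

theorem FBeg.adj {u l : X} (h : M.FBeg u l) : M.Adj l u := by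
  obtain ⟨h1, h2⟩ := h
  have e : (M.arc u).r (M.arc l).a = (M.arc u).ra := by rw [h1]; rfl
  have ub : (M.arc l).a < (M.arc u).b := h1 ▸ (M.arc u).hab
  rcases h2 with ⟨a1, a2⟩ | ⟨a1, a2, a3, a4⟩
  · have key : ∀ z, (M.arc z).a = (M.arc l).a → (M.arc z).ra = (M.arc l).ra → z = l ∨ z = u := by
      intro z c1 c2
      rcases M.ss z l c1 c2 with d | d | d
      · exact Or.inl d
      · exact Or.inr (M.start_eq (c1.trans h1) (c2.trans a1) (by linarith only [a2, d, pi_pos])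
          (by linarith only [a2, d, pi_pos]))
      · linarith only [a2, d, (M.arc z).φa_lt, (M.arc u).φa_pos, pi_pos]
    refine adj_ext le_rfl (M.arc l).hab h1.ge ub
      (h1 ▸ ordS _ _ h1.symm a1.symm (by linarith only [a2, pi_pos]))
      (fun z _ _ => by rw [e, ← a1]; exact le_total _ _)
      (fun _ z c1 c2 => (key z c1 c2).imp_right Or.inl)
      (fun _ z c1 c2 => (key z c1 (c2.trans a1.symm)).symm.imp_right Or.inl)
  · refine adj_ext le_rfl (M.arc l).hab h1.ge ub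
      (evltR _ _ le_rfl (M.arc l).hab h1.ge ub (e ▸ a3)) (e ▸ a4)
      (fun _ z c1 c2 => Or.inl (M.start_eq c1 c2 (by linarith only [a2, (M.arc z).φa_pos])
        (by linarith only [a2, (M.arc z).φa_lt, pi_pos])))
      (fun _ z c1 c2 => Or.inl (M.start_eq (c1.trans h1) c2 (by linarith only [a1, (M.arc z).φa_pos, pi_pos])
        (by linarith only [a1, (M.arc z).φa_lt])))

variable (M) in
/-- a bounded face with `n + 1` upper arcs and `m + 1` lower arcs -/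
structure RFace (u l : X) (n m : ℕ) : Prop where
  beg : M.FBeg u l
  uc : ∀ i, i < n → (M.arc (M.L^[i] u)).φb < 2 * π / 3
  lc : ∀ j, j < m → π / 3 < (M.arc (M.R^[j] l)).φb
  fe : M.FEnd (M.L^[n] u) (M.R^[m] l)
  bel : ∀ i, i ≤ n → ∀ j, j ≤ m → ∀ σ, (M.arc u).a < σ → σ < (M.arc (M.L^[n] u)).b →
    (M.arc (M.R^[j] l)).a ≤ σ → σ ≤ (M.arc (M.R^[j] l)).b →
    (M.arc (M.L^[i] u)).a ≤ σ → σ ≤ (M.arc (M.L^[i] u)).b →
    (M.arc (M.R^[j] l)).r σ < (M.arc (M.L^[i] u)).r σ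
  bd : (n + m) * (π / 3) + ((M.arc (M.R^[m] l)).φb - (M.arc (M.L^[n] u)).φb) <
    (M.arc l).φa - (M.arc u).φa

theorem FBeg.face {u l : X} (h : M.FBeg u l) : ∃ n m, M.RFace u l n m := by
  obtain ⟨n, m, S⟩ := h.adj.sweep (s := (M.arc u).a) h.1.le le_rfl (Or.inr rfl)
  refine ⟨n, m, h, S.uc, S.lc, S.fe, fun i hi j hj σ a1 a2 =>
    S.bel i hi j hj σ a1.le a2 (fun e => absurd e a1.ne'), ?_⟩
  have := S.bd
  unfold Arc.φa
  rwa [h.1]

theorem ex_generic (x : X) : ∃ θ, (M.arc x).a < θ ∧ θ < (M.arc x).b ∧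
    ∀ z, (M.arc z).a ≤ θ → θ ≤ (M.arc z).b → (M.arc z).a < θ ∧ θ < (M.arc z).b := by
  have hf := M.fin (M.arc x).a (M.arc x).b
  obtain ⟨θ, h1, h2⟩ := (Ioo_infinite (M.arc x).hab).exists_notMem_finite
    ((hf.image fun z => (M.arc z).a).union (hf.image fun z => (M.arc z).b))
  refine ⟨θ, h1.1, h1.2, fun z a1 a2 => ?_⟩
  have hz : z ∈ {y | (M.arc y).a ≤ (M.arc x).b ∧ (M.arc x).a ≤ (M.arc y).b} :=
    ⟨by linarith [h1.2], by linarith [h1.1]⟩
  exact ⟨lt_of_le_of_ne a1 fun e => h2 (Or.inl ⟨z, hz, e⟩),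
    lt_of_le_of_ne a2 fun e => h2 (Or.inr ⟨z, hz, e.symm⟩)⟩

theorem ex_above {x : X} (h : ¬ M.Top x) : ∃ u, M.Adj x u := by
  obtain ⟨θ, a1, a2, a3⟩ := ex_generic (M := M) x
  have : ¬ NoAbove M.arc θ ((M.arc x).r θ) := fun hh => h (top_of_one a1 a2 hh)
  unfold NoAbove at this
  push Not at this
  obtain ⟨z, z1, z2, z3⟩ := this
  obtain ⟨u, ⟨u1, u2, u3⟩, u4⟩ := exists_min_image
    {z | (M.arc z).a ≤ θ ∧ θ ≤ (M.arc z).b ∧ (M.arc x).r θ < (M.arc z).r θ}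
    (fun z => (M.arc z).r θ) ((M.fin θ θ).subset fun z hz => ⟨hz.1, hz.2.1⟩) ⟨z, z1, z2, z3⟩
  exact ⟨u, θ, a1, a2, (a3 u u1 u2).1, (a3 u u1 u2).2, u3, fun y y1 y2 =>
    (le_or_gt _ _).imp_right fun y3 => u4 y ⟨y1, y2, y3⟩⟩

theorem ex_below {x : X} (h : ¬ M.Bot x) : ∃ l, M.Adj l x := by
  obtain ⟨θ, a1, a2, a3⟩ := ex_generic (M := M) x
  have : ¬ NoBelow M.arc θ ((M.arc x).r θ) := fun hh => h (bot_of_one a1 a2 hh)
  unfold NoBelow at this
  push Not at this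
  obtain ⟨z, z1, z2, z3⟩ := this
  obtain ⟨u, ⟨u1, u2, u3⟩, u4⟩ := exists_max_image
    {z | (M.arc z).a ≤ θ ∧ θ ≤ (M.arc z).b ∧ (M.arc z).r θ < (M.arc x).r θ}
    (fun z => (M.arc z).r θ) ((M.fin θ θ).subset fun z hz => ⟨hz.1, hz.2.1⟩) ⟨z, z1, z2, z3⟩
  exact ⟨u, θ, (a3 u u1 u2).1, (a3 u u1 u2).2, a1, a2, u3, fun y y1 y2 =>
    ((le_or_gt _ _).imp_right fun y3 => u4 y ⟨y1, y2, y3⟩).symm⟩

theorem backR {x : X} (m : ℕ) (h : ∀ j, j < m → π / 3 < (M.mirror.arc (M.mirror.R^[j] x)).φb) :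
    (∀ i, i < m → π / 3 < (M.arc (M.R^[i] (M.mirror.R^[m] x))).φb) ∧
      M.R^[m] (M.mirror.R^[m] x) = x := by
  induction m with
  | zero => exact ⟨fun _ hi => absurd hi (by simp), rfl⟩
  | succ m ih =>
    obtain ⟨i1, i2⟩ := ih fun j hj => h j (by omega)
    have t := (M.mirror.TR_R (h m (by omega))).unmirror
    have e := M.R_eq t
    rw [Function.iterate_succ_apply' M.mirror.R]
    refine ⟨fun i hi => ?_, by rw [Function.iterate_succ_apply, e, i2]⟩
    cases i with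
    | zero => exact (show π / 3 < (M.arc (M.mirror.R _)).φb by
        linarith only [t, t.2.2, (M.arc (M.mirror.R^[m] x)).φa_pos])
    | succ i => rw [Function.iterate_succ_apply, e]; exact i1 i (by omega)

theorem backL {x : X} (m : ℕ) (h : ∀ j, j < m → (M.mirror.arc (M.mirror.L^[j] x)).φb < 2 * π / 3) :
    (∀ i, i < m → (M.arc (M.L^[i] (M.mirror.L^[m] x))).φb < 2 * π / 3) ∧
      M.L^[m] (M.mirror.L^[m] x) = x := by
  induction m with
  | zero => exact ⟨fun _ hi => absurd hi (by simp), rfl⟩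
  | succ m ih =>
    obtain ⟨i1, i2⟩ := ih fun j hj => h j (by omega)
    have t := (M.mirror.TL_L (h m (by omega))).unmirror
    have e := M.L_eq t
    rw [Function.iterate_succ_apply' M.mirror.L]
    refine ⟨fun i hi => ?_, by rw [Function.iterate_succ_apply, e, i2]⟩
    cases i with
    | zero => exact (show (M.arc (M.mirror.L _)).φb < 2 * π / 3 by
        linarith only [t, t.2.2, (M.arc (M.mirror.L^[m] x)).φa_lt])
    | succ i => rw [Function.iterate_succ_apply, e]; exact i1 i (by omega)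

theorem FEnd.low {u l : X} (h : M.FEnd u l) : (M.arc l).φb ≤ π / 3 := by
  rcases h.2 with h | h
  · linarith only [h, h.2, (M.arc u).φb_lt]
  · exact h.1.le

theorem FEnd.upp {u l : X} (h : M.FEnd u l) : 2 * π / 3 ≤ (M.arc u).φb := by
  rcases h.2 with h | h
  · linarith only [h, h.2, (M.arc l).φb_pos]
  · exact h.2.1.ge

theorem Adj.sweep' {l u : X} (h : M.Adj l u) : ∃ s n m, M.Sw l u s n m := by
  rcases le_total (M.arc l).a (M.arc u).a with c | c
  · exact ⟨_, h.sweep c le_rfl (Or.inr rfl)⟩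
  · exact ⟨_, h.sweep le_rfl c (Or.inl rfl)⟩

theorem covL {x : X} (h : ¬ M.Top x) : ∃ l j, 2 * π / 3 ≤ (M.arc l).φa ∧
    (∀ i, i < j → π / 3 < (M.arc (M.R^[i] l)).φb) ∧ M.R^[j] l = x := by
  obtain ⟨u, hu⟩ := ex_above h
  obtain ⟨s, n, m, S⟩ := hu.mirror.sweep'
  have := S.fe.low
  simp only [mirror_arc, Arc.mirror_φb] at this
  exact ⟨_, m, by linarith only [this], backR m S.lc⟩

theorem covU1 {x : X} (h : ¬ M.Bot x) : ∃ u i, (M.arc u).φa ≤ π / 3 ∧
    (∀ j, j < i → (M.arc (M.L^[j] u)).φb < 2 * π / 3) ∧ M.L^[i] u = x := by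
  obtain ⟨l, hl⟩ := ex_below h
  obtain ⟨s, n, m, S⟩ := hl.mirror.sweep'
  have := S.fe.upp
  simp only [mirror_arc, Arc.mirror_φb] at this
  exact ⟨_, n, by linarith only [this], backL n S.uc⟩

theorem botChain_aux {q : X} (hq : Od M.arc q) (k : ℕ) : ∀ {x : X}, M.Bot x →
    (M.arc x).a < (M.arc q).b → (M.arc q).b + π - ((M.arc x).a + (M.arc x).φa) ≤ k * (π / 3) →
    ∃ n : ℕ, (∀ i, i < n → (M.arc (M.L^[i] x)).φb < 2 * π / 3) ∧ Od M.arc (M.L^[n] x) ∧
      (M.arc (M.L^[n] x)).b ≤ (M.arc q).b ∧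
      n * (π / 3) + ((M.arc x).a + (M.arc x).φa) < (M.arc (M.L^[n] x)).b + 2 * π / 3 := by
  induction k with
  | zero =>
    intro x _ h1 h2
    simp at h2
    linarith [(M.arc x).φa_lt]
  | succ k ih =>
    intro x hx h1 h2
    have qab := (M.arc q).hab
    have hb : (M.arc x).b ≤ (M.arc q).b := by
      by_contra hh
      push Not at hh
      exact M.emb x q (by rintro rfl; linarith only [hh]) _ h1 hh qab.le le_rfl
        (le_antisymm (hx _ h1 hh q qab.le le_rfl) (hq.2 x h1.le hh.le))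
    have v := (M.arc x).vt
    rcases hx.φb.eq_or_lt with c | c
    · exact ⟨0, fun _ hi => absurd hi (by simp), ⟨c, hx.nbb⟩, hb, by simp; linarith only [v, c]⟩
    have hb' : (M.arc x).b < (M.arc q).b := lt_of_le_of_ne hb fun e => by
      have e1 := hx.nbb q (by linarith only [qab, e]) hb
      have e2 := hq.2 x h1.le e.ge
      rw [rb_eq e.symm] at e1
      rw [rb_eq e] at e2
      have : x = q := M.end_eq e (le_antisymm e1 e2) (by linarith only [hq, hq.1, (M.arc x).φb_pos])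
        (by linarith only [c, hq, hq.1, pi_pos])
      rw [this] at c
      linarith only [c, hq, hq.1]
    have t := M.TL_L c
    obtain ⟨n, n1, n2, n3, n4⟩ := ih ((bot_TL t).mpr hx) (by linarith only [hb', t, t.1])
      (by push_cast at h2; linarith only [v, h2, t, t.1, t.2.2])
    refine ⟨n + 1, fun i hi => ?_, n2, n3, ?_⟩
    · cases i with
      | zero => exact c
      | succ i => exact n1 i (by omega)
    · rw [Function.iterate_succ_apply]
      push_cast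
      linarith only [v, n4, t, t.1, t.2.2]

theorem botChain {q x : X} (hq : Od M.arc q) (hx : M.Bot x) (h : (M.arc x).a < (M.arc q).b) :
    ∃ n : ℕ, (∀ i, i < n → (M.arc (M.L^[i] x)).φb < 2 * π / 3) ∧ Od M.arc (M.L^[n] x) ∧
      (M.arc (M.L^[n] x)).b ≤ (M.arc q).b ∧
      n * (π / 3) + ((M.arc x).a + (M.arc x).φa) < (M.arc (M.L^[n] x)).b + 2 * π / 3 := by
  obtain ⟨k, hk⟩ := exists_nat_ge (((M.arc q).b + π - ((M.arc x).a + (M.arc x).φa)) / (π / 3))
  exact botChain_aux hq k hx h ((div_le_iff₀ (by positivity)).mp hk)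

theorem covU2 {x q : X} (hx : M.Bot x) (hq : Od M.arc q) (h : (M.arc q).b < (M.arc x).b) :
    ∃ u i, (M.arc u).φa ≤ π / 3 ∧
      (∀ j, j < i → (M.arc (M.L^[j] u)).φb < 2 * π / 3) ∧ M.L^[i] u = x := by
  have t := M.TR_R (x := q) (by linarith only [hq, hq.1, pi_pos])
  have o : Od M.mirror.arc (M.R q) := ⟨by simp; linarith only [hq, t, hq.1, t.2.2],
    M.noBelow_mirror.mpr (by simp; rw [← t.1, ← t.2.1]; exact hq.2)⟩
  obtain ⟨n, n1, n2, -⟩ := botChain o (bot_mirror.mpr hx) (by simp; linarith [t.1])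
  have := n2.1
  simp only [mirror_arc, Arc.mirror_φb] at this
  exact ⟨_, n, by linarith only [this], backL n n1⟩

theorem central_aux (ho : ∀ y, ¬ Od M.arc y) {y : X} (hy : M.Bot y) (k : ℕ) : ∀ {x : X}, M.Bot x →
    (M.arc x).a ≤ (M.arc y).a → (M.arc y).a + π - ((M.arc x).a + (M.arc x).φa) ≤ k * (π / 3) →
    x = y ∨ (M.arc x).a + (M.arc x).φa + π / 3 < (M.arc y).a + (M.arc y).φa := by
  induction k with
  | zero =>
    intro x _ h1 h2
    simp at h2
    linarith [(M.arc x).φa_lt]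
  | succ k ih =>
    intro x hx h1 h2
    have yab := (M.arc y).hab
    have xab := (M.arc x).hab
    rcases h1.eq_or_lt with e | h1
    · have e1 := hx.nba y e.ge (by linarith only [h1, yab])
      have e2 := hy.nba x e.le (by linarith)
      refine Or.inl (M.start_eq e (le_antisymm (by rw [e] at e1; exact e1) (by rw [← e] at e2; exact e2))
        (by linarith only [hx, hx.φa, (M.arc y).φa_lt]) (by linarith only [hy, hy.φa, (M.arc x).φa_lt]))
    have hb : (M.arc x).b ≤ (M.arc y).a := by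
      by_contra hh
      push Not at hh
      exact M.emb x y (by rintro rfl; linarith) _ h1 hh le_rfl yab.le
        (le_antisymm (hx _ h1 hh y le_rfl yab.le) (hy.nba x h1.le hh.le))
    have v := (M.arc x).vt
    have c : (M.arc x).φb < 2 * π / 3 := lt_of_le_of_ne hx.φb fun c => ho x ⟨c, hx.nbb⟩
    have t := M.TL_L c
    right
    rcases ih ((bot_TL t).mpr hx) (by linarith only [hb, t, t.1])
      (by push_cast at h2; linarith only [v, h2, t, t.1, t.2.2]) with d | d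
    · rw [← d]; linarith only [v, t, t.1, t.2.2]
    · linarith only [v, d, t, t.1, t.2.2, pi_pos]

theorem central (ho : ∀ y, ¬ Od M.arc y) {x y : X} (hx : M.Bot x) (hy : M.Bot y) (hne : x ≠ y) :
    π / 3 < |(M.arc x).a + (M.arc x).φa - ((M.arc y).a + (M.arc y).φa)| := by
  rcases le_total (M.arc x).a (M.arc y).a with h | h
  · obtain ⟨k, hk⟩ := exists_nat_ge (((M.arc y).a + π - ((M.arc x).a + (M.arc x).φa)) / (π / 3))
    have := (central_aux ho hy k hx h ((div_le_iff₀ (by positivity)).mp hk)).resolve_left hne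
    exact lt_abs.mpr (Or.inr (by linarith only [this]))
  · obtain ⟨k, hk⟩ := exists_nat_ge (((M.arc x).a + π - ((M.arc y).a + (M.arc y).φa)) / (π / 3))
    have := (central_aux ho hx k hy h ((div_le_iff₀ (by positivity)).mp hk)).resolve_left hne.symm
    exact lt_abs.mpr (Or.inl (by linarith only [this]))

end LModel

end Pool.Agent.Work.MP_dd6b33_gt
end

-- merged part: Pool.Agent.Work.MP_dd6b33_gt.ExtractModel
section
/-!
The sweep model of an abstract network, and the count of unbounded curves.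
-/

namespace Pool.Agent.Work.MP_dd6b33_gt

open Set Real

namespace Net

variable {ι W : Type} (N : Net ι W)

/-- at an end pointing radially inwards there is a terminal end with angle `2π/3` -/
theorem fromOut {y : W} {ρ β : ℝ} (hρ : 0 < ρ) (hp : N.pt y = ρ * ei β) (hd : N.dir y = -ei β) :
    ∃ x : N.E × ℤ, (N.arc x).b = β ∧ (N.arc x).rb = ρ ∧ (N.arc x).φb = 2 * π / 3 := by
  obtain ⟨w, h1, h2⟩ := N.rot y
  have hpi := pi_pos
  obtain ⟨x, -, h3, h4, h5⟩ := N.clsT (w := w) (β := β) (α := 2 * π / 3) hρ (by linarith only [hpi])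
    (by linarith) (by rw [h1, hp]) (by rw [h2, hd, mul_neg, ← ei_add, add_comm])
  exact ⟨x, h3, h4, h5⟩

/-- at an end pointing radially outwards there is a terminal end with angle `π/3` -/
theorem fromIn {y : W} {ρ β : ℝ} (hρ : 0 < ρ) (hp : N.pt y = ρ * ei β) (hd : N.dir y = ei β) :
    ∃ x : N.E × ℤ, (N.arc x).b = β ∧ (N.arc x).rb = ρ ∧ (N.arc x).φb = π / 3 := by
  obtain ⟨w, h1, h2⟩ := N.rot2 y
  have hpi := pi_pos
  obtain ⟨x, -, h3, h4, h5⟩ := N.clsT (w := w) (β := β) (α := π / 3) hρ (by linarith only [hpi])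
    (by linarith) (by rw [h1, hp]) (by
      rw [h2, hd, ← ei_add_pi, ← ei_add]
      congr 1
      ring)
  exact ⟨x, h3, h4, h5⟩

theorem upEnd (x : N.E × ℤ) (h : (N.arc x).φb = π / 3) :
    ∃ w, N.pt w = (N.arc x).rb * ei (N.arc x).b ∧ N.dir w = ei (N.arc x).b := by
  obtain ⟨w, h1, h2⟩ := N.rot (N.tm x.1)
  refine ⟨w, by rw [h1, tmP], ?_⟩
  rw [h2, tmD, h, ← ei_add_pi, ← ei_add, ← ei_add_two_pi (N.arc x).b]
  congr 1
  ring

theorem downEnd (x : N.E × ℤ) (h : (N.arc x).φb = 2 * π / 3) :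
    ∃ w, N.pt w = (N.arc x).rb * ei (N.arc x).b ∧ N.dir w = -ei (N.arc x).b := by
  obtain ⟨w, h1, h2⟩ := N.rot2 (N.tm x.1)
  refine ⟨w, by rw [h1, tmP], ?_⟩
  rw [h2, tmD, h, mul_neg, ← ei_add, ← ei_add_two_pi (N.arc x).b]
  congr 2
  ring

theorem noAbove_of {i : ι} (hi : N.rad i) {β lo : ℝ}
    (h : ∀ ρ, lo < ρ → (ρ : ℂ) * ei β ∈ N.In i) : NoAbove N.arc β lo := fun z h1 h2 =>
  not_lt.1 fun h3 => N.noArc hi z h1 h2 (h _ h3)

theorem noBelow_of {i : ι} (hi : N.rad i) {β hi' : ℝ}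
    (h : ∀ ρ, 0 < ρ → ρ < hi' → (ρ : ℂ) * ei β ∈ N.In i) : NoBelow N.arc β hi' := fun z h1 h2 =>
  not_lt.1 fun h3 => N.noArc hi z h1 h2 (h _ ((N.arc z).rpos _ ⟨h1, h2⟩) h3)

theorem noBetween_of {i : ι} (hi : N.rad i) {β lo hi' : ℝ}
    (h : ∀ ρ, lo < ρ → ρ < hi' → (ρ : ℂ) * ei β ∈ N.In i) : NoBetween N.arc β lo hi' := by
  intro z h1 h2
  by_contra h3
  rw [not_or, not_le, not_le] at h3
  exact N.noArc hi z h1 h2 (h _ h3.1 h3.2)

theorem up (x : N.E × ℤ) (h : (N.arc x).φb = π / 3) :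
    NoAbove N.arc (N.arc x).b (N.arc x).rb ∨
    ∃ y, (N.arc y).b = (N.arc x).b ∧ (N.arc y).φb = 2 * π / 3 ∧ (N.arc x).rb < (N.arc y).rb ∧
      NoBetween N.arc (N.arc x).b (N.arc x).rb (N.arc y).rb := by
  obtain ⟨w, hp, hd⟩ := N.upEnd x h
  have hr := N.clsR_out hp hd
  have key : ∀ ρ : ℝ, (ρ : ℂ) * ei (N.arc x).b = N.pt w + (ρ - (N.arc x).rb : ℝ) * N.dir w := by
    intro ρ
    rw [hp, hd]
    push_cast
    ring
  by_cases hu : N.unb (N.cv w)
  · left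
    refine N.noAbove_of hr fun ρ hρ => ?_
    rw [key]
    exact N.rad_unb w hu _ (by linarith)
  · right
    obtain ⟨y, l, -, -, hl, h1, h2, h3⟩ := N.rad_bd w hr hu
    have hb := (N.arc x).rb_pos
    obtain ⟨z, h4, h5, h6⟩ := N.fromOut (y := y) (ρ := (N.arc x).rb + l) (β := (N.arc x).b)
      (by linarith) (by rw [h1, hp, hd]; push_cast; ring) (by rw [h2, hd])
    refine ⟨z, h4, h6, by linarith, N.noBetween_of hr fun ρ h7 h8 => ?_⟩
    rw [key]
    exact h3 _ (by linarith) (by linarith)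

theorem down (x : N.E × ℤ) (h : (N.arc x).φb = 2 * π / 3) :
    NoBelow N.arc (N.arc x).b (N.arc x).rb ∨
    ∃ y, (N.arc y).b = (N.arc x).b ∧ (N.arc y).φb = π / 3 ∧ (N.arc y).rb < (N.arc x).rb ∧
      NoBetween N.arc (N.arc x).b (N.arc y).rb (N.arc x).rb := by
  obtain ⟨w, hp, hd⟩ := N.downEnd x h
  have hr := N.clsR_in hp hd
  have key : ∀ ρ : ℝ, (ρ : ℂ) * ei (N.arc x).b = N.pt w + ((N.arc x).rb - ρ : ℝ) * N.dir w := by
    intro ρ
    rw [hp, hd]
    push_cast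
    ring
  by_cases hu : N.unb (N.cv w)
  · left
    refine N.noBelow_of hr fun ρ _ hρ => ?_
    rw [key]
    exact N.rad_unb w hu _ (by linarith)
  · obtain ⟨y, l, -, -, hl, h1, h2, h3⟩ := N.rad_bd w hr hu
    rcases le_or_gt (N.arc x).rb l with hle | hlt
    · left
      refine N.noBelow_of hr fun ρ h0 hρ => ?_
      rw [key]
      exact h3 _ (by linarith) (by linarith)
    · right
      obtain ⟨z, h4, h5, h6⟩ := N.fromIn (y := y) (ρ := (N.arc x).rb - l) (β := (N.arc x).b)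
        (by linarith) (by rw [h1, hp, hd]; push_cast; ring) (by rw [h2, hd, neg_neg])
      refine ⟨z, h4, h6, by linarith, N.noBetween_of hr fun ρ h7 h8 => ?_⟩
      rw [key]
      exact h3 _ (by linarith) (by linarith)

theorem succ (x : N.E × ℤ) : ∃ y, (N.arc y).a = (N.arc x).b := by
  rcases lt_or_ge (N.arc x).φb (2 * π / 3) with h | h
  · obtain ⟨y, hy⟩ := N.exL x h
    exact ⟨y, hy.1.symm⟩
  · obtain ⟨y, hy⟩ := N.exR x (by linarith only [h, pi_pos])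
    exact ⟨y, hy.1.symm⟩

/-- every angle is covered by a lifted arc -/
theorem cover [Finite ι] (e : N.E) (θ : ℝ) : ∃ x, (N.arc x).a ≤ θ ∧ θ ≤ (N.arc x).b := by
  have hp := pi_pos
  set x0 : N.E × ℤ := (e, ⌊(θ - (N.A e).a) / (2 * π)⌋) with hx0
  have h0 : (N.arc x0).a ≤ θ := by
    rw [arc_a]
    have := Int.floor_le ((θ - (N.A e).a) / (2 * π))
    rw [le_div_iff₀ (by positivity)] at this
    simp only [hx0]
    linarith only [this]
  obtain ⟨x, hx, hmax⟩ := Set.exists_max_image _ (fun x => (N.arc x).b) (N.fin (N.arc x0).b θ)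
    ⟨x0, h0, le_rfl⟩
  refine ⟨x, hx.1, not_lt.1 fun hlt => ?_⟩
  obtain ⟨y, hy⟩ := N.succ x
  have h1 := (N.arc y).hab
  have h2 := hmax y ⟨by linarith, by linarith [hx.2]⟩
  linarith

theorem noHalf [Finite ι] (e : N.E) {i : ι} (hi : N.rad i) (β : ℝ) :
    ¬ ∀ ρ : ℝ, 0 < ρ → (ρ : ℂ) * ei β ∈ N.In i := fun h => by
  obtain ⟨x, h1, h2⟩ := N.cover e β
  exact N.noArc hi x h1 h2 (h _ ((N.arc x).rpos _ ⟨h1, h2⟩))

/-- structure of the radial segment below an arc of type `Od` -/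
theorem odSeg [Finite ι] (x : N.E × ℤ) (h : Od N.arc x) :
    ∃ w y, ∃ l : ℝ, N.pt w = (N.arc x).rb * ei (N.arc x).b ∧ N.dir w = -ei (N.arc x).b ∧
      N.rad (N.cv w) ∧ N.cv y = N.cv w ∧ y ≠ w ∧ (N.arc x).rb ≤ l ∧
      N.pt y = ((N.arc x).rb - l : ℝ) * ei (N.arc x).b ∧ N.dir y = ei (N.arc x).b ∧
      ∀ ρ : ℝ, (N.arc x).rb - l < ρ → ρ < (N.arc x).rb → (ρ : ℂ) * ei (N.arc x).b ∈ N.In (N.cv w) := by
  obtain ⟨w, hp, hd⟩ := N.downEnd x h.1
  have hr := N.clsR_in hp hd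
  have hb := (N.arc x).rb_pos
  have key : ∀ ρ : ℝ, (ρ : ℂ) * ei (N.arc x).b = N.pt w + ((N.arc x).rb - ρ : ℝ) * N.dir w := by
    intro ρ
    rw [hp, hd]
    push_cast
    ring
  have hu : ¬ N.unb (N.cv w) := fun hu => by
    refine N.noHalf x.1 hr ((N.arc x).b + π) fun ρ hρ => ?_
    have := key (-ρ)
    rw [ei_add_pi, show (ρ : ℂ) * -ei (N.arc x).b = ((-ρ : ℝ) : ℂ) * ei (N.arc x).b by
      push_cast; ring, this]
    exact N.rad_unb w hu _ (by linarith)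
  obtain ⟨y, l, h01, h02, hl, h1, h2, h3⟩ := N.rad_bd w hr hu
  have hy : N.pt y = ((N.arc x).rb - l : ℝ) * ei (N.arc x).b := by
    rw [h1, hp, hd]; push_cast; ring
  have hy2 : N.dir y = ei (N.arc x).b := by rw [h2, hd, neg_neg]
  refine ⟨w, y, l, hp, hd, hr, h01, h02, not_lt.1 fun hlt => ?_, hy, hy2, fun ρ h7 h8 => ?_⟩
  · obtain ⟨z, h4, h5, -⟩ := N.fromIn (y := y) (by linarith) hy hy2
    have h6 := h.2 z (by rw [← h4]; exact (N.arc z).hab.le) h4.ge
    rw [← h4] at h6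
    have h7 : (N.arc z).r (N.arc z).b = (N.arc z).rb := rfl
    linarith
  · rw [key]
    exact h3 _ (by linarith) (by linarith)

theorem od_inj {e e' : N.E} {w : W} (h : Od N.arc (e, 0)) (h' : Od N.arc (e', 0))
    (h1 : N.pt w = (N.arc (e, 0)).rb * ei (N.arc (e, 0)).b) (h2 : N.dir w = -ei (N.arc (e, 0)).b)
    (h3 : N.pt w = (N.arc (e', 0)).rb * ei (N.arc (e', 0)).b)
    (h4 : N.dir w = -ei (N.arc (e', 0)).b) : e = e' := by
  have h5 : N.tm e = N.tm e' := by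
    apply N.uniq
    · rw [N.tmP (e, 0), N.tmP (e', 0), ← h1, h3]
    · rw [N.tmD (e, 0), N.tmD (e', 0), h.1, h'.1, ei_add, ei_add, neg_inj.1 (h2.symm.trans h4)]
  exact Subtype.ext (by rw [← N.tm_cv, h5, N.tm_cv])

theorem two' (i : ι) : {w | N.cv w = i}.ncard ≤ 2 := by
  obtain ⟨w, hw⟩ := N.has_end i
  by_cases h : ∃ y, N.cv y = i ∧ y ≠ w
  · obtain ⟨y, h1, h2⟩ := h
    have : {w | N.cv w = i} ⊆ {w, y} := fun z hz => by
      by_cases h3 : z = w
      · exact Or.inl h3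
      · exact Or.inr (N.two w z y (hz.trans hw.symm) (h1.trans hw.symm) h3 h2)
    exact (ncard_le_ncard this (toFinite _)).trans
      ((ncard_insert_le _ _).trans (by rw [ncard_singleton]))
  · have : {w | N.cv w = i} ⊆ {w} := fun z hz => by
      by_contra h3
      exact h ⟨z, hz, h3⟩
    exact (ncard_le_ncard this (toFinite _)).trans (by rw [ncard_singleton]; norm_num)

theorem origA [Finite ι] [Finite W] {w0 : W} (h0 : N.pt w0 = 0) :
    (∀ x, Od N.arc x → ∃ y, Od N.arc y ∧ (N.arc y).b = (N.arc x).b + 2 * π / 3) ∧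
      {e | Od N.arc (e, 0)}.ncard ≤ 3 := by
  have hl : ∀ x, Od N.arc x → ∃ w y, N.pt w = (N.arc x).rb * ei (N.arc x).b ∧
      N.dir w = -ei (N.arc x).b ∧ N.cv y = N.cv w ∧ y ≠ w ∧ N.pt y = 0 ∧
      N.dir y = ei (N.arc x).b := by
    intro x hx
    obtain ⟨w, y, l, h1, h2, -, h4, h5, h6, h7, h8, h9⟩ := N.odSeg x hx
    refine ⟨w, y, h1, h2, h4, h5, ?_, h8⟩
    rcases h6.eq_or_lt with h10 | h10
    · rw [h7, h10]; simp
    · exfalso
      have := h9 0 (by linarith) (N.arc x).rb_pos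
      rw [Complex.ofReal_zero, zero_mul, ← h0] at this
      exact N.ptI _ _ this
  constructor
  · intro x hx
    obtain ⟨w, y, -, -, -, -, h5, h6⟩ := hl x hx
    obtain ⟨z, h7, h8⟩ := N.rot y
    have hz : N.pt z = ((0 : ℝ) : ℂ) * ei ((N.arc x).b + 2 * π / 3) := by rw [h7, h5]; simp
    have hz2 : N.dir z = ei ((N.arc x).b + 2 * π / 3) := by rw [h8, h6, ← ei_add, add_comm]
    have hr := N.clsR_out hz hz2
    have key : ∀ ρ : ℝ, (ρ : ℂ) * ei ((N.arc x).b + 2 * π / 3) = N.pt z + ρ * N.dir z := by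
      intro ρ
      rw [hz, hz2]; simp
    have hu : ¬ N.unb (N.cv z) := fun hu =>
      N.noHalf x.1 hr ((N.arc x).b + 2 * π / 3) fun ρ hρ => by
        rw [key]; exact N.rad_unb z hu _ hρ
    obtain ⟨u, l, -, -, hl0, h1, h2, h3⟩ := N.rad_bd z hr hu
    obtain ⟨v, h9, h10, h11⟩ := N.fromOut (y := u) (ρ := l) (β := (N.arc x).b + 2 * π / 3) hl0
      (by rw [h1, key]) (by rw [h2, hz2])
    refine ⟨v, ⟨h11, ?_⟩, h9⟩
    rw [h9, h10]
    refine N.noBelow_of hr fun ρ h12 h13 => ?_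
    rw [key]
    exact h3 _ h12 h13
  · classical
    have : Nonempty W := ⟨w0⟩
    choose! fw fy hf using hl
    refine le_trans (ncard_le_ncard_of_injOn (t := {y | N.pt y = N.pt w0}) (fun e => fy (e, 0))
      (fun e he => ?_) (fun e he e' he' hee => ?_)) (N.three w0)
    · exact (hf _ he).2.2.2.2.1.trans h0.symm
    · obtain ⟨a1, a2, a3, a4, -, -⟩ := hf _ he
      obtain ⟨b1, b2, b3, b4, -, -⟩ := hf _ he'
      simp only at hee
      have : fw (e, 0) = fw (e', 0) :=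
        N.two (fy (e, 0)) _ _ a3.symm (by rw [← b3, hee]) a4.symm (by rw [hee]; exact b4.symm)
      exact N.od_inj he he' a1 a2 (this ▸ b1) (this ▸ b2)

theorem origB [Finite ι] [Finite W] (h0 : ∀ w, N.pt w ≠ 0) :
    (∀ x, Od N.arc x → ∃ y, Od N.arc y ∧ (N.arc y).b = (N.arc x).b + π) ∧
      {e | Od N.arc (e, 0)}.ncard ≤ 2 := by
  have hl : ∀ x, Od N.arc x → ∃ w y, ∃ l : ℝ, N.pt w = (N.arc x).rb * ei (N.arc x).b ∧
      N.dir w = -ei (N.arc x).b ∧ N.rad (N.cv w) ∧ (N.arc x).rb < l ∧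
      N.pt y = ((N.arc x).rb - l : ℝ) * ei (N.arc x).b ∧ N.dir y = ei (N.arc x).b ∧
      ∀ ρ : ℝ, (N.arc x).rb - l < ρ → ρ < (N.arc x).rb →
        (ρ : ℂ) * ei (N.arc x).b ∈ N.In (N.cv w) := by
    intro x hx
    obtain ⟨w, y, l, h1, h2, h3, -, -, h6, h7, h8, h9⟩ := N.odSeg x hx
    refine ⟨w, y, l, h1, h2, h3, lt_of_le_of_ne h6 fun h10 => h0 y ?_, h7, h8, h9⟩
    rw [h7, h10]; simp
  constructor
  · intro x hx
    obtain ⟨w, y, l, -, -, h3, h4, h5, h6, h7⟩ := hl x hx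
    have hb := (N.arc x).rb_pos
    obtain ⟨v, h9, h10, h11⟩ := N.fromOut (y := y) (ρ := l - (N.arc x).rb) (β := (N.arc x).b + π)
      (by linarith) (by rw [h5, ei_add_pi]; push_cast; ring) (by rw [h6, ei_add_pi, neg_neg])
    refine ⟨v, ⟨h11, ?_⟩, h9⟩
    rw [h9, h10]
    refine N.noBelow_of h3 fun ρ h12 h13 => ?_
    rw [ei_add_pi, show (ρ : ℂ) * -ei (N.arc x).b = ((-ρ : ℝ) : ℂ) * ei (N.arc x).b by
      push_cast; ring]
    exact h7 _ (by linarith only [h13]) (by linarith)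
  · rcases {e | Od N.arc (e, 0)}.eq_empty_or_nonempty with he | ⟨e0, he0⟩
    · rw [he, ncard_empty]; norm_num
    classical
    have : Nonempty W := ⟨N.tm e0⟩
    choose! fw fy fl hf using hl
    have hz : ∀ x, Od N.arc x → (0 : ℂ) ∈ N.In (N.cv (fw x)) := fun x hx => by
      obtain ⟨-, -, -, h4, -, -, h7⟩ := hf x hx
      have := h7 0 (by linarith) (N.arc x).rb_pos
      rwa [Complex.ofReal_zero, zero_mul] at this
    refine le_trans (ncard_le_ncard_of_injOn (t := {y | N.cv y = N.cv (fw (e0, 0))})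
      (fun e => fw (e, 0)) (fun e he => ?_) (fun e he e' he' hee => ?_)) (N.two' _)
    · exact N.emb _ _ 0 (hz _ he) (N.IA _ (hz _ he0))
    · obtain ⟨a1, a2, -⟩ := hf _ he
      obtain ⟨b1, b2, -⟩ := hf _ he'
      simp only at hee
      exact N.od_inj he he' a1 a2 (hee ▸ b1) (hee ▸ b2)

theorem sh (e : N.E) (k : ℤ) : N.arc (e, k) = (N.arc (e, 0)).shift (2 * π * k) := by
  simp only [arc, Arc.shift, Int.cast_zero, mul_zero, add_zero, sub_zero]

/-- the sweep model of a network -/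
noncomputable def model [Finite ι] [Finite W] : GModel N.E where
  arc := N.arc
  fin := N.fin
  emb := N.emb'
  ee := N.ee
  ss := N.ss
  es := N.es
  exL := N.exL
  exR := N.exR
  exL' := N.exL'
  exR' := N.exR'
  up := N.up
  down := N.down
  sh := N.sh
  orig := by
    by_cases h : ∃ w, N.pt w = 0
    · obtain ⟨w, hw⟩ := h
      exact Or.inr (N.origA hw)
    · exact Or.inl (N.origB fun w hw => h ⟨w, hw⟩)

theorem rad_dir {w : W} (hr : N.rad (N.cv w)) (h0 : N.pt w ≠ 0) :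
    ∃ ρ β : ℝ, 0 < ρ ∧ N.pt w = ρ * ei β ∧ (N.dir w = ei β ∨ N.dir w = -ei β) := by
  obtain ⟨ρ, β, hρ, h1⟩ := exists_polar h0
  obtain ⟨γ, h2⟩ := exists_ei (N.dn w)
  refine ⟨ρ, β, hρ, h1, ?_⟩
  have h3 := N.rad_im w hr
  rw [h1, h2, show γ = β + (γ - β) by ring, im_polar] at h3
  have h4 : sin (γ - β) = 0 := (mul_eq_zero.1 h3).resolve_left hρ.ne'
  have h5 : ei γ = ei β * ei (γ - β) := by rw [← ei_add]; congr 1; ring
  rcases sin_eq_zero_iff_cos_eq.1 h4 with h6 | h6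
  · left
    have : ei (γ - β) = 1 := Complex.ext (by rw [ei_re, h6]; rfl) (by rw [ei_im, h4]; rfl)
    rw [h2, h5, this, mul_one]
  · right
    have : ei (γ - β) = -1 := Complex.ext (by rw [ei_re, h6]; simp) (by rw [ei_im, h4]; simp)
    rw [h2, h5, this, mul_neg_one]

theorem count [Finite ι] [Finite W] :
    {i | N.unb i}.ncard ≤ 3 ∨ {i | N.unb i}.ncard ≤ {e | Ray N.model.arc (e, 0)}.ncard := by
  classical
  choose f hf using N.has_end
  rcases isEmpty_or_nonempty N.E with hE | ⟨⟨e0⟩⟩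
  · left
    have h0 : ∀ w, N.rad (N.cv w) → N.pt w = 0 := fun w hw => by
      by_contra h
      obtain ⟨ρ, β, hρ, h1, h2 | h2⟩ := N.rad_dir hw h
      · obtain ⟨x, -⟩ := N.fromIn hρ h1 h2
        exact hE.elim x.1
      · obtain ⟨x, -⟩ := N.fromOut hρ h1 h2
        exact hE.elim x.1
    rcases {i | N.unb i}.eq_empty_or_nonempty with he | ⟨i0, hi0⟩
    · rw [he, ncard_empty]; norm_num
    refine le_trans (ncard_le_ncard_of_injOn (t := {y | N.pt y = N.pt (f i0)}) f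
      (fun i hi => ?_) (fun i _ j _ hij => ?_)) (N.three _)
    · have h1 := h0 (f i) (by rw [hf]; exact N.unb_rad _ hi)
      have h2 := h0 (f i0) (by rw [hf]; exact N.unb_rad _ hi0)
      exact h1.trans h2.symm
    · rw [← hf i, hij, hf]
  · right
    have key : ∀ i, N.unb i → ∃ e : N.E, Ray N.arc (e, 0) ∧
        N.pt (f i) = (N.arc (e, 0)).rb * ei (N.arc (e, 0)).b ∧
        N.dir (f i) = ei (N.arc (e, 0)).b := by
      intro i hi
      have hu : N.unb (N.cv (f i)) := by rw [hf]; exact hi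
      have hr := N.unb_rad _ hu
      have hin := N.rad_unb _ hu
      have h0 : N.pt (f i) ≠ 0 := fun h => by
        obtain ⟨β, hβ⟩ := exists_ei (N.dn (f i))
        refine N.noHalf e0 hr β fun ρ hρ => ?_
        have := hin ρ hρ
        rwa [h, hβ, zero_add] at this
      obtain ⟨ρ, β, hρ, h1, h2 | h2⟩ := N.rad_dir hr h0
      · obtain ⟨⟨e, k⟩, h3, h4, h5⟩ := N.fromIn hρ h1 h2
        have h6 : ei (N.arc (e, 0)).b = ei β := by
          rw [← h3, arc_b, arc_b, ei_add_int, ei_add_int]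
        have h7 : (N.arc (e, 0)).rb = ρ := by rw [← h4, arc_rb, arc_rb]
        have h8 : (N.arc (e, 0)).φb = π / 3 := by rw [← h5, arc_φb, arc_φb]
        refine ⟨e, ⟨h8, N.noAbove_of hr fun s hs => ?_⟩, by rw [h6, h7, h1], by rw [h6, h2]⟩
        have := hin (s - ρ) (by linarith only [h7, hs])
        rw [h1, h2] at this
        rw [h6]
        convert this using 1
        push_cast
        ring
      · exfalso
        refine N.noHalf e0 hr (β + π) fun s hs => ?_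
        have := hin (s + ρ) (by linarith)
        rw [h1, h2] at this
        rw [ei_add_pi]
        convert this using 1
        push_cast
        ring
    have : Nonempty N.E := ⟨e0⟩
    choose! g hg using key
    refine ncard_le_ncard_of_injOn g (fun i hi => (hg i hi).1) (fun i hi j hj hij => ?_)
    have : f i = f j := N.uniq (by rw [(hg i hi).2.1, (hg j hj).2.1, hij])
      (by rw [(hg i hi).2.2, (hg j hj).2.2, hij])
    rw [← hf i, this, hf]

end Net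

end Pool.Agent.Work.MP_dd6b33_gt
end
end
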