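import Pool.Agent.Work.MP_dd6b33_gt.ExtractModel

-- merged part: Pool.Agent.Work.MP_dd6b33_gt.Geo2
section
-- merged part: Pool.Agent.Work.MP_dd6b33_gt.ArcTime
section
/-!
Time estimates on arcs.
-/

namespace Pool.Agent.Work.MP_dd6b33_gt

open Set Real

/-- the quarter period of the linearised oscillation -/
noncomputable def al : ℝ := π / (2 * √2)

/-- the critical momentum -/
noncomputable def cs : ℝ := ψ 1 * (√3 / 2)

theorem sqrt2_lt : √2 < 10 / 7 := by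
  rw [sqrt_lt' (by norm_num)]; norm_num

theorem al_gt : 7 * π / 20 < al := by
  unfold al
  have h0 : 0 < √2 := by positivity
  rw [lt_div_iff₀ (by positivity)]
  linarith only [pi_pos, sqrt2_lt, mul_pos_of_neg_of_neg (Mathlib.Tactic.Linarith.sub_neg_of_lt pi_pos) (Mathlib.Tactic.Linarith.sub_neg_of_lt sqrt2_lt)]

theorem al_mul : √2 * al = π / 2 := by
  unfold al
  have h0 : 0 < √2 := by positivity
  field_simp

theorem sqrt3_lt : √3 < 2 := by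
  rw [sqrt_lt' (by norm_num)]; norm_num

theorem cs_lt : cs < ψ 1 := by
  unfold cs; linarith only [ψ_one_pos, sqrt3_lt, mul_pos_of_neg_of_neg (Mathlib.Tactic.Linarith.sub_neg_of_lt ψ_one_pos) (Mathlib.Tactic.Linarith.sub_neg_of_lt sqrt3_lt)]

theorem sin_two_pi_div_three : sin (2 * π / 3) = √3 / 2 := by
  rw [show 2 * π / 3 = π - π / 3 by ring, sin_pi_sub, sin_pi_div_three]

theorem sin_le_L {φ : ℝ} (h0 : 0 ≤ φ) (h : φ ≤ π / 3) : sin φ ≤ √3 / 2 := by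
  rw [← sin_pi_div_three]
  exact sin_le_sin_of_le_of_le_pi_div_two (by linarith only [h0, h, pi_pos]) (by linarith only [h0, h, pi_pos]) h

theorem sin_lt_L {φ : ℝ} (h0 : 0 ≤ φ) (h : φ < π / 3) : sin φ < √3 / 2 := by
  rw [← sin_pi_div_three]
  exact sin_lt_sin_of_lt_of_le_pi_div_two (by linarith only [h0, h, pi_pos]) (by linarith only [h0, h, pi_pos]) h

theorem sin_le_H {φ : ℝ} (h0 : φ ≤ π) (h : 2 * π / 3 ≤ φ) : sin φ ≤ √3 / 2 := by
  rw [← sin_pi_sub]; exact sin_le_L (by linarith only [h0]) (by linarith)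

theorem sin_gt_M {φ : ℝ} (h0 : π / 3 < φ) (h : φ < 2 * π / 3) : √3 / 2 < sin φ := by
  rcases le_total φ (π / 2) with h1 | h1
  · rw [← sin_pi_div_three]
    exact sin_lt_sin_of_lt_of_le_pi_div_two (by linarith only [h0, h, pi_pos]) h1 h0
  · rw [← sin_pi_sub, ← sin_pi_div_three]
    exact sin_lt_sin_of_lt_of_le_pi_div_two (by linarith only [h0, h, pi_pos]) (by linarith only [h1]) (by linarith only [h])

theorem sin_ge_M {φ : ℝ} (h0 : π / 3 ≤ φ) (h : φ ≤ 2 * π / 3) : √3 / 2 ≤ sin φ := by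
  rcases h0.eq_or_lt with h1 | h1
  · rw [← h1, sin_pi_div_three]
  rcases h.eq_or_lt with h2 | h2
  · rw [h2, sin_two_pi_div_three]
  exact (sin_gt_M h1 h2).le

namespace Arc

variable (x : Arc)

theorem c_le_cs_L {t : ℝ} (ha : x.a ≤ t) (hb : t ≤ x.b) (h : x.φ t ≤ π / 3) : x.c ≤ cs := by
  rw [← x.c_eq ha hb, cs]
  exact mul_le_mul (ψ_le_one (x.r_pos ha hb).le) (sin_le_L (x.φ_pos ha hb).le h)
    (x.sin_pos ha hb).le ψ_one_pos.le

theorem c_le_cs_H {t : ℝ} (ha : x.a ≤ t) (hb : t ≤ x.b) (h : 2 * π / 3 ≤ x.φ t) : x.c ≤ cs := by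
  rw [← x.c_eq ha hb, cs]
  exact mul_le_mul (ψ_le_one (x.r_pos ha hb).le) (sin_le_H (x.φ_lt ha hb).le h)
    (x.sin_pos ha hb).le ψ_one_pos.le

theorem angle_at_one (hc : x.c ≤ cs) {t : ℝ} (ha : x.a ≤ t) (hb : t ≤ x.b) (h : x.r t = 1) :
    x.φ t ≤ π / 3 ∨ 2 * π / 3 ≤ x.φ t := by
  by_contra hcon
  push Not at hcon
  have h1 := sin_gt_M hcon.1 hcon.2
  have h2 := x.c_eq ha hb
  rw [h] at h2
  unfold cs at hc
  linarith only [hc, h2, h1, ψ_one_pos, mul_pos_of_neg_of_neg (Mathlib.Tactic.Linarith.sub_neg_of_lt h1) (Mathlib.Tactic.Linarith.sub_neg_of_lt ψ_one_pos)]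

/-- first exit from the unit disc -/
theorem ex_exit {s t : ℝ} (ha : x.a ≤ s) (hst : s ≤ t) (hb : t ≤ x.b)
    (hs : x.r s < 1) (ht : 1 ≤ x.r t) :
    ∃ u, s < u ∧ u ≤ t ∧ x.r u = 1 ∧ x.φ u < π / 2 ∧ ∀ w, s ≤ w → w < u → x.r w < 1 := by
  obtain ⟨u, h1, h2, h3, h4⟩ := first_ge hst (x.rc' ha hb) hs.le ht
  have hsu : s < u := lt_of_le_of_ne h1 (by rintro rfl; linarith)
  refine ⟨u, hsu, h2, h3, ?_, h4⟩
  obtain ⟨w, a1, a2, a3⟩ := x.ex_lt_of_r_lt ha h1 (h2.trans hb) (by linarith)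
  have := x.φ_anti (ha.trans a1.le) a2.le (h2.trans hb) (fun z b1 b2 => (h4 z (by linarith only [a1, b1]) b2).le)
  linarith only [a3, this]

/-- last entry into the unit disc -/
theorem ex_entry {s t : ℝ} (ha : x.a ≤ s) (hst : s ≤ t) (hb : t ≤ x.b)
    (hs : 1 ≤ x.r s) (ht : x.r t < 1) :
    ∃ u, s ≤ u ∧ u < t ∧ x.r u = 1 ∧ π / 2 < x.φ u ∧ ∀ w, u < w → w ≤ t → x.r w < 1 := by
  obtain ⟨u, h1, h2, h3, h4⟩ := last_ge hst (x.rc' ha hb) hs ht.le
  have hsu : u < t := lt_of_le_of_ne h2 (by rintro rfl; linarith)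
  refine ⟨u, h1, hsu, h3, ?_, h4⟩
  obtain ⟨w, a1, a2, a3⟩ := x.ex_gt_of_r_gt (ha.trans h1) h2 hb (by linarith)
  have := x.φ_anti (ha.trans h1) a1.le (a2.le.trans hb) (fun z b1 b2 => (h4 z b1 (by linarith only [a2, b2])).le)
  linarith only [a3, this]

/-- (N1) turning of the tangent in the second quarter -/
theorem N1g {s t γ : ℝ} (ha : x.a ≤ s) (hst : s ≤ t) (hb : t ≤ x.b)
    (hr : ∀ u, s ≤ u → u ≤ t → x.r u ≤ 1) (hφ : x.φ s ≤ π / 2)
    (hγ0 : 0 ≤ γ) (hγ : γ ≤ π / 2) (hc : x.c ≤ ψ 1 * sin γ) (hc1 : x.c < ψ 1) :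
    (t + x.φ t) - (s + x.φ s) ≤ γ := by
  by_contra hcon
  push Not at hcon
  set ω := t + x.φ t - γ with hω
  have hcϑ : ContinuousOn (fun u => u + x.φ u) (Icc s t) := by
    have := x.φc' ha hb; fun_prop
  obtain ⟨u, h1, h2, h3, -⟩ := first_ge (k := ω) hst hcϑ (by linarith only [hcon]) (by linarith only [hγ0])
  have hsu : s < u := lt_of_le_of_ne h1 (by rintro rfl; linarith only [hcon, h3])
  have hau : x.a ≤ u := ha.trans h1
  set k := x.c * exp (1 / 2) with hk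
  have hkγ : k ≤ sin γ := by
    have : exp (-1 / 2) * exp (1 / 2) = 1 := by rw [← exp_add]; norm_num
    rw [ψ_one] at hc
    have h5 := mul_le_mul_of_nonneg_right hc (exp_pos (1 / 2)).le
    have h6 : exp (-1 / 2) * sin γ * exp (1 / 2) = sin γ := by linear_combination (sin γ) * this
    linarith only [h5, h6]
  have hk0 : 0 < k := mul_pos x.c_pos (exp_pos _)
  have hH := le_of_deriv (f := fun w => k * (x.r w * cos (w - ω)) - sin (w + x.φ w - ω))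
    (f' := fun w => cos (w + x.φ w - ω) * (x.r w / sin (x.φ w)) * (k - x.r w * sin (x.φ w))) h2
    (by have := x.φc' hau hb; have := x.rc' hau hb; fun_prop)
    (fun w hw => by
      have d1 := ((x.rd' hau hb hw).fun_mul ((hasDerivAt_id' w).sub_const ω).cos).const_mul k
      have d2 := (((hasDerivAt_id' w).fun_add (x.φd' hau hb hw)).sub_const ω).sin
      refine (d1.fun_sub d2).congr_deriv ?_
      have := (x.sin_pos (hau.trans hw.1.le) (hw.2.le.trans hb)).ne'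
      rw [show w + x.φ w - ω = (w - ω) + x.φ w by ring, cos_add]
      field_simp
      ring)
    (fun w hw => by
      clear * - x w u hau t hw hb ω γ hγ0 hγ h3 k hk hr s hsu
      have hw1 : x.a ≤ w := hau.trans hw.1.le
      have hw2 : w ≤ x.b := hw.2.le.trans hb
      have e1 := x.N0' hau hw.1.le hw2
      have e2 := x.N0' hw1 hw.2.le hb
      have c1 : 0 ≤ cos (w + x.φ w - ω) :=
        cos_nonneg_of_neg_pi_div_two_le_of_le (by linarith only [hγ0, hγ, h3, e1, pi_pos]) (by linarith only [hγ, e2])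
      have c2 : 0 ≤ x.r w / sin (x.φ w) := (div_pos (x.r_pos hw1 hw2) (x.sin_pos hw1 hw2)).le
      have c3 : 0 ≤ k - x.r w * sin (x.φ w) := by
        rw [x.p_eq hw1 hw2, hk]
        have : exp (x.r w ^ 2 / 2) ≤ exp (1 / 2) := exp_le_exp.mpr (by
          have := hr w (by linarith only [hsu, hw, hw.1]) hw.2.le
          linarith only [this, hw1, hw2, x.r_pos hw1 hw2, mul_nonneg_of_nonpos_of_nonpos (Mathlib.Tactic.Linarith.sub_nonpos_of_le this) (le_of_lt (Mathlib.Tactic.Linarith.sub_neg_of_lt (r_pos x hw1 hw2)))])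
        linarith only [this, x.c_pos, mul_nonneg_of_nonpos_of_nonpos (Mathlib.Tactic.Linarith.sub_nonpos_of_le this) (le_of_lt (Mathlib.Tactic.Linarith.sub_neg_of_lt (c_pos x)))]
      positivity)
  have hφu : x.φ u < π / 2 := by
    clear * - x u s ha hsu t h2 hb hr hφ hc1
    by_contra hc2
    push Not at hc2
    have := x.φ_anti_lt ha hsu (h2.trans hb) (fun w hw1 hw2 => by
      have e1 := x.φ_anti ha hw1.le (by linarith only [hb, h2, hw2]) (fun z hz1 hz2 => hr z hz1.le (by linarith only [h2, hw2, hz2]))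
      have e2 := x.φ_anti (ha.trans hw1.le) hw2.le (h2.trans hb)
        (fun z hz1 hz2 => hr z (by linarith only [hw1, hz1]) (by linarith only [h2, hz2]))
      have e3 : x.φ w = π / 2 := by linarith only [hc2, e2, hφ, e1]
      have e4 := x.c_eq (ha.trans hw1.le) (by linarith only [hb, h2, hw2])
      rw [e3, sin_pi_div_two, mul_one] at e4
      refine lt_of_le_of_ne (hr w hw1.le (by linarith only [h2, hw2])) (fun h => ?_)
      rw [h] at e4; linarith only [hc1, e4])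
    linarith only [hφ, hc2, this]
  have e1 : u - ω = -x.φ u := by linarith only [h3]
  have e2 : u + x.φ u - ω = 0 := by linarith only [h3]
  have e3 : t + x.φ t - ω = γ := by linarith only []
  rw [e1, e2, e3, cos_neg, sin_zero] at hH
  have p1 : 0 < cos (x.φ u) :=
    cos_pos_of_mem_Ioo ⟨by linarith only [hφu, hau, h2, hb, x.φ_pos hau (h2.trans hb), pi_pos], hφu⟩
  have p2 : 0 < k * (x.r u * cos (x.φ u)) := mul_pos hk0 (mul_pos (x.r_pos hau (h2.trans hb)) p1)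
  have p3 : x.r t * cos (t - ω) ≤ 1 := by
    clear * - x t hr hst s ha hb ω
    have := hr t hst le_rfl
    have := x.r_pos (ha.trans hst) hb
    nlinarith [cos_le_one (t - ω)]
  linarith only [hkγ, hH, p2, hk0, p3, mul_nonneg_of_nonpos_of_nonpos (le_of_lt (Mathlib.Tactic.Linarith.sub_neg_of_lt hk0)) (Mathlib.Tactic.Linarith.sub_nonpos_of_le p3)]

theorem N1 {s t : ℝ} (ha : x.a ≤ s) (hst : s ≤ t) (hb : t ≤ x.b)
    (hr : ∀ u, s ≤ u → u ≤ t → x.r u ≤ 1) (hφ : x.φ s ≤ π / 2) (hc1 : x.c < ψ 1) :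
    t - s ≤ x.φ s := by
  have h1 := x.φ_anti ha hst hb (fun u h1 h2 => hr u h1.le h2.le)
  have := x.N1g (γ := x.φ t) ha hst hb hr hφ (x.φ_pos (ha.trans hst) hb).le (by linarith only [hφ, h1]) (by
    rw [← x.c_eq (ha.trans hst) hb]
    exact mul_le_mul_of_nonneg_right (ψ_le_one (x.r_pos (ha.trans hst) hb).le)
      (x.sin_pos (ha.trans hst) hb).le) hc1
  linarith

theorem N1s {s t : ℝ} (ha : x.a ≤ s) (hst : s ≤ t) (hb : t ≤ x.b)
    (hr : ∀ u, s ≤ u → u ≤ t → x.r u ≤ 1) (hφ : x.φ s ≤ π / 2) (hc : x.c ≤ cs) :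
    t - s ≤ x.φ s - x.φ t + π / 3 := by
  have := x.N1g (γ := π / 3) ha hst hb hr hφ (by linarith only [pi_pos]) (by linarith only [pi_pos])
    (by rw [sin_pi_div_three]; exact hc) (hc.trans_lt cs_lt)
  linarith only [this]

theorem N1' {s t : ℝ} (ha : x.a ≤ s) (hst : s ≤ t) (hb : t ≤ x.b)
    (hr : ∀ u, s ≤ u → u ≤ t → x.r u ≤ 1) (hφ : π / 2 ≤ x.φ t) (hc1 : x.c < ψ 1) :
    t - s ≤ π - x.φ t := by
  have := x.mirror.N1 (s := -t) (t := -s) (by simpa) (by linarith only [hst]) (by simpa)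
    (fun u h1 h2 => by simpa using hr (-u) (by linarith) (by linarith)) (by simp; linarith only [hφ])
    (by simpa)
  simp at this
  linarith

theorem N1s' {s t : ℝ} (ha : x.a ≤ s) (hst : s ≤ t) (hb : t ≤ x.b)
    (hr : ∀ u, s ≤ u → u ≤ t → x.r u ≤ 1) (hφ : π / 2 ≤ x.φ t) (hc : x.c ≤ cs) :
    t - s ≤ x.φ s - x.φ t + π / 3 := by
  have := x.mirror.N1s (s := -t) (t := -s) (by simpa) (by linarith only [hst]) (by simpa)
    (fun u h1 h2 => by simpa using hr (-u) (by linarith) (by linarith)) (by simp; linarith only [hφ])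
    (by simpa)
  simp at this
  linarith only [this]

theorem zd {s t w : ℝ} (ha : x.a ≤ s) (hb : t ≤ x.b) (hw : w ∈ Ioo s t) :
    HasDerivAt (fun u => (x.r u)⁻¹ - 1) (-(cos (x.φ w) / (x.r w * sin (x.φ w)))) w := by
  have h1 := (x.r_pos (ha.trans hw.1.le) (hw.2.le.trans hb)).ne'
  have h2 := (x.sin_pos (ha.trans hw.1.le) (hw.2.le.trans hb)).ne'
  refine (((x.rd' ha hb hw).fun_inv h1).sub_const 1).congr_deriv ?_
  field_simp

theorem zdd {s t w : ℝ} (ha : x.a ≤ s) (hb : t ≤ x.b) (hw : w ∈ Ioo s t) :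
    HasDerivAt (fun u => -(cos (x.φ u) / (x.r u * sin (x.φ u))))
      (x.r w / sin (x.φ w) ^ 2 - (x.r w)⁻¹) w := by
  have h1 := (x.r_pos (ha.trans hw.1.le) (hw.2.le.trans hb)).ne'
  have h2 := (x.sin_pos (ha.trans hw.1.le) (hw.2.le.trans hb)).ne'
  refine (((x.φd' ha hb hw).cos.fun_div ((x.rd' ha hb hw).fun_mul (x.φd' ha hb hw).sin)
    (mul_ne_zero h1 h2)).fun_neg).congr_deriv ?_
  field_simp
  have := sin_sq_add_cos_sq (x.φ w)
  linear_combination (x.r w ^ 2) * this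

theorem zpos {w : ℝ} (ha : x.a ≤ w) (hb : w ≤ x.b) (hc : x.c < ψ 1) :
    0 < x.r w / sin (x.φ w) ^ 2 - (x.r w)⁻¹ + 2 * ((x.r w)⁻¹ - 1) := by
  have h1 := x.r_pos ha hb
  have h2 := x.sin_pos ha hb
  have h3 := sin_le_one (x.φ w)
  have h4 := x.c_eq ha hb
  have e : x.r w / sin (x.φ w) ^ 2 - (x.r w)⁻¹ + 2 * ((x.r w)⁻¹ - 1) =
      (x.r w ^ 2 * (1 - sin (x.φ w) ^ 2) + (x.r w - 1) ^ 2 * sin (x.φ w) ^ 2) /
        (x.r w * sin (x.φ w) ^ 2) := by
    field_simp; ring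
  rw [e]
  apply div_pos _ (by positivity)
  by_cases h5 : x.r w = 1
  · rw [h5] at h4 ⊢
    have : sin (x.φ w) < 1 := by
      by_contra hh
      have : sin (x.φ w) = 1 := le_antisymm h3 (not_lt.mp hh)
      rw [this] at h4; linarith only [hc, h4]
    linarith only [this, h2, h3, mul_nonneg_of_nonpos_of_nonpos (le_of_lt (Mathlib.Tactic.Linarith.sub_neg_of_lt h2)) (Mathlib.Tactic.Linarith.sub_nonpos_of_le h3)]
  · have : 0 < (x.r w - 1) ^ 2 := by positivity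
    have h6 : 0 ≤ 1 - sin (x.φ w) ^ 2 := by linarith only [h3, h2, mul_nonneg_of_nonpos_of_nonpos (le_of_lt (Mathlib.Tactic.Linarith.sub_neg_of_lt h2)) (Mathlib.Tactic.Linarith.sub_nonpos_of_le h3)]
    positivity

theorem zc {s t : ℝ} (ha : x.a ≤ s) (hb : t ≤ x.b) :
    ContinuousOn (fun u => (x.r u)⁻¹ - 1) (Icc s t) :=
  ((x.rc' ha hb).inv₀ (fun _ hu => (x.r_pos (ha.trans hu.1) (hu.2.trans hb)).ne')).sub
    continuousOn_const

theorem zdc {s t : ℝ} (ha : x.a ≤ s) (hb : t ≤ x.b) :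
    ContinuousOn (fun u => -(cos (x.φ u) / (x.r u * sin (x.φ u)))) (Icc s t) := by
  have h1 := x.rc' ha hb
  have h2 := x.φc' ha hb
  refine (ContinuousOn.div (by fun_prop) (by fun_prop) (fun u hu => ?_)).neg
  exact (mul_pos (x.r_pos (ha.trans hu.1) (hu.2.trans hb))
    (x.sin_pos (ha.trans hu.1) (hu.2.trans hb))).ne'

/-- (N2) from a point moving inwards inside the disc, leaving the disc takes time at least `al` -/
theorem N2 {s t : ℝ} (ha : x.a ≤ s) (hst : s ≤ t) (hb : t ≤ x.b)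
    (hφ : π / 2 ≤ x.φ s) (hs : x.r s < 1) (ht : 1 ≤ x.r t) : al ≤ t - s := by
  obtain ⟨u, h1, h2, h3, h4, h5⟩ := x.ex_exit ha hst hb hs ht
  have hub := h2.trans hb
  have hc : x.c < ψ 1 :=
    (x.c_le_ψ ha (hst.trans hb)).trans_lt (ψ_lt_in (x.r_pos ha (hst.trans hb)).le hs le_rfl)
  by_contra hcon
  push Not at hcon
  have s2 : 0 < √2 := by positivity
  have hcos : ∀ w, s ≤ w → w ≤ u → 0 < cos (√2 * (w - s)) := fun w a1 a2 =>
    cos_pos_of_mem_Ioo ⟨by linarith only [s2, a1, pi_pos, mul_nonneg s2.le (sub_nonneg.mpr a1)], by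
      rw [← al_mul]; exact mul_lt_mul_of_pos_left (by linarith only [h2, hcon, a2]) s2⟩
  have hW := le_of_deriv (f := fun w => -(cos (x.φ w) / (x.r w * sin (x.φ w))) * cos (√2 * (w - s))
      + √2 * (((x.r w)⁻¹ - 1) * sin (√2 * (w - s))))
    (f' := fun w => (x.r w / sin (x.φ w) ^ 2 - (x.r w)⁻¹ + 2 * ((x.r w)⁻¹ - 1)) *
      cos (√2 * (w - s))) h1.le
    (((x.zdc ha hub).mul (by fun_prop)).add
      (continuousOn_const.mul ((x.zc ha hub).mul (by fun_prop))))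
    (fun w hw => by
      have d0 := ((hasDerivAt_id' w).sub_const s).const_mul √2
      have d1 := (x.zdd ha hub hw).fun_mul d0.cos
      have d2 := ((x.zd ha hub hw).fun_mul d0.sin).const_mul √2
      refine (d1.fun_add d2).congr_deriv ?_
      have : √2 * √2 = 2 := mul_self_sqrt (by norm_num)
      linear_combination (((x.r w)⁻¹ - 1) * cos (√2 * (w - s))) * this)
    (fun w hw => (mul_pos (x.zpos (ha.trans hw.1.le) (hw.2.le.trans hub) hc)
      (hcos w hw.1.le hw.2.le)).le)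
  simp only [sub_self, mul_zero, cos_zero, sin_zero, h3, inv_one, zero_mul, one_mul] at hW
  have p1 : 0 < cos (x.φ u) :=
    cos_pos_of_mem_Ioo ⟨by linarith only [h4, ha, h1, hub, x.φ_pos (ha.trans h1.le) hub, pi_pos], h4⟩
  have p2 : cos (x.φ s) ≤ 0 :=
    cos_nonpos_of_pi_div_two_le_of_le hφ (by linarith only [hφ, ha, hst, hb, x.φ_lt ha (hst.trans hb), pi_pos])
  have p3 : cos (x.φ s) / (x.r s * sin (x.φ s)) ≤ 0 :=
    div_nonpos_of_nonpos_of_nonneg p2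
      (mul_pos (x.r_pos ha (hst.trans hb)) (x.sin_pos ha (hst.trans hb))).le
  have p4 : 0 < cos (x.φ u) / sin (x.φ u) * cos (√2 * (u - s)) :=
    mul_pos (div_pos p1 (x.sin_pos (ha.trans h1.le) hub)) (hcos u h1.le le_rfl)
  linarith only [hW, p3, p4]

theorem N2' {s t : ℝ} (ha : x.a ≤ s) (hst : s ≤ t) (hb : t ≤ x.b)
    (hφ : x.φ t ≤ π / 2) (ht : x.r t < 1) (hs : 1 ≤ x.r s) : al ≤ t - s := by
  have := x.mirror.N2 (s := -t) (t := -s) (by simpa) (by linarith only [hst]) (by simpa)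
    (by simp; linarith only [hφ]) (by simpa) (by simpa)
  linarith

/-- (N3) moving outwards outside the disc lasts less than `al` -/
theorem N3 {s t : ℝ} (ha : x.a ≤ s) (hst : s ≤ t) (hb : t ≤ x.b)
    (hr : ∀ u, s ≤ u → u ≤ t → 1 ≤ x.r u) (hφ : x.φ t ≤ π / 2) (hc : x.c < ψ 1) :
    t - s < al := by
  by_contra hcon
  push Not at hcon
  have hal : 0 < al := by linarith only [al_gt, pi_pos]
  have hub : s + al ≤ x.b := by linarith
  have s2 : 0 < √2 := by positivity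
  have hW := lt_of_deriv (f := fun w => -(cos (x.φ w) / (x.r w * sin (x.φ w))) * sin (√2 * (w - s))
      - √2 * (((x.r w)⁻¹ - 1) * cos (√2 * (w - s))))
    (f' := fun w => (x.r w / sin (x.φ w) ^ 2 - (x.r w)⁻¹ + 2 * ((x.r w)⁻¹ - 1)) *
      sin (√2 * (w - s))) (show s < s + al by linarith)
    (((x.zdc ha hub).mul (by fun_prop)).sub
      (continuousOn_const.mul ((x.zc ha hub).mul (by fun_prop))))
    (fun w hw => by
      have d0 := ((hasDerivAt_id' w).sub_const s).const_mul √2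
      have d1 := (x.zdd ha hub hw).fun_mul d0.sin
      have d2 := ((x.zd ha hub hw).fun_mul d0.cos).const_mul √2
      refine (d1.fun_sub d2).congr_deriv ?_
      have : √2 * √2 = 2 := mul_self_sqrt (by norm_num)
      linear_combination (((x.r w)⁻¹ - 1) * sin (√2 * (w - s))) * this)
    (fun w hw => mul_pos (x.zpos (ha.trans hw.1.le) (hw.2.le.trans hub) hc)
      (sin_pos_of_pos_of_lt_pi (mul_pos s2 (by linarith [hw.1])) (by
        have : √2 * (w - s) < √2 * al := mul_lt_mul_of_pos_left (by linarith [hw.2]) s2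
        linarith only [this, al_mul, pi_pos])))
  simp only [sub_self, mul_zero, cos_zero, sin_zero, add_sub_cancel_left, al_mul,
    sin_pi_div_two, cos_pi_div_two, mul_one] at hW
  have h1 : x.φ (s + al) ≤ x.φ t := x.φ_mono (by linarith only [ha, hal]) (by linarith only [hcon]) hb
    (fun u a1 a2 => hr u (by linarith only [hal, a1]) a2.le)
  have p1 : 0 ≤ cos (x.φ (s + al)) := cos_nonneg_of_neg_pi_div_two_le_of_le
    (by linarith only [hφ, h1, ha, hal, hub, x.φ_pos (t := s + al) (by linarith) hub, pi_pos]) (by linarith only [hφ, h1])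
  have p2 : 0 ≤ cos (x.φ (s + al)) / (x.r (s + al) * sin (x.φ (s + al))) :=
    div_nonneg p1 (mul_pos (x.r_pos (by linarith only [ha, hal]) hub) (x.sin_pos (by linarith only [ha, hal]) hub)).le
  have p3 : (x.r s)⁻¹ ≤ 1 := inv_le_one_of_one_le₀ (hr s le_rfl hst)
  linarith only [hW, p2, s2, p3, mul_nonneg_of_nonpos_of_nonpos (le_of_lt (Mathlib.Tactic.Linarith.sub_neg_of_lt s2)) (Mathlib.Tactic.Linarith.sub_nonpos_of_le p3)]

theorem N3' {s t : ℝ} (ha : x.a ≤ s) (hst : s ≤ t) (hb : t ≤ x.b)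
    (hr : ∀ u, s ≤ u → u ≤ t → 1 ≤ x.r u) (hφ : π / 2 ≤ x.φ s) (hc : x.c < ψ 1) :
    t - s < al := by
  have := x.mirror.N3 (s := -t) (t := -s) (by simpa) (by linarith only [hst]) (by simpa)
    (fun u h1 h2 => by simpa using hr (-u) (by linarith) (by linarith)) (by simp; linarith only [hφ])
    (by simpa)
  linarith

/-- (N6) the radial momentum `r cos φ` controls the turning of the tangent -/
theorem N6 {s t g : ℝ} (ha : x.a ≤ s) (hst : s ≤ t) (hb : t ≤ x.b)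
    (hg : ∀ u, s < u → u < t →
      g * (1 - (x.r u * sin (x.φ u)) ^ 2) ≤ x.r u * sin (x.φ u)) :
    g * (x.r t * cos (x.φ t) - x.r s * cos (x.φ s)) ≤ (t + x.φ t) - (s + x.φ s) := by
  have := le_of_deriv (f := fun u => u + x.φ u - g * (x.r u * cos (x.φ u)))
    (f' := fun u => x.r u / sin (x.φ u) *
      (x.r u * sin (x.φ u) - g * (1 - (x.r u * sin (x.φ u)) ^ 2))) hst
    (by have := x.φc' ha hb; have := x.rc' ha hb; fun_prop)
    (fun w hw => by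
      have d1 := (hasDerivAt_id' w).fun_add (x.φd' ha hb hw)
      have d2 := ((x.rd' ha hb hw).fun_mul (x.φd' ha hb hw).cos).const_mul g
      refine (d1.fun_sub d2).congr_deriv ?_
      have := (x.sin_pos (ha.trans hw.1.le) (hw.2.le.trans hb)).ne'
      field_simp
      have h := sin_sq_add_cos_sq (x.φ w)
      linear_combination (-(g * x.r w)) * h)
    (fun w hw => mul_nonneg (div_pos (x.r_pos (ha.trans hw.1.le) (hw.2.le.trans hb))
      (x.sin_pos (ha.trans hw.1.le) (hw.2.le.trans hb))).le (by linarith [hg w hw.1 hw.2]))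
  linarith

theorem N6a {s t g : ℝ} (ha : x.a ≤ s) (hst : s ≤ t) (hb : t ≤ x.b) (hg0 : 0 ≤ g)
    (hg : g ≤ x.c) :
    g * (x.r t * cos (x.φ t) - x.r s * cos (x.φ s)) ≤ (t + x.φ t) - (s + x.φ s) :=
  x.N6 ha hst hb (fun u h1 h2 => by
    have e := x.p_eq (ha.trans h1.le) (h2.le.trans hb)
    have : 1 ≤ exp (x.r u ^ 2 / 2) := one_le_exp (by positivity)
    have h3 : x.c ≤ x.r u * sin (x.φ u) := by rw [e]; linarith only [hg0, this, hg, x.c_pos, mul_nonneg_of_nonpos_of_nonpos (Mathlib.Tactic.Linarith.sub_nonpos_of_le hg0) (Mathlib.Tactic.Linarith.sub_nonpos_of_le this), mul_nonneg_of_nonpos_of_nonpos (Mathlib.Tactic.Linarith.sub_nonpos_of_le hg) (Mathlib.Tactic.Linarith.sub_nonpos_of_le this)]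
    linarith only [hg, h3, hg0, sq_nonneg (x.r u * sin (x.φ u)), mul_nonneg_of_nonpos_of_nonpos (Mathlib.Tactic.Linarith.sub_nonpos_of_le (sq_nonneg (x.r u * sin (x.φ u)))) (Mathlib.Tactic.Linarith.sub_nonpos_of_le hg0)])

theorem N6b {s t m : ℝ} (ha : x.a ≤ s) (hst : s ≤ t) (hb : t ≤ x.b) (hm0 : 0 < m) (hm1 : m < 1)
    (hm : ψ m ≤ x.c) :
    m / (1 - m ^ 2) * (x.r t * cos (x.φ t) - x.r s * cos (x.φ s)) ≤
      (t + x.φ t) - (s + x.φ s) :=
  x.N6 ha hst hb (fun u h1 h2 => by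
    have hu1 := ha.trans h1.le
    have hu2 := h2.le.trans hb
    have e := x.p_eq hu1 hu2
    have hr : m ≤ x.r u := by
      by_contra hh
      push Not at hh
      linarith only [hm, hu1, hu2, hh, hm1, ψ_lt_in (x.r_pos hu1 hu2).le hh hm1.le, x.c_le_ψ hu1 hu2]
    have h3 : m ≤ x.r u * sin (x.φ u) := by
      rw [e]
      have e1 : exp (-(m ^ 2) / 2) * exp (m ^ 2 / 2) = 1 := by rw [← exp_add]; simp [neg_div]
      have e2 : exp (m ^ 2 / 2) ≤ exp (x.r u ^ 2 / 2) := exp_le_exp.mpr (by (refine le_of_not_gt fun h_nl => ?_; linarith only [h_nl, hm0, hr, hm1, mul_nonneg_of_nonpos_of_nonpos (le_of_lt (Mathlib.Tactic.Linarith.sub_neg_of_lt hm0)) (Mathlib.Tactic.Linarith.sub_nonpos_of_le hr), mul_pos_of_neg_of_neg (Mathlib.Tactic.Linarith.sub_neg_of_lt hm0) (Mathlib.Tactic.Linarith.sub_neg_of_lt h_nl), mul_pos_of_neg_of_neg (Mathlib.Tactic.Linarith.sub_neg_of_lt hm1) (Mathlib.Tactic.Linarith.sub_neg_of_lt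 h_nl), mul_nonneg_of_nonpos_of_nonpos (Mathlib.Tactic.Linarith.sub_nonpos_of_le hr) (Mathlib.Tactic.Linarith.sub_nonpos_of_le hr)]))
      have e3 : m = ψ m * exp (m ^ 2 / 2) := by unfold ψ; linear_combination (-m) * e1
      rw [e3]
      exact mul_le_mul hm e2 (exp_pos _).le x.c_pos.le
    have h4 : 0 < 1 - m ^ 2 := by linarith only [hm1, hm0, mul_pos_of_neg_of_neg (Mathlib.Tactic.Linarith.sub_neg_of_lt hm0) (Mathlib.Tactic.Linarith.sub_neg_of_lt hm1)]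
    rw [div_mul_eq_mul_div, div_le_iff₀ h4]
    set p := x.r u * sin (x.φ u)
    linarith only [h3, hm0, mul_nonneg (sub_nonneg.mpr h3) (show 0 ≤ 1 + m * p by nlinarith), sq_nonneg m, mul_nonneg_of_nonpos_of_nonpos (le_of_lt (Mathlib.Tactic.Linarith.sub_neg_of_lt hm0)) (Mathlib.Tactic.Linarith.sub_nonpos_of_le h3)])

end Arc

end Pool.Agent.Work.MP_dd6b33_gt
end

-- merged part: Pool.Agent.Work.MP_dd6b33_gt.ArcCmp
section
/-!
Comparison of two arcs as functions of the radius, and small numerical facts.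
-/

namespace Pool.Agent.Work.MP_dd6b33_gt

open Set Real

/-- angular density `dθ/dr`, cut off so as to be continuous -/
noncomputable def dens (c ρ : ℝ) : ℝ := c / (max ρ 1 * √(max (ψ ρ ^ 2 - c ^ 2) (c ^ 2 / 3)))

theorem dens_cont {c : ℝ} (hc : 0 < c) : Continuous (dens c) := by
  have := ψ_cont
  refine Continuous.div continuous_const (by fun_prop) (fun ρ => ?_)
  have h1 : 0 < max ρ 1 := lt_max_of_lt_right one_pos
  have h2 : 0 < √(max (ψ ρ ^ 2 - c ^ 2) (c ^ 2 / 3)) :=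
    sqrt_pos.mpr (lt_max_of_lt_right (by positivity))
  positivity

theorem dens_nonneg {c : ℝ} (hc : 0 < c) (ρ : ℝ) : 0 ≤ dens c ρ := by
  have h1 : 0 < max ρ 1 := lt_max_of_lt_right one_pos
  unfold dens; positivity

theorem three_quarter : (√3 / 2) ^ 2 = 3 / 4 := by
  rw [div_pow, sq_sqrt (by norm_num)]; norm_num

theorem dens_le {c d ρ : ℝ} (hc : 0 < c) (hcd : c ≤ d) (hd : d ≤ ψ ρ * (√3 / 2)) :
    dens c ρ ≤ dens d ρ := by
  have h1 : 0 < max ρ 1 := lt_max_of_lt_right one_pos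
  have hd0 : 0 < d := hc.trans_le hcd
  have h2 : d ^ 2 ≤ ψ ρ ^ 2 * (3 / 4) := by
    rw [← three_quarter, ← mul_pow]; exact pow_le_pow_left₀ hd0.le hd 2
  have h3 : c ^ 2 ≤ d ^ 2 := pow_le_pow_left₀ hc.le hcd 2
  unfold dens
  rw [max_eq_left (show c ^ 2 / 3 ≤ ψ ρ ^ 2 - c ^ 2 by linarith only [h2, h3]),
    max_eq_left (show d ^ 2 / 3 ≤ ψ ρ ^ 2 - d ^ 2 by linarith only [h2])]
  have h4 : 0 < √(ψ ρ ^ 2 - d ^ 2) := sqrt_pos.mpr (by linarith only [h2, hd0, pow_pos hd0 2])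
  have h5 : √(ψ ρ ^ 2 - d ^ 2) ≤ √(ψ ρ ^ 2 - c ^ 2) := sqrt_le_sqrt (by linarith only [h3])
  gcongr

namespace Arc

variable (x : Arc)

theorem dens_mul {t : ℝ} (ha : x.a ≤ t) (hb : t ≤ x.b) (hr : 1 ≤ x.r t) (hφ : x.φ t ≤ π / 3) :
    dens x.c (x.r t) * (x.r t * cos (x.φ t) / sin (x.φ t)) = 1 := by
  have h0 := x.c_eq ha hb
  have h1 := x.sin_pos ha hb
  have h2 : 1 / 2 ≤ cos (x.φ t) := by
    rw [← cos_pi_div_three]
    exact cos_le_cos_of_nonneg_of_le_pi (x.φ_pos ha hb).le (by linarith only [pi_pos]) hφ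
  have h3 := ψ_pos (x.r_pos ha hb)
  have h4 := sin_sq_add_cos_sq (x.φ t)
  have e : ψ (x.r t) ^ 2 - x.c ^ 2 = (ψ (x.r t) * cos (x.φ t)) ^ 2 := by
    rw [← h0]; linear_combination (-(ψ (x.r t) ^ 2)) * h4
  have h5 : x.c ^ 2 / 3 ≤ ψ (x.r t) ^ 2 - x.c ^ 2 := by
    rw [← h0]
    have : sin (x.φ t) ^ 2 ≤ 3 / 4 := by linarith only [h2, h4, mul_nonneg_of_nonpos_of_nonpos (Mathlib.Tactic.Linarith.sub_nonpos_of_le h2) (Mathlib.Tactic.Linarith.sub_nonpos_of_le h2)]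
    linarith only [this, pow_pos h3 2, mul_nonneg_of_nonpos_of_nonpos (Mathlib.Tactic.Linarith.sub_nonpos_of_le (sq_nonneg (ψ (x.r t)))) (Mathlib.Tactic.Linarith.sub_nonpos_of_le this)]
  unfold dens
  rw [max_eq_left hr, max_eq_left h5, e, sqrt_sq (by positivity), ← h0]
  have := (x.r_pos ha hb).ne'
  have : cos (x.φ t) ≠ 0 := by linarith only [h2]
  field_simp

theorem time_eq {s t l0 l1 : ℝ} (ha : x.a ≤ s) (hst : s ≤ t) (hb : t ≤ x.b) (hs : x.r s = 1)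
    (hr : ∀ u, s ≤ u → u ≤ t → 1 ≤ x.r u ∧ x.φ u ≤ π / 3) :
    l0 * (t - s) - l1 * (x.φ t - x.φ s) =
      ∫ ρ in (1 : ℝ)..x.r t, (l0 - l1 * (ρ ^ 2 - 1)) * dens x.c ρ := by
  have hcont : Continuous fun ρ : ℝ => (l0 - l1 * (ρ ^ 2 - 1)) * dens x.c ρ := by
    have := dens_cont x.c_pos; fun_prop
  set G : ℝ → ℝ := fun z => ∫ ρ in (1 : ℝ)..z, (l0 - l1 * (ρ ^ 2 - 1)) * dens x.c ρ with hG
  have hGd : ∀ z, HasDerivAt G ((l0 - l1 * (z ^ 2 - 1)) * dens x.c z) z := fun z =>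
    intervalIntegral.integral_hasDerivAt_right (hcont.intervalIntegrable _ _)
      (hcont.stronglyMeasurableAtFilter _ _) hcont.continuousAt
  have hGc : Continuous G := continuous_iff_continuousAt.mpr (fun z => (hGd z).continuousAt)
  have hc : ContinuousOn (fun u => l0 * u - l1 * x.φ u - G (x.r u)) (Icc s t) := by
    have := x.φc' ha hb
    have := hGc.comp_continuousOn (x.rc' ha hb)
    exact ContinuousOn.sub (by fun_prop) this
  have hd : ∀ u ∈ Ioo s t, HasDerivAt (fun u => l0 * u - l1 * x.φ u - G (x.r u)) 0 u := by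
    intro u hu
    have d1 := ((hasDerivAt_id' u).const_mul l0).fun_sub ((x.φd' ha hb hu).const_mul l1)
    have d2 : HasDerivAt (fun u => G (x.r u)) _ u := (hGd (x.r u)).comp u (x.rd' ha hb hu)
    refine (d1.fun_sub d2).congr_deriv ?_
    have := x.dens_mul (ha.trans hu.1.le) (hu.2.le.trans hb) (hr u hu.1.le hu.2.le).1
      (hr u hu.1.le hu.2.le).2
    linear_combination (-(l0 - l1 * (x.r u ^ 2 - 1))) * this
  have h1 := le_of_deriv (f' := fun _ => 0) hst hc hd (fun _ _ => le_rfl)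
  have h2 := le_of_deriv (f := fun u => -(l0 * u - l1 * x.φ u - G (x.r u))) (f' := fun _ => 0)
    hst hc.neg (fun u hu => (hd u hu).fun_neg.congr_deriv (by simp)) (fun _ _ => le_rfl)
  have h3 : G (x.r s) = 0 := by rw [hs]; simp [hG]
  show _ = G (x.r t)
  linarith only [h1, h3, h2]

/-- (N7) weighted radial comparison -/
theorem N7 (y : Arc) {s t s' t' l0 l1 : ℝ} (ha : x.a ≤ s) (hst : s ≤ t) (hb : t ≤ x.b)
    (hs : x.r s = 1) (hr : ∀ u, s ≤ u → u ≤ t → 1 ≤ x.r u ∧ x.φ u ≤ π / 3)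
    (ha' : y.a ≤ s') (hst' : s' ≤ t') (hb' : t' ≤ y.b)
    (hs' : y.r s' = 1) (hr' : ∀ u, s' ≤ u → u ≤ t' → 1 ≤ y.r u ∧ y.φ u ≤ π / 3)
    (hc : y.c ≤ x.c) (hrr : y.r t' ≤ x.r t) (hl1 : 0 ≤ l1) (hl : l1 * (x.r t ^ 2 - 1) ≤ l0) :
    l0 * (t' - s') - l1 * (y.φ t' - y.φ s') ≤ l0 * (t - s) - l1 * (x.φ t - x.φ s) := by
  rw [x.time_eq ha hst hb hs hr, y.time_eq ha' hst' hb' hs' hr']
  have c1 : Continuous fun ρ : ℝ => (l0 - l1 * (ρ ^ 2 - 1)) * dens x.c ρ := by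
    have := dens_cont x.c_pos; fun_prop
  have c2 : Continuous fun ρ : ℝ => (l0 - l1 * (ρ ^ 2 - 1)) * dens y.c ρ := by
    have := dens_cont y.c_pos; fun_prop
  have h1 : 1 ≤ y.r t' := (hr' t' hst' le_rfl).1
  have hw : ∀ ρ, 1 ≤ ρ → ρ ≤ x.r t → 0 ≤ l0 - l1 * (ρ ^ 2 - 1) := fun ρ a1 a2 => by
    have : ρ ^ 2 ≤ x.r t ^ 2 := pow_le_pow_left₀ (by linarith) a2 2
    linarith only [hl, hl1, this, mul_nonneg_of_nonpos_of_nonpos (Mathlib.Tactic.Linarith.sub_nonpos_of_le hl1) (Mathlib.Tactic.Linarith.sub_nonpos_of_le this)]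
  have hψ : ∀ ρ, 1 ≤ ρ → ρ ≤ x.r t → x.c ≤ ψ ρ * (√3 / 2) := fun ρ a1 a2 => by
    rw [← x.c_eq (ha.trans hst) hb]
    exact mul_le_mul (ψ_le_out a1 a2)
      (sin_le_L (x.φ_pos (ha.trans hst) hb).le (hr t hst le_rfl).2)
      (x.sin_pos (ha.trans hst) hb).le (ψ_pos (by linarith)).le
  calc ∫ ρ in (1 : ℝ)..y.r t', (l0 - l1 * (ρ ^ 2 - 1)) * dens y.c ρ
      ≤ ∫ ρ in (1 : ℝ)..y.r t', (l0 - l1 * (ρ ^ 2 - 1)) * dens x.c ρ := by
        refine intervalIntegral.integral_mono_on h1 (c2.intervalIntegrable _ _)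
          (c1.intervalIntegrable _ _) (fun ρ hρ => ?_)
        exact mul_le_mul_of_nonneg_left
          (dens_le y.c_pos hc (hψ ρ hρ.1 (hρ.2.trans hrr))) (hw ρ hρ.1 (hρ.2.trans hrr))
    _ ≤ ∫ ρ in (1 : ℝ)..x.r t, (l0 - l1 * (ρ ^ 2 - 1)) * dens x.c ρ := by
        rw [← intervalIntegral.integral_add_adjacent_intervals (b := y.r t') (c := x.r t)
          (c1.intervalIntegrable _ _) (c1.intervalIntegrable _ _)]
        have : 0 ≤ ∫ ρ in y.r t'..x.r t, (l0 - l1 * (ρ ^ 2 - 1)) * dens x.c ρ :=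
          intervalIntegral.integral_nonneg hrr (fun ρ hρ =>
            mul_nonneg (hw ρ (h1.trans hρ.1) hρ.2) (dens_nonneg x.c_pos ρ))
        linarith

/-- radius bound in the middle range of angles for small momentum -/
theorem r_sq_small {t : ℝ} (ha : x.a ≤ t) (hb : t ≤ x.b) (hr : x.r t ≤ 1) (h1 : π / 3 ≤ x.φ t)
    (h2 : x.φ t ≤ 2 * π / 3) (hc : x.c ≤ ψ 1 / 2) :
    x.r t ^ 2 ≤ 1 / 6 ∧ x.r t ^ 2 ≤ 8 / 5 * x.c ^ 2 := by
  have h0 := x.c_eq ha hb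
  have hp := x.r_pos ha hb
  have h3 := sin_ge_M h1 h2
  have h4 := ψ_pos hp
  have h5 : ψ (x.r t) * (√3 / 2) ≤ x.c := by rw [← h0]; exact mul_le_mul_of_nonneg_left h3 h4.le
  have h6 : ψ (x.r t) ^ 2 * (3 / 4) ≤ x.c ^ 2 := by
    rw [← three_quarter, ← mul_pow]; exact pow_le_pow_left₀ (by positivity) h5 2
  have sq : ∀ z : ℝ, ψ z ^ 2 = z ^ 2 * exp (-(z ^ 2)) := fun z => by
    unfold ψ; rw [mul_pow, ← exp_nat_mul]; congr 2; push_cast; ring
  have h7 : x.c ^ 2 ≤ ψ 1 ^ 2 / 4 := by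
    have := pow_le_pow_left₀ x.c_pos.le hc 2
    linarith only [this]
  have hA : x.r t ^ 2 ≤ 1 / 6 := by
    by_contra hh
    push Not at hh
    have s6 : 0 < √(1 / 6 : ℝ) := by positivity
    have e6 : √(1 / 6 : ℝ) ^ 2 = 1 / 6 := sq_sqrt (by norm_num)
    have a1 : √(1 / 6 : ℝ) ≤ x.r t := by
      rw [sqrt_le_left hp.le]; exact hh.le
    have a2 := pow_le_pow_left₀ (ψ_pos s6).le (ψ_le_in s6.le a1 hr) 2
    rw [sq √(1 / 6 : ℝ), e6] at a2
    rw [sq 1] at h7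
    have a3 : exp (-(1 / 6 : ℝ)) = exp (-(1 ^ 2)) * exp (5 / 6) := by
      rw [← exp_add]; norm_num
    have a4 : 2 < exp (5 / 6 : ℝ) := by
      have := Real.quadratic_le_exp_of_nonneg (show (0 : ℝ) ≤ 5 / 6 by norm_num)
      linarith only [this]
    have a5 := exp_pos (-(1 ^ 2 : ℝ))
    rw [a3] at a2
    have a6 := mul_lt_mul_of_pos_left a4 a5
    generalize exp (-(1 ^ 2 : ℝ)) = E at *
    generalize exp (5 / 6 : ℝ) = F at *
    linarith only [h6, h7, a2, a6]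
  refine ⟨hA, ?_⟩
  rw [sq] at h6
  have a1 : 5 / 6 ≤ exp (-(x.r t ^ 2)) := by linarith only [hA, add_one_le_exp (-(x.r t ^ 2))]
  linarith only [h6, a1, sq_nonneg (x.r t), mul_nonneg_of_nonpos_of_nonpos (Mathlib.Tactic.Linarith.sub_nonpos_of_le (sq_nonneg (x.r t))) (Mathlib.Tactic.Linarith.sub_nonpos_of_le a1)]

/-- (N4) time spent in the middle range inside the disc, small momentum -/
theorem N4 {s t : ℝ} (ha : x.a ≤ s) (hst : s ≤ t) (hb : t ≤ x.b)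
    (hr : ∀ u, s ≤ u → u ≤ t → x.r u ≤ 1) (h1 : π / 3 ≤ x.φ t) (h2 : x.φ s ≤ 2 * π / 3)
    (hc : x.c ≤ ψ 1 / 2) :
    t - s ≤ 6 / 5 * (x.φ s - x.φ t) ∧ t - s ≤ (x.φ s - x.φ t) * (1 + 2 * x.c ^ 2) := by
  have key : ∀ u, s < u → u < t → x.r u ^ 2 ≤ 1 / 6 ∧ x.r u ^ 2 ≤ 8 / 5 * x.c ^ 2 := by
    intro u a1 a2
    have b1 := x.φ_anti ha a1.le (a2.le.trans hb) (fun w c1 c2 => hr w c1.le (by linarith only [a2, c2]))
    have b2 := x.φ_anti (ha.trans a1.le) a2.le hb (fun w c1 c2 => hr w (by linarith only [a1, c1]) c2.le)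
    exact x.r_sq_small (ha.trans a1.le) (a2.le.trans hb) (hr u a1.le a2.le) (by linarith only [h1, b2])
      (by linarith only [h2, b1]) hc
  have e1 := x.φ_rate_le (v := 1 / 6 - 1) ha hst hb (fun u a1 a2 => by linarith only [key, a1, a2, (key u a1 a2).1])
  have e2 := x.φ_rate_le (v := 8 / 5 * x.c ^ 2 - 1) ha hst hb
    (fun u a1 a2 => by linarith only [key, a1, a2, (key u a1 a2).2])
  have hc2 : x.c ^ 2 ≤ 1 / 8 := by
    have h3 : ψ 1 ≤ 2 / 3 := by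
      rw [ψ_one]
      have : exp (-1 / 2 : ℝ) * exp (1 / 2) = 1 := by rw [← exp_add]; norm_num
      (refine le_of_not_gt fun h_nl => ?_; linarith only [h_nl, this, add_one_le_exp (1 / 2 : ℝ), exp_pos (-1 / 2 : ℝ), mul_nonneg_of_nonpos_of_nonpos (le_of_lt (Mathlib.Tactic.Linarith.sub_neg_of_lt h_nl)) (Mathlib.Tactic.Linarith.sub_nonpos_of_le (add_one_le_exp (1 / 2 : ℝ)))])
    linarith only [hc, h3, x.c_pos, mul_nonneg_of_nonpos_of_nonpos (Mathlib.Tactic.Linarith.sub_nonpos_of_le hc) (le_of_lt (Mathlib.Tactic.Linarith.sub_neg_of_lt (c_pos x))), mul_nonneg_of_nonpos_of_nonpos (Mathlib.Tactic.Linarith.sub_nonpos_of_le h3) (le_of_lt (Mathlib.Tactic.Linarith.sub_neg_of_lt (c_pos x)))]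
  refine ⟨by linarith only [e1], ?_⟩
  have h0 : 0 ≤ t - s := by linarith only [hst]
  have : 1 ≤ (1 - 8 / 5 * x.c ^ 2) * (1 + 2 * x.c ^ 2) := by linarith only [hc2, sq_nonneg x.c, mul_nonneg_of_nonpos_of_nonpos (Mathlib.Tactic.Linarith.sub_nonpos_of_le (sq_nonneg x.c)) (Mathlib.Tactic.Linarith.sub_nonpos_of_le hc2)]
  linarith only [e2, hst, e1, sq_nonneg x.c, mul_nonneg_of_nonpos_of_nonpos (Mathlib.Tactic.Linarith.sub_nonpos_of_le (sq_nonneg x.c)) (Mathlib.Tactic.Linarith.sub_nonpos_of_le hst), mul_nonneg_of_nonpos_of_nonpos (Mathlib.Tactic.Linarith.sub_nonpos_of_le (sq_nonneg x.c)) (Mathlib.Tactic.Linarith.sub_nonpos_of_le e1)]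

end Arc

theorem ψ_K {r : ℝ} (hr : 0 ≤ r) : ψ r * (r ^ 2 - 1) ≤ 1 := by
  have h1 := Real.sum_le_exp_of_nonneg (show 0 ≤ r ^ 2 / 2 by positivity) 5
  simp only [Finset.sum_range_succ, Finset.sum_range_zero, Nat.factorial] at h1
  norm_num at h1
  have e1 : exp (-(r ^ 2) / 2) * exp (r ^ 2 / 2) = 1 := by rw [← exp_add]; simp [neg_div]
  have h2 : r * (r ^ 2 - 1) ≤ exp (r ^ 2 / 2) := by
    (refine le_of_not_gt fun h_nl => ?_; linarith only [h_nl, hr, h1, sq_nonneg (r ^ 2 - 2 * r), sq_nonneg (r ^ 3 - 4 * r), sq_nonneg (r ^ 2 - 4),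
      sq_nonneg (r ^ 4), sq_nonneg (r - 2), sq_nonneg (r ^ 4 - 16), sq_nonneg r, sq_nonneg (r ^ (4 : ℕ) - (16 : ℝ)), sq_nonneg (r ^ (4 : ℕ)), sq_nonneg (r ^ (3 : ℕ) - (4 : ℝ) * r), mul_nonneg_of_nonpos_of_nonpos (Mathlib.Tactic.Linarith.sub_nonpos_of_le (sq_nonneg r)) (Mathlib.Tactic.Linarith.sub_nonpos_of_le (sq_nonneg (r ^ (4 : ℕ) - (16 : ℝ)))), mul_nonneg_of_nonpos_of_nonpos (Mathlib.Tactic.Linarith.sub_nonpos_of_le (sq_nonneg r)) (Mathlib.Tactic.Linarith.sub_nonpos_of_le (sq_nonneg (r ^ (3 : ℕ) - (4 : ℝ) * r))), mul_nonneg_of_nonpos_of_nonpos (Mathlib.Tactic.Linarith.sub_nonpos_of_le (sq_nonneg r)) (Mathlib.Tactic.Linarith.sub_nonpos_of_le (sq_nonneg (r ^ (2 : ℕ) - (2 : ℝ) * r))), mul_nonneg_of_nonpos_of_nonpos (Mathlib.Tactic.Linarith.sub_nonpos_of_le (sq_nonneg r)) (Mathlib.Tactic.Linarith.sub_nonpos_of_le h1), mul_nonneg_of_nonpos_of_nonpos (Mathlib.Tactic.Linarith.sub_nonpos_of_le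 (sq_nonneg r)) (le_of_lt (Mathlib.Tactic.Linarith.sub_neg_of_lt h_nl))])
  unfold ψ
  have := mul_le_mul_of_nonneg_left h2 (exp_pos (-(r ^ 2) / 2)).le
  linarith only [e1, this]

theorem Arc.rate_K (x : Arc) {s t : ℝ} (ha : x.a ≤ s) (hst : s ≤ t) (hb : t ≤ x.b) :
    x.c * (x.φ t - x.φ s) ≤ t - s := by
  have h := x.φ_rate_le (v := 1 / x.c) ha hst hb (fun u a1 a2 => by
    have b1 := ha.trans a1.le
    have b2 := a2.le.trans hb
    have b3 := x.c_le_ψ b1 b2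
    have b4 := ψ_K (x.r_pos b1 b2).le
    rw [le_div_iff₀ x.c_pos]
    rcases le_total (x.r u ^ 2 - 1) 0 with h | h
    · linarith only [h, x.c_pos, mul_nonneg_of_nonpos_of_nonpos (Mathlib.Tactic.Linarith.sub_nonpos_of_le h) (le_of_lt (Mathlib.Tactic.Linarith.sub_neg_of_lt (c_pos x)))]
    · linarith only [b4, b3, h, mul_nonneg_of_nonpos_of_nonpos (Mathlib.Tactic.Linarith.sub_nonpos_of_le b3) (Mathlib.Tactic.Linarith.sub_nonpos_of_le h)])
  have := mul_le_mul_of_nonneg_left h x.c_pos.le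
  rw [← mul_assoc, mul_one_div_cancel x.c_pos.ne', one_mul] at this
  exact this

end Pool.Agent.Work.MP_dd6b33_gt
end

-- merged part: Pool.Agent.Work.MP_dd6b33_gt.Geo1
section
/-!
Geometric lemmas on configurations of a few arcs, I.
-/

namespace Pool.Agent.Work.MP_dd6b33_gt

open Set Real

theorem D_le (f g : Arc) {s t : ℝ} (hst : s ≤ t) (fa : f.a ≤ s) (fb : t ≤ f.b) (ga : g.a ≤ s)
    (gb : t ≤ g.b) (h : ∀ σ, s < σ → σ < t → f.r σ ≤ g.r σ) :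
    f.φ t - g.φ t ≤ f.φ s - g.φ s := by
  have := le_of_deriv (f := fun u => g.φ u - f.φ u)
    (f' := fun u => (g.r u ^ 2 - 1) - (f.r u ^ 2 - 1)) hst
    ((g.φc' ga gb).sub (f.φc' fa fb))
    (fun u hu => (g.φd' ga gb hu).fun_sub (f.φd' fa fb hu))
    (fun u hu => by
      have := f.r_pos (fa.trans hu.1.le) (hu.2.le.trans fb)
      linarith only [this, h, hu, h u hu.1 hu.2, mul_nonneg_of_nonpos_of_nonpos (le_of_lt (Mathlib.Tactic.Linarith.sub_neg_of_lt this)) (Mathlib.Tactic.Linarith.sub_nonpos_of_le (h u hu.left hu.right)), mul_nonneg_of_nonpos_of_nonpos (Mathlib.Tactic.Linarith.sub_nonpos_of_le (h u hu.left hu.right)) (Mathlib.Tactic.Linarith.sub_nonpos_of_le (h u hu.left hu.right))])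
  linarith

theorem D_lt (f g : Arc) {s t : ℝ} (hst : s < t) (fa : f.a ≤ s) (fb : t ≤ f.b) (ga : g.a ≤ s)
    (gb : t ≤ g.b) (h : ∀ σ, s < σ → σ < t → f.r σ < g.r σ) :
    f.φ t - g.φ t < f.φ s - g.φ s := by
  have := lt_of_deriv (f := fun u => g.φ u - f.φ u)
    (f' := fun u => (g.r u ^ 2 - 1) - (f.r u ^ 2 - 1)) hst
    ((g.φc' ga gb).sub (f.φc' fa fb))
    (fun u hu => (g.φd' ga gb hu).fun_sub (f.φd' fa fb hu))
    (fun u hu => by
      have := f.r_pos (fa.trans hu.1.le) (hu.2.le.trans fb)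
      linarith only [this, h, hu, h u hu.1 hu.2, mul_pos_of_neg_of_neg (Mathlib.Tactic.Linarith.sub_neg_of_lt this) (Mathlib.Tactic.Linarith.sub_neg_of_lt (h u hu.left hu.right)), mul_pos_of_neg_of_neg (Mathlib.Tactic.Linarith.sub_neg_of_lt (h u hu.left hu.right)) (Mathlib.Tactic.Linarith.sub_neg_of_lt (h u hu.left hu.right))])
  linarith

theorem Arc.H1 (f : Arc) {s t : ℝ} (ha : f.a ≤ s) (hst : s ≤ t) (hb : t ≤ f.b)
    (hr : ∀ u, s ≤ u → u ≤ t → f.r u ≤ 1) (hc : f.c ≤ cs) (ht : f.φ t ≤ π / 2) :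
    t - s ≤ 4 * π / 3 - f.φ t := by
  rcases le_total (f.φ s) (π / 2) with h | h
  · linarith only [h, ha, hst, hb, hr, hc, f.N1s ha hst hb hr h hc, pi_pos]
  · obtain ⟨u, h1, h2, h3, -⟩ := first_le hst (f.φc' ha hb) h ht
    have e1 := f.N1' ha h1 (h2.trans hb) (fun w a1 a2 => hr w a1 (a2.trans h2)) h3.ge
      (hc.trans_lt cs_lt)
    have e2 := f.N1s (ha.trans h1) h2 hb (fun w a1 a2 => hr w (h1.trans a1) a2) h3.le hc
    linarith only [e1, e2]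

theorem Arc.H2 (f : Arc) {s t : ℝ} (ha : f.a ≤ s) (hst : s ≤ t) (hb : t ≤ f.b)
    (hr : ∀ u, s ≤ u → u ≤ t → f.r u ≤ 1) (hc : f.c ≤ cs) (hs : π / 2 ≤ f.φ s) :
    t - s ≤ f.φ s + π / 3 := by
  rcases le_total (π / 2) (f.φ t) with h | h
  · linarith only [h, ha, hst, hb, hr, hc, f.N1s' ha hst hb hr h hc, pi_pos]
  · obtain ⟨u, h1, h2, h3, -⟩ := first_le hst (f.φc' ha hb) hs h
    have e1 := f.N1s' ha h1 (h2.trans hb) (fun w a1 a2 => hr w a1 (a2.trans h2)) h3.ge hc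
    have e2 := f.N1 (ha.trans h1) h2 hb (fun w a1 a2 => hr w (h1.trans a1) a2) h3.le
      (hc.trans_lt cs_lt)
    linarith only [e1, e2]

theorem Arc.L4 (f : Arc) {s t : ℝ} (ha : f.a ≤ s) (hst : s ≤ t) (hb : t ≤ f.b)
    (hr : ∀ u, s ≤ u → u ≤ t → f.r u ≤ 1) (hc : f.c ≤ cs) : t - s ≤ π := by
  have hc1 := hc.trans_lt cs_lt
  rcases le_total (f.φ s) (π / 2) with h | h
  · linarith only [hst, h, ha, hb, hr, hc1, f.N1 ha hst hb hr h hc1, pi_pos]
  rcases le_total (π / 2) (f.φ t) with h' | h'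
  · linarith only [hst, h', ha, hb, hr, hc1, f.N1' ha hst hb hr h' hc1, pi_pos]
  obtain ⟨u, h1, h2, h3, -⟩ := first_le hst (f.φc' ha hb) h h'
  have e1 := f.N1' ha h1 (h2.trans hb) (fun w a1 a2 => hr w a1 (a2.trans h2)) h3.ge hc1
  have e2 := f.N1 (ha.trans h1) h2 hb (fun w a1 a2 => hr w (h1.trans a1) a2) h3.le hc1
  linarith only [e1, e2]

theorem L4two (f1 f2 : Arc) (h : TR f1 f2) {s t : ℝ} (ha : f1.a ≤ s) (hst : s ≤ t)
    (hb : t ≤ f2.b) (hr1 : ∀ u, s ≤ u → u ≤ t → u ≤ f1.b → f1.r u ≤ 1)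
    (hr2 : ∀ u, s ≤ u → u ≤ t → f2.a ≤ u → f2.r u ≤ 1) (hc1 : f1.c ≤ cs) (hc2 : f2.c ≤ cs) :
    t - s ≤ π := by
  obtain ⟨e1, e2, e3⟩ := h
  rcases le_total t f1.b with h1 | h1
  · exact f1.L4 ha hst h1 (fun u a1 a2 => hr1 u a1 a2 (a2.trans h1)) hc1
  rcases le_total f2.a s with h2 | h2
  · exact f2.L4 h2 hst hb (fun u a1 a2 => hr2 u a1 a2 (h2.trans a1)) hc2
  have k1 : ∀ u, s ≤ u → u ≤ f1.b → f1.r u ≤ 1 := fun u a1 a2 => hr1 u a1 (a2.trans h1) a2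
  have k2 : ∀ u, f2.a ≤ u → u ≤ t → f2.r u ≤ 1 := fun u a1 a2 => hr2 u (h2.trans a1) a2 a1
  unfold Arc.φa Arc.φb at e3
  rcases le_total (f1.φ f1.b) (π / 2) with h3 | h3
  · have a1 := f1.H1 ha (by linarith only [e1, h2]) le_rfl k1 hc1 h3
    have a2 := f2.N1 le_rfl (by linarith only [e1, h1]) hb k2 (by linarith only [e1, e3, h2, h3, a1, pi_pos]) (hc2.trans_lt cs_lt)
    linarith only [e1, e3, a1, a2]
  have a1 := f1.N1' ha (by linarith only [e1, h2]) le_rfl k1 h3 (hc1.trans_lt cs_lt)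
  rcases le_total (f2.φ f2.a) (π / 2) with h4 | h4
  · have a2 := f2.N1 le_rfl (by linarith only [e1, h1]) hb k2 h4 (hc2.trans_lt cs_lt)
    linarith only [e1, e3, h2, h3, a1, a2, pi_pos]
  · have a2 := f2.H2 le_rfl (by linarith only [e1, h1]) hb k2 hc2 h4
    linarith only [e1, e3, a1, a2]

theorem ψ_one_gt : 0.606 < ψ 1 := by
  rw [ψ_one]
  have h1 : exp (-1 / 2 : ℝ) * exp (-1 / 2) * exp 1 = 1 := by
    rw [← exp_add, ← exp_add]; norm_num
  have h2 := exp_one_lt_d9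
  have h3 := exp_pos (-1 / 2 : ℝ)
  by_contra hh
  push Not at hh
  have : exp (-1 / 2 : ℝ) * exp (-1 / 2) ≤ 0.606 * 0.606 := mul_le_mul hh hh h3.le (by norm_num)
  linarith only [h1, h3, hh, this, h2, exp_pos (1 : ℝ), mul_nonneg_of_nonpos_of_nonpos (Mathlib.Tactic.Linarith.sub_nonpos_of_le (mul_self_nonneg ((1 : ℝ) * rexp (-(1 / 2 : ℝ))))) (le_of_lt (Mathlib.Tactic.Linarith.sub_neg_of_lt h2))]

theorem numA {τ : ℝ} (h0 : 0 < τ) (h1 : τ ≤ π / 6) : τ < ψ 1 * sin τ * (1 + cos τ) := by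
  have h2 : τ ≤ 0.524 := by linarith only [h0, h1, pi_lt_d4]
  have h3 := sin_gt_sub_cube h0
  have h4 := one_sub_sq_div_two_le_cos (x := τ)
  have h5 : τ ^ 2 ≤ 0.275 := by linarith only [h2, h0, mul_pos_of_neg_of_neg (Mathlib.Tactic.Linarith.sub_neg_of_lt h0) (Mathlib.Tactic.Linarith.sub_neg_of_lt h0), mul_nonneg_of_nonpos_of_nonpos (le_of_lt (Mathlib.Tactic.Linarith.sub_neg_of_lt h0)) (Mathlib.Tactic.Linarith.sub_nonpos_of_le h2)]
  have h6 : 0.93 * τ < sin τ := by linarith only [h0, h3, h2, mul_nonneg_of_nonpos_of_nonpos (Mathlib.Tactic.Linarith.sub_nonpos_of_le (sq_nonneg ((1 : ℝ) * τ))) (Mathlib.Tactic.Linarith.sub_nonpos_of_le h2), mul_nonneg_of_nonpos_of_nonpos (le_of_lt (Mathlib.Tactic.Linarith.sub_neg_of_lt h0)) (Mathlib.Tactic.Linarith.sub_nonpos_of_le h2)]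
  have h7 : 1.86 ≤ 1 + cos τ := by linarith only [h0, h2, h4, h5]
  have h8 : 0.606 * (0.93 * τ) ≤ ψ 1 * sin τ :=
    mul_le_mul ψ_one_gt.le h6.le (by positivity) ψ_one_pos.le
  have h9 : 0.606 * (0.93 * τ) * 1.86 ≤ ψ 1 * sin τ * (1 + cos τ) :=
    mul_le_mul h8 h7 (by norm_num) (by linarith only [h0, h8, mul_pos (show (0 : ℝ) < 0.606 * 0.93 by norm_num) h0])
  linarith only [h0, h9]

theorem le_pi_six {τ : ℝ} (h1 : τ ≤ π / 2) (h : sin τ ≤ 1 / 2) : τ ≤ π / 6 := by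
  by_contra hh
  push Not at hh
  have := sin_lt_sin_of_lt_of_le_pi_div_two (by linarith only [h1, hh, pi_pos]) h1 hh
  rw [sin_pi_div_six] at this
  linarith only [h, this]

theorem two_sin_le {δ : ℝ} (h0 : 0 ≤ δ) (h1 : δ ≤ π / 6) : 2 * sin δ ≤ sin (δ + π / 3) := by
  have h2 : 0 ≤ sin (π / 6 - δ) := sin_nonneg_of_nonneg_of_le_pi (by linarith only [h1]) (by linarith [pi_pos])
  rw [sin_sub, sin_pi_div_six, cos_pi_div_six] at h2
  rw [sin_add, sin_pi_div_three, cos_pi_div_three]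
  have h3 : √3 * √3 = 3 := mul_self_sqrt (by norm_num)
  have h4 : 0 ≤ √3 := sqrt_nonneg 3
  have h5 := mul_nonneg h4 h2
  have h6 : √3 * (1 / 2 * cos δ - √3 / 2 * sin δ) = cos δ * (√3 / 2) - 3 / 2 * sin δ := by
    linear_combination (-(sin δ) / 2) * h3
  linarith only [h5, h6]

/-- an arc starting inwards inside the disc, up to its first exit -/
theorem Arc.pass (e : Arc) (h1 : π / 2 < e.φa) (h2 : e.ra < 1) {η θ : ℝ} (a1 : e.a ≤ η)
    (a2 : η ≤ θ) (a3 : θ ≤ e.b) (a4 : e.φ η ≤ π / 2) (a5 : 1 ≤ e.r θ) :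
    ∃ η1 t, e.a < η1 ∧ η1 < t ∧ t ≤ e.b ∧ e.φ η1 = π / 2 ∧ e.r η1 < 1 ∧ e.r t = 1 ∧
      e.φ t < π / 2 ∧ ∀ σ, e.a ≤ σ → σ ≤ t → e.r σ ≤ 1 := by
  obtain ⟨η1, b1, b2, b3, b4, b5⟩ := e.ex_min' le_rfl a1 (a2.trans a3) h1 a4
  obtain ⟨t, c1, c2, c3, c4, c5⟩ := e.ex_exit b1.le (b2.trans a2) a3 b4 a5
  refine ⟨η1, t, b1, c1, c2.trans a3, b3, b4, c3, c4, fun σ d1 d2 => ?_⟩
  rcases le_total σ η1 with h | h
  · have := e.r_anti le_rfl d1 (by linarith only [a3, c2, d2]) (fun w e1 e2 => (b5 w e1.le (by linarith only [h, e2])).le)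
    unfold Arc.ra at h2; linarith only [h2, this]
  · rcases d2.eq_or_lt with h' | h'
    · rw [h', c3]
    · exact (c5 σ h h').le

/-- crossing the disc with one left turn inside takes more than a half turn -/
theorem crossA (e1 e2 : Arc) (h : TL e1 e2) {s0 η θ : ℝ} (a0 : e1.a ≤ s0) (a0' : s0 ≤ e1.b)
    (a0r : 1 ≤ e1.r s0) (hin : e1.rb < 1) (hc : e1.c ≤ cs) (hφ : π / 3 ≤ e1.φb)
    (a1 : e2.a ≤ η) (a2 : η ≤ θ) (a3 : θ ≤ e2.b) (a4 : e2.φ η ≤ π / 2) (a5 : 1 ≤ e2.r θ) :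
    ∃ s t, e1.a ≤ s ∧ s ≤ e1.b ∧ e2.a ≤ t ∧ t ≤ e2.b ∧ π < t - s ∧
      (∀ σ, s ≤ σ → σ ≤ e1.b → e1.r σ ≤ 1) ∧ (∀ σ, e2.a ≤ σ → σ ≤ t → e2.r σ ≤ 1) := by
  obtain ⟨k1, k2, k3⟩ := h
  obtain ⟨s, b1, b2, b3, b4, b5⟩ := e1.ex_entry a0 a0' le_rfl a0r hin
  have hs : e1.a ≤ s := a0.trans b1
  have b6 : 2 * π / 3 ≤ e1.φ s := by
    rcases e1.angle_at_one hc hs b2.le b3 with h | h
    · linarith only [b4, h, pi_pos]
    · exact h
  obtain ⟨η1, t, c1, c2, c3, c4, c5, c6, c7, c8⟩ :=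
    e2.pass (by linarith only [hφ, k3, pi_pos]) (by linarith only [hin, k2]) a1 a2 a3 a4 a5
  refine ⟨s, t, hs, b2.le, by linarith only [c1, c2], c3, ?_, fun σ d1 d2 => ?_, c8⟩
  swap
  · rcases d1.eq_or_lt with h | h
    · rw [← h, b3]
    · exact (b5 σ h d2).le
  unfold Arc.φa Arc.φb Arc.ra Arc.rb at *
  rcases le_or_gt (e1.φ e1.b) (π / 2) with h | h
  · obtain ⟨η0, d1, d2, d3, d4, -⟩ := e1.ex_min' hs b2.le le_rfl b4 h
    have t1 := e1.N2' hs d1.le d2 d3.le d4 b3.ge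
    have t2 := e1.N0' (hs.trans d1.le) d2 le_rfl
    have t3 := e2.N0 le_rfl c1 (by linarith only [c2, c3])
    have t4 := e2.N2 c1.le c2.le c3 c4.ge c5 c6.ge
    linarith only [k1, k3, c2, c4, d3, t1, t2, t3, t4, al_gt, pi_pos]
  · set δ := 2 * π / 3 - e1.φ e1.b with hδ
    have hlt := e2.φ_lt le_rfl e2.hab.le
    have δ0 : 0 < δ := by linarith only [k3, hδ, hlt]
    have δ1 : δ < π / 6 := by linarith only [h, hδ]
    have p1 : e1.φ e1.b = π - (δ + π / 3) := by linarith only [hδ]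
    have p2 : e2.φ e2.a = π - δ := by linarith only [k3, hδ]
    have q1 := e1.c_eq e1.hab.le le_rfl
    have q2 := e2.c_eq le_rfl e2.hab.le
    rw [p1, sin_pi_sub] at q1
    rw [p2, sin_pi_sub, ← k2] at q2
    have rp := e1.r_pos e1.hab.le le_rfl
    have ψp := ψ_pos rp
    have q3 : 2 * e2.c ≤ e1.c := by
      rw [← q1, ← q2]
      linarith only [mul_le_mul_of_nonneg_left (two_sin_le δ0.le δ1.le) ψp.le]
    have c2p := e2.c_pos
    have t1 := e1.N6a (g := 2 * e2.c) hs b2.le le_rfl (by linarith only [c2p]) q3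
    have t2 := e2.N6a (g := e2.c) le_rfl c1.le (by linarith only [c2, c3]) c2p.le le_rfl
    have t3 := e2.N6a (g := e2.c) c1.le c2.le c3 c2p.le le_rfl
    rw [c4, cos_pi_div_two] at t2 t3
    rw [c6] at t3
    rw [b3, p1, cos_pi_sub, cos_add, cos_pi_div_three, sin_pi_div_three] at t1
    rw [p2, cos_pi_sub, ← k2] at t2
    have q4 : cos (e1.φ s) ≤ -1 / 2 := by
      have := cos_le_cos_of_nonneg_of_le_pi (by linarith only [k3, h, hlt, pi_pos]) (e1.φ_lt hs b2.le).le b6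
      rw [show 2 * π / 3 = π - π / 3 by ring, cos_pi_sub, cos_pi_div_three] at this
      linarith only [this]
    have q5 := e2.c_eq (t := t) (by linarith only [c1, c2]) c3
    rw [c6] at q5
    have sδ : sin δ ≤ 1 / 2 := by
      rw [← sin_pi_div_six]
      exact sin_le_sin_of_le_of_le_pi_div_two (by linarith only [k3, h, hδ, hlt, pi_pos]) (by linarith only [k3, h, hlt, pi_pos]) δ1.le
    have sδ0 : 0 ≤ sin δ := sin_nonneg_of_nonneg_of_le_pi δ0.le (by linarith only [k3, h, hδ, hlt, pi_pos])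
    have q6 : e2.φ t ≤ π / 6 := le_pi_six c7.le (by
      have : e2.c ≤ ψ 1 * (1 / 2) := by
        rw [← q2]; exact mul_le_mul (ψ_le_one rp.le) sδ sδ0 ψ_one_pos.le
      exact le_of_mul_le_mul_left (q5.trans_le this) ψ_one_pos)
    have q7 := numA (e2.φ_pos (t := t) (by linarith only [c1, c2]) c3) q6
    rw [q5] at q7
    have q8 : 0 ≤ e2.c * (e1.r e1.b * (sin δ * √3)) := by positivity
    have q9 : 0 ≤ e2.c * (-1 / 2 - cos (e1.φ s)) := mul_nonneg c2p.le (by linarith only [q4])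
    linarith only [k1, b6, t1, t2, t3, q7, q8, q9]

/-- the same with a possible second left turn inside -/
theorem cross2 (e0 e1 e2 : Arc) (h0 : TL e0 e1) (h : TL e1 e2) {s0 η θ : ℝ} (a0 : e0.a ≤ s0)
    (a0' : s0 ≤ e0.b) (a0r : 1 ≤ e0.r s0) (hin : e1.rb < 1) (hc0 : e0.c ≤ cs) (hc : e1.c ≤ cs)
    (hc2 : e2.c ≤ cs) (hφ : π / 3 ≤ e1.φb)
    (a1 : e2.a ≤ η) (a2 : η ≤ θ) (a3 : θ ≤ e2.b) (a4 : e2.φ η ≤ π / 2) (a5 : 1 ≤ e2.r θ)
    (In : ℝ → Prop) (i0 : ∀ σ, e0.a ≤ σ → σ ≤ e0.b → e0.r σ ≤ 1 → In σ)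
    (i1 : ∀ σ, e1.a ≤ σ → σ ≤ e1.b → e1.r σ ≤ 1 → In σ)
    (i2 : ∀ σ, e2.a ≤ σ → σ ≤ e2.b → e2.r σ ≤ 1 → In σ)
    (L4 : ∀ s t, e0.a ≤ s → s ≤ t → t ≤ e2.b → (∀ σ, s ≤ σ → σ ≤ t → In σ) → t - s ≤ π) :
    False := by
  by_cases hx : ∃ s1, e1.a ≤ s1 ∧ s1 ≤ e1.b ∧ 1 ≤ e1.r s1
  · obtain ⟨s1, b1, b2, b3⟩ := hx
    obtain ⟨s, t, c1, c2, c3, c4, c5, c6, c7⟩ := crossA e1 e2 h b1 b2 b3 hin hc hφ a1 a2 a3 a4 a5
    have := L4 s t (by linarith only [a0, a0', c1, h0, h0.1, e0.hab]) (by linarith only [c2, c3, h, h.1]) c4 (fun σ d1 d2 => by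
      rcases le_total σ e1.b with d3 | d3
      · exact i1 σ (c1.trans d1) d3 (c6 σ d1 d3)
      · exact i2 σ (by linarith only [d3, h, h.1]) (d2.trans c4) (c7 σ (by linarith only [d3, h, h.1]) d2))
    linarith only [c5, this]
  push Not at hx
  obtain ⟨k1, k2, k3⟩ := h0
  obtain ⟨l1, l2, l3⟩ := h
  have hin0 : e0.rb < 1 := by rw [k2]; exact hx _ le_rfl e1.hab.le
  obtain ⟨s, b1, b2, b3, b4, b5⟩ := e0.ex_entry a0 a0' le_rfl a0r hin0
  have hs : e0.a ≤ s := a0.trans b1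
  have b6 : 2 * π / 3 ≤ e0.φ s := by
    rcases e0.angle_at_one hc0 hs b2.le b3 with h | h
    · linarith only [b4, h, pi_pos]
    · exact h
  obtain ⟨η1, t, c1, c2, c3, c4, c5, c6, c7, c8⟩ :=
    e2.pass (by linarith only [hφ, l3, pi_pos]) (by linarith only [hin, l2]) a1 a2 a3 a4 a5
  have c9 : e2.φ t ≤ π / 3 := by
    rcases e2.angle_at_one hc2 (by linarith only [c1, c2]) c3 c6 with h | h
    · exact h
    · linarith only [c7, h, pi_pos]
  have t0 := e0.N0 hs b2 le_rfl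
  have t1 := e1.N0 le_rfl e1.hab le_rfl
  have t2 := e2.N0 le_rfl (show e2.a < t by linarith only [c1, c2]) c3
  have := L4 s t hs (by linarith only [k1, l1, b2, c1, c2, e1.hab]) c3 (fun σ d1 d2 => by
    rcases le_total σ e0.b with d3 | d3
    · refine i0 σ (hs.trans d1) d3 ?_
      rcases d1.eq_or_lt with h | h
      · rw [← h, b3]
      · exact (b5 σ h d3).le
    rcases le_total σ e1.b with d4 | d4
    · exact i1 σ (by linarith only [k1, d3]) d4 (hx σ (by linarith only [k1, d3]) d4).le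
    · exact i2 σ (by linarith only [l1, d4]) (d2.trans c3) (c8 σ (by linarith only [l1, d4]) d2))
  unfold Arc.φa Arc.φb at *
  linarith only [k1, k3, l1, l3, b6, c9, t0, t1, t2, this]

/-- an arc from the low range to a larger angle leaves the disc -/
theorem Arc.ex_out (e : Arc) (h1 : e.φa ≤ π / 3) (h2 : π / 3 ≤ e.φb) :
    ∃ s, e.a ≤ s ∧ s ≤ e.b ∧ 1 ≤ e.r s := by
  by_contra hcon
  push Not at hcon
  have := e.φ_anti_lt le_rfl e.hab le_rfl (fun u a1 a2 => hcon u a1.le a2.le)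
  unfold Arc.φa Arc.φb at *
  linarith only [h1, h2, this]

theorem Arc.ex_out' (e : Arc) (h1 : e.φa ≤ 2 * π / 3) (h2 : 2 * π / 3 ≤ e.φb) :
    ∃ s, e.a ≤ s ∧ s ≤ e.b ∧ 1 ≤ e.r s := by
  by_contra hcon
  push Not at hcon
  have := e.φ_anti_lt le_rfl e.hab le_rfl (fun u a1 a2 => hcon u a1.le a2.le)
  unfold Arc.φa Arc.φb at *
  linarith only [h1, h2, this]

/-- right side, first part: the chord has to leave the disc after its minimum -/
theorem RS1 (κ g : Arc) (h : TL κ g) (hg : 2 * π / 3 ≤ g.φb) (hκ : κ.φb < π / 3) {η : ℝ}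
    (a1 : κ.a ≤ η) (a2 : η ≤ κ.b) (a3 : κ.φ η = π / 2)
    (In : ℝ → Prop) (i1 : ∀ σ, κ.a ≤ σ → σ ≤ κ.b → κ.r σ ≤ 1 → In σ)
    (i2 : ∀ σ, g.a ≤ σ → σ ≤ g.b → g.r σ ≤ 1 → In σ)
    (I1 : ∀ t, η ≤ t → t ≤ g.b → (∀ σ, η ≤ σ → σ ≤ t → In σ) → t - η ≤ π / 2) :
    ∃ θ, η ≤ θ ∧ θ ≤ κ.b ∧ 1 ≤ κ.r θ := by
  by_contra hcon
  push Not at hcon
  obtain ⟨k1, k2, k3⟩ := h
  have hc : g.c ≤ cs := g.c_le_cs_H g.hab.le le_rfl hg
  obtain ⟨s, b1, b2, b3⟩ := g.ex_out' (by linarith only [hκ, k3]) hg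
  have hin : g.r g.a < 1 := by
    have := hcon κ.b a2 le_rfl
    unfold Arc.ra Arc.rb at k2; linarith only [k2, this]
  obtain ⟨t, c1, c2, c3, c4, c5⟩ := g.ex_exit le_rfl b1 b2 hin b3
  have c6 : g.φ t ≤ π / 3 := by
    rcases g.angle_at_one hc c1.le (c2.trans b2) c3 with h | h
    · exact h
    · linarith only [c4, h, pi_pos]
  have t1 := κ.N0' a1 a2 le_rfl
  have t2 := g.N0 le_rfl c1 (c2.trans b2)
  have := I1 t (by linarith only [a2, k1, c1]) (c2.trans b2) (fun σ d1 d2 => by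
    rcases le_total σ κ.b with d3 | d3
    · exact i1 σ (a1.trans d1) d3 (hcon σ d1 d3).le
    · refine i2 σ (by linarith only [k1, d3]) (by linarith only [b2, c2, d2]) ?_
      rcases d2.eq_or_lt with h | h
      · rw [h, c3]
      · exact (c5 σ (by linarith only [k1, d3]) h).le)
  unfold Arc.φa Arc.φb at *
  linarith only [a3, k1, k3, c6, t1, t2, this]

/-- right side, second part -/
theorem RS2 (κ g : Arc) (h : TL κ g) (hg : 2 * π / 3 ≤ g.φb) (hκ : κ.φb ≤ π / 6) {η θ : ℝ}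
    (a1 : κ.a ≤ η) (a2 : η ≤ θ) (a2' : θ ≤ κ.b) (a3 : κ.φ η = π / 2) (a4 : κ.r η < 1)
    (a5 : 1 ≤ κ.r θ)
    (I2 : ∀ θc θe, η ≤ θc → θc ≤ θe → θe ≤ κ.b → κ.r θc = 1 →
      (∀ u, θc ≤ u → u ≤ θe → 1 ≤ κ.r u ∧ κ.φ u ≤ π / 3) → g.rb ≤ κ.r θe →
      g.b - η ≤ π / 2 + (θe - θc)) : False := by
  obtain ⟨k1, k2, k3⟩ := h
  obtain ⟨θc, c1, c2, c3, c4, c5⟩ := κ.ex_exit a1 a2 a2' a4 a5
  have hθa : κ.a ≤ θc := by linarith only [a1, c1]
  have hθb : θc ≤ κ.b := by linarith only [a2', c2]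
  have q1 := κ.c_b
  have q2 := g.c_a
  have q3 := g.c_b
  rw [k3, ← k2] at q2
  have ψp := ψ_pos κ.rb_pos
  have q4 : 2 * κ.c ≤ g.c := by
    rw [← q1, ← q2]
    linarith only [mul_le_mul_of_nonneg_left (two_sin_le κ.φb_pos.le hκ) ψp.le]
  have cp := κ.c_pos
  have q5 := κ.c_eq hθa hθb
  rw [c3] at q5
  have gle : g.c ≤ ψ 1 := (g.c_le_ψ le_rfl g.hab.le).trans (ψ_le_one g.ra_pos.le)
  have q6 : κ.φ θc ≤ π / 6 := le_pi_six c4.le
    (le_of_mul_le_mul_left (by linarith only [q5, q4, gle]) ψ_one_pos)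
  have q7 := numA (κ.φ_pos hθa hθb) q6
  rw [q5] at q7
  have t1 := κ.N6a (g := κ.c) a1 c1.le hθb cp.le le_rfl
  rw [a3, cos_pi_div_two, c3] at t1
  have t2 := g.rate_K le_rfl g.hab.le le_rfl
  have t3 : 2 * κ.c * (π / 6) ≤ g.c * (g.φ g.b - g.φ g.a) := by
    unfold Arc.φa Arc.φb at *
    exact mul_le_mul q4 (by linarith only [hg, hκ, k3]) (by linarith only [pi_pos]) g.c_pos.le
  have t4 : κ.c ≤ 2 * κ.c * (π / 6) := by
    linarith only [mul_le_mul_of_nonneg_left pi_gt_three.le cp.le]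
  have fin : ∀ θe, θc ≤ θe → θe ≤ κ.b →
      (∀ u, θc ≤ u → u ≤ θe → 1 ≤ κ.r u ∧ κ.φ u ≤ π / 3) → g.rb ≤ κ.r θe → False := by
    intro θe b1 b2 b3 b4
    have := I2 θc θe c1.le b1 b2 c3 b3 b4
    linarith only [this, q7, t1, t2, t3, t4, k1, b2]
  rcases le_or_gt g.rb 1 with hr | hr
  · refine fin θc le_rfl hθb (fun u b1 b2 => ?_) (by rw [c3]; exact hr)
    rw [le_antisymm b2 b1, c3]
    exact ⟨le_rfl, by linarith only [c4, q6, pi_pos]⟩
  have s3 : 0 < √3 / 2 := by positivity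
  have w1 : g.c ≤ ψ g.rb * (√3 / 2) := by
    rw [← q3]; exact mul_le_mul_of_nonneg_left (sin_le_H g.φb_lt.le hg) (ψ_pos g.rb_pos).le
  have maxbig : ∀ w, κ.a ≤ w → w ≤ κ.b → κ.φ w = π / 2 → 1 < κ.r w → g.rb < κ.r w := by
    intro w b1 b2 b3 b4
    by_contra hh
    push Not at hh
    have e1 := κ.c_eq b1 b2
    rw [b3, sin_pi_div_two, mul_one] at e1
    have e2 := ψ_le_out b4.le hh
    have e3 := ψ_pos g.rb_pos
    linarith only [mul_lt_mul_of_pos_left sqrt3_lt e3, e1, e2, e3, w1, q4, cp]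
  have reach : ∃ u, θc ≤ u ∧ u ≤ κ.b ∧ g.rb ≤ κ.r u := by
    clear * - κ θc g hθb hκ s3 ψp q2 w1 hθa c3 c4 maxbig η a1 c1
    rcases le_or_gt 1 κ.rb with h3 | h3
    · refine ⟨κ.b, hθb, le_rfl, ?_⟩
      by_contra hh
      push Not at hh
      have e1 := ψ_lt_out h3 hh
      have e2 : √3 / 2 ≤ sin (κ.φb + π / 3) :=
        sin_ge_M (by linarith only [κ.φb_pos]) (by linarith only [hκ, pi_pos])
      linarith only [mul_lt_mul_of_pos_right e1 s3, mul_le_mul_of_nonneg_left e2 ψp.le, q2, w1]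
    · obtain ⟨w, b1, b2, b3⟩ := κ.ex_gt_of_r_gt hθa hθb le_rfl (by rw [c3]; exact h3)
      obtain ⟨u, d1, d2, d3, d4⟩ := κ.ex_max hθa b1.le b2.le c4.le b3
      exact ⟨u, d1, by linarith only [b2, d2], (maxbig u (by linarith only [a1, c1, d1]) (by linarith only [b2, d2]) d3 d4).le⟩
  obtain ⟨u0, b1, b2, b3⟩ := reach
  obtain ⟨θe, d1, d2, d3, d4⟩ := first_ge b1 (κ.rc' hθa b2) (by linarith only [c3, hr]) b3
  have hθe : θe ≤ κ.b := d2.trans b2
  have hφ : ∀ u, θc ≤ u → u ≤ θe → κ.φ u ≤ π / 2 := by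
    clear * - θc θe κ hθa hθe c4 g maxbig η a1 c1 u0 b2 d2 d4
    intro u e1 e2
    by_contra hh
    push Not at hh
    obtain ⟨w, f1, f2, f3, f4⟩ := κ.ex_max hθa e1 (e2.trans hθe) c4.le hh
    linarith only [maxbig, a1, c1, f1, b2, d2, e2, f2, f3, f4, d4, maxbig w (by linarith) (by linarith) f3 f4, d4 w f1 (by linarith)]
  refine fin θe d1 hθe (fun u e1 e2 => ?_) d3.ge
  have r1 : 1 ≤ κ.r u := by
    rw [← c3]; exact κ.r_mono hθa e1 (e2.trans hθe) (fun w f1 f2 => hφ w f1.le (by linarith only [e2, f2]))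
  refine ⟨r1, ?_⟩
  have r2 : κ.r u ≤ g.rb := by
    rcases e2.eq_or_lt with h | h
    · rw [h, d3]
    · exact (d4 u e1 h).le
  by_contra hh
  push Not at hh
  have e3 := sin_gt_M hh (by linarith only [hh, hφ, e1, e2, hφ u e1 e2, pi_pos])
  have e4 := κ.c_eq (hθa.trans e1) (e2.trans hθe)
  have e5 := ψ_le_out r1 r2
  have e6 := ψ_pos g.rb_pos
  linarith only [mul_le_mul_of_nonneg_right e5 s3.le, mul_lt_mul_of_pos_left e3 (e6.trans_le e5),
    e4, w1, q4, cp]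

end Pool.Agent.Work.MP_dd6b33_gt
end

-- merged part: Pool.Agent.Work.MP_dd6b33_gt.Geo2
section
/-!
Geometric lemmas on configurations of a few arcs, II.
-/

namespace Pool.Agent.Work.MP_dd6b33_gt

open Set Real

theorem TL.c_le {κ g : Arc} (h : TL κ g) (hκ : κ.φb ≤ π / 3) : κ.c ≤ g.c := by
  obtain ⟨-, k2, k3⟩ := h
  rw [← κ.c_b, ← g.c_a, k3, ← k2]
  refine mul_le_mul_of_nonneg_left ?_ (ψ_pos κ.rb_pos).le
  have h0 := κ.φb_pos
  rcases le_total (κ.φb + π / 3) (π / 2) with h | h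
  · exact sin_le_sin_of_le_of_le_pi_div_two (by linarith only [h0, h, pi_pos]) h (by linarith only [h0, h, pi_pos])
  · rw [← sin_pi_sub (κ.φb + π / 3)]
    exact sin_le_sin_of_le_of_le_pi_div_two (by linarith only [hκ, h0, pi_pos]) (by linarith only [h]) (by linarith only [hκ])

theorem TR.c_le {f1 f2 : Arc} (h : TR f1 f2) (h1 : f1.φb ≤ 2 * π / 3) : f2.c ≤ f1.c := by
  have := TL.c_le (κ := f2.mirror) (g := f1.mirror)
  obtain ⟨-, k2, k3⟩ := h
  rw [← f1.c_b, ← f2.c_a, k3, ← k2]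
  refine mul_le_mul_of_nonneg_left ?_ (ψ_pos f1.rb_pos).le
  have h0 := f2.φa_pos
  rcases le_total f1.φb (π / 2) with h | h
  · exact sin_le_sin_of_le_of_le_pi_div_two (by linarith only [h1, k3, h0, pi_pos]) h (by linarith only [h1, k3, h0, pi_pos])
  · rw [← sin_pi_sub f1.φb]
    exact sin_le_sin_of_le_of_le_pi_div_two (by linarith only [h1, k3, h0, pi_pos]) (by linarith only [h]) (by linarith only [h1])

theorem TR.c_ge {f1 f2 : Arc} (h : TR f1 f2) (h1 : 2 * π / 3 ≤ f1.φb) : f1.c ≤ f2.c := by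
  have := TR.c_le h.mirror (by simp; linarith only [h1, h, h.2.2])
  simpa using this

theorem sin_small {f κ : Arc} {u θe : ℝ} (fa : f.a ≤ u) (fb : u ≤ f.b) (ka : κ.a ≤ θe)
    (kb : θe ≤ κ.b) (hc : f.c < κ.c) (h1 : 1 ≤ f.r u) (h2 : f.r u ≤ κ.r θe)
    (h3 : κ.φ θe ≤ π / 3) (h4 : f.φ u ≤ π / 2) : f.φ u < π / 3 := by
  by_contra hh
  push Not at hh
  have e1 := sin_ge_M hh (by linarith only [h4, hh, pi_pos])
  have e2 := sin_le_L (κ.φ_pos ka kb).le h3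
  have e3 := f.c_eq fa fb
  have e4 := κ.c_eq ka kb
  have e5 := ψ_le_out h1 h2
  have e6 := ψ_pos (κ.r_pos ka kb)
  have e7 : ψ (κ.r θe) * sin (κ.φ θe) ≤ ψ (f.r u) * sin (f.φ u) :=
    mul_le_mul e5 (e2.trans e1) (κ.sin_pos ka kb).le (by linarith only [e5, e6])
  linarith only [hc, e3, e4, e7]

theorem low_nomax (f κ g : Arc) (hκg : κ.b = g.a) (hcg : κ.c ≤ g.c) {η : ℝ} (fa : f.a ≤ η)
    (fg : f.b ≤ g.b) (ka : κ.a ≤ η) (hφ : f.φ η ≤ π / 2) (hc : f.c < κ.c)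
    (b1 : ∀ σ, η ≤ σ → σ < f.b → σ ≤ κ.b → f.r σ < κ.r σ)
    (b2 : ∀ σ, η ≤ σ → σ < f.b → g.a ≤ σ → f.r σ < g.r σ) :
    ∀ σ, η ≤ σ → σ ≤ f.b → f.φ σ ≤ π / 2 := by
  intro σ h1 h2
  by_contra hh
  push Not at hh
  obtain ⟨u, c1, c2, c3, c4⟩ := f.ex_max fa h1 h2 hφ hh
  rcases le_total u κ.b with h | h
  · linarith only [hc, fa, c1, h2, c2, ka, h, b1, c3, c4, f.c_lt_of_max κ (fa.trans c1) (by linarith) (ka.trans c1) h
      (b1 u c1 (by linarith) h) c3 c4]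
  · linarith only [hcg, hc, fa, c1, h2, c2, hκg, h, fg, b2, c3, c4, f.c_lt_of_max g (fa.trans c1) (by linarith) (by linarith) (by linarith)
      (b2 u c1 (by linarith) (by linarith)) c3 c4]

theorem low1 (f κ g : Arc) (hκg : κ.b = g.a) (hcg : κ.c ≤ g.c) {η : ℝ} (fa : f.a ≤ η)
    (fb : η ≤ f.b) (fg : f.b = g.b) (ka : κ.a ≤ η) (hr : f.r η < 1) (hφ : f.φ η ≤ π / 2)
    (hc : f.c < κ.c)
    (b1 : ∀ σ, η ≤ σ → σ < f.b → σ ≤ κ.b → f.r σ < κ.r σ)
    (b2 : ∀ σ, η ≤ σ → σ < f.b → g.a ≤ σ → f.r σ < g.r σ) (hend : f.rb ≤ g.rb)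
    {θc θe : ℝ} (d1 : κ.a ≤ θc) (d2 : θc ≤ θe) (d3 : θe ≤ κ.b) (d4 : κ.r θc = 1)
    (d5 : ∀ u, θc ≤ u → u ≤ θe → 1 ≤ κ.r u ∧ κ.φ u ≤ π / 3) (d6 : g.rb ≤ κ.r θe) :
    g.b - η ≤ f.φ η + (θe - θc) := by
  have hn := low_nomax f κ g hκg hcg fa fg.le ka hφ hc b1 b2
  have hc1 : f.c < ψ 1 :=
    hc.trans_le ((κ.c_le_ψ le_rfl κ.hab.le).trans (ψ_le_one κ.ra_pos.le))
  have mono : ∀ s t, η ≤ s → s ≤ t → t ≤ f.b → f.r s ≤ f.r t := fun s t a1 a2 a3 =>
    f.r_mono (fa.trans a1) a2 a3 (fun u e1 e2 => hn u (by linarith only [a1, e1]) (by linarith only [a3, e2]))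
  rcases le_or_gt f.rb 1 with h | h
  · have := f.N1 fa fb le_rfl (fun u a1 a2 => (mono u f.b a1 a2 le_rfl).trans h) hφ hc1
    linarith only [fg, d2, this]
  obtain ⟨x, c1, c2, c3, c4, c5⟩ := f.ex_exit fa fb le_rfl hr h.le
  have t1 := f.N1 fa c1.le c2 (fun u a1 a2 => by
    rw [← c3]; exact mono u x a1 a2 c2) hφ hc1
  have t2 := κ.N7 f (l0 := 1) (l1 := 0) d1 d2 d3 d4 d5 (fa.trans c1.le) c2 le_rfl c3
    (fun u a1 a2 => by
      have r1 : 1 ≤ f.r u := by rw [← c3]; exact mono x u c1.le a1 a2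
      refine ⟨r1, (sin_small (by linarith only [fa, c1, a1]) a2 (d1.trans d2) d3 hc r1 ?_
        (d5 θe d2 le_rfl).2 (hn u (by linarith only [c1, a1]) a2)).le⟩
      exact ((mono u f.b (by linarith only [c1, a1]) a2 le_rfl).trans hend).trans d6)
    hc.le (hend.trans d6) le_rfl (by linarith only [])
  linarith only [fg, t1, t2]

theorem low2_I1 (f1 f2 κ g : Arc) (hf : TR f1 f2) (hκg : κ.b = g.a) (hcg : κ.c ≤ g.c) {η : ℝ}
    (fa : f1.a ≤ η) (fb : η ≤ f1.b) (fg : f2.b = g.b) (ka : κ.a ≤ η) (hφ : f1.φ η ≤ π / 2)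
    (hc : f1.c < κ.c) (hcs : f1.c ≤ cs)
    (b1 : ∀ σ, η ≤ σ → σ < f1.b → σ ≤ κ.b → f1.r σ < κ.r σ)
    (b2 : ∀ σ, η ≤ σ → σ < f1.b → g.a ≤ σ → f1.r σ < g.r σ)
    {t : ℝ} (t1 : η ≤ t) (t2 : t ≤ g.b)
    (i1 : ∀ σ, η ≤ σ → σ ≤ t → σ ≤ f1.b → f1.r σ ≤ 1)
    (i2 : ∀ σ, η ≤ σ → σ ≤ t → f2.a ≤ σ → f2.r σ ≤ 1) : t - η ≤ π / 2 := by
  have hn := low_nomax f1 κ g hκg hcg fa (by linarith only [fg, hf, hf.1, f2.hab]) ka hφ hc b1 b2
  have hY := hn f1.b fb le_rfl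
  have hc2 := hf.c_le (by unfold Arc.φb; linarith only [hY, pi_pos])
  obtain ⟨k1, k2, k3⟩ := hf
  unfold Arc.φa Arc.φb at k3
  rcases le_total t f1.b with h | h
  · linarith only [hφ, fa, t1, h, i1, hcs, f1.N1 fa t1 h (fun u a1 a2 => i1 u a1 a2 (a2.trans h)) hφ (hcs.trans_lt cs_lt)]
  · have e1 := f1.N1s fa fb le_rfl (fun u a1 a2 => i1 u a1 (a2.trans h) a2) hφ hcs
    have e2 := f2.N1 (t := t) le_rfl (by linarith only [k1, h]) (by linarith only [fg, t2])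
      (fun u a1 a2 => i2 u (by linarith only [fb, k1, a1]) a2 a1) (by linarith only [fb, hφ, k3, e1, pi_pos])
      ((hc2.trans hcs).trans_lt cs_lt)
    linarith only [hφ, k1, k3, e1, e2]

theorem low2_I2 (f1 f2 κ g : Arc) (hf : TR f1 f2) (hκg : κ.b = g.a) (hcg : κ.c ≤ g.c) {η : ℝ}
    (fa : f1.a ≤ η) (fb : η ≤ f1.b) (fg : f2.b = g.b) (ka : κ.a ≤ η) (hφ : f1.φ η ≤ π / 2)
    (hc : f1.c < κ.c) (hcs : f1.c ≤ cs)
    (b1 : ∀ σ, η ≤ σ → σ < f1.b → σ ≤ κ.b → f1.r σ < κ.r σ)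
    (b2 : ∀ σ, η ≤ σ → σ < f1.b → g.a ≤ σ → f1.r σ < g.r σ)
    (b3 : ∀ σ, f2.a ≤ σ → σ < f2.b → σ ≤ κ.b → f2.r σ < κ.r σ)
    (b4 : ∀ σ, f2.a ≤ σ → σ < f2.b → g.a ≤ σ → f2.r σ < g.r σ) (hend : f2.rb ≤ g.rb)
    {θc θe : ℝ} (d1 : κ.a ≤ θc) (d2 : θc ≤ θe) (d3 : θe ≤ κ.b) (d4 : κ.r θc = 1)
    (d5 : ∀ u, θc ≤ u → u ≤ θe → 1 ≤ κ.r u ∧ κ.φ u ≤ π / 3) (d6 : g.rb ≤ κ.r θe) :
    g.b - η ≤ π / 2 + (θe - θc) := by
  have hn := low_nomax f1 κ g hκg hcg fa (by linarith only [fg, hf, hf.1, f2.hab]) ka hφ hc b1 b2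
  have hY := hn f1.b fb le_rfl
  have hc2 := hf.c_le (by unfold Arc.φb; linarith only [hY, pi_pos])
  have hp := f2.φa_pos
  obtain ⟨k1, k2, k3⟩ := hf
  unfold Arc.φa Arc.φb Arc.ra Arc.rb at *
  have hφ2 : f2.φ f2.a ≤ π / 2 := by linarith only [hY, hp, k3, pi_pos]
  have hn2 := low_nomax f2 κ g hκg hcg le_rfl fg.le (by linarith only [fb, ka, k1]) hφ2 (by linarith only [hc, hc2]) b3 b4
  have hY1 : f1.r f1.b < 1 := by
    by_contra hh
    push Not at hh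
    have m1 := f2.r_mono le_rfl f2.hab.le le_rfl (fun u a1 a2 => hn2 u a1.le a2.le)
    have := sin_small f1.hab.le le_rfl (d1.trans d2) d3 hc hh (by linarith only [hend, d6, k2, m1])
      (d5 θe d2 le_rfl).2 hY
    linarith only [hp, k3, this]
  have e1 := f1.N1s fa fb le_rfl (fun u a1 a2 =>
    (f1.r_mono (fa.trans a1) a2 le_rfl (fun w c1 c2 => hn w (by linarith only [a1, c1]) c2.le)).trans hY1.le)
    hφ hcs
  have e2 := low1 f2 κ g hκg hcg le_rfl f2.hab.le fg (by linarith only [fb, ka, k1]) (by linarith only [k2, hY1]) hφ2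
    (by linarith only [hc, hc2]) b3 b4 hend d1 d2 d3 d4 d5 d6
  linarith only [hφ, k1, k3, e1, e2]

/-! ### the cap over a chord -/

theorem capChord (κ : Arc) (h1 : π / 2 < κ.φa) (h2 : κ.φb ≤ π / 2) (h3 : 1 ≤ κ.ra) {η θ : ℝ}
    (a1 : κ.a ≤ η) (a2 : η ≤ θ) (a3 : θ ≤ κ.b) (a4 : κ.φ η ≤ π / 2) (a5 : 1 ≤ κ.r θ) :
    2 * al ≤ κ.b - κ.a ∧ (κ.rb < 1 → 3 * al ≤ κ.b - κ.a) := by
  obtain ⟨η1, b1, b2, b3, b4, -⟩ := κ.ex_min' le_rfl a1 (a2.trans a3) h1 a4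
  have t1 := κ.N2' le_rfl b1.le (by linarith only [a2, a3, b2]) b3.le b4 h3
  have t2 := κ.N2 b1.le (b2.trans a2) a3 b3.ge b4 a5
  refine ⟨by linarith only [a3, t1, t2], fun h => ?_⟩
  have t3 := κ.N2' (a1.trans a2) a3 le_rfl h2 h a5
  linarith only [t1, t2, t3]

theorem TopL (g : Arc) {t : ℝ} (a1 : g.a ≤ t) (a2 : t ≤ g.b) (hr : 1 ≤ g.ra) (hc : g.c < ψ 1)
    (h : ∀ u, g.a ≤ u → u ≤ t → g.φ u ≤ π / 2) : t - g.a < al :=
  g.N3 le_rfl a1 a2 (fun u b1 b2 => hr.trans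
    (g.r_mono le_rfl b1 (b2.trans a2) (fun w c1 c2 => h w c1.le (by linarith)))) (h t a1 le_rfl) hc

theorem TopR (g : Arc) {s : ℝ} (a1 : g.a ≤ s) (a2 : s ≤ g.b) (hc : g.c < ψ 1)
    (hφ : 2 * π / 3 ≤ g.φb) (h : ∀ u, s ≤ u → u ≤ g.b → π / 2 ≤ g.φ u) :
    g.b - s < 2 * al ∧ (1 ≤ g.rb → g.b - s < al) := by
  have anti : ∀ u w, s ≤ u → u ≤ w → w ≤ g.b → g.r w ≤ g.r u := fun u w b1 b2 b3 =>
    g.r_anti (a1.trans b1) b2 b3 (fun z c1 c2 => h z (by linarith only [b1, c1]) (by linarith))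
  have hal := al_gt
  have k : 1 ≤ g.rb → g.b - s < al := fun hr =>
    g.N3' a1 a2 le_rfl (fun u b1 b2 => hr.trans (anti u g.b b1 b2 le_rfl)) (h s le_rfl a2) hc
  refine ⟨?_, k⟩
  unfold Arc.φb Arc.rb at *
  rcases le_or_gt 1 (g.r g.b) with h1 | h1
  · linarith only [a2, k, h1, k h1, pi_pos]
  rcases le_or_gt 1 (g.r s) with h2 | h2
  · obtain ⟨u, b1, b2, b3, -, -⟩ := g.ex_entry a1 a2 le_rfl h2 h1
    have t1 := g.N3' a1 b1 b2.le (fun w c1 c2 => by rw [← b3]; exact anti w u c1 c2 b2.le)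
      (h s le_rfl a2) hc
    have t2 := g.N1' (a1.trans b1) b2.le le_rfl
      (fun w c1 c2 => by rw [← b3]; exact anti u w b1 c1 c2) (h g.b a2 le_rfl) hc
    linarith only [hφ, hal, b2, t1, t2, pi_pos]
  · have t2 := g.N1' a1 a2 le_rfl (fun w c1 c2 => (anti s w le_rfl c1 c2).trans h2.le)
      (h g.b a2 le_rfl) hc
    linarith only [a2, hφ, hal, t2, pi_pos]

theorem cap0 (κ g : Arc) (ha : g.a = κ.a) (hb : g.b = κ.b) (hra : g.ra = κ.ra)
    (hrb : g.rb = κ.rb) (hφa : κ.φa = g.φa + 2 * π / 3) (hφb : g.φb = κ.φb + 2 * π / 3)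
    (hc : g.c ≤ κ.c) (below : ∀ σ, κ.a < σ → σ < κ.b → κ.r σ < g.r σ) (h3 : 1 ≤ κ.ra)
    {η θ : ℝ} (a1 : κ.a ≤ η) (a2 : η ≤ θ) (a3 : θ ≤ κ.b) (a4 : κ.φ η ≤ π / 2) (a5 : 1 ≤ κ.r θ) :
    False := by
  have p1 := g.φa_pos
  have p2 := κ.φa_lt
  have p3 := κ.φb_pos
  have p4 := g.φb_lt
  obtain ⟨c1, c2⟩ := capChord κ (by linarith only [hφa, p1, p2, pi_pos]) (by linarith only [hφa, hφb, p1, p2, p4, pi_pos]) h3 a1 a2 a3 a4 a5
  have hcs : g.c < ψ 1 := (g.c_le_cs_H g.hab.le le_rfl (by unfold Arc.φb at *; linarith only [hφb, p3])).trans_lt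
    cs_lt
  obtain ⟨u, b1, b2, b3, b4, b5⟩ := g.ex_max' le_rfl g.hab.le le_rfl
    (by unfold Arc.φa at *; linarith only [hφa, p1, p2, pi_pos]) (by unfold Arc.φb at *; linarith only [hφa, hφb, p1, p2, p3, pi_pos])
  have t1 := TopL g b1.le b2 (by linarith only [hra, h3]) hcs (fun w d1 d2 => by
    rcases d2.eq_or_lt with h | h
    · rw [h, b3]
    · exact (b5 w d1 h).le)
  obtain ⟨t2, t3⟩ := TopR g b1.le b2 hcs (by linarith only [hφb, p3]) (fun w d1 d2 => by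
    clear * - g w u b1 d1 d2 b3 κ hc ha hb below
    by_contra hh
    push Not at hh
    obtain ⟨z, e1, e2, e3, e4⟩ := g.ex_min b1.le d1 d2 b3.ge hh
    linarith only [hc, ha, b1, e1, hb, d2, e2, below, e3, e4, κ.c_lt_of_min g (t := z) (by linarith) (by linarith) (by linarith) (by linarith)
      (below z (by linarith) (by linarith)) e3 e4])
  rcases le_or_gt 1 κ.rb with h | h
  · linarith only [ha, hb, c1, t1, t3, hrb, h, t3 (by linarith)]
  · linarith only [ha, hb, t1, t2, c2, h, c2 h]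

theorem cap1 (κ g0 g1 : Arc) (hg : TL g0 g1) (hv : g0.φb = π / 3) (ha : g0.a = κ.a)
    (hb : g1.b = κ.b) (hra : g0.ra = κ.ra) (hrb : g1.rb = κ.rb)
    (hφa : κ.φa = g0.φa + 2 * π / 3) (hφb : g1.φb = κ.φb + 2 * π / 3)
    (hc0 : g0.c ≤ κ.c) (hc1 : g1.c ≤ κ.c)
    (below0 : ∀ σ, κ.a < σ → σ ≤ g0.b → κ.r σ < g0.r σ)
    (below1 : ∀ σ, g1.a ≤ σ → σ < κ.b → κ.r σ < g1.r σ) (h3 : 1 ≤ κ.ra)
    {η θ : ℝ} (a1 : κ.a ≤ η) (a2 : η ≤ θ) (a3 : θ ≤ κ.b) (a4 : κ.φ η ≤ π / 2) (a5 : 1 ≤ κ.r θ) :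
    False := by
  have p1 := g0.φa_pos
  have p2 := κ.φa_lt
  have p3 := κ.φb_pos
  have p4 := g1.φb_lt
  have p5 := g0.hab
  have p6 := g1.hab
  obtain ⟨k1, k2, k3⟩ := hg
  obtain ⟨c1, c2⟩ := capChord κ (by linarith only [hφa, p1, p2, pi_pos]) (by linarith only [hφa, hφb, p1, p2, p4, pi_pos]) h3 a1 a2 a3 a4 a5
  have hcs0 : g0.c < ψ 1 :=
    (g0.c_le_cs_L g0.hab.le le_rfl (by unfold Arc.φb at *; linarith only [hv])).trans_lt cs_lt
  have hcs1 : g1.c < ψ 1 :=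
    (g1.c_le_cs_H g1.hab.le le_rfl (by unfold Arc.φb at *; linarith only [hφb, p3])).trans_lt cs_lt
  have t1 := TopL g0 g0.hab.le le_rfl (by linarith only [hra, h3]) hcs0 (fun w d1 d2 => by
    clear * - g0 w d1 d2 κ hv hφa p1 p2 hc0 ha g1 hb p6 k1 below0
    by_contra hh
    push Not at hh
    obtain ⟨z, e1, e2, e3, e4⟩ := g0.ex_min d1 d2 le_rfl hh.le
      (by unfold Arc.φb at *; linarith only [hv, hφa, p1, p2, pi_pos])
    have : g0.a < w := lt_of_le_of_ne d1 (by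
      rintro rfl; unfold Arc.φa at *; linarith only [hφa, p1, p2, hh, pi_pos])
    linarith only [hc0, ha, e1, this, hb, p6, k1, e2, below0, e3, e4, κ.c_lt_of_min g0 (t := z) (by linarith) (by linarith) (by linarith) (by linarith)
      (below0 z (by linarith) (by linarith)) e3 e4])
  obtain ⟨t2, t3⟩ := TopR g1 le_rfl g1.hab.le hcs1 (by linarith only [hφb, p3]) (fun w d1 d2 => by
    clear * - g1 w d1 d2 g0 κ hv hφa p1 p2 k3 hc1 ha p5 k1 hb below1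
    by_contra hh
    push Not at hh
    obtain ⟨z, e1, e2, e3, e4⟩ := g1.ex_min le_rfl d1 d2
      (by unfold Arc.φa at *; linarith only [hv, hφa, p1, p2, k3, pi_pos]) hh
    linarith only [hc1, ha, p5, k1, e1, hb, d2, e2, below1, e3, e4, κ.c_lt_of_min g1 (t := z) (by linarith) (by linarith) (by linarith) (by linarith)
      (below1 z (by linarith) (by linarith)) e3 e4])
  rcases le_or_gt 1 κ.rb with h | h
  · linarith only [ha, hb, k1, c1, t1, t3, hrb, h, t3 (by linarith)]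
  · linarith only [ha, hb, k1, t1, t2, c2, h, c2 h]

/-- the pattern outer, inner, inner, outer -/
theorem G_c (u0 u1 u2 u3 : Arc) (h01 : TL u0 u1) (h12 : TL u1 u2) (h23 : TL u2 u3)
    (p0 : u0.φa ≤ π / 3) (p1 : π / 3 < u0.φb) (p2 : π / 3 ≤ u1.φb) (p3 : u2.φb < π / 3)
    (p4 : 2 * π / 3 ≤ u3.φb) (In : ℝ → Prop)
    (i0 : ∀ σ, u0.a ≤ σ → σ ≤ u0.b → u0.r σ ≤ 1 → In σ)
    (i1 : ∀ σ, u1.a ≤ σ → σ ≤ u1.b → u1.r σ ≤ 1 → In σ)
    (i2 : ∀ σ, u2.a ≤ σ → σ ≤ u2.b → u2.r σ ≤ 1 → In σ)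
    (i3 : ∀ σ, u3.a ≤ σ → σ ≤ u3.b → u3.r σ ≤ 1 → In σ)
    (L4 : ∀ s t, u0.a ≤ s → s ≤ t → t ≤ u3.b → (∀ σ, s ≤ σ → σ ≤ t → In σ) → t - s ≤ π)
    (I1 : ∀ η t, u2.a ≤ η → η ≤ u2.b → u2.φ η = π / 2 → η ≤ t → t ≤ u3.b →
      (∀ σ, η ≤ σ → σ ≤ t → In σ) → t - η ≤ π / 2)
    (conv : ∀ η1 η2, u1.a ≤ η1 → η1 ≤ u1.b → u1.φ η1 = π / 2 → u1.r η1 < 1 →
      u2.a ≤ η2 → η2 ≤ u2.b → u2.φ η2 = π / 2 → u2.r η2 < 1 → ∀ σ, η1 ≤ σ → σ ≤ η2 → In σ) :
    False := by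
  have q1 := h01.2.2
  have q2 := h12.2.2
  have q3 := u2.φa_lt
  have q4 := h01.1
  have q5 := h12.1
  have q6 := h23.1
  have q7 := u0.hab
  have q8 := u3.hab
  obtain ⟨η, b1, b2, b3, b4, -⟩ := u2.ex_min' le_rfl u2.hab.le le_rfl
    (by unfold Arc.φa at *; linarith only [p2, q2, q3, pi_pos]) (by unfold Arc.φb at *; linarith only [p2, p3, q2, q3, pi_pos])
  obtain ⟨θ, c1, c2, c3⟩ := RS1 u2 u3 h23 p4 p3 b1.le b2 b3 In i2 i3 (fun t d1 d2 d3 =>
    I1 η t b1.le b2 b3 d1 d2 d3)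
  rcases lt_or_ge u1.rb 1 with h | h
  · obtain ⟨s0, d1, d2, d3⟩ := u0.ex_out p0 p1.le
    exact cross2 u0 u1 u2 h01 h12 d1 d2 d3 h (u0.c_le_cs_L le_rfl u0.hab.le p0)
      (u1.c_le_cs_H le_rfl u1.hab.le (by unfold Arc.φa at *; linarith only [p1, q1]))
      (u2.c_le_cs_L u2.hab.le le_rfl p3.le) p2 b1.le c1 c2 b3.le c3 In i0 i1 i2
      (fun s t e1 e2 e3 e4 => L4 s t e1 e2 (by linarith only [q6, q8, e3]) e4)
  obtain ⟨w, d1, d2, d3⟩ := u1.ex_in_of_φ_gt le_rfl u1.hab.le le_rfl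
    (by unfold Arc.φa Arc.φb at *; linarith only [p1, q1, q2, q3])
  obtain ⟨w2, e1, e2, e3⟩ := u1.ex_lt_of_r_lt d1.le d2.le le_rfl
    (by unfold Arc.rb at *; linarith only [h, d3])
  obtain ⟨η1, f1, f2, f3, f4⟩ := u1.ex_min (s := u1.a) le_rfl (by linarith only [d1, e1]) e2.le
    (by unfold Arc.φa at *; linarith only [p1, p2, q1, q2, q3, pi_pos]) e3
  obtain ⟨t, g1, g2, g3, -, g5⟩ := u2.ex_exit b1.le c1 c2 b4 c3
  have t1 := u1.N2 f1 (show η1 ≤ u1.b by linarith only [e2, f2]) le_rfl f3.ge f4 h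
  have t2 := u2.N2' le_rfl b1.le b2 b3.le b4 (by have := h12.2.1; unfold Arc.ra at *; linarith only [h, this])
  have t3 := u2.N2 b1.le g1.le (by linarith only [c2, g2]) b3.ge b4 g3.ge
  have := L4 η1 t (by linarith only [q4, q7, f1]) (by linarith only [q5, b1, e2, f2, g1]) (by linarith only [q6, q8, c2, g2]) (fun σ k1 k2 => by
    rcases le_total σ η with k3 | k3
    · exact conv η1 η f1 (by linarith only [e2, f2]) f3 f4 b1.le b2 b3 b4 σ k1 k3
    · refine i2 σ (by linarith only [b1, k3]) (by linarith only [c2, g2, k2]) ?_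
      rcases k2.eq_or_lt with k | k
      · rw [k, g3]
      · exact (g5 σ k3 k).le)
  linarith only [q5, e2, f2, t1, t2, t3, this, al_gt, pi_pos]

end Pool.Agent.Work.MP_dd6b33_gt
end
end

-- merged part: Pool.Agent.Work.MP_dd6b33_gt.Geo4
section
-- merged part: Pool.Agent.Work.MP_dd6b33_gt.Geo3
section
/-!
Geometric lemmas on faces carrying two consecutive halflines.
-/

namespace Pool.Agent.Work.MP_dd6b33_gt

open Set Real

theorem TL.c_eq {u v : Arc} (h : TL u v) (hv : u.φb = π / 3) : u.c = v.c := by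
  rw [← u.c_b, ← v.c_a, h.2.2, ← h.2.1, hv, show π / 3 + π / 3 = 2 * π / 3 by ring,
    sin_two_pi_div_three, sin_pi_div_three]

theorem sin_add_le (β : ℝ) : sin β + sin (β + 2 * π / 3) ≤ 1 := by
  have h := sin_le_one (β + π / 3)
  rw [sin_add, sin_pi_div_three, cos_pi_div_three] at h
  rw [sin_add, sin_two_pi_div_three, show 2 * π / 3 = π - π / 3 by ring, cos_pi_sub,
    cos_pi_div_three]
  linarith only [h]

theorem ψ_one_le : ψ 1 ≤ 2 / 3 := by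
  rw [ψ_one]
  have : exp (-1 / 2 : ℝ) * exp (1 / 2) = 1 := by rw [← exp_add]; norm_num
  (refine le_of_not_gt fun h_nl => ?_; linarith only [h_nl, this, add_one_le_exp (1 / 2 : ℝ), exp_pos (-1 / 2 : ℝ), mul_nonneg_of_nonpos_of_nonpos (le_of_lt (Mathlib.Tactic.Linarith.sub_neg_of_lt h_nl)) (Mathlib.Tactic.Linarith.sub_nonpos_of_le (add_one_le_exp (1 / 2 : ℝ)))])

theorem c_add_le_a {f u : Arc} (h1 : f.ra = u.ra) (h2 : f.φa = u.φa + 2 * π / 3) :
    f.c + u.c ≤ ψ 1 := by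
  rw [← f.c_a, ← u.c_a, h1, h2]
  linarith only [sin_add_le u.φa, ψ_pos u.ra_pos, ψ_le_one u.ra_pos.le, mul_nonneg_of_nonpos_of_nonpos (Mathlib.Tactic.Linarith.sub_nonpos_of_le (sin_add_le u.φa)) (le_of_lt (Mathlib.Tactic.Linarith.sub_neg_of_lt (ψ_pos (Arc.ra_pos u))))]

theorem c_add_le_b {f u : Arc} (h1 : f.rb = u.rb) (h2 : u.φb = f.φb + 2 * π / 3) :
    f.c + u.c ≤ ψ 1 := by
  rw [← f.c_b, ← u.c_b, h1, h2]
  linarith only [sin_add_le f.φb, ψ_pos u.rb_pos, ψ_le_one u.rb_pos.le, mul_nonneg_of_nonpos_of_nonpos (Mathlib.Tactic.Linarith.sub_nonpos_of_le (sin_add_le f.φb)) (le_of_lt (Mathlib.Tactic.Linarith.sub_neg_of_lt (ψ_pos (Arc.rb_pos u))))]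

theorem Arc.inner_in (e : Arc) (hc : e.c ≤ cs) {s t : ℝ} (ha : e.a ≤ s) (hb : t ≤ e.b)
    (hs : e.r s < 1) (h : ∀ w, s ≤ w → w < t → π / 3 < e.φ w) :
    ∀ w, s ≤ w → w ≤ t → e.r w ≤ 1 := by
  intro w h1 h2
  by_contra hh
  push Not at hh
  obtain ⟨u, b1, b2, b3, b4, -⟩ := e.ex_exit ha h1 (h2.trans hb) hs hh.le
  have b5 : u < w := lt_of_le_of_ne b2 (by rintro rfl; linarith only [b3, hh])
  rcases e.angle_at_one hc (by linarith) (by linarith only [hb, h2, b5]) b3 with h3 | h3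
  · linarith only [h3, h, b1, h2, b5, h u b1.le (by linarith)]
  · linarith only [b4, h3, pi_pos]

theorem Arc.stay_in (f : Arc) {s t : ℝ} (ha : f.a ≤ s) (hb : t ≤ f.b) (hs : f.r s ≤ 1)
    (ht : f.r t ≤ 1) (hno : ∀ w, s < w → w < t → f.φ w = π / 2 → 1 < f.r w → False) :
    ∀ w, s ≤ w → w ≤ t → f.r w ≤ 1 := by
  intro w h1 h2
  by_contra hh
  push Not at hh
  obtain ⟨u, b1, b2, b3, b4⟩ := f.ex_max_r ha h1 h2 hb (by linarith) (by linarith)
  exact hno u b1 b2 b3 b4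

theorem U_left (u0 u1 : Arc) (h : TL u0 u1) (p0 : u0.φa ≤ π / 3) (p1 : u0.φb = π / 3) {η : ℝ}
    (a1 : u1.a ≤ η) (a2 : η ≤ u1.b) (a3 : u1.φ η = π / 2) (a4 : u1.r η < 1) (In : ℝ → Prop)
    (i0 : ∀ σ, u0.a ≤ σ → σ ≤ u0.b → u0.r σ ≤ 1 → In σ)
    (i1 : ∀ σ, u1.a ≤ σ → σ ≤ u1.b → u1.r σ ≤ 1 → In σ) :
    ∃ θ, u0.a ≤ θ ∧ al ≤ η - θ ∧ ∀ σ, θ ≤ σ → σ ≤ η → In σ := by
  obtain ⟨k1, k2, k3⟩ := h
  by_cases hx : ∃ s1, u1.a ≤ s1 ∧ s1 ≤ η ∧ 1 ≤ u1.r s1
  · obtain ⟨s1, b1, b2, b3⟩ := hx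
    obtain ⟨θ, c1, c2, c3, -, c5⟩ := u1.ex_entry b1 b2 a2 b3 a4
    refine ⟨θ, by linarith only [k1, b1, c1, u0.hab], u1.N2' (b1.trans c1) c2.le a2 a3.le a4 c3.ge,
      fun σ d1 d2 => i1 σ (by linarith only [b1, c1, d1]) (by linarith only [a2, d2]) ?_⟩
    rcases d1.eq_or_lt with h | h
    · rw [← h, c3]
    · exact (c5 σ h d2).le
  push Not at hx
  obtain ⟨s0, b1, b2, b3⟩ := u0.ex_out p0 p1.ge
  have hin : u0.rb < 1 := by rw [k2]; exact hx _ le_rfl a1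
  obtain ⟨θ, c1, c2, c3, -, c5⟩ := u0.ex_entry b1 b2 le_rfl b3 hin
  have t1 := u0.N2' (b1.trans c1) c2.le le_rfl (by unfold Arc.φb at p1; linarith only [p1, pi_pos]) hin c3.ge
  refine ⟨θ, b1.trans c1, by linarith only [a1, k1, t1], fun σ d1 d2 => ?_⟩
  rcases le_total σ u0.b with d3 | d3
  · refine i0 σ (by linarith only [b1, c1, d1]) d3 ?_
    rcases d1.eq_or_lt with h | h
    · rw [← h, c3]
    · exact (c5 σ h d3).le
  · exact i1 σ (by linarith only [k1, d3]) (by linarith only [a2, d2]) (hx σ (by linarith only [k1, d3]) d2).le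

theorem U_two (u0 u1 u2 : Arc) (h01 : TL u0 u1) (h12 : TL u1 u2) (p0 : u0.φa ≤ π / 3)
    (p1 : u0.φb = π / 3) (p2 : u1.φb = π / 3) (p3 : 2 * π / 3 ≤ u2.φb) (In : ℝ → Prop)
    (i0 : ∀ σ, u0.a ≤ σ → σ ≤ u0.b → u0.r σ ≤ 1 → In σ)
    (i1 : ∀ σ, u1.a ≤ σ → σ ≤ u1.b → u1.r σ ≤ 1 → In σ)
    (i2 : ∀ σ, u2.a ≤ σ → σ ≤ u2.b → u2.r σ ≤ 1 → In σ) :
    ∃ η s t, u1.a < η ∧ η < u1.b ∧ u1.φ η = π / 2 ∧ u1.r η < 1 ∧ u0.a ≤ s ∧ t ≤ u2.b ∧
      al ≤ η - s ∧ al ≤ t - η ∧ ∀ σ, s ≤ σ → σ ≤ t → In σ := by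
  have q1 := h01.2.2
  have q2 := h12.2.2
  obtain ⟨η, b1, b2, b3, b4, -⟩ := u1.ex_min' le_rfl u1.hab.le le_rfl
    (by unfold Arc.φa at *; linarith only [p1, q1, pi_pos]) (by unfold Arc.φb at *; linarith only [p2, pi_pos])
  have b5 : η < u1.b := lt_of_le_of_ne b2 (by
    rintro rfl; unfold Arc.φb at *; linarith only [p2, b3, pi_pos])
  obtain ⟨s, c1, c2, c3⟩ := U_left u0 u1 h01 p0 p1 b1.le b2 b3 b4 In i0 i1
  obtain ⟨t, d1, d2, d3⟩ := U_left u2.mirror u1.mirror h12.mirror (by simp; linarith only [p3])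
    (by simp; linarith only [p2, q2]) (η := -η) (by simpa) (by simpa using b1.le) (by simp; linarith only [b3])
    (by simpa) (fun σ => In (-σ))
    (fun σ e1 e2 e3 => i2 (-σ) (by simp at e2; linarith only [e2]) (by simp at e1; linarith only [e1]) (by simpa using e3))
    (fun σ e1 e2 e3 => i1 (-σ) (by simp at e2; linarith only [e2]) (by simp at e1; linarith only [e1]) (by simpa using e3))
  refine ⟨η, s, -t, b1, b5, b3, b4, c1, by simp at d1; linarith only [d1], c2, by linarith only [d2],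
    fun σ e1 e2 => ?_⟩
  rcases le_total σ η with h | h
  · exact c3 σ e1 h
  · simpa using d3 (-σ) (by linarith only [e2]) (by linarith only [h])

theorem Tii_tail (f : Arc) (h2 : f.φa ≤ 2 * π / 3) (hr : f.ra ≤ 1) (hc : f.c ≤ ψ 1 / 2) {t : ℝ}
    (a1 : f.a ≤ t) (a2 : t ≤ f.b) (a3 : f.r t ≤ 1)
    (hno : ∀ w, f.a < w → w < t → f.φ w = π / 2 → 1 < f.r w → False) :
    t - f.a ≤ f.φa + π / 30 := by
  have hin := f.stay_in le_rfl a2 hr a3 hno
  have hc1 : f.c < ψ 1 := by linarith only [hc, ψ_one_pos]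
  unfold Arc.φa at *
  rcases le_total (f.φ f.a) (π / 2) with h | h
  · linarith only [h2, a1, a2, hin, h, hc1, f.N1 le_rfl a1 a2 hin h hc1, pi_pos]
  rcases le_total (π / 2) (f.φ t) with h' | h'
  · linarith only [h2, h, h', a1, a2, hin, hc, (f.N4 le_rfl a1 a2 hin (by linarith [pi_pos]) h2 hc).1, pi_pos]
  obtain ⟨u, b1, b2, b3, -⟩ := first_le a1 (f.φc' le_rfl a2) h h'
  have e1 := (f.N4 le_rfl b1 (b2.trans a2) (fun w c1 c2 => hin w c1 (c2.trans b2))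
    (by linarith only [h2, h, b3, pi_pos]) h2 hc).1
  have e2 := f.N1 b1 b2 a2 (fun w c1 c2 => hin w (b1.trans c1) c2) b3.le hc1
  linarith only [h2, b3, e1, e2]

/-- `f` lies strictly below `g` over the open interval -/
def Bel (f g : Arc) (θ0 θ1 : ℝ) : Prop :=
  ∀ σ, θ0 < σ → σ < θ1 → f.a ≤ σ → σ ≤ f.b → g.a ≤ σ → σ ≤ g.b → f.r σ < g.r σ

theorem Bel.mirror {f g : Arc} {θ0 θ1 : ℝ} (h : Bel f g θ0 θ1) :
    Bel f.mirror g.mirror (-θ1) (-θ0) := fun σ a1 a2 a3 a4 a5 a6 => by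
  simp at a3 a4 a5 a6 ⊢
  exact h (-σ) (by linarith) (by linarith) (by linarith) (by linarith) (by linarith) (by linarith)

theorem Bel.le {f g : Arc} {θ0 θ1 σ : ℝ} (h : Bel f g θ0 θ1) (a1 : θ0 ≤ σ) (a2 : σ ≤ θ1)
    (a3 : f.a ≤ σ) (a4 : σ ≤ f.b) (a5 : g.a ≤ σ) (a6 : σ ≤ g.b)
    (e0 : σ = θ0 → f.r σ ≤ g.r σ) (e1 : σ = θ1 → f.r σ ≤ g.r σ) : f.r σ ≤ g.r σ := by
  rcases a1.eq_or_lt with b | b
  · exact e0 b.symm
  rcases a2.eq_or_lt with c | c
  · exact e1 c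
  exact (h σ b c a3 a4 a5 a6).le

theorem nomax3 (f u0 u1 u2 : Arc) (h01 : TL u0 u1) (h12 : TL u1 u2) (p1 : u0.φb = π / 3)
    (p2 : u1.φb = π / 3) (b0 : Bel f u0 u0.a u2.b) (b1 : Bel f u1 u0.a u2.b)
    (b2 : Bel f u2 u0.a u2.b) (hc : f.c ≤ u1.c) :
    ∀ w, u0.a < w → w < u2.b → f.a ≤ w → w ≤ f.b → f.φ w = π / 2 → 1 < f.r w → False := by
  intro w a1 a2 a3 a4 a5 a6
  have e1 := h01.c_eq p1
  have e2 := h12.c_eq p2
  have k1 := h01.1
  have k2 := h12.1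
  rcases le_total w u0.b with h | h
  · linarith only [hc, e1, a3, a4, a1, h, b0, a2, a5, a6, f.c_lt_of_max u0 a3 a4 a1.le h (b0 w a1 a2 a3 a4 a1.le h) a5 a6]
  rcases le_total w u1.b with h' | h'
  · linarith only [hc, a3, a4, k1, h, h', b1, a1, a2, a5, a6, f.c_lt_of_max u1 a3 a4 (by linarith) h' (b1 w a1 a2 a3 a4 (by linarith) h') a5 a6]
  · linarith only [hc, e2, a3, a4, k2, h', a2, b2, a1, a5, a6, f.c_lt_of_max u2 a3 a4 (by linarith) a2.le
      (b2 w a1 a2 a3 a4 (by linarith) a2.le) a5 a6]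

theorem in_of_small {f u : Arc} {r0 : ℝ} (h1 : π / 3 ≤ f.φa) (h2 : f.φa ≤ 2 * π / 3)
    (hc : f.c < u.c) (hu : u.φa ≤ π / 3) (h3 : f.ra ≤ u.ra) : f.ra < 1 ∨ r0 < r0 := by
  left
  by_contra hh
  push Not at hh
  have e1 := ψ_le_out hh h3
  have e2 := sin_ge_M h1 h2
  have e3 := sin_le_L u.φa_pos.le hu
  have e4 : ψ u.ra * sin u.φa ≤ ψ f.ra * sin f.φa :=
    mul_le_mul e1 (e3.trans e2) (u.sin_pos le_rfl u.hab.le).le (ψ_pos f.ra_pos).le
  rw [u.c_a, f.c_a] at e4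
  linarith only [hc, e4]

/-- two halflines, radial left end -/
theorem Tii_rad (u0 u1 u2 f : Arc) (h01 : TL u0 u1) (h12 : TL u1 u2) (p0 : u0.φa = π / 3)
    (p1 : u0.φb = π / 3) (p2 : u1.φb = π / 3) (fa : f.a = u0.a) (fr : f.ra < u0.ra)
    (fφ : f.φa = 2 * π / 3) (fb : f.b = u2.b) (fr' : f.rb = u2.rb)
    (fφ' : u2.φb = f.φb + 2 * π / 3)
    (b0 : Bel f u0 u0.a u2.b) (b1 : Bel f u1 u0.a u2.b) (b2 : Bel f u2 u0.a u2.b) : False := by
  have k1 := h01.1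
  have k2 := h12.1
  have l0 := u0.hab
  have l2 := u2.hab
  have l1 := u1.hab
  have en0 : ∀ (g : Arc) σ, u0.a < g.a ∨ g = u0 → g.a ≤ σ → σ = u0.a → f.r σ ≤ g.r σ := by
    rintro g σ (h | rfl) a1 a2
    · linarith only [h, a1, a2]
    · rw [a2]; unfold Arc.ra at fr; rw [fa] at fr; exact fr.le
  have en1 : ∀ (g : Arc) σ, g.b < u2.b ∨ g = u2 → σ ≤ g.b → σ = u2.b → f.r σ ≤ g.r σ := by
    rintro g σ (h | rfl) a1 a2
    · linarith only [h, a1, a2]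
    · rw [a2]; unfold Arc.rb at fr'; rw [fb] at fr'; exact fr'.le
  obtain ⟨η, s, t, c1, c2, c3, c4, c5, c6, c7, c8, c9⟩ := U_two u0 u1 u2 h01 h12 p0.le p1 p2
    (by linarith only [fφ', f.φb_pos]) (fun σ => f.r σ ≤ 1)
    (fun σ a1 a2 a3 => (b0.le a1 (by linarith only [k1, k2, l2, l1, a2]) (by linarith only [fa, a1]) (by linarith only [fb, k1, k2, l2, l1, a2]) a1 a2
      (en0 u0 σ (Or.inr rfl) a1) (en1 u0 σ (Or.inl (by linarith only [k1, k2, l2, l1])) a2)).trans a3)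
    (fun σ a1 a2 a3 => (b1.le (by linarith only [k1, l0, a1]) (by linarith only [k2, l2, a2]) (by linarith only [fa, k1, l0, a1]) (by linarith only [fb, k2, l2, a2]) a1 a2
      (en0 u1 σ (Or.inl (by linarith only [k1, l0])) a1) (en1 u1 σ (Or.inl (by linarith only [k2, l2])) a2)).trans a3)
    (fun σ a1 a2 a3 => (b2.le (by linarith only [k1, k2, l0, l1, a1]) a2 (by linarith only [fa, k1, k2, l0, l1, a1]) (by linarith only [fb, a2]) a1 a2
      (en0 u2 σ (Or.inl (by linarith only [k1, k2, l0, l1])) a1) (en1 u2 σ (Or.inr rfl) a2)).trans a3)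
  have hal := al_gt
  have hc : f.c < u1.c := f.c_lt_of_min u1 (t := η) (by linarith only [fa, k1, l0, c1]) (by linarith only [fb, k2, l2, c2]) c1.le c2.le
    (b1 η (by linarith only [k1, l0, c1]) (by linarith only [k2, l2, c2]) (by linarith only [fa, k1, l0, c1]) (by linarith only [fb, k2, l2, c2]) c1.le c2.le) c3 c4
  have e1 := h01.c_eq p1
  have e2 := h12.c_eq p2
  have e3 := c_add_le_b fr' fφ'
  have hno := nomax3 f u0 u1 u2 h01 h12 p1 p2 b0 b1 b2 hc.le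
  have hin : f.ra < 1 := by
    rcases in_of_small (r0 := 0) (f := f) (u := u0) (by linarith only [fφ, pi_pos]) fφ.le (by linarith only [hc, e1])
      p0.le fr.le with h | h
    · exact h
    · linarith only [h]
  have := Tii_tail f fφ.le hin.le (by linarith only [hc, e2, e3]) (t := t) (by linarith only [fa, k1, l0, c1, c8, hal, pi_pos]) (by linarith only [fb, c6])
    (c9 t (by linarith only [c7, c8, hal, pi_pos]) le_rfl)
    (fun w a1 a2 a3 a4 => hno w (by linarith only [fa, a1]) (by linarith only [c6, a2]) a1.le (by linarith only [fb, c6, a2]) a3 a4)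
  linarith only [fa, fφ, c5, c7, c8, hal, this]

/-- two halflines, one vertex on the lower boundary -/
theorem Tii_two (u0 u1 u2 f1 f2 : Arc) (h01 : TL u0 u1) (h12 : TL u1 u2) (hf : TR f1 f2)
    (hY : 2 * π / 3 ≤ f1.φb)
    (p1 : u0.φb = π / 3) (p2 : u1.φb = π / 3) (fa : f1.a = u0.a) (fr : f1.ra = u0.ra)
    (fφ : f1.φa = u0.φa + 2 * π / 3) (fb : f2.b = u2.b) (fr' : f2.rb = u2.rb)
    (fφ' : u2.φb = f2.φb + 2 * π / 3)
    (a0 : Bel f1 u0 u0.a u2.b) (a1 : Bel f1 u1 u0.a u2.b) (a2 : Bel f1 u2 u0.a u2.b)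
    (b0 : Bel f2 u0 u0.a u2.b) (b1 : Bel f2 u1 u0.a u2.b) (b2 : Bel f2 u2 u0.a u2.b) : False := by
  have k1 := h01.1
  have k2 := h12.1
  have k3 := hf.1
  have k4 := hf.2.2
  have l0 := u0.hab
  have l2 := u2.hab
  have l1 := u1.hab
  have m1 := f1.hab
  have m2 := f2.hab
  have p0 : u0.φa < π / 3 := by linarith only [fφ, f1.φa_lt]
  have en0 : ∀ (g : Arc) σ, u0.a < g.a ∨ g = u0 → g.a ≤ σ → σ = u0.a → f1.r σ ≤ g.r σ := by
    rintro g σ (h | rfl) a1 a2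
    · linarith only [h, a1, a2]
    · rw [a2]; unfold Arc.ra at fr; rw [fa] at fr; exact fr.le
  have en1 : ∀ (g : Arc) σ, g.b < u2.b ∨ g = u2 → σ ≤ g.b → σ = u2.b → f2.r σ ≤ g.r σ := by
    rintro g σ (h | rfl) a1 a2
    · linarith only [h, a1, a2]
    · rw [a2]; unfold Arc.rb at fr'; rw [fb] at fr'; exact fr'.le
  have gen : ∀ g : Arc, Bel f1 g u0.a u2.b → Bel f2 g u0.a u2.b → (u0.a < g.a ∨ g = u0) →
      (g.b < u2.b ∨ g = u2) → u0.a ≤ g.a → g.b ≤ u2.b → ∀ σ, g.a ≤ σ → σ ≤ g.b → g.r σ ≤ 1 →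
      (σ ≤ f1.b → f1.r σ ≤ 1) ∧ (f2.a ≤ σ → f2.r σ ≤ 1) := by
    intro g x1 x2 x3 x4 x5 x6 σ y1 y2 y3
    exact ⟨fun z => (x1.le (by linarith only [x5, y1]) (by linarith only [x6, y2]) (by linarith only [fa, x5, y1]) z y1 y2 (en0 g σ x3 y1)
        (fun h => by linarith only [fb, k3, m2, z, h])).trans y3,
      fun z => (x2.le (by linarith only [fa, k3, m1, z]) (by linarith only [x6, y2]) z (by linarith only [fb, x6, y2]) y1 y2 (fun h => by linarith only [fa, k3, m1, z, h])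
        (en1 g σ x4 y2)).trans y3⟩
  obtain ⟨η, s, t, c1, c2, c3, c4, c5, c6, c7, c8, c9⟩ := U_two u0 u1 u2 h01 h12 p0.le p1 p2
    (by linarith only [fφ', f2.φb_pos]) (fun σ => (σ ≤ f1.b → f1.r σ ≤ 1) ∧ (f2.a ≤ σ → f2.r σ ≤ 1))
    (gen u0 a0 b0 (Or.inr rfl) (Or.inl (by linarith only [k1, k2, l2, l1])) le_rfl (by linarith only [k1, k2, l2, l1]))
    (gen u1 a1 b1 (Or.inl (by linarith only [k1, l0])) (Or.inl (by linarith only [k2, l2])) (by linarith only [k1, l0]) (by linarith only [k2, l2]))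
    (gen u2 a2 b2 (Or.inl (by linarith only [k1, k2, l0, l1])) (Or.inr rfl) (by linarith only [k1, k2, l0, l1]) le_rfl)
  have hal := al_gt
  have e1 := h01.c_eq p1
  have e2 := h12.c_eq p2
  have e3 := c_add_le_b fr' fφ'
  have e4 := hf.c_ge hY
  have hcs1 : f1.c < ψ 1 := (f1.c_le_cs_H f1.hab.le le_rfl hY).trans_lt cs_lt
  have hYη : f1.b ≤ η := by
    by_contra hh
    push Not at hh
    have hc : f1.c < u1.c := f1.c_lt_of_min u1 (t := η) (by linarith only [fa, k1, l0, c1]) hh.le c1.le c2.le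
      (a1 η (by linarith only [k1, l0, c1]) (by linarith only [k2, l2, c2]) (by linarith only [fa, k1, l0, c1]) hh.le c1.le c2.le) c3 c4
    have hno := nomax3 f1 u0 u1 u2 h01 h12 p1 p2 a0 a1 a2 hc.le
    have hr : f1.r η < 1 := (a1 η (by linarith only [k1, l0, c1]) (by linarith only [k2, l2, c2]) (by linarith only [fa, k1, l0, c1]) hh.le c1.le c2.le).trans c4
    have hφ : 2 * π / 3 ≤ f1.φ η := by
      by_contra h2
      push Not at h2
      obtain ⟨w, d1, d2, d3⟩ := f1.ex_out_of_φ_lt (s := η) (by linarith only [fa, k1, l0, c1]) hh.le le_rfl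
        (by unfold Arc.φb at hY; linarith only [hY, h2])
      obtain ⟨ξ, x1, x2, -, x4, -⟩ := f1.ex_exit (s := η) (by linarith only [fa, k1, l0, c1]) d1.le d2.le hr d3.le
      obtain ⟨z, y1, y2, y3, y4⟩ := f1.ex_max (s := ξ) (by linarith only [fa, k1, l0, c1, x1]) (by linarith only [d2, x2]) le_rfl x4.le
        (by unfold Arc.φb at hY; linarith only [hY, pi_pos])
      exact hno z (by linarith only [k1, l0, c1, x1, y1]) (by linarith only [fb, k3, m2, y2]) (by linarith only [fa, k1, l0, c1, x1, y1]) y2.le y3 y4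
    have := f1.N1' (s := s) (t := η) (by linarith only [fa, c5]) (by linarith only [c7, hal, pi_pos]) hh.le
      (fun w d1 d2 => (c9 w d1 (by linarith only [c8, hal, d2, pi_pos])).1 (by linarith only [hh, d2])) (by linarith only [hφ, pi_pos]) hcs1
    linarith only [c7, hal, hφ, this, pi_pos]
  have hc : f2.c < u1.c := f2.c_lt_of_min u1 (t := η) (by linarith only [k3, hYη]) (by linarith only [fb, k2, l2, c2]) c1.le c2.le
    (b1 η (by linarith only [k1, l0, c1]) (by linarith only [k2, l2, c2]) (by linarith only [k3, hYη]) (by linarith only [fb, k2, l2, c2]) c1.le c2.le) c3 c4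
  have hno1 := nomax3 f1 u0 u1 u2 h01 h12 p1 p2 a0 a1 a2 (by linarith only [e4, hc])
  have hno2 := nomax3 f2 u0 u1 u2 h01 h12 p1 p2 b0 b1 b2 hc.le
  have hanti : f1.rb ≤ f1.ra := f1.r_anti le_rfl f1.hab.le le_rfl (fun w d1 d2 => by
    by_contra h2
    push Not at h2
    obtain ⟨z, y1, y2, y3, y4⟩ := f1.ex_max d1.le d2.le le_rfl h2.le
      (by unfold Arc.φb at hY; linarith only [hY, pi_pos])
    exact hno1 z (by linarith only [fa, d1, y1]) (by linarith only [k2, l2, c2, hYη, y2]) (by linarith only [d1, y1]) y2.le y3 y4)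
  have hφ2 : f2.φa ≤ 2 * π / 3 := by linarith only [k4, f1.φb_lt]
  have hin : f2.ra < 1 := by
    rcases in_of_small (r0 := 0) (f := f2) (u := u0) (by linarith only [hY, k4]) hφ2 (by linarith only [e1, hc])
      p0.le (by linarith only [fr, hanti, hf, hf.2.1]) with h | h
    · exact h
    · linarith only [h]
  have t2 := Tii_tail f2 hφ2 hin.le (by linarith only [e2, e3, hc]) (t := t) (by linarith only [hY, k3, k4, c8, hal, hYη, hφ2, pi_pos]) (by linarith only [fb, c6])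
    ((c9 t (by linarith only [hY, k4, c7, c8, hal, hφ2, pi_pos]) le_rfl).2 (by linarith only [hY, k3, k4, c8, hal, hYη, hφ2, pi_pos]))
    (fun w a1 a2 a3 a4 => hno2 w (by linarith only [fa, k3, m1, a1]) (by linarith only [c6, a2]) a1.le (by linarith only [fb, c6, a2]) a3 a4)
  rcases le_total f1.b s with h | h
  · linarith only [k3, c7, c8, hal, hφ2, t2, h]
  · have := f1.N1' (s := s) (by linarith only [fa, c5]) h le_rfl
      (fun w d1 d2 => (c9 w d1 (by linarith only [hY, k4, c8, hal, hYη, hφ2, d2, pi_pos])).1 d2)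
      (by unfold Arc.φb at hY; linarith only [hY, k3, c8, hal, hYη, hφ2, t2, pi_pos]) hcs1
    unfold Arc.φb at *
    linarith only [k3, k4, c7, c8, hal, t2, this]

/-- two halflines, face at the origin of width at most 120 degrees -/
theorem Tii_orig (u0 u1 u2 : Arc) (h01 : TL u0 u1) (h12 : TL u1 u2) (p0 : u0.φa ≤ π / 3)
    (p1 : u0.φb = π / 3) (p2 : u1.φb = π / 3) (p3 : 2 * π / 3 ≤ u2.φb)
    (hw : u2.b - u0.a ≤ 2 * π / 3) : False := by
  obtain ⟨η, s, t, c1, c2, c3, c4, c5, c6, c7, c8, c9⟩ := U_two u0 u1 u2 h01 h12 p0 p1 p2 p3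
    (fun _ => True) (fun _ _ _ _ => trivial) (fun _ _ _ _ => trivial) (fun _ _ _ _ => trivial)
  linarith only [hw, c5, c6, c7, c8, al_gt, pi_pos]

end Pool.Agent.Work.MP_dd6b33_gt
end

-- merged part: Pool.Agent.Work.MP_dd6b33_gt.Geo4
section
/-!
Lemma C: two consecutive halflines followed by a further vertex on the upper boundary.
-/

namespace Pool.Agent.Work.MP_dd6b33_gt

open Set Real

theorem low_time (f : Arc) {s t : ℝ} (ha : f.a ≤ s) (hst : s ≤ t) (hb : t ≤ f.b)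
    (hr : ∀ u, s ≤ u → u ≤ t → f.r u ≤ 1) (h1 : π / 3 ≤ f.φ t) (hc : f.c ≤ ψ 1 / 2) :
    t - s ≤ 7 * π / 10 ∧ t - s ≤ 2 * π / 3 + π / 3 * f.c ^ 2 := by
  have hc1 : f.c < ψ 1 := by linarith only [hc, ψ_one_pos]
  have hp : 0 ≤ π / 3 * f.c ^ 2 := by positivity
  have key : ∀ u, s ≤ u → u ≤ t → f.φ u ≤ π / 2 →
      t - u ≤ π / 5 ∧ t - u ≤ π / 6 + π / 3 * f.c ^ 2 := by
    intro u a1 a2 a3
    obtain ⟨e1, e2⟩ := f.N4 (ha.trans a1) a2 hb (fun w b1 b2 => hr w (a1.trans b1) b2) h1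
      (by linarith only [a3, pi_pos]) hc
    refine ⟨by linarith only [h1, a3, e1], ?_⟩
    have : (f.φ u - f.φ t) * (1 + 2 * f.c ^ 2) ≤ π / 6 * (1 + 2 * f.c ^ 2) :=
      mul_le_mul_of_nonneg_right (by linarith only [h1, a3]) (by positivity)
    linarith only [e2, this]
  rcases le_total (π / 2) (f.φ t) with h | h
  · have := f.N1' ha hst hb hr h hc1
    constructor <;> linarith only [hst, h1, this, hp, pi_pos]
  rcases le_total (f.φ s) (π / 2) with h' | h'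
  · obtain ⟨e1, e2⟩ := key s le_rfl hst h'
    constructor <;> linarith only [h1, h, e1, hp, pi_pos]
  obtain ⟨u, b1, b2, b3, -⟩ := first_le hst (f.φc' ha hb) h' h
  have e0 := f.N1' ha b1 (b2.trans hb) (fun w c1 c2 => hr w c1 (c2.trans b2)) b3.ge hc1
  obtain ⟨e1, e2⟩ := key u b1 b2 b3.le
  constructor <;> linarith only [b3, e0, e1, e2]

/-- the bottom passage of the arc between two halflines -/
theorem tau_pass (u : Arc) (h1 : u.φa = 2 * π / 3) (h2 : u.φb ≤ π / 3) :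
    ∃ η θs, u.a < η ∧ η < θs ∧ θs ≤ u.b ∧ u.φ η = π / 2 ∧ u.r η < 1 ∧ u.φ θs = π / 3 ∧
      (∀ w, u.a ≤ w → w < η → π / 2 < u.φ w) ∧ (∀ w, η ≤ w → w ≤ θs → u.r w ≤ 1) := by
  unfold Arc.φa at h1
  unfold Arc.φb at h2
  obtain ⟨θs, a1, a2, a3, a4⟩ := first_le u.hab.le u.φc (k := π / 3) (by linarith only [h1, pi_pos]) h2
  obtain ⟨η, b1, b2, b3, b4, b5⟩ := u.ex_min' le_rfl a1 a2 (by linarith only [h1, pi_pos])
    (by linarith only [a3, pi_pos])
  have b6 : η < θs := lt_of_le_of_ne b2 (by rintro rfl; linarith only [b3, a3, pi_pos])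
  exact ⟨η, θs, b1, b6, a2, b3, b4, a3, b5, u.inner_in (u.c_le_cs_H le_rfl u.hab.le h1.ge) b1.le a2
    b4 (fun w c1 c2 => a4 w (by linarith only [b1, c1]) c2)⟩

theorem LemC_core (u : Arc) (h1 : u.φa = 2 * π / 3) (hρ : 1 ≤ u.ra) {η θs : ℝ} (b1 : u.a < η)
    (b2 : η < θs) (b3 : θs ≤ u.b) (b5 : u.r η < 1) (b6 : u.φ θs = π / 3)
    (b7 : ∀ w, u.a ≤ w → w < η → π / 2 < u.φ w) (b8 : ∀ w, η ≤ w → w ≤ θs → u.r w ≤ 1) :
    ∃ θa, u.a ≤ θa ∧ θa < η ∧ u.r θa = 1 ∧ (∀ σ, θa ≤ σ → σ ≤ θs → u.r σ ≤ 1) ∧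
      (∀ σ, u.a ≤ σ → σ ≤ θa → 1 ≤ u.r σ ∧ u.r σ ≤ u.ra ∧ 2 * π / 3 ≤ u.φ σ) ∧
      ∀ M ε τ : ℝ, 0 ≤ M → u.φ θa - 2 * π / 3 + τ ≤ (u.ra ^ 2 - 1) * M →
        ε * (u.ra ^ 2 - 1) ≤ τ → 4 * ε ≤ τ → 0 ≤ ε → 2 * π / 3 + ε < M + (θs - θa) := by
  obtain ⟨θa, c1, c2, c3, c4, c5⟩ := u.ex_entry le_rfl b1.le (by linarith only [b2, b3]) hρ b5
  have anti : ∀ s t, u.a ≤ s → s ≤ t → t ≤ θa → u.r t ≤ u.r s := fun s t d1 d2 d3 =>
    u.r_anti d1 d2 (by linarith only [b2, b3, c2, d3]) (fun w e1 e2 => (b7 w (by linarith only [d1, e1]) (by linarith only [c2, d3, e2])).le)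
  have out : ∀ σ, u.a ≤ σ → σ ≤ θa → 1 ≤ u.r σ := fun σ d1 d2 => by
    rw [← c3]; exact anti σ θa d1 d2 le_rfl
  have hH : ∀ σ, u.a ≤ σ → σ ≤ θa → 2 * π / 3 ≤ u.φ σ := fun σ d1 d2 => by
    rw [← h1]
    exact u.φ_mono le_rfl d1 (by linarith only [b2, b3, c2, d2]) (fun w e1 e2 => out w e1.le (by linarith only [d2, e2]))
  refine ⟨θa, c1, c2, c3, fun σ d1 d2 => ?_, fun σ d1 d2 =>
    ⟨out σ d1 d2, anti u.a σ le_rfl d1 d2, hH σ d1 d2⟩, fun M ε τ m1 m2 m3 m4 m5 => ?_⟩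
  · rcases le_total η σ with h | h
    · exact b8 σ h d2
    rcases d1.eq_or_lt with h' | h'
    · rw [← h', c3]
    · exact (c5 σ h' h).le
  have hθa : θa ≤ u.b := by linarith only [b2, b3, c2]
  have s3 : 0 < √3 / 2 := by positivity
  have q1 := u.c_a
  rw [h1, sin_two_pi_div_three] at q1
  have q2 := u.c_eq (t := θs) (by linarith only [b1, b2]) b3
  rw [b6, sin_pi_div_three] at q2
  have q3 := u.c_eq c1 hθa
  rw [c3, ← sin_pi_sub] at q3
  obtain ⟨m, v, n1, n2, n3, n4, n5, n6, n7⟩ := numC (ρ := u.ra) (q := u.r θs) (t := π - u.φ θa) hρ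
    (u.r_pos (by linarith only [b1, b2]) b3) (b8 θs b2.le le_rfl)
    (mul_right_cancel₀ s3.ne' (q2.trans q1.symm)) (by linarith only [c1, hθa, u.φ_lt c1 hθa])
    (by linarith only [hH, c1, hH θa c1 le_rfl]) (q3.trans q1.symm)
  have t1 := u.N6b (s := θa) (t := θs) c1 (by linarith only [b2, c2]) b3 n1 n2 (by linarith only [q1, n3])
  rw [b6, cos_pi_div_three, c3] at t1
  rw [cos_pi_sub] at n7
  have hεv : ε * v ≤ τ := by
    rcases n6 with h | h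
    · rw [h]; exact m3
    · linarith only [mul_le_mul_of_nonneg_left h m5, m4]
  by_contra hh
  push Not at hh
  have e1 : M ≤ ε + (π - u.φ θa - m / (1 - m ^ 2) * (-cos (u.φ θa) + u.r θs / 2)) := by
    have : m / (1 - m ^ 2) * (u.r θs * (1 / 2) - 1 * cos (u.φ θa)) =
        m / (1 - m ^ 2) * (-cos (u.φ θa) + u.r θs / 2) := by ring
    linarith only [t1, hh]
  have e2 := mul_le_mul_of_nonneg_left e1 n4.le
  have e3 := mul_le_mul_of_nonneg_right n5 m1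
  linarith only [e2, e3, m2, n7, hεv]

theorem Tiii_orig (u0 u1 : Arc) (h01 : TL u0 u1) (p0 : u0.φa ≤ π / 3) (p1 : u0.φb = π / 3)
    (p2 : u1.φb = π / 3) (hw : u1.b - u0.a ≤ 2 * π / 3) : False := by
  have q1 : u1.φa = 2 * π / 3 := by linarith only [p1, h01, h01.2.2]
  have k1 := h01.1
  obtain ⟨η, θs, b1, b2, b3, b4, b5, b6, b7, b8⟩ := tau_pass u1 q1 p2.le
  rcases le_or_gt 1 u1.ra with hρ | hρ
  · obtain ⟨θa, c1, c2, c3, c4, c5, c6⟩ := LemC_core u1 q1 hρ b1 b2 b3 b5 b6 b7 b8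
    have e1 := u1.φ_rate_le (v := u1.ra ^ 2 - 1) le_rfl c1 (by linarith only [b2, b3, c2]) (fun w d1 d2 => by
      obtain ⟨x1, x2, -⟩ := c5 w d1.le d2.le
      exact sub_le_sub_right (pow_le_pow_left₀ (zero_le_one.trans x1) x2 2) 1)
    have := c6 (θa - u1.a) 0 0 (by linarith only [c1]) (by unfold Arc.φa at q1; linarith only [q1, e1]) (by simp)
      (by simp) le_rfl
    linarith only [hw, k1, b3, this, u0.hab]
  · obtain ⟨s0, d1, d2, d3⟩ := u0.ex_out p0 p1.ge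
    have t1 := u0.N2' d1 d2 le_rfl (by unfold Arc.φb at p1; linarith only [p1, hw, k1, b1, b2, b3, d1, d2, pi_pos])
      (by have := h01.2.1; unfold Arc.rb at this; linarith only [hρ, this]) d3
    have t2 := u1.N0 le_rfl (show u1.a < θs by linarith only [b1, b2]) b3
    unfold Arc.φa at q1
    linarith only [hw, q1, k1, b1, b2, b3, b6, d1, t1, t2, al_gt, pi_pos]

theorem Tiii_real (u0 u1 f : Arc) (h01 : TL u0 u1) (p1 : u0.φb = π / 3) (p2 : u1.φb = π / 3)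
    (fa : f.a = u0.a) (fr : f.ra = u0.ra) (fφ : f.φa = u0.φa + 2 * π / 3) (fb : u1.b < f.b)
    (a0 : Bel f u0 u0.a f.b) (a1 : Bel f u1 u0.a f.b)
    (hD : ∀ σ, u1.a ≤ σ → σ ≤ u1.b → u1.φ σ < f.φ σ) : False := by
  have q1 : u1.φa = 2 * π / 3 := by linarith only [p1, h01, h01.2.2]
  have k1 := h01.1
  have k2 := h01.2.1
  have l0 := u0.hab
  have hal := al_gt
  have p0 : u0.φa < π / 3 := by linarith only [fφ, f.φa_lt]
  obtain ⟨η, θs, b1, b2, b3, b4, b5, b6, b7, b8⟩ := tau_pass u1 q1 p2.le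
  have e1 := h01.c_eq p1
  have hc : f.c < u1.c := f.c_lt_of_min u1 (t := η) (by linarith only [fa, k1, l0, b1]) (by linarith only [fb, b2, b3]) b1.le (by linarith only [b2, b3])
    (a1 η (by linarith only [k1, l0, b1]) (by linarith only [fb, b2, b3]) (by linarith only [fa, k1, l0, b1]) (by linarith only [fb, b2, b3]) b1.le (by linarith only [b2, b3])) b4 b5
  have e3 := c_add_le_a fr fφ
  have hc2 : f.c ≤ ψ 1 / 2 := by linarith only [e1, hc, e3]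
  have cp := f.c_pos
  obtain hno : ∀ w, u0.a < w → w ≤ θs → f.φ w = π / 2 → 1 < f.r w → False := by
    clear * - u0 θs f u1 e1 hc fa fb b3 a0 k1 a1
    intro w d1 d2 d3 d4
    rcases le_total w u0.b with h | h
    · linarith only [e1, hc, fa, d1, fb, b3, d2, h, a0, d3, d4, f.c_lt_of_max u0 (t := w) (by linarith) (by linarith) d1.le h
        (a0 w d1 (by linarith) (by linarith) (by linarith) d1.le h) d3 d4]
    · linarith only [hc, fa, d1, fb, b3, d2, k1, h, a1, d3, d4, f.c_lt_of_max u1 (t := w) (by linarith) (by linarith) (by linarith) (by linarith)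
        (a1 w d1 (by linarith) (by linarith) (by linarith) (by linarith) (by linarith)) d3 d4]
  have hend : f.r θs ≤ 1 :=
    (a1 θs (by linarith only [k1, l0, b1, b2]) (by linarith only [fb, b3]) (by linarith only [fa, k1, l0, b1, b2]) (by linarith only [fb, b3]) (by linarith only [b1, b2]) b3).le.trans
      (b8 θs b2.le le_rfl)
  have low : ∀ s, u0.a ≤ s → s ≤ θs → f.r s ≤ 1 →
      θs - s ≤ 7 * π / 10 ∧ θs - s ≤ 2 * π / 3 + π / 3 * f.c ^ 2 := fun s d1 d2 d3 =>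
    low_time f (by linarith only [fa, d1]) d2 (by linarith only [fb, b3]) (f.stay_in (by linarith only [fa, d1]) (by linarith only [fb, b3]) d3 hend
      (fun w x1 x2 x3 x4 => hno w (by linarith only [d1, x1]) x2.le x3 x4))
      (by linarith only [b6, hD, b1, b2, b3, hD θs (by linarith) b3]) hc2
  have t2 := u1.N0 b1.le b2 b3
  rcases lt_or_ge u1.ra 1 with hρ | hρ
  · obtain ⟨s0, d1, d2, d3⟩ := u0.ex_out p0.le p1.ge
    have hin : u0.r u0.b < 1 := by unfold Arc.rb at k2; linarith only [k2, hρ]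
    obtain ⟨θ, c1, c2, c3, c4, -⟩ := u0.ex_entry d1 d2 le_rfl d3 hin
    have c0 : u0.a < θ := lt_of_le_of_ne (d1.trans c1) (by
      intro h; rw [← h] at c4; unfold Arc.φa at p0; linarith only [p0, c4, pi_pos])
    obtain ⟨η0, x1, x2, x3, x4, -⟩ := u0.ex_min' c0.le c2.le le_rfl c4
      (by unfold Arc.φb at p1; linarith only [p1, pi_pos])
    have t1 := u0.N2' c0.le x1.le x2 x3.le x4 c3.ge
    have t4 := u0.N0' (s := η0) (by linarith only [c0, x1]) x2 le_rfl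
    have t3 := u1.N0 le_rfl b1 (by linarith only [b2, b3])
    have := (low θ c0.le (by linarith only [k1, b1, b2, c2]) (by
      rw [← c3]
      exact (a0 θ c0 (by linarith only [fb, k1, b1, b2, b3, c2]) (by linarith only [fa, c0]) (by linarith only [fb, k1, b1, b2, b3, c2]) c0.le c2.le).le)).1
    unfold Arc.φa at q1
    unfold Arc.φb at p1
    linarith only [p1, q1, k1, hal, b1, b4, b6, t2, x3, t1, t4, t3, this, pi_pos]
  obtain ⟨θa, c1, c2, c3, c4, c5, c6⟩ := LemC_core u1 q1 hρ b1 b2 b3 b5 b6 b7 b8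
  by_cases hx : ∃ w, u0.a ≤ w ∧ w ≤ u0.b ∧ π / 2 ≤ u0.φ w
  · obtain ⟨w, d1, d2, d3⟩ := hx
    have d0 : u0.a < w := lt_of_le_of_ne d1 (by
      intro h; rw [← h] at d3; unfold Arc.φa at p0; linarith only [p0, d3, pi_pos])
    obtain ⟨η0, x1, x2, x3, x4⟩ := u0.ex_min d1 d2 le_rfl d3
      (by unfold Arc.φb at p1; linarith only [p1, pi_pos])
    have t1 := u0.N2 (s := η0) (by linarith only [d0, x1]) x2.le le_rfl x3.ge x4
      (by unfold Arc.rb at k2; linarith only [k2, hρ])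
    have t3 := u1.N2' le_rfl b1.le (by linarith only [b2, b3]) b4.le b5 hρ
    have := (low η0 (by linarith only [d0, x1]) (by linarith only [k1, b1, b2, x2])
      ((a0 η0 (by linarith only [d0, x1]) (by linarith only [fb, k1, b1, b2, b3, x2]) (by linarith only [fa, d0, x1]) (by linarith only [fb, k1, b1, b2, b3, x2]) (by linarith only [d0, x1]) x2.le).le.trans
        x4.le)).1
    linarith only [k1, hal, b1, b4, b6, t2, t1, t3, this, pi_pos]
  push Not at hx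
  have mono : ∀ s t, u0.a ≤ s → s ≤ t → t ≤ u0.b → u0.r s ≤ u0.r t := fun s t d1 d2 d3 =>
    u0.r_mono d1 d2 d3 (fun w x1 x2 => (hx w (by linarith only [d1, x1]) (by linarith only [d3, x2])).le)
  obtain rate0 : ∀ s, u0.a ≤ s → s ≤ u0.b → π / 3 - u0.φ s ≤ (u1.ra ^ 2 - 1) * (u0.b - s) := by
    clear * - u0 u1 mono k2 p1
    intro s d1 d2
    have := u0.φ_rate_le (v := u1.ra ^ 2 - 1) d1 d2 le_rfl (fun w x1 x2 => by
      have y1 := mono w u0.b (by linarith only [d1, x1]) x2.le le_rfl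
      have y2 := u0.r_pos (t := w) (by linarith only [d1, x1]) x2.le
      exact sub_le_sub_right (pow_le_pow_left₀ y2.le (y1.trans (le_of_eq k2)) 2) 1)
    unfold Arc.φb at p1
    linarith only [p1, this]
  have rate1 := u1.φ_rate_le (v := u1.ra ^ 2 - 1) le_rfl c1 (by linarith only [b2, b3, c2]) (fun w d1 d2 => by
    obtain ⟨x1, x2, -⟩ := c5 w d1.le d2.le
    exact sub_le_sub_right (pow_le_pow_left₀ (zero_le_one.trans x1) x2 2) 1)
  have v0 : 0 ≤ u1.ra ^ 2 - 1 := sub_nonneg.2 (one_le_pow₀ hρ)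
  have hψ1 := ψ_one_le
  obtain hε1 : π / 3 * f.c ^ 2 * (u1.ra ^ 2 - 1) ≤ 3 / 2 * f.c := by
    clear * - u1 f hc v0 u0 e1 e3 cp hψ1
    have y1 := ψ_K u1.ra_pos.le
    have y2 := u1.c_le_ψ le_rfl u1.hab.le
    obtain y3 : f.c * (u1.ra ^ 2 - 1) ≤ 1 := by
      have : f.c * (u1.ra ^ 2 - 1) ≤ ψ u1.ra * (u1.ra ^ 2 - 1) :=
        mul_le_mul_of_nonneg_right (by unfold Arc.ra; linarith only [hc, y2]) v0
      linarith only [y1, this]
    have y4 : π / 3 * f.c ≤ 3 / 2 * f.c := mul_le_mul_of_nonneg_right (by linarith only [e1, hc, e3, cp, hψ1, pi_lt_d2]) cp.le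
    have y5 : π / 3 * f.c * (f.c * (u1.ra ^ 2 - 1)) ≤ π / 3 * f.c * 1 :=
      mul_le_mul_of_nonneg_left y3 (by positivity)
    linarith only [y4, y5]
  obtain hε2 : 4 * (π / 3 * f.c ^ 2) ≤ 3 / 2 * f.c := by
    clear * - f hc2 hψ1 cp
    have y1 : π * f.c ≤ 3.15 * (1 / 3) :=
      mul_le_mul pi_lt_d2.le (by linarith only [hc2, hψ1]) cp.le (by norm_num)
    linarith only [mul_le_mul_of_nonneg_right y1 cp.le, cp]
  have hε0 : 0 ≤ π / 3 * f.c ^ 2 := by positivity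
  have hθab : θa ≤ u1.b := by linarith only [b2, b3, c2]
  have s1 := u1.c_eq c1 hθab
  rw [c3, ← sin_pi_sub] at s1
  have ht0 : 0 < π - u1.φ θa := by linarith only [c1, hθab, u1.φ_lt c1 hθab]
  have ht1 : π - u1.φ θa ≤ π / 3 := by linarith only [c5, c1, (c5 θa c1 le_rfl).2.2]
  unfold Arc.φa at q1
  rcases le_or_gt u0.ra 1 with hE | hE
  · obtain ⟨s, d1, d2, d3, -⟩ := first_ge (k := 1) u0.hab.le u0.rc hE
      (by unfold Arc.rb at k2; linarith only [k2, hρ])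
    have s2 := u0.c_eq d1 d2
    rw [d3] at s2
    obtain s3 : u0.φ s = π - u1.φ θa := by
      clear * - u0 s u1 θa ht0 ht1 d1 d2 hx e1 s1 s2
      apply injOn_sin ⟨by linarith only [ht0, ht1, d1, d2, u0.φ_pos d1 d2, pi_pos], (hx s d1 d2).le⟩
        ⟨by linarith only [ht0, ht1, pi_pos], by linarith only [ht0, ht1, pi_pos]⟩
      exact mul_left_cancel₀ ψ_one_pos.ne' (by linarith only [e1, s1, s2])
    obtain s4 : π - u1.φ θa ≤ u0.φa := by
      clear * - u1 θa u0 ht0 ht1 s1 e1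
      by_contra hh
      push Not at hh
      have y1 := sin_lt_sin_of_lt_of_le_pi_div_two (by linarith only [ht0, ht1, u0.φa_pos, pi_pos])
        (by linarith only [ht0, ht1, pi_pos]) hh
      have y2 := u0.c_a
      have y3 := ψ_le_one u0.ra_pos.le
      have y4 := u0.sin_pos le_rfl u0.hab.le
      have y5 : ψ u0.ra * sin u0.φa ≤ ψ 1 * sin u0.φa := mul_le_mul_of_nonneg_right y3 y4.le
      linarith only [mul_lt_mul_of_pos_left y1 ψ_one_pos, y2, y5, s1, e1]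
    obtain s5 : 3 / 2 * f.c ≤ π / 3 - u0.φa := by
      clear * - f u0 p0 u1 θa ht0 s4 hψ1 fφ
      have y1 := f.c_a
      rw [fφ, ← sin_pi_sub, show π - (u0.φa + 2 * π / 3) = π / 3 - u0.φa by ring] at y1
      have y2 := sin_le (show 0 ≤ π / 3 - u0.φa by linarith only [p0])
      have y3 : 0 ≤ sin (π / 3 - u0.φa) :=
        sin_nonneg_of_nonneg_of_le_pi (by linarith only [p0]) (by linarith only [p0, ht0, s4, u0.φa_pos, pi_pos])
      have y4 := ψ_le_one f.ra_pos.le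
      linarith only [mul_le_mul_of_nonneg_right (y4.trans hψ1) y3, y1, y2]
    have r0 := rate0 s d1 d2
    have := c6 ((u0.b - s) + (θa - u1.a)) (π / 3 * f.c ^ 2) (3 / 2 * f.c) (by linarith only [c1, d2])
      (by linarith only [r0, rate1, s3, s4, s5, q1]) hε1 hε2 hε0
    have y := (low u0.a le_rfl (by linarith only [k1, l0, b1, b2]) (by unfold Arc.ra at fr hE; rw [← fa]; rw [fa] at fr ⊢; linarith only [fr, hE])).2
    linarith only [k1, d1, this, y]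
  · have hfa : 1 ≤ f.r f.a := by unfold Arc.ra at fr hE; linarith only [fr, hE]
    obtain ⟨s, d1, d2, d3, d4⟩ := first_le (k := 1) (show f.a ≤ θs by linarith only [fa, k1, l0, b1, b2])
      (f.rc' le_rfl (by linarith only [fb, b3])) hfa hend
    have hsb : s ≤ f.b := by linarith only [fb, b3, d2]
    have out : ∀ w, f.a ≤ w → w ≤ s → 1 ≤ f.r w := fun w x1 x2 => by
      rcases x2.eq_or_lt with h | h
      · rw [h, d3]
      · exact (d4 w x1 h).le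
    have hH : ∀ w, f.a ≤ w → w ≤ s → 2 * π / 3 ≤ f.φ w := fun w x1 x2 => by
      clear * - f w x1 u1 θs s fb b3 d2 x2 out u0 fφ
      have := f.φ_mono le_rfl x1 (by linarith only [fb, b3, d2, x2]) (fun z y1 y2 => out z y1.le (by linarith only [x2, y2]))
      have := u0.φa_pos
      unfold Arc.φa at *
      linarith
    have hEρ : u0.ra ≤ u1.ra := by rw [← k2]; exact mono _ _ le_rfl u0.hab.le le_rfl
    have n7 := u1.mirror.N7 f.mirror (s := -θa) (t := -u1.a) (s' := -s) (t' := -f.a)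
      (l0 := u1.ra ^ 2 - 1) (l1 := 1) (by simpa) (by linarith only [c1]) (by simp) (by simpa)
      (fun w x1 x2 => by
        obtain ⟨y1, -, y3⟩ := c5 (-w) (by linarith only [x2]) (by linarith only [x1])
        simp only [Arc.mirror_r, Arc.mirror_φ]
        exact ⟨y1, by linarith only [y3]⟩)
      (by simpa) (by linarith only [d1]) (by simp) (by simpa)
      (fun w x1 x2 => by
        clear * - f w out x2 s x1 hH
        simp only [Arc.mirror_r, Arc.mirror_φ]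
        exact ⟨out (-w) (by linarith only [x2]) (by linarith only [x1]), by linarith only [hH, x2, x1, hH (-w) (by linarith) (by linarith)]⟩)
      (by simpa using hc.le) (by simp only [Arc.mirror_r, neg_neg]; unfold Arc.ra at *; linarith only [fr, hEρ])
      zero_le_one (by simp only [Arc.mirror_r, neg_neg]; unfold Arc.ra; linarith only [])
    simp only [Arc.mirror_φ, neg_neg] at n7
    have r0 := rate0 u0.a le_rfl u0.hab.le
    have s2 := f.c_eq d1 hsb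
    rw [d3, ← sin_pi_sub] at s2
    obtain s5 : 3 / 2 * f.c ≤ π - f.φ s := by
      have y2 := sin_le (show 0 ≤ π - f.φ s by linarith only [d1, hsb, f.φ_lt d1 hsb])
      have y3 : 0 ≤ sin (π - f.φ s) := by rw [sin_pi_sub]; exact (f.sin_pos d1 hsb).le
      linarith only [mul_le_mul_of_nonneg_right hψ1 y3, s2, y2]
    have v1 : 0 < u1.ra ^ 2 - 1 := sub_pos.2 (one_lt_pow₀ (hE.trans_le hEρ) two_ne_zero)
    obtain key : u1.φ θa - 2 * π / 3 + 3 / 2 * f.c ≤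
        (u1.ra ^ 2 - 1) * ((u0.b - u0.a) + (θa - u1.a) - (s - f.a)) := by
      clear * - u1 θa f u0 s n7 r0 s5 fφ q1 rate1
      unfold Arc.φa at fφ
      linarith only [n7, r0, rate1, s5, fφ, q1]
    obtain hM : 0 ≤ (u0.b - u0.a) + (θa - u1.a) - (s - f.a) := by
      by_contra hh
      push Not at hh
      have := mul_neg_of_pos_of_neg v1 hh
      linarith only [cp, ht1, key, this]
    have := c6 _ (π / 3 * f.c ^ 2) (3 / 2 * f.c) hM key hε1 hε2 hε0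
    have y := (low s (by linarith only [fa, d1]) d2 d3.le).2
    linarith only [fa, k1, this, y]

end Pool.Agent.Work.MP_dd6b33_gt
end
end
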