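import Pool.Agent.Work.MP_dd6b33_gt.Geo4
import Pool.Agent.Work.MP_dd6b33_gt.ExtractModel
import Mathlib
import Pool.Agent.Work.MP_dd6b33_gt.Defs

-- merged part: Pool.Agent.Work.MP_dd6b33_gt.Geo5
section
/-!
Chords: caps, and faces with three upper arcs.
-/

namespace Pool.Agent.Work.MP_dd6b33_gt

open Set Real

/-- the property of a chord supplied by its cap -/
def CapA (κ : Arc) : Prop :=
  π / 6 < κ.φb → 1 ≤ κ.ra → ∀ η θ, κ.a ≤ η → η ≤ θ → θ ≤ κ.b → κ.φ η ≤ π / 2 → 1 ≤ κ.r θ → False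

theorem c_le_end {κ g : Arc} (h1 : g.rb = κ.rb) (h2 : g.φb = κ.φb + 2 * π / 3)
    (h3 : π / 6 ≤ κ.φb) : g.c ≤ κ.c := by
  rw [← g.c_b, ← κ.c_b, h1, h2, ← sin_pi_sub]
  have := g.φb_lt
  exact mul_le_mul_of_nonneg_left (sin_le_sin_of_le_of_le_pi_div_two (by linarith only [h2, h3, this, pi_pos])
    (by linarith only [h2, h3, this, pi_pos]) (by linarith only [h3])) (ψ_pos κ.rb_pos).le

theorem capA1 {κ g : Arc} (ha : g.a = κ.a) (hb : g.b = κ.b) (hra : g.ra = κ.ra)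
    (hrb : g.rb = κ.rb) (hφa : κ.φa = g.φa + 2 * π / 3) (hφb : g.φb = κ.φb + 2 * π / 3)
    (h : Bel κ g κ.a κ.b) : CapA κ := fun h1 h2 _ _ a1 a2 a3 a4 a5 =>
  cap0 κ g ha hb hra hrb hφa hφb (c_le_end hrb hφb h1.le)
    (fun σ b1 b2 => h σ b1 b2 b1.le b2.le (ha ▸ b1.le) (hb ▸ b2.le)) h2 a1 a2 a3 a4 a5

theorem capA2 {κ g0 g1 : Arc} (hg : TL g0 g1) (hv : g0.φb = π / 3) (ha : g0.a = κ.a)
    (hb : g1.b = κ.b) (hra : g0.ra = κ.ra) (hrb : g1.rb = κ.rb)
    (hφa : κ.φa = g0.φa + 2 * π / 3) (hφb : g1.φb = κ.φb + 2 * π / 3)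
    (h0 : Bel κ g0 κ.a κ.b) (h1 : Bel κ g1 κ.a κ.b) : CapA κ := fun c1 c2 _ _ a1 a2 a3 a4 a5 => by
  have e := c_le_end hrb hφb c1.le
  have k := hg.1
  have l0 := g0.hab
  have l1 := g1.hab
  exact cap1 κ g0 g1 hg hv ha hb hra hrb hφa hφb (hg.c_eq hv ▸ e) e
    (fun σ b1 b2 => h0 σ b1 (by linarith only [hb, k, l1, b2]) b1.le (by linarith only [hb, k, l1, b2]) (by linarith only [ha, b1]) b2)
    (fun σ b1 b2 => h1 σ (by linarith only [ha, k, l0, b1]) b2 (by linarith only [ha, k, l0, b1]) b2.le b1 (by linarith only [hb, b2])) c2 a1 a2 a3 a4 a5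

theorem cap3 {κ g gl : Arc} (h1 : g.φa = 2 * π / 3) (h2 : g.φb = π / 3) (hc : g.c = gl.c)
    (hrb : gl.rb = κ.rb) (hφb : gl.φb = κ.φb + 2 * π / 3) (ha : κ.a < g.a) (hb : g.b ≤ κ.b)
    (h : Bel κ g κ.a κ.b) : κ.φb ≤ π / 6 := by
  by_contra hh
  have e := c_le_end hrb hφb (not_le.mp hh).le
  obtain ⟨η, a1, a2, a3, a4⟩ := g.ex_min le_rfl g.hab.le le_rfl
    (by unfold Arc.φa at h1; linarith only [h1, pi_pos]) (by unfold Arc.φb at h2; linarith only [h2, pi_pos])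
  have := κ.c_lt_of_min g (t := η) (by linarith only [ha, a1]) (by linarith only [hb, a2]) a1 a2.le
    (h η (by linarith only [ha, a1]) (by linarith only [hb, a2]) (by linarith only [ha, a1]) (by linarith only [hb, a2]) a1 a2.le) a3 a4
  linarith only [hc, e, this]

/-- the chord leaves the unit disc after `η` and ends at an angle larger than `π / 6` -/
def Out (κ : Arc) (η : ℝ) : Prop := (∃ θ, η ≤ θ ∧ θ ≤ κ.b ∧ 1 ≤ κ.r θ) ∧ π / 6 < κ.φb

theorem RS (κ g : Arc) (h : TL κ g) (hg : 2 * π / 3 ≤ g.φb) (hκ : κ.φb < π / 3) {η : ℝ}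
    (a1 : κ.a ≤ η) (a2 : η ≤ κ.b) (a3 : κ.φ η = π / 2) (a4 : κ.r η < 1)
    (In : ℝ → Prop) (i1 : ∀ σ, κ.a ≤ σ → σ ≤ κ.b → κ.r σ ≤ 1 → In σ)
    (i2 : ∀ σ, g.a ≤ σ → σ ≤ g.b → g.r σ ≤ 1 → In σ)
    (I1 : ∀ t, η ≤ t → t ≤ g.b → (∀ σ, η ≤ σ → σ ≤ t → In σ) → t - η ≤ π / 2)
    (I2 : ∀ θc θe, η ≤ θc → θc ≤ θe → θe ≤ κ.b → κ.r θc = 1 →
      (∀ u, θc ≤ u → u ≤ θe → 1 ≤ κ.r u ∧ κ.φ u ≤ π / 3) → g.rb ≤ κ.r θe →
      g.b - η ≤ π / 2 + (θe - θc)) : Out κ η := by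
  obtain ⟨θ, b1, b2, b3⟩ := RS1 κ g h hg hκ a1 a2 a3 In i1 i2 I1
  exact ⟨⟨θ, b1, b2, b3⟩, not_le.mp fun hh => RS2 κ g h hg hh a1 b1 b2 a3 a4 b3 I2⟩

theorem RS_orig (κ g : Arc) (h : TL κ g) (hg : 2 * π / 3 ≤ g.φb) (hκ : κ.φb < π / 3) {η : ℝ}
    (a1 : κ.a ≤ η) (a2 : η ≤ κ.b) (a3 : κ.φ η = π / 2) (a4 : κ.r η < 1)
    (hw : g.b - η ≤ π / 2) : Out κ η :=
  RS κ g h hg hκ a1 a2 a3 a4 (fun _ => True) (fun _ _ _ _ => trivial) (fun _ _ _ _ => trivial)
    (fun _ _ _ _ => by linarith) (fun _ _ _ _ _ _ _ _ => by linarith)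

theorem RS_one (f κ g : Arc) (h : TL κ g) (hg : 2 * π / 3 ≤ g.φb) (hκ : κ.φb < π / 3) {η θ0 : ℝ}
    (a1 : κ.a ≤ η) (a2 : η ≤ κ.b) (a3 : κ.φ η = π / 2) (a4 : κ.r η < 1) (a5 : θ0 < η)
    (fa : f.a ≤ η) (fb : f.b = g.b) (hend : f.rb ≤ g.rb) (hφ : f.φ η ≤ π / 2)
    (h1 : Bel f κ θ0 g.b) (h2 : Bel f g θ0 g.b) : Out κ η := by
  have k := h.1
  have l := g.hab
  have b1 : ∀ σ, η ≤ σ → σ < f.b → σ ≤ κ.b → f.r σ < κ.r σ := fun σ c1 c2 c3 =>
    h1 σ (by linarith only [a5, c1]) (by linarith only [fb, c2]) (by linarith only [fa, c1]) c2.le (by linarith only [a1, c1]) c3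
  have b2 : ∀ σ, η ≤ σ → σ < f.b → g.a ≤ σ → f.r σ < g.r σ := fun σ c1 c2 c3 =>
    h2 σ (by linarith only [a5, c1]) (by linarith only [fb, c2]) (by linarith only [fa, c1]) c2.le c3 (by linarith only [fb, c2])
  have e0 := b1 η le_rfl (by linarith only [a2, fb, k, l]) a2
  have hc := f.c_lt_of_min κ fa (by linarith only [a2, fb, k, l]) a1 a2 e0 a3 a4
  have hc1 : f.c < ψ 1 := hc.trans_le ((κ.c_le_ψ a1 a2).trans (ψ_le_one (κ.r_pos a1 a2).le))
  refine RS κ g h hg hκ a1 a2 a3 a4 (fun σ => η ≤ σ → f.r σ ≤ 1)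
    (fun σ c1 c2 c3 c4 => (b1 σ c4 (by linarith only [fb, k, l, c2]) c2).le.trans c3)
    (fun σ c1 c2 c3 c4 => ?_) (fun t c1 c2 c3 => ?_) (fun θc θe c1 c2 c3 c4 c5 c6 => ?_)
  · rcases c2.eq_or_lt with d | d
    · subst d
      unfold Arc.rb at hend
      rw [fb] at hend
      linarith only [hend, c3]
    · exact (b2 σ c4 (by linarith only [fb, d]) c1).le.trans c3
  · linarith only [hφ, fa, c1, fb, c2, c3, hc1, f.N1 fa c1 (by linarith) (fun u d1 d2 => c3 u d1 d2 d1) hφ hc1]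
  · linarith only [hφ, k, h, hκ, fa, a2, fb, l, a1, a4, e0, hc, b1, b2, hend, c1, c2, c3, c4, c5, c6, low1 f κ g k (h.c_le hκ.le) fa (by linarith) fb a1 (by linarith) hφ hc b1 b2 hend
      (by linarith) c2 c3 c4 c5 c6]

theorem RS_two (f1 f2 κ g : Arc) (hf : TR f1 f2) (h : TL κ g) (hg : 2 * π / 3 ≤ g.φb)
    (hκ : κ.φb < π / 3) {η θ0 : ℝ}
    (a1 : κ.a ≤ η) (a2 : η ≤ κ.b) (a3 : κ.φ η = π / 2) (a4 : κ.r η < 1) (a5 : θ0 < η)
    (fa : f1.a ≤ η) (fa' : η ≤ f1.b) (fb : f2.b = g.b) (hend : f2.rb ≤ g.rb)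
    (hφ : f1.φ η ≤ π / 2) (hcs : f1.c ≤ cs)
    (h1 : Bel f1 κ θ0 g.b) (h2 : Bel f1 g θ0 g.b)
    (h3 : Bel f2 κ θ0 g.b) (h4 : Bel f2 g θ0 g.b) : Out κ η := by
  have k := h.1
  have k' := hf.1
  have l := g.hab
  have l' := f2.hab
  have b1 : ∀ σ, η ≤ σ → σ ≤ f1.b → σ ≤ κ.b → f1.r σ < κ.r σ := fun σ c1 c2 c3 =>
    h1 σ (by linarith only [a5, c1]) (by linarith only [fb, k', l', c2]) (by linarith only [fa, c1]) c2 (by linarith only [a1, c1]) c3
  have b2 : ∀ σ, η ≤ σ → σ ≤ f1.b → g.a ≤ σ → f1.r σ < g.r σ := fun σ c1 c2 c3 =>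
    h2 σ (by linarith only [a5, c1]) (by linarith only [fb, k', l', c2]) (by linarith only [fa, c1]) c2 c3 (by linarith only [fb, k', l', c2])
  have b3 : ∀ σ, f2.a ≤ σ → σ < f2.b → σ ≤ κ.b → f2.r σ < κ.r σ := fun σ c1 c2 c3 =>
    h3 σ (by linarith only [a5, fa', k', c1]) (by linarith only [fb, c2]) c1 c2.le (by linarith only [a1, fa', k', c1]) c3
  have b4 : ∀ σ, f2.a ≤ σ → σ < f2.b → g.a ≤ σ → f2.r σ < g.r σ := fun σ c1 c2 c3 =>
    h4 σ (by linarith only [a5, fa', k', c1]) (by linarith only [fb, c2]) c1 c2.le c3 (by linarith only [fb, c2])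
  have hc := f1.c_lt_of_min κ fa fa' a1 a2 (b1 η le_rfl fa' a2) a3 a4
  refine RS κ g h hg hκ a1 a2 a3 a4
    (fun σ => η ≤ σ → (σ ≤ f1.b → f1.r σ ≤ 1) ∧ (f2.a ≤ σ → f2.r σ ≤ 1))
    (fun σ c1 c2 c3 c4 => ⟨fun d => (b1 σ c4 d c2).le.trans c3,
      fun d => (b3 σ d (by linarith only [fb, k, l, c2]) c2).le.trans c3⟩)
    (fun σ c1 c2 c3 c4 => ⟨fun d => (b2 σ c4 d c1).le.trans c3, fun d' => ?_⟩)
    (fun t c1 c2 c3 => ?_) (fun θc θe c1 c2 c3 c4 c5 c6 => ?_)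
  · rcases c2.eq_or_lt with d | d
    · subst d
      unfold Arc.rb at hend
      rw [fb] at hend
      linarith only [hend, c3]
    · exact (b4 σ d' (by linarith only [fb, d]) c1).le.trans c3
  · exact low2_I1 f1 f2 κ g hf k (h.c_le hκ.le) fa fa' fb a1 hφ hc hcs
      (fun σ d1 d2 => b1 σ d1 d2.le) (fun σ d1 d2 => b2 σ d1 d2.le) c1 c2
      (fun σ d1 d2 => (c3 σ d1 d2 d1).1) (fun σ d1 d2 => (c3 σ d1 d2 d1).2)
  · exact low2_I2 f1 f2 κ g hf k (h.c_le hκ.le) fa fa' fb a1 hφ hc hcs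
      (fun σ d1 d2 => b1 σ d1 d2.le) (fun σ d1 d2 => b2 σ d1 d2.le) b3 b4 hend
      (by linarith only [a1, c1]) c2 c3 c4 c5 c6

/-- intervals over which the floor stays inside the unit disc are short -/
def Short (θ0 θ1 : ℝ) (In : ℝ → Prop) : Prop :=
  ∀ s t, θ0 ≤ s → s ≤ t → t ≤ θ1 → (∀ σ, s ≤ σ → σ ≤ t → In σ) → t - s ≤ π

/-- the floor is inside the unit disc whenever `u` is -/
def Ins (u : Arc) (In : ℝ → Prop) : Prop := ∀ σ, u.a ≤ σ → σ ≤ u.b → u.r σ ≤ 1 → In σ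

theorem A101 (u0 κ : Arc) (h : TL u0 κ) (p0 : u0.φa ≤ π / 3) (p1 : π / 3 ≤ u0.φb)
    {In : ℝ → Prop} {θ1 η : ℝ} (i0 : Ins u0 In) (i1 : Ins κ In) (L4 : Short u0.a θ1 In)
    (hb : κ.b ≤ θ1) (a1 : κ.a ≤ η) (a3 : κ.φ η = π / 2) (ho : Out κ η) (hc : CapA κ) : False := by
  obtain ⟨⟨θ, b1, b2, b3⟩, b4⟩ := ho
  refine hc b4 (not_lt.mp fun hh => ?_) η θ a1 b1 b2 a3.le b3
  obtain ⟨s0, c1, c2, c3⟩ := u0.ex_out p0 p1
  obtain ⟨s, t, d1, d2, d3, d4, d5, d6, d7⟩ := crossA u0 κ h c1 c2 c3 (h.2.1 ▸ hh)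
    (u0.c_le_cs_L le_rfl u0.hab.le p0) p1 a1 b1 b2 a3.le b3
  have k := h.1
  have := L4 s t d1 (by linarith only [d2, d3, k]) (by linarith only [hb, d4]) fun σ e1 e2 => by
    rcases le_total σ u0.b with e | e
    · exact i0 σ (by linarith only [d1, e1]) e (d6 σ e1 e)
    · exact i1 σ (by linarith only [k, e]) (by linarith only [d4, e2]) (d7 σ (by linarith only [k, e]) e2)
  linarith only [d5, this]

/-- one floor arc -/
structure Fl1 (f u0 ul : Arc) : Prop where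
  a : f.a = u0.a
  b : f.b = ul.b
  ra : f.ra ≤ u0.ra
  rb : f.rb ≤ ul.rb
  φa : 2 * π / 3 ≤ f.φa
  φb : f.φb ≤ π / 3

theorem Fl1.mirror {f u0 ul : Arc} (h : Fl1 f u0 ul) : Fl1 f.mirror ul.mirror u0.mirror :=
  ⟨by simp [h.b], by simp [h.a], by simp [h.rb], by simp [h.ra], by simp; linarith only [h, h.φb],
    by simp; linarith only [h, h.φa]⟩

theorem Bel.ins {f u : Arc} {θ0 θ1 σ : ℝ} (h : Bel f u θ0 θ1) (a1 : θ0 ≤ u.a) (a2 : u.b ≤ θ1)
    (e0 : θ0 = u.a → f.a ≤ θ0 → f.r θ0 ≤ u.ra) (e1 : u.b = θ1 → θ1 ≤ f.b → f.r θ1 ≤ u.rb)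
    (b1 : u.a ≤ σ) (b2 : σ ≤ u.b) (b3 : f.a ≤ σ) (b4 : σ ≤ f.b) : f.r σ ≤ u.r σ :=
  h.le (by linarith) (by linarith) b3 b4 b1 b2
    (fun e => by
      have e' : θ0 = u.a := le_antisymm a1 (e ▸ b1)
      subst e
      exact (e0 e' b3).trans_eq (by rw [e']; rfl))
    (fun e => by
      have e' : u.b = θ1 := le_antisymm a2 (e ▸ b2)
      subst e
      exact (e1 e' b4).trans_eq (by rw [← e']; rfl))

/-- three upper arcs over a floor -/
structure Q3 (u0 u1 u2 : Arc) : Prop where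
  t01 : TL u0 u1
  t12 : TL u1 u2
  p0 : u0.φa ≤ π / 3
  p2 : 2 * π / 3 ≤ u2.φb
  fl : (∃ f, Fl1 f u0 u2 ∧ Bel f u0 u0.a u2.b ∧ Bel f u1 u0.a u2.b ∧ Bel f u2 u0.a u2.b) ∨
    (∃ f1 f2, TR f1 f2 ∧ f1.a = u0.a ∧ f2.b = u2.b ∧ f1.ra ≤ u0.ra ∧ f2.rb ≤ u2.rb ∧
      2 * π / 3 ≤ f1.φa ∧ f2.φb ≤ π / 3 ∧
      Bel f1 u0 u0.a u2.b ∧ Bel f1 u1 u0.a u2.b ∧ Bel f1 u2 u0.a u2.b ∧
      Bel f2 u0 u0.a u2.b ∧ Bel f2 u1 u0.a u2.b ∧ Bel f2 u2 u0.a u2.b) ∨
    u2.b - u0.a ≤ π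

theorem Q3.mirror {u0 u1 u2 : Arc} (h : Q3 u0 u1 u2) : Q3 u2.mirror u1.mirror u0.mirror := by
  refine ⟨h.t12.mirror, h.t01.mirror, by simp; linarith only [h, h.p2], by simp; linarith only [h, h.p0], ?_⟩
  rcases h.fl with ⟨f, a1, a2, a3, a4⟩ | ⟨f1, f2, a1, a2, a3, a4, a5, a6, a7, b1, b2, b3, b4, b5, b6⟩ | a
  · exact Or.inl ⟨f.mirror, a1.mirror, a4.mirror, a3.mirror, a2.mirror⟩
  · exact Or.inr (Or.inl ⟨f2.mirror, f1.mirror, a1.mirror, by simp [a3], by simp [a2], by simp [a5],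
      by simp [a4], by simp; linarith only [a7], by simp; linarith only [a6], b6.mirror, b5.mirror, b4.mirror,
      b3.mirror, b2.mirror, b1.mirror⟩)
  · exact Or.inr (Or.inr (by simp; linarith))

theorem Q3.floor {u0 u1 u2 : Arc} (h : Q3 u0 u1 u2) :
    ∃ In, Ins u0 In ∧ Ins u1 In ∧ Short u0.a u2.b In := by
  have k1 := h.t01.1
  have k2 := h.t12.1
  have l0 := u0.hab
  have l1 := u1.hab
  have l2 := u2.hab
  rcases h.fl with ⟨f, a1, a2, a3, a4⟩ | ⟨f1, f2, a1, a2, a3, a4, a5, a6, a7, b1, b2, b3, b4, b5, b6⟩ | a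
  · have fa := a1.a
    have fb := a1.b
    refine ⟨fun σ => f.r σ ≤ 1, fun σ c1 c2 c3 => le_trans ?_ c3, fun σ c1 c2 c3 => le_trans ?_ c3,
      fun s t c1 c2 c3 c4 => f.L4 (by linarith) c2 (by linarith) c4
        (f.c_le_cs_H le_rfl f.hab.le a1.φa)⟩
    · exact a2.ins le_rfl (by linarith) (fun _ _ => fa ▸ a1.ra) (fun e => by linarith) c1 c2
        (by linarith) (by linarith)
    · exact (a3 σ (by linarith) (by linarith) (by linarith) (by linarith) c1 c2).le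
  · have k3 := a1.1
    have m1 := f1.hab
    have m2 := f2.hab
    refine ⟨fun σ => (σ ≤ f1.b → f1.r σ ≤ 1) ∧ (f2.a ≤ σ → f2.r σ ≤ 1),
      fun σ c1 c2 c3 => ⟨fun d => le_trans ?_ c3, fun d => le_trans ?_ c3⟩,
      fun σ c1 c2 c3 => ⟨fun d => le_trans ?_ c3, fun d => le_trans ?_ c3⟩,
      fun s t c1 c2 c3 c4 => L4two f1 f2 a1 (by linarith only [a2, c1]) c2 (by linarith only [a3, c3])
        (fun u d1 d2 => (c4 u d1 d2).1) (fun u d1 d2 => (c4 u d1 d2).2)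
        (f1.c_le_cs_H le_rfl f1.hab.le a6) (f2.c_le_cs_L f2.hab.le le_rfl a7)⟩
    · exact b1.ins le_rfl (by linarith only [k1, k2, l1, l2]) (fun _ _ => a2 ▸ a4) (fun e => by linarith only [k1, k2, l1, l2, e]) c1 c2
        (by linarith only [a2, c1]) d
    · exact (b4 σ (by linarith only [a2, k3, m1, d]) (by linarith only [k1, k2, l1, l2, c2]) d (by linarith only [k1, k2, l1, l2, a3, c2]) c1 c2).le
    · exact (b2 σ (by linarith only [k1, l0, c1]) (by linarith only [k2, l2, c2]) (by linarith only [k1, l0, a2, c1]) d c1 c2).le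
    · exact (b5 σ (by linarith only [k1, l0, c1]) (by linarith only [k2, l2, c2]) d (by linarith only [k2, l2, a3, c2]) c1 c2).le
  · exact ⟨fun _ => True, fun _ _ _ _ => trivial, fun _ _ _ _ => trivial,
      fun s t c1 c2 c3 _ => by linarith⟩

theorem Q3.out {u0 u1 u2 : Arc} (h : Q3 u0 u1 u2) (p1 : π / 3 < u0.φb) (p2 : u1.φb < π / 3) {η : ℝ}
    (a1 : u1.a ≤ η) (a2 : η ≤ u1.b) (a3 : u1.φ η = π / 2) (a4 : u1.r η < 1) :
    Out u1 η ∨ Out u1.mirror (-η) := by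
  have k1 := h.t01.1
  have k2 := h.t12.1
  have l0 := u0.hab
  have l2 := u2.hab
  have q0 : 2 * π / 3 ≤ u0.mirror.φb := by simp; linarith only [h, h.p0]
  have q1 : u1.mirror.φb < π / 3 := by simp; linarith only [p1, h, h.t01.2.2]
  have q2 : u1.mirror.a ≤ -η := by simpa
  have q3 : -η ≤ u1.mirror.b := by simpa
  have q4 : u1.mirror.φ (-η) = π / 2 := by simp; linarith only [a3]
  have q5 : u1.mirror.r (-η) < 1 := by simpa
  have q6 : -u2.b < -η := by linarith only [a2, k2, l2]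
  rcases h.fl with ⟨f, b1, b2, b3, b4⟩ | ⟨f1, f2, c1, c2, c3, c4, c5, c6, c7, b1, b2, b3, b4, b5, b6⟩ | a
  · rcases le_total (f.φ η) (π / 2) with d | d
    · exact Or.inl (RS_one f u1 u2 h.t12 h.p2 p2 a1 a2 a3 a4 (by linarith only [a1, k1, l0]) (by linarith only [a1, k1, l0, b1, b1.a]) b1.b
        b1.rb d b3 b4)
    · exact Or.inr (RS_one f.mirror _ _ h.t01.mirror q0 q1 q2 q3 q4 q5 q6
        (by simp; linarith only [a2, k2, l2, b1, b1.b]) b1.mirror.b b1.mirror.rb (by simp; linarith only [d]) b3.mirror b2.mirror)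
  · have k3 := c1.1
    rcases le_total η f1.b with e | e
    · rcases le_total (f1.φ η) (π / 2) with d | d
      · exact Or.inl (RS_two f1 f2 u1 u2 c1 h.t12 h.p2 p2 a1 a2 a3 a4 (by linarith only [a1, k1, l0]) (by linarith only [a1, k1, l0, c2]) e c3
          c5 d (f1.c_le_cs_H le_rfl f1.hab.le c6) b2 b3 b5 b6)
      · exact Or.inr (RS_one f1.mirror _ _ h.t01.mirror q0 q1 q2 q3 q4 q5 q6
          (by simpa) (by simp [c2]) (by simpa) (by simp; linarith only [d]) b2.mirror b1.mirror)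
    · rcases le_total (f2.φ η) (π / 2) with d | d
      · exact Or.inl (RS_one f2 u1 u2 h.t12 h.p2 p2 a1 a2 a3 a4 (by linarith only [a1, k1, l0]) (by linarith only [k3, e]) c3
          c5 d b5 b6)
      · exact Or.inr (RS_two f2.mirror f1.mirror _ _ c1.mirror h.t01.mirror q0 q1 q2 q3 q4 q5 q6
          (by simp; linarith only [a2, k2, l2, c3]) (by simp; linarith only [k3, e]) (by simp [c2]) (by simpa) (by simp; linarith only [d])
          (by simpa using f2.c_le_cs_L f2.hab.le le_rfl c7) b5.mirror b4.mirror b2.mirror b1.mirror)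
  · rcases le_total (u2.b - η) (π / 2) with d | d
    · exact Or.inl (RS_orig u1 u2 h.t12 h.p2 p2 a1 a2 a3 a4 d)
    · exact Or.inr (RS_orig _ _ h.t01.mirror q0 q1 q2 q3 q4 q5 (by simp; linarith only [a, d]))

theorem chord_min {u κ : Arc} (h : TL u κ) (p1 : π / 3 ≤ u.φb) (p2 : κ.φb < π / 3) :
    ∃ η, κ.a ≤ η ∧ η ≤ κ.b ∧ κ.φ η = π / 2 ∧ κ.r η < 1 := by
  have := h.2.2
  obtain ⟨η, a1, a2, a3, a4⟩ := κ.ex_min le_rfl κ.hab.le le_rfl
    (by unfold Arc.φa at this; linarith only [p1, this, pi_pos]) (by unfold Arc.φb at p2; linarith only [p2, pi_pos])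
  exact ⟨η, a1, a2.le, a3, a4⟩

theorem Q3.no101 {u0 u1 u2 : Arc} (h : Q3 u0 u1 u2) (p1 : π / 3 < u0.φb) (p2 : u1.φb < π / 3)
    (c1 : CapA u1) (c2 : CapA u1.mirror) : False := by
  obtain ⟨η, a1, a2, a3, a4⟩ := chord_min h.t01 p1.le p2
  rcases h.out p1 p2 a1 a2 a3 a4 with o | o
  · obtain ⟨In, i0, i1, L4⟩ := h.floor
    exact A101 u0 u1 h.t01 h.p0 p1.le i0 i1 L4 (by linarith only [h, h.t12.1, u2.hab]) a1 a3 o c1
  · obtain ⟨In, i0, i1, L4⟩ := h.mirror.floor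
    exact A101 _ _ h.mirror.t01 h.mirror.p0 (by simp; linarith only [p2, h, h.t12.2.2]) i0 i1 L4
      (by simp; linarith [h.t01.1, u0.hab]) (by simpa) (by simp; linarith only [a3]) o c2

end Pool.Agent.Work.MP_dd6b33_gt
end

-- merged part: Pool.Agent.Work.MP_dd6b33_gt.Geo6
section
/-!
Faces with four upper arcs.
-/

namespace Pool.Agent.Work.MP_dd6b33_gt

open Set Real

/-- four upper arcs over a floor -/
structure Q4 (u0 u1 u2 u3 : Arc) : Prop where
  t01 : TL u0 u1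
  t12 : TL u1 u2
  t23 : TL u2 u3
  fl : (∃ f : Arc, f.a = u0.a ∧ f.ra = u0.ra ∧ f.φa = u0.φa + 2 * π / 3 ∧ f.b = u3.b ∧
      f.rb = u3.rb ∧ u3.φb = f.φb + 2 * π / 3 ∧ Bel f u0 u0.a u3.b ∧ Bel f u1 u0.a u3.b ∧
      Bel f u2 u0.a u3.b ∧ Bel f u3 u0.a u3.b) ∨
    (u0.φa = π / 3 ∧ u3.φb = 2 * π / 3 ∧ u3.b - u0.a ≤ π)

namespace Q4

variable {u0 u1 u2 u3 : Arc}

theorem mirror (h : Q4 u0 u1 u2 u3) : Q4 u3.mirror u2.mirror u1.mirror u0.mirror := by
  refine ⟨h.t23.mirror, h.t12.mirror, h.t01.mirror, ?_⟩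
  rcases h.fl with ⟨f, a1, a2, a3, a4, a5, a6, b0, b1, b2, b3⟩ | ⟨a1, a2, a3⟩
  · exact Or.inl ⟨f.mirror, by simp [a4], by simp [a5], by simp; linarith only [a6], by simp [a1],
      by simp [a2], by simp; linarith only [a3], b3.mirror, b2.mirror, b1.mirror, b0.mirror⟩
  · exact Or.inr ⟨by simp; linarith only [a2], by simp; linarith only [a1], by simp; linarith⟩

theorem p0 (h : Q4 u0 u1 u2 u3) : u0.φa ≤ π / 3 := by
  rcases h.fl with ⟨f, -, -, a3, -⟩ | ⟨a1, -⟩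
  · linarith only [a3, f.φa_lt]
  · exact a1.le

theorem p3 (h : Q4 u0 u1 u2 u3) : 2 * π / 3 ≤ u3.φb := by
  rcases h.fl with ⟨f, -, -, -, -, -, a6, -⟩ | ⟨-, a2, -⟩
  · linarith only [a6, f.φb_pos]
  · exact a2.ge

end Q4

theorem D_one {u0 u1 f : Arc} {θ1 : ℝ} (t01 : TL u0 u1) (a1 : f.a = u0.a)
    (a3 : f.φa = u0.φa + 2 * π / 3) (hb : u1.b < θ1) (fb : u1.b ≤ f.b)
    (b0 : Bel f u0 u0.a θ1) (b1 : Bel f u1 u0.a θ1) : f.φ u1.b - u1.φb < π / 3 := by
  have k1 := t01.1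
  have l0 := u0.hab
  have l1 := u1.hab
  have d0 := D_lt f u0 l0 a1.le (by linarith only [fb, k1, l1]) le_rfl le_rfl fun σ c1 c2 =>
    b0 σ c1 (by linarith) (by linarith) (by linarith) c1.le c2.le
  have d1 := D_lt f u1 l1 (by linarith) fb le_rfl le_rfl fun σ c1 c2 =>
    b1 σ (by linarith) (by linarith) (by linarith) (by linarith) c1.le c2.le
  have e := t01.2.2
  unfold Arc.φa Arc.φb at *
  rw [a1] at a3
  rw [k1] at d0 e
  linarith only [a3, d0, d1, e]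

theorem D_neg {u0 u1 u2 f : Arc} {θ1 : ℝ} (t01 : TL u0 u1) (t12 : TL u1 u2) (a1 : f.a = u0.a)
    (a3 : f.φa = u0.φa + 2 * π / 3) (hb : u2.b ≤ θ1) (fb : u2.b ≤ f.b)
    (b0 : Bel f u0 u0.a θ1) (b1 : Bel f u1 u0.a θ1) (b2 : Bel f u2 u0.a θ1) {η : ℝ}
    (e1 : u2.a ≤ η) (e2 : η ≤ u2.b) : f.φ η < u2.φ η := by
  have k1 := t01.1
  have k2 := t12.1
  have l0 := u0.hab
  have l1 := u1.hab
  have l2 := u2.hab
  have d1 := D_one t01 a1 a3 (by linarith only [hb, k2, l2]) (by linarith) b0 b1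
  have d2 := D_le f u2 e1 (by linarith only [a1, k1, k2, l0, l1]) (by linarith only [fb, e2]) le_rfl e2 fun σ c1 c2 =>
    (b2 σ (by linarith only [k1, k2, l0, l1, c1]) (by linarith only [hb, e2, c2]) (by linarith only [a1, k1, k2, l0, l1, c1]) (by linarith only [fb, e2, c2]) c1.le (by linarith only [e2, c2])).le
  have e := t12.2.2
  unfold Arc.φa at e
  rw [k2] at d1
  linarith only [d1, d2, e]

theorem O_half {u0 u1 u2 : Arc} (t01 : TL u0 u1) (t12 : TL u1 u2) (a1 : u0.φa = π / 3) {η : ℝ}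
    (e1 : u2.a ≤ η) (e2 : η ≤ u2.b) (e3 : u2.φ η = π / 2) : u0.a + π / 2 ≤ η := by
  have d0 := u0.N0' le_rfl u0.hab.le le_rfl
  have d1 := u1.N0' le_rfl u1.hab.le le_rfl
  have d2 := u2.N0' le_rfl e1 e2
  have f1 := t01.2.2
  have f2 := t12.2.2
  unfold Arc.φa Arc.φb at *
  linarith only [a1, e3, d0, d1, d2, f1, f2, t01, t12, t01.1, t12.1]

namespace Q4

variable {u0 u1 u2 u3 : Arc}

theorem out (h : Q4 u0 u1 u2 u3) (p2 : u2.φb < π / 3) {η : ℝ}
    (a1 : u2.a ≤ η) (a2 : η ≤ u2.b) (a3 : u2.φ η = π / 2) (a4 : u2.r η < 1) : Out u2 η := by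
  have k1 := h.t01.1
  have k2 := h.t12.1
  have k3 := h.t23.1
  have l0 := u0.hab
  have l1 := u1.hab
  have l3 := u3.hab
  rcases h.fl with ⟨f, c1, c2, c3, c4, c5, c6, b0, b1, b2, b3⟩ | ⟨c1, c2, c3⟩
  · exact RS_one f u2 u3 h.t23 h.p3 p2 a1 a2 a3 a4 (by linarith only [a1, k1, k2, l0, l1]) (by linarith only [a1, k1, k2, l0, l1, c1]) c4 c5.le
      (a3 ▸ (D_neg h.t01 h.t12 c1 c3 (by linarith only [k3, l3]) (by linarith only [k3, l3, c4]) b0 b1 b2 a1 a2).le) b2 b3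
  · exact RS_orig u2 u3 h.t23 h.p3 p2 a1 a2 a3 a4 (by linarith only [c3, h, c1, a1, a2, a3, O_half h.t01 h.t12 c1 a1 a2 a3])

theorem beta (h : Q4 u0 u1 u2 u3) (p1 : π / 3 ≤ u1.φb) (p2 : u2.φb < π / 3) : π / 6 < u2.φb := by
  obtain ⟨η, a1, a2, a3, a4⟩ := chord_min h.t12 p1 p2
  exact (h.out p2 a1 a2 a3 a4).2

theorem floor (h : Q4 u0 u1 u2 u3) : ∃ In, Ins u0 In ∧ Ins u1 In ∧ Ins u2 In ∧ Ins u3 In ∧
    Short u0.a u3.b In ∧
    (∀ η t, u2.a ≤ η → η ≤ u2.b → u2.φ η = π / 2 → η ≤ t → t ≤ u3.b →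
      (∀ σ, η ≤ σ → σ ≤ t → In σ) → t - η ≤ π / 2) ∧
    (∀ η1 η2, u1.a ≤ η1 → η1 ≤ u1.b → u1.φ η1 = π / 2 → u1.r η1 < 1 →
      u2.a ≤ η2 → η2 ≤ u2.b → u2.φ η2 = π / 2 → u2.r η2 < 1 → ∀ σ, η1 ≤ σ → σ ≤ η2 → In σ) := by
  have k1 := h.t01.1
  have k2 := h.t12.1
  have k3 := h.t23.1
  have l0 := u0.hab
  have l1 := u1.hab
  have l2 := u2.hab
  have l3 := u3.hab
  rcases h.fl with ⟨f, c1, c2, c3, c4, c5, c6, b0, b1, b2, b3⟩ | ⟨c1, c2, c3⟩
  · have hc := f.c_le_cs_H le_rfl f.hab.le (show 2 * π / 3 ≤ f.φa by linarith only [c3, u0.φa_pos])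
    have g1 : ∀ σ, u1.a ≤ σ → σ ≤ u1.b → f.r σ < u1.r σ := fun σ d1 d2 =>
      b1 σ (by linarith only [k1, l0, d1]) (by linarith only [k2, k3, l2, l3, d2]) (by linarith only [k1, l0, c1, d1]) (by linarith only [k2, k3, l2, l3, c4, d2]) d1 d2
    have g2 : ∀ σ, u2.a ≤ σ → σ ≤ u2.b → f.r σ < u2.r σ := fun σ d1 d2 =>
      b2 σ (by linarith only [k1, k2, l0, l1, d1]) (by linarith only [k3, l3, d2]) (by linarith only [k1, k2, l0, l1, c1, d1]) (by linarith only [k3, l3, c4, d2]) d1 d2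
    refine ⟨fun σ => f.r σ ≤ 1, fun σ d1 d2 d3 => le_trans ?_ d3,
      fun σ d1 d2 d3 => (g1 σ d1 d2).le.trans d3, fun σ d1 d2 d3 => (g2 σ d1 d2).le.trans d3,
      fun σ d1 d2 d3 => le_trans ?_ d3,
      fun s t d1 d2 d3 d4 => f.L4 (by linarith only [c1, d1]) d2 (by linarith only [c4, d3]) d4 hc,
      fun η t d1 d2 d3 d4 d5 d6 => ?_, fun η1 η2 d1 d2 d3 d4 d5 d6 d7 d8 => ?_⟩
    · exact b0.ins le_rfl (by linarith only [k1, k2, k3, l1, l2, l3]) (fun _ _ => c1 ▸ c2.le) (fun e => by linarith only [k1, k2, k3, l1, l2, l3, e]) d1 d2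
        (by linarith only [c1, d1]) (by linarith only [k1, k2, k3, l1, l2, l3, c4, d2])
    · exact b3.ins (by linarith only [k1, k2, k3, l0, l1, l2]) le_rfl (fun e => by linarith only [k1, k2, k3, l0, l1, l2, e]) (fun _ _ => c4 ▸ c5.le) d1 d2
        (by linarith only [k1, k2, k3, l0, l1, l2, c1, d1]) (by linarith only [c4, d2])
    · have e := D_neg h.t01 h.t12 c1 c3 (by linarith only [k3, l3]) (by linarith only [k3, l3, c4]) b0 b1 b2 d1 d2
      linarith only [d3, e, k1, k2, l0, l1, c1, d1, d4, c4, d5, d6, hc, f.N1 (s := η) (by linarith) d4 (by linarith) d6 (by linarith) (hc.trans_lt cs_lt)]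
    · have e1 := f.c_lt_of_min u1 (by linarith only [k1, l0, c1, d1]) (by linarith only [k2, k3, l2, l3, c4, d2]) d1 d2 (g1 _ d1 d2) d3 d4
      have e2 := f.c_lt_of_min u2 (by linarith only [k1, k2, l0, l1, c1, d5]) (by linarith only [k3, l3, c4, d6]) d5 d6 (g2 _ d5 d6) d7 d8
      refine f.stay_in (by linarith only [k1, l0, c1, d1]) (by linarith only [k3, l3, c4, d6]) ((g1 _ d1 d2).le.trans d4.le)
        ((g2 _ d5 d6).le.trans d8.le) fun w x1 x2 x3 x4 => ?_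
      rcases le_total w u1.b with e | e
      · linarith only [e1, k1, l0, c1, d1, x1, k3, l3, c4, d6, x2, e, g1, x3, x4, f.c_lt_of_max u1 (t := w) (by linarith) (by linarith) (by linarith) e
          (g1 w (by linarith) e) x3 x4]
      · linarith only [e2, k1, l0, c1, d1, x1, k3, l3, c4, d6, x2, k2, e, g2, x3, x4, f.c_lt_of_max u2 (t := w) (by linarith) (by linarith) (by linarith) (by linarith)
          (g2 w (by linarith) (by linarith)) x3 x4]
  · exact ⟨fun _ => True, fun _ _ _ _ => trivial, fun _ _ _ _ => trivial, fun _ _ _ _ => trivial,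
      fun _ _ _ _ => trivial, fun s t d1 d2 d3 _ => by linarith only [c3, d1, d3],
      fun η t d1 d2 d3 d4 d5 _ => by linarith only [c3, d5, h, c1, d1, d2, d3, O_half h.t01 h.t12 c1 d1 d2 d3],
      fun _ _ _ _ _ _ _ _ _ _ _ _ _ => trivial⟩

theorem no1101 (h : Q4 u0 u1 u2 u3) (p0 : u0.φb = π / 3) (p1 : π / 3 ≤ u1.φb)
    (p2 : u2.φb < π / 3) (hc : CapA u2) : False := by
  obtain ⟨η, a1, a2, a3, a4⟩ := chord_min h.t12 p1 p2
  obtain ⟨⟨θ, b1, b2, b3⟩, b4⟩ := h.out p2 a1 a2 a3 a4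
  refine hc b4 (not_lt.mp fun hh => ?_) η θ a1 b1 b2 a3.le b3
  obtain ⟨In, i0, i1, i2, -, L4, -⟩ := h.floor
  obtain ⟨s0, c1, c2, c3⟩ := u0.ex_out h.p0 p0.ge
  exact cross2 u0 u1 u2 h.t01 h.t12 c1 c2 c3 (h.t12.2.1 ▸ hh)
    (u0.c_le_cs_L le_rfl u0.hab.le h.p0)
    (u1.c_le_cs_H le_rfl u1.hab.le (show 2 * π / 3 ≤ u1.φa by linarith only [p0, h, h.t01.2.2]))
    (u2.c_le_cs_L u2.hab.le le_rfl p2.le) p1 a1 b1 b2 a3.le b3 In i0 i1 i2
    fun s t d1 d2 d3 => L4 s t d1 d2 (by linarith only [d3, h, h.t23.1, u3.hab])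

theorem no1001' (h : Q4 u0 u1 u2 u3) (p0 : π / 3 < u0.φb) (p1 : π / 3 ≤ u1.φb)
    (p2 : u2.φb < π / 3) : False := by
  obtain ⟨In, i0, i1, i2, i3, L4, I1, cv⟩ := h.floor
  exact G_c u0 u1 u2 u3 h.t01 h.t12 h.t23 h.p0 p0 p1 p2 h.p3 In i0 i1 i2 i3 L4 I1 cv

theorem no1001 (h : Q4 u0 u1 u2 u3) (p0 : π / 3 < u0.φb) (p2 : u2.φb < π / 3) : False := by
  rcases le_total (π / 3) u1.φb with c | c
  · exact h.no1001' p0 c p2
  · exact h.mirror.no1001' (by simp; linarith only [p2, h, h.t23.2.2]) (by simp; linarith only [c, h, h.t12.2.2])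
      (by simp; linarith only [p0, h, h.t01.2.2])

end Q4

end Pool.Agent.Work.MP_dd6b33_gt
end

-- merged part: Pool.Agent.Work.MP_dd6b33_gt.Face
section
/-!
Geometric facts on the faces.
-/

namespace Pool.Agent.Work.MP_dd6b33_gt

open Set Real

theorem Q4.no111 {u0 u1 u2 u3 : Arc} (h : Q4 u0 u1 u2 u3) (hr : u0.φa < π / 3)
    (p0 : u0.φb = π / 3) (p1 : u1.φb = π / 3) : False := by
  have k1 := h.t01.1
  have k2 := h.t12.1
  have k3 := h.t23.1
  have l0 := u0.hab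
  have l2 := u2.hab
  have l3 := u3.hab
  rcases h.fl with ⟨f, c1, c2, c3, c4, c5, c6, b0, b1, b2, b3⟩ | ⟨c1, -⟩
  · refine Tiii_real u0 u1 f h.t01 p0 p1 c1 c2 c3 (by linarith only [k2, k3, l2, l3, c4]) (c4 ▸ b0) (c4 ▸ b1)
      fun σ d1 d2 => ?_
    have := D_neg (η := -σ) (f := f.mirror) h.t23.mirror h.t12.mirror (by simp [c4])
      (by simp; linarith only [c6]) (by simp; linarith only [k1, l0]) (by simp; linarith only [k1, l0, c1]) b3.mirror b2.mirror b1.mirror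
      (by simpa) (by simpa)
    simpa using this
  · linarith only [hr, c1]

theorem lt_of_mul_third {n k : ℕ} (h : (n : ℝ) * (π / 3) < k * (π / 3)) : n < k := by
  have := lt_of_mul_lt_mul_right h (by positivity)
  exact_mod_cast this

namespace LModel

variable {X : Type} {M : LModel X}

variable (M) in
/-- upper chain with `n` turns -/
def UC (u : X) (n : ℕ) : Prop :=
  (∀ i, i < n → (M.arc (M.L^[i] u)).φb < 2 * π / 3) ∧ 2 * π / 3 ≤ (M.arc (M.L^[n] u)).φb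

theorem UC.uniq {u : X} {n k : ℕ} (h : M.UC u n) (h' : M.UC u k) : n = k := by
  rcases lt_trichotomy n k with c | c | c
  · linarith only [h, h', c, h.2, h'.1 n c]
  · exact c
  · linarith only [c, h', h, h'.2, h.1 k c]

theorem UC.tl {u : X} {n : ℕ} (h : M.UC u n) (i : ℕ) (hi : i < n) :
    TL (M.arc (M.L^[i] u)) (M.arc (M.L^[i + 1] u)) := by
  rw [Function.iterate_succ_apply']
  exact M.TL_L (h.1 i hi)

theorem RFace.uch {u l : X} {n m : ℕ} (F : M.RFace u l n m) : M.UC u n := ⟨F.uc, F.fe.upp⟩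

theorem FBeg.low {u l : X} (h : M.FBeg u l) : 2 * π / 3 ≤ (M.arc l).φa := by
  rcases h.2 with h | h
  · linarith only [h, h.2, (M.arc u).φa_pos]
  · exact h.2.1.ge

theorem FBeg.upp {u l : X} (h : M.FBeg u l) : (M.arc u).φa ≤ π / 3 := by
  rcases h.2 with h | h
  · linarith only [h, h.2, (M.arc l).φa_lt]
  · exact h.1.le

theorem FBeg.le {u l : X} (h : M.FBeg u l) : (M.arc l).ra ≤ (M.arc u).ra := by
  rcases h.2 with h | h
  · exact h.1.le
  · exact h.2.2.1.le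

theorem FEnd.le {u l : X} (h : M.FEnd u l) : (M.arc l).rb ≤ (M.arc u).rb := by
  rcases h.2 with h | h
  · exact h.1.le
  · exact h.2.2.1.le

theorem RFace.bound {u l : X} {n m : ℕ} (F : M.RFace u l n m) :
    n + m ≤ 3 ∧ ((M.arc u).φa = π / 3 → n + m ≤ 2) ∧
      ((M.arc (M.L^[n] u)).φb = 2 * π / 3 → n + m ≤ 2) ∧
      ((M.arc u).φa = π / 3 → (M.arc (M.L^[n] u)).φb = 2 * π / 3 → n + m ≤ 1) := by
  have b := F.bd
  have p1 := (M.arc l).φa_lt
  have p2 := (M.arc (M.R^[m] l)).φb_pos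
  have key : ∀ k : ℕ, (M.arc l).φa - (M.arc u).φa -
      ((M.arc (M.R^[m] l)).φb - (M.arc (M.L^[n] u)).φb) ≤ k * (π / 3) → n + m < k := fun k hk =>
    lt_of_mul_third (by push_cast; linarith only [b, hk])
  rcases F.beg.2 with c | c <;> rcases F.fe.2 with d | d
  · have := key 4 (by push_cast; linarith only [c, d, c.2, d.2])
    exact ⟨by omega, fun e => by linarith only [p1, c, e, c.2], fun e => by linarith only [p2, d, e, d.2],
      fun e => by linarith only [p1, c, e, c.2]⟩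
  · have := key 3 (by push_cast; linarith only [c, d, c.2, d.1, d.2.1])
    exact ⟨by omega, fun _ => by omega, fun _ => by omega, fun e => by linarith only [p1, c, e, c.2]⟩
  · have := key 3 (by push_cast; linarith only [c, d, c.1, c.2.1, d.2])
    exact ⟨by omega, fun _ => by omega, fun _ => by omega, fun _ e => by linarith only [p2, d, e, d.2]⟩
  · have := key 2 (by push_cast; linarith only [c, d, c.1, c.2.1, d.1, d.2.1])
    exact ⟨by omega, fun _ => by omega, fun _ => by omega, fun _ _ => by omega⟩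

theorem RFace.bl {u l : X} {n m : ℕ} (F : M.RFace u l n m) (i : ℕ) (hi : i ≤ n) (j : ℕ)
    (hj : j ≤ m) : Bel (M.arc (M.R^[j] l)) (M.arc (M.L^[i] u)) (M.arc u).a (M.arc (M.L^[n] u)).b :=
  F.bel i hi j hj

theorem RFace.q3 {u l : X} {m : ℕ} (F : M.RFace u l 2 m) :
    Q3 (M.arc u) (M.arc (M.L^[1] u)) (M.arc (M.L^[2] u)) := by
  refine ⟨F.uch.tl 0 (by omega), F.uch.tl 1 (by omega), F.beg.upp, F.fe.upp, ?_⟩
  have hm : m = 0 ∨ m = 1 := by have := F.bound.1; omega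
  rcases hm with rfl | rfl
  · exact Or.inl ⟨M.arc l, ⟨F.beg.1, F.fe.1, F.beg.le, F.fe.le, F.beg.low, F.fe.low⟩,
      F.bl 0 (by omega) 0 le_rfl, F.bl 1 (by omega) 0 le_rfl, F.bl 2 le_rfl 0 le_rfl⟩
  · exact Or.inr (Or.inl ⟨M.arc l, M.arc (M.R^[1] l), M.TR_R (F.lc 0 (by omega)), F.beg.1, F.fe.1,
      F.beg.le, F.fe.le, F.beg.low, F.fe.low,
      F.bl 0 (by omega) 0 (by omega), F.bl 1 (by omega) 0 (by omega), F.bl 2 le_rfl 0 (by omega),
      F.bl 0 (by omega) 1 le_rfl, F.bl 1 (by omega) 1 le_rfl, F.bl 2 le_rfl 1 le_rfl⟩)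

theorem RFace.ptL {u l : X} {n m : ℕ} (F : M.RFace u l n m) (h : (M.arc u).φa ≠ π / 3) :
    (M.arc l).ra = (M.arc u).ra ∧ (M.arc l).φa = (M.arc u).φa + 2 * π / 3 :=
  F.beg.2.resolve_right fun c => h c.1

theorem RFace.ptR {u l : X} {n m : ℕ} (F : M.RFace u l n m)
    (h : (M.arc (M.L^[n] u)).φb ≠ 2 * π / 3) :
    (M.arc (M.R^[m] l)).rb = (M.arc (M.L^[n] u)).rb ∧
      (M.arc (M.L^[n] u)).φb = (M.arc (M.R^[m] l)).φb + 2 * π / 3 :=
  F.fe.2.resolve_right fun c => h c.2.1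

theorem RFace.q4 {u l : X} {m : ℕ} (F : M.RFace u l 3 m) :
    Q4 (M.arc u) (M.arc (M.L^[1] u)) (M.arc (M.L^[2] u)) (M.arc (M.L^[3] u)) ∧
      (M.arc u).φa < π / 3 ∧ 2 * π / 3 < (M.arc (M.L^[3] u)).φb := by
  obtain ⟨b1, b2, b3, -⟩ := F.bound
  obtain rfl : m = 0 := by omega
  have e1 : (M.arc u).φa ≠ π / 3 := fun e => by have := b2 e; omega
  have e2 : (M.arc (M.L^[3] u)).φb ≠ 2 * π / 3 := fun e => by have := b3 e; omega
  exact ⟨⟨F.uch.tl 0 (by omega), F.uch.tl 1 (by omega), F.uch.tl 2 (by omega),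
    Or.inl ⟨M.arc l, F.beg.1, (F.ptL e1).1, (F.ptL e1).2, F.fe.1, (F.ptR e2).1, (F.ptR e2).2,
      F.bl 0 (by omega) 0 le_rfl, F.bl 1 (by omega) 0 le_rfl, F.bl 2 (by omega) 0 le_rfl,
      F.bl 3 le_rfl 0 le_rfl⟩⟩, lt_of_le_of_ne F.beg.upp e1, lt_of_le_of_ne F.fe.upp e2.symm⟩

theorem top_top {x y : X} (h : TL (M.arc x) (M.arc y)) (tx : M.Top x) (ty : M.Top y) :
    (M.arc x).φb = π / 3 := le_antisymm (by linarith only [ty, h, ty.φa, h.2.2]) tx.φb

theorem top_non {x y : X} (h : TL (M.arc x) (M.arc y)) (tx : M.Top x) (ty : ¬ M.Top y) :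
    π / 3 < (M.arc x).φb := lt_of_le_of_ne tx.φb fun e => ty ((top_TL h e.symm).mpr tx)

theorem non_top {x y : X} (h : TL (M.arc x) (M.arc y)) (tx : ¬ M.Top x) (ty : M.Top y) :
    (M.arc x).φb < π / 3 :=
  lt_of_le_of_ne (by linarith only [ty, h, ty.φa, h.2.2]) fun e => tx ((top_TL h e).mp ty)

theorem RFace.g2a {u l : X} {m : ℕ} (F : M.RFace u l 3 m) (t1 : M.Top (M.L^[1] u))
    (t2 : M.Top (M.L^[2] u)) : ¬ M.Top u ∧ ¬ M.Top (M.L^[3] u) := by
  obtain ⟨q, e1, e2⟩ := F.q4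
  have p1 := top_top q.t12 t1 t2
  exact ⟨fun t => q.no111 e1 (top_top q.t01 t t1) p1, fun t => q.mirror.no111
    (by rw [Arc.mirror_φa]; linarith only [e2])
    (by rw [Arc.mirror_φb]; linarith only [q, t2, t, top_top q.t23 t2 t, q.t23.2.2])
    (by rw [Arc.mirror_φb]; linarith only [p1, q, q.t12.2.2])⟩

theorem RFace.g2b {u l : X} {m : ℕ} (F : M.RFace u l 2 m) (t0 : M.Top u) (t1 : M.Top (M.L^[1] u))
    (t2 : M.Top (M.L^[2] u)) :
    m = 0 ∧ (M.arc u).φa < π / 3 ∧ 2 * π / 3 < (M.arc (M.L^[2] u)).φb := by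
  obtain ⟨b1, b2, b3, b4⟩ := F.bound
  have t01 := F.uch.tl 0 (by omega)
  have t12 := F.uch.tl 1 (by omega)
  have p0 := top_top t01 t0 t1
  have p1 := top_top t12 t1 t2
  have q0 : (M.arc (M.L^[2] u)).mirror.φb = π / 3 := by
    rw [Arc.mirror_φb]; linarith only [p1, t12, t12.2.2]
  have q1 : (M.arc (M.L^[1] u)).mirror.φb = π / 3 := by
    rw [Arc.mirror_φb]; linarith only [p0, t01, t01.2.2]
  have hm : m = 0 ∨ m = 1 := by omega
  rcases hm with rfl | rfl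
  · refine ⟨rfl, lt_of_le_of_ne F.beg.upp fun e => ?_, lt_of_le_of_ne F.fe.upp fun e => ?_⟩
    · have e2 : (M.arc (M.L^[2] u)).φb ≠ 2 * π / 3 := fun e' => by have := b4 e e'; omega
      have c := F.beg.2.resolve_left fun c => by linarith only [e, c, c.2, (M.arc l).φa_lt]
      exact Tii_rad _ _ _ (M.arc l) t01 t12 e p0 p1 F.beg.1 c.2.2.1 c.2.1 F.fe.1 (F.ptR e2).1
        (F.ptR e2).2 (F.bl 0 (by omega) 0 le_rfl) (F.bl 1 (by omega) 0 le_rfl)
        (F.bl 2 le_rfl 0 le_rfl)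
    · have e2 : (M.arc u).φa ≠ π / 3 := fun e' => by have := b4 e' e.symm; omega
      have c := F.fe.2.resolve_left fun c => by linarith only [e, c, c.2, (M.arc (M.R^[0] l)).φb_pos]
      have f1 := F.fe.1
      have f2 := F.ptL e2
      simp only [Function.iterate_zero, id] at c f1
      exact Tii_rad _ _ _ (M.arc l).mirror t12.mirror t01.mirror
        (by rw [Arc.mirror_φa]; linarith only [e]) q0 q1 (by simp only [Arc.mirror_a, f1])
        (by simpa only [Arc.mirror_ra] using c.2.2.1) (by rw [Arc.mirror_φa]; linarith only [c, c.1])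
        (by simp [F.beg.1]) (by simp [f2.1]) (by simp; linarith only [f2, f2.2])
        (F.bl 2 le_rfl 0 le_rfl).mirror (F.bl 1 (by omega) 0 le_rfl).mirror
        (F.bl 0 (by omega) 0 le_rfl).mirror
  · exfalso
    have f2 := F.ptL fun e => by have := b2 e; omega
    have f3 := F.ptR fun e => by have := b3 e; omega
    have hf : TR (M.arc l) (M.arc (M.R^[1] l)) := M.TR_R (F.lc 0 (by omega))
    rcases le_total (2 * π / 3) (M.arc l).φb with c | c
    · exact Tii_two _ _ _ (M.arc l) (M.arc (M.R^[1] l)) t01 t12 hf c p0 p1 F.beg.1 f2.1 f2.2 F.fe.1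
        f3.1 f3.2 (F.bl 0 (by omega) 0 (by omega)) (F.bl 1 (by omega) 0 (by omega))
        (F.bl 2 le_rfl 0 (by omega)) (F.bl 0 (by omega) 1 le_rfl) (F.bl 1 (by omega) 1 le_rfl)
        (F.bl 2 le_rfl 1 le_rfl)
    · exact Tii_two _ _ _ (M.arc (M.R^[1] l)).mirror (M.arc l).mirror t12.mirror t01.mirror
        hf.mirror (by rw [Arc.mirror_φb]; linarith only [c, hf, hf.2.2]) q0 q1
        (by simp only [Arc.mirror_a, F.fe.1]) (by simp only [Arc.mirror_ra, f3.1])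
        (by simp only [Arc.mirror_φa]; linarith only [f3, f3.2]) (by simp [F.beg.1]) (by simp [f2.1])
        (by simp; linarith only [f2, f2.2])
        (F.bl 2 le_rfl 1 le_rfl).mirror (F.bl 1 (by omega) 1 le_rfl).mirror
        (F.bl 0 (by omega) 1 le_rfl).mirror (F.bl 2 le_rfl 0 (by omega)).mirror
        (F.bl 1 (by omega) 0 (by omega)).mirror (F.bl 0 (by omega) 0 (by omega)).mirror

theorem fbeg_split {p : X} (h1 : π / 3 < (M.arc p).φb) (h2 : (M.arc p).φb < 2 * π / 3) :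
    M.FBeg (M.R p) (M.L p) := by
  have a := M.TL_L h2
  have b := M.TR_R h1
  exact ⟨a.1.symm.trans b.1, Or.inl ⟨a.2.1.symm.trans b.2.1, by linarith only [a, b, a.2.2, b.2.2]⟩⟩

theorem Seg.fbeg {x y : X} (h : M.Seg x y) : M.FBeg (M.R y) (M.L x) := by
  obtain ⟨a1, a2, a3, a4, a5⟩ := h
  have a := M.TL_L (x := x) (by linarith only [a1, pi_pos])
  have b := M.TR_R (x := y) (by linarith only [a3, pi_pos])
  exact ⟨a.1.symm.trans (a2.symm.trans b.1), Or.inr ⟨by linarith only [a3, b, b.2.2], by linarith only [a1, a, a.2.2],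
    by linarith only [a4, a, b, a.2.1, b.2.1], by rw [← a.1, ← a.2.1, ← b.2.1]; exact a5⟩⟩

theorem oface {w : ℝ} (hw : 0 < w)
    (hO : ∀ x, Od M.arc x → ∃ y, Od M.arc y ∧ (M.arc y).b = (M.arc x).b + w) {p : X}
    (hp : Od M.arc p) : ∃ n : ℕ, M.UC (M.R p) n ∧ Od M.arc (M.L^[n] (M.R p)) ∧
      (M.arc (M.R p)).φa = π / 3 ∧ (M.arc (M.L^[n] (M.R p))).b - (M.arc (M.R p)).a ≤ w ∧
      n * (π / 3) < w + π / 3 := by
  obtain ⟨q, q1, q2⟩ := hO p hp
  have t := M.TR_R (x := p) (by linarith only [hp, hp.1, pi_pos])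
  obtain ⟨n, n1, n2, n3, n4⟩ := botChain q1 ((bot_TR t hp.1).mpr (od_iff.mp hp).1)
    (by linarith [t.1])
  exact ⟨n, ⟨n1, n2.1.ge⟩, n2, by linarith only [t, hp, t.2.2, hp.1], by linarith only [q2, n3, t, t.1],
    by linarith only [q2, n3, n4, t, hp, t.1, t.2.2, hp.1]⟩

theorem faceQ {w : ℝ} (hw : 0 < w) (hw' : w ≤ π)
    (hO : ∀ x, Od M.arc x → ∃ y, Od M.arc y ∧ (M.arc y).b = (M.arc x).b + w) {u : X}
    (hu : (M.arc u).φa ≤ π / 3) : ∃ n, M.UC u n ∧ n ≤ 3 ∧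
      (n = 2 → Q3 (M.arc u) (M.arc (M.L^[1] u)) (M.arc (M.L^[2] u))) ∧
      (n = 3 → Q4 (M.arc u) (M.arc (M.L^[1] u)) (M.arc (M.L^[2] u)) (M.arc (M.L^[3] u))) := by
  have real : ∀ l, M.FBeg u l → ∃ n, M.UC u n ∧ n ≤ 3 ∧
      (n = 2 → Q3 (M.arc u) (M.arc (M.L^[1] u)) (M.arc (M.L^[2] u))) ∧
      (n = 3 → Q4 (M.arc u) (M.arc (M.L^[1] u)) (M.arc (M.L^[2] u)) (M.arc (M.L^[3] u))) := by
    intro l hl
    obtain ⟨n, m, F⟩ := hl.face
    exact ⟨n, F.uch, by have := F.bound.1; omega, by rintro rfl; exact F.q3,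
      by rintro rfl; exact F.q4.1⟩
  obtain ⟨p, t⟩ := M.exR' u (by linarith only [hw, hw', hu, pi_pos])
  obtain rfl := M.R_eq t
  rcases hu.eq_or_lt with c | c
  · by_cases o : Od M.arc p
    · obtain ⟨n, n1, n2, n3, n4, n5⟩ := oface hw hO o
      refine ⟨n, n1, Nat.lt_succ_iff.mp (lt_of_mul_third (by push_cast; linarith only [hw', n5])), ?_, ?_⟩
      · rintro rfl
        exact ⟨n1.tl 0 (by omega), n1.tl 1 (by omega), hu, n1.2, Or.inr (Or.inr (by linarith only [hw', n4]))⟩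
      · rintro rfl
        exact ⟨n1.tl 0 (by omega), n1.tl 1 (by omega), n1.tl 2 (by omega),
          Or.inr ⟨c, n2.1, by linarith only [hw', n4]⟩⟩
    · obtain ⟨y, hy⟩ := seg_down (by linarith only [c, t, hu, t.2.2]) o
      exact real _ hy.fbeg
  · exact real _ (fbeg_split (by linarith only [t, t.2.2, (M.arc (M.R p)).φa_pos]) (by linarith only [c, t, t.2.2]))

/-- the cap of a chord -/
theorem capFace {p κ g : X} (t1 : TL (M.arc p) (M.arc κ)) (t2 : TL (M.arc κ) (M.arc g))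
    (tp : M.Top p) (tk : ¬ M.Top κ) (tg : M.Top g) :
    ∃ n, M.RFace (M.R p) κ n 0 ∧ M.Top (M.R p) ∧ M.Top (M.L^[n] (M.R p)) := by
  have a1 := top_non t1 tp tk
  have a2 := non_top t2 tk tg
  obtain rfl := M.L_eq t1
  obtain ⟨n, m, F⟩ := (fbeg_split a1 (by linarith only [t1, t1.2.2, (M.arc (M.L p)).φa_lt])).face
  obtain rfl : m = 0 := by
    by_contra hh
    have := F.lc 0 (by omega)
    simp only [Function.iterate_zero, id] at this
    linarith only [a2, this]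
  refine ⟨n, F, (top_TR (M.TR_R a1)).mpr tp, ?_⟩
  have f1 := F.fe.1
  have c := F.fe.2.resolve_right fun c => a2.ne c.1
  simp only [Function.iterate_zero, id] at f1 c
  exact (top_TR ⟨f1.symm.trans t2.1, c.1.symm.trans t2.2.1, by linarith only [c, t2, t2.2.2, c.2]⟩).mp tg

theorem capData {u κ : X} {n : ℕ} (F : M.RFace u κ n 0) (a1 : (M.arc u).φa < π / 3)
    (a2 : (M.arc κ).φb < π / 3) (ht : ∀ i, i ≤ n → M.Top (M.L^[i] u)) :
    CapA (M.arc κ) ∧ CapA (M.arc κ).mirror ∧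
      (2 ≤ n → (M.arc κ).φb ≤ π / 6 ∧ (M.arc κ).mirror.φb ≤ π / 6) := by
  have f0 := F.beg.1
  have f1 := F.fe.1
  have f2 := F.ptL a1.ne
  have c := F.fe.2.resolve_right fun c => a2.ne c.1
  have bl : ∀ i, i ≤ n → Bel (M.arc κ) (M.arc (M.L^[i] u)) (M.arc κ).a (M.arc κ).b := by
    intro i hi
    have := F.bl i hi 0 le_rfl
    rwa [← f0, ← f1] at this
  simp only [Function.iterate_zero, id] at f1 c
  have hn : n = 0 ∨ n = 1 ∨ n = 2 ∨ n = 3 := by have := F.bound.1; omega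
  rcases hn with rfl | rfl | rfl | rfl
  · simp only [Function.iterate_zero, id] at f1 c
    exact ⟨capA1 f0.symm f1.symm f2.1.symm c.1.symm f2.2 c.2 (bl 0 le_rfl),
      capA1 (g := (M.arc u).mirror) (by simp [f1]) (by simp [f0]) (by simp [c.1]) (by simp [f2.1])
        (by simp; linarith only [c, c.2]) (by simp; linarith only [f2, f2.2]) (bl 0 le_rfl).mirror,
      fun h => absurd h (by omega)⟩
  · have t := F.uch.tl 0 (by omega)
    have v := top_top t (ht 0 (by omega)) (ht 1 le_rfl)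
    refine ⟨capA2 t v f0.symm f1.symm f2.1.symm c.1.symm f2.2 c.2 (bl 0 (by omega)) (bl 1 le_rfl),
      capA2 t.mirror (by rw [Arc.mirror_φb]; linarith only [v, t, t.2.2]) (by simp only [Arc.mirror_a, f1])
        (by simp [f0]) (by simp only [Arc.mirror_ra, c.1]) (by simp [f2.1])
        (by simp only [Arc.mirror_φa]; linarith only [c, c.2]) (by simp; linarith only [f2, f2.2])
        (bl 1 le_rfl).mirror (bl 0 (by omega)).mirror,
      fun h => absurd h (by omega)⟩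
  · have t : TL (M.arc u) (M.arc (M.L^[1] u)) := F.uch.tl 0 (by omega)
    have t' : TL (M.arc (M.L^[1] u)) (M.arc (M.L^[2] u)) := F.uch.tl 1 (by omega)
    have v := top_top t (ht 0 (by omega)) (ht 1 (by omega))
    have v' := top_top t' (ht 1 (by omega)) (ht 2 le_rfl)
    have l0 := (M.arc u).hab
    have l2 := (M.arc (M.L^[2] u)).hab
    have k1 := t.1
    have k2 := t'.1
    have e1 := cap3 (g := M.arc (M.L^[1] u)) (by linarith only [v, t, t.2.2]) v' (t'.c_eq v') c.1.symm c.2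
      (by linarith only [f0, l0, k1]) (by linarith only [f1, l2, k2]) (bl 1 (by omega))
    have e2 := cap3 (κ := (M.arc κ).mirror) (g := (M.arc (M.L^[1] u)).mirror)
      (gl := (M.arc u).mirror) (by rw [Arc.mirror_φa]; linarith only [v'])
      (by rw [Arc.mirror_φb]; linarith only [v, t, t.2.2])
      (by rw [Arc.mirror_c, Arc.mirror_c]; exact (t.c_eq v).symm) (by simp [f2.1])
      (by simp; linarith only [f2, f2.2]) (by simp only [Arc.mirror_a]; linarith only [f1, l2, k2])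
      (by simp only [Arc.mirror_b]; linarith only [f0, l0, k1]) (bl 1 (by omega)).mirror
    exact ⟨fun h => absurd h (not_lt.mpr e1), fun h => absurd h (not_lt.mpr e2), fun _ => ⟨e1, e2⟩⟩
  · exact absurd (ht 0 (by omega)) (F.g2a (ht 1 (by omega)) (ht 2 (by omega))).1

theorem bt_aux {w : ℝ} (hw : 0 < w) (hw' : w ≤ π)
    (hO : ∀ x, Od M.arc x → ∃ y, Od M.arc y ∧ (M.arc y).b = (M.arc x).b + w) (k : ℕ) :
    ∀ u n, {z | (M.arc u).a ≤ (M.arc z).a ∧ (M.arc z).b ≤ (M.arc (M.L^[n] u)).b}.ncard < k →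
      (M.arc u).φa ≤ π / 3 → M.UC u n → M.Top u → M.Top (M.L^[n] u) →
      ∀ i, i ≤ n → M.Top (M.L^[i] u) := by
  induction k with
  | zero => exact fun _ _ h => absurd h (by simp)
  | succ k ih =>
    intro u n hk hu hc t0 tn
    have chord : ∀ p κ g, TL (M.arc p) (M.arc κ) → TL (M.arc κ) (M.arc g) → M.Top p → ¬ M.Top κ →
        M.Top g → (M.arc u).b ≤ (M.arc κ).a → (M.arc κ).b ≤ (M.arc (M.L^[n] u)).b →
        CapA (M.arc κ) ∧ CapA (M.arc κ).mirror := by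
      intro p κ g t1 t2 tp tk tg c1 c2
      obtain ⟨n', F, s1, s2⟩ := capFace t1 t2 tp tk tg
      have a1 := top_non t1 tp tk
      have a3 : (M.arc (M.R p)).φa < π / 3 := by
        linarith only [a1, t1, (M.TR_R a1).2.2, t1.2.2, (M.arc κ).φa_lt]
      have f0 := F.beg.1
      have f1 := F.fe.1
      simp only [Function.iterate_zero, id] at f1
      have l0 := (M.arc u).hab
      have l1 := (M.arc κ).hab
      have := capData F a3 (non_top t2 tk tg) (ih _ _ (by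
        refine lt_of_lt_of_le (ncard_lt_ncard ⟨fun z hz => ?_, fun hh => ?_⟩ ?_) (Nat.lt_succ_iff.mp hk)
        · exact ⟨by linarith only [c1, f0, l0, hz, hz.1], by linarith only [c2, f1, hz, hz.2]⟩
        · linarith only [c1, f0, l0, hh, c2, l1, (hh (show u ∈ _ from ⟨le_rfl, by linarith⟩)).1]
        · exact (M.fin (M.arc u).a (M.arc (M.L^[n] u)).b).subset fun z hz =>
            ⟨by linarith only [hz, hz.2, (M.arc z).hab], by linarith only [hz, hz.1, (M.arc z).hab]⟩)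
        a3.le F.uch s1 s2)
      exact ⟨this.1, this.2.1⟩
    obtain ⟨n', h1, h2, h3, h4⟩ := faceQ hw hw' hO hu
    obtain rfl := hc.uniq h1
    have hn : n = 0 ∨ n = 1 ∨ n = 2 ∨ n = 3 := by omega
    rcases hn with rfl | rfl | rfl | rfl
    · intro i hi
      obtain rfl : i = 0 := by omega
      exact t0
    · intro i hi
      have : i = 0 ∨ i = 1 := by omega
      rcases this with rfl | rfl
      · exact t0
      · exact tn
    · have q := h3 rfl
      have t1 : M.Top (M.L^[1] u) := by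
        by_contra t1
        obtain ⟨c1, c2⟩ := chord _ _ _ q.t01 q.t12 t0 t1 tn q.t01.1.le
          (by linarith only [q, q.t12.1, (M.arc (M.L^[2] u)).hab])
        exact q.no101 (top_non q.t01 t0 t1) (non_top q.t12 t1 tn) c1 c2
      intro i hi
      have : i = 0 ∨ i = 1 ∨ i = 2 := by omega
      rcases this with rfl | rfl | rfl
      · exact t0
      · exact t1
      · exact tn
    · have q := h4 rfl
      have k1 := q.t01.1
      have k2 := q.t12.1
      have k3 := q.t23.1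
      have l1 := (M.arc (M.L^[1] u)).hab
      have l2 := (M.arc (M.L^[2] u)).hab
      have l3 := (M.arc (M.L^[3] u)).hab
      have t12 : M.Top (M.L^[1] u) ∧ M.Top (M.L^[2] u) := by
        by_cases t1 : M.Top (M.L^[1] u) <;> by_cases t2 : M.Top (M.L^[2] u)
        · exact ⟨t1, t2⟩
        · exact (q.no1101 (top_top q.t01 t0 t1) t1.φb (non_top q.t23 t2 tn)
            (chord _ _ _ q.t12 q.t23 t1 t2 tn (by linarith only [k1, k2, l1]) (by linarith only [k3, l3])).1).elim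
        · exact (q.mirror.no1101
            (by rw [Arc.mirror_φb]; linarith only [q, t2, tn, top_top q.t23 t2 tn, q.t23.2.2])
            (by rw [Arc.mirror_φb]; linarith only [t2, t2.φa])
            (by rw [Arc.mirror_φb]; linarith only [q, t0, t1, top_non q.t01 t0 t1, q.t01.2.2])
            (chord _ _ _ q.t01 q.t12 t0 t1 t2 (by linarith only [k1]) (by linarith only [k2, k3, l2, l3])).2).elim
        · exact (q.no1001 (top_non q.t01 t0 t1) (non_top q.t23 t2 tn)).elim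
      intro i hi
      have : i = 0 ∨ i = 1 ∨ i = 2 ∨ i = 3 := by omega
      rcases this with rfl | rfl | rfl | rfl
      · exact t0
      · exact t12.1
      · exact t12.2
      · exact tn

theorem bt {w : ℝ} (hw : 0 < w) (hw' : w ≤ π)
    (hO : ∀ x, Od M.arc x → ∃ y, Od M.arc y ∧ (M.arc y).b = (M.arc x).b + w) {u : X} {n : ℕ}
    (hu : (M.arc u).φa ≤ π / 3) (hc : M.UC u n) (t0 : M.Top u) (tn : M.Top (M.L^[n] u)) :
    ∀ i, i ≤ n → M.Top (M.L^[i] u) :=
  bt_aux hw hw' hO _ u n (Nat.lt_succ_self _) hu hc t0 tn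

theorem cap_le {w : ℝ} (hw : 0 < w) (hw' : w ≤ π)
    (hO : ∀ x, Od M.arc x → ∃ y, Od M.arc y ∧ (M.arc y).b = (M.arc x).b + w) {u : X} {i n : ℕ}
    (hu : (M.arc u).φa ≤ π / 3) (hi : ∀ j, j < i → (M.arc (M.L^[j] u)).φb < 2 * π / 3)
    (tp : M.Top (M.L^[i] u)) (h1 : π / 3 < (M.arc (M.L^[i] u)).φb)
    (h2 : (M.arc (M.L^[i] u)).φb < 2 * π / 3) (h3 : (M.arc (M.L (M.L^[i] u))).φb < π / 3)
    (tg : M.Top (M.L (M.L (M.L^[i] u)))) (hc : M.UC (M.R (M.L^[i] u)) n) : n ≤ 1 := by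
  have t1 := M.TL_L h2
  have t2 := M.TL_L (x := M.L (M.L^[i] u)) (by linarith only [h1, h2, h3, pi_pos])
  have tk : ¬ M.Top (M.L (M.L^[i] u)) := fun t => by linarith only [h3, t, t.φb]
  obtain ⟨n', F, s1, s2⟩ := capFace t1 t2 tp tk tg
  obtain rfl := hc.uniq F.uch
  have a3 : (M.arc (M.R (M.L^[i] u))).φa < π / 3 := by linarith only [h2, h1, (M.TR_R h1).2.2]
  by_contra hh
  obtain ⟨e1, e2⟩ := (capData F a3 h3 (bt hw hw' hO a3.le hc s1 s2)).2.2 (by omega)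
  obtain ⟨N, h4, h5, h6, h7⟩ := faceQ hw hw' hO hu
  have i1 : i + 1 < N := by
    by_contra hN
    have h8 := h4.2
    rcases lt_trichotomy N i with c | c | c
    · linarith only [h8, hi, c, hi N c]
    · subst c; linarith only [h8, h2]
    · obtain rfl : N = i + 1 := by omega
      rw [Function.iterate_succ_apply'] at h8
      linarith only [h1, h2, h3, h8, pi_pos]
  have : (i = 0 ∧ N = 2) ∨ (i = 0 ∧ N = 3) ∨ (i = 1 ∧ N = 3) := by omega
  rcases this with ⟨rfl, rfl⟩ | ⟨rfl, rfl⟩ | ⟨rfl, rfl⟩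
  · exact tk (bt hw hw' hO hu h4 tp tg 1 (by omega))
  · have q := h7 rfl
    have := q.mirror.beta (by rw [Arc.mirror_φb]; linarith only [q, h3, q.t12.2.2, show (M.arc (M.L^[1] u)).φb < π / 3 from h3])
      (by rw [Arc.mirror_φb]; linarith only [q, h1, q.t01.2.2, show π / 3 < (M.arc u).φb from h1])
    exact absurd e2 (not_le.mpr this)
  · exact absurd e1 (not_le.mpr ((h7 rfl).beta h1.le h3))

end LModel

end Pool.Agent.Work.MP_dd6b33_gt
end

-- merged part: Pool.Agent.Work.MP_dd6b33_gt.Comb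
section
/-!
The abstract combinatorial model of the arcs of a regular shrinker.
-/

namespace Pool.Agent.Work.MP_dd6b33_gt

/-- Basic data: classes of start and end angles, left and right successors, radial segments. -/
structure CombData (X : Type) where
  ca : X → ℕ
  cb : X → ℕ
  L : X → X
  R : X → X
  up : X → X
  Top : X → Prop
  Od : X → Prop
  C : X → Prop
  nO : ℕ

namespace CombData

variable {X : Type} (K : CombData X)

/-- `u, L u, …` is an upper chain with `n` arcs -/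
def UCh (u : X) (n : ℕ) : Prop :=
  1 ≤ n ∧ (∀ i, i + 1 < n → K.cb (K.L^[i] u) ≤ 2) ∧ 3 ≤ K.cb (K.L^[n - 1] u)

/-- `l, R l, …` is a lower chain with `m` arcs -/
def LCh (l : X) (m : ℕ) : Prop :=
  1 ≤ m ∧ (∀ j, j + 1 < m → 2 ≤ K.cb (K.R^[j] l)) ∧ K.cb (K.R^[m - 1] l) ≤ 1

/-- `u` and `l` are the first upper and lower arcs of a face -/
def LEnd (u l : X) : Prop :=
  (∃ p, K.cb p = 2 ∧ K.R p = u ∧ K.L p = l) ∨
    (∃ y, K.cb y = 1 ∧ ¬ K.Top y ∧ K.L y = l ∧ K.R (K.up y) = u)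

/-- `u` and `l` are the last upper and lower arcs of a face -/
def REnd (u l : X) : Prop :=
  (K.cb l = 0 ∧ K.cb u = 4 ∧ K.L l = K.R u) ∨ (K.cb l = 1 ∧ ¬ K.Top l ∧ K.up l = u)

end CombData

/-- The hypotheses. -/
structure Comb (X : Type) extends CombData X where
  ca4 : ∀ x, ca x ≤ 4
  cb4 : ∀ x, cb x ≤ 4
  caL : ∀ x, cb x ≤ 2 → ca (L x) = cb x + 2
  caR : ∀ x, 2 ≤ cb x → ca (R x) + 2 = cb x
  injL : ∀ x y, cb x ≤ 2 → cb y ≤ 2 → L x = L y → x = y
  injR : ∀ x y, 2 ≤ cb x → 2 ≤ cb y → R x = R y → x = y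
  surL : ∀ y, 2 ≤ ca y → ∃ x, cb x ≤ 2 ∧ L x = y
  surR : ∀ y, ca y ≤ 2 → ∃ x, 2 ≤ cb x ∧ R x = y
  up3 : ∀ x, cb x = 1 → ¬ Top x → cb (up x) = 3 ∧ ¬ Od (up x)
  upinj : ∀ x y, cb x = 1 → ¬ Top x → cb y = 1 → ¬ Top y → up x = up y → x = y
  upsur : ∀ y, cb y = 3 → ¬ Od y → ∃ x, cb x = 1 ∧ ¬ Top x ∧ up x = y
  od3 : ∀ x, Od x → cb x = 3
  top1 : ∀ x, Top x → 1 ≤ cb x
  top3 : ∀ x, Top x → ca x ≤ 3
  topL : ∀ x, cb x = 1 → (Top (L x) ↔ Top x)
  topR : ∀ x, 2 ≤ cb x → (Top (R x) ↔ Top x)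
  cenb : ∀ x, C x → cb x ≤ 2
  cena : ∀ x, C x → 2 ≤ ca x
  cenL : ∀ x, cb x ≤ 2 → (C (L x) ↔ C x)
  cenO : ∀ x y, C x → ¬ Od y
  covU : ∀ x, ¬ C x → ∃ u i, ca u ≤ 1 ∧ (∀ j, j < i → cb (L^[j] u) ≤ 2) ∧ L^[i] u = x
  covL : ∀ x, ¬ Top x → ∃ l j, 3 ≤ ca l ∧ (∀ i, i < j → 2 ≤ cb (R^[i] l)) ∧ R^[j] l = x
  faceR : ∀ u l, toCombData.LEnd u l → ∃ n m, toCombData.UCh u n ∧ toCombData.LCh l m ∧
    toCombData.REnd (L^[n - 1] u) (R^[m - 1] l) ∧
    n + m + (if ca u = 1 then 1 else 0) + (if cb (L^[n - 1] u) = 3 then 1 else 0) ≤ 5 ∧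
    (n = 4 → Top (L u) → Top (L (L u)) → ¬ Top u ∧ ¬ Top (L (L (L u)))) ∧
    (n = 3 → Top u → Top (L u) → Top (L (L u)) → m = 1 ∧ ca u = 0 ∧ cb (L (L u)) = 4)
  faceO : ∀ p, Od p → ∃ n, toCombData.UCh (R p) n ∧ Od (L^[n - 1] (R p)) ∧ n ≤ nO ∧
    (n = nO → ¬ ∀ i, i < n → Top (L^[i] (R p)))
  bt : ∀ u n, ca u ≤ 1 → toCombData.UCh u n → Top u → Top (L^[n - 1] u) →
    ∀ i, i < n → Top (L^[i] u)
  cap : ∀ p n, Top p → cb p = 2 → cb (L p) = 0 → Top (L (L p)) → ¬ C p →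
    toCombData.UCh (R p) n → n ≤ 2

end Pool.Agent.Work.MP_dd6b33_gt
end

-- merged part: Pool.Agent.Work.MP_dd6b33_gt.Build
section
/-!
From the sweep model to the combinatorial model.
-/

namespace Pool.Agent.Work.MP_dd6b33_gt

open Set Real

open Classical in
/-- the class of an angle -/
noncomputable def cls (φ : ℝ) : ℕ :=
  if φ < π / 3 then 0 else if φ = π / 3 then 1 else if φ < 2 * π / 3 then 2 else
    if φ = 2 * π / 3 then 3 else 4

theorem cls_spec (φ : ℝ) : (φ < π / 3 ∧ cls φ = 0) ∨ (φ = π / 3 ∧ cls φ = 1) ∨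
    ((π / 3 < φ ∧ φ < 2 * π / 3) ∧ cls φ = 2) ∨ (φ = 2 * π / 3 ∧ cls φ = 3) ∨
    (2 * π / 3 < φ ∧ cls φ = 4) := by
  unfold cls
  split_ifs with h1 h2 h3 h4
  · exact Or.inl ⟨h1, rfl⟩
  · exact Or.inr (Or.inl ⟨h2, rfl⟩)
  · exact Or.inr (Or.inr (Or.inl ⟨⟨lt_of_le_of_ne (not_lt.mp h1) (Ne.symm h2), h3⟩, rfl⟩))
  · exact Or.inr (Or.inr (Or.inr (Or.inl ⟨h4, rfl⟩)))
  · exact Or.inr (Or.inr (Or.inr (Or.inr ⟨lt_of_le_of_ne (not_lt.mp h3) (Ne.symm h4), rfl⟩)))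

theorem cls_one_le {φ : ℝ} : 1 ≤ cls φ ↔ π / 3 ≤ φ := by
  have := pi_pos
  rcases cls_spec φ with h | h | ⟨⟨a, b⟩, c⟩ | h | h <;>
    exact ⟨fun e => by first | omega | linarith [h.1] | linarith only [a],
      fun e => by first | omega | linarith only [h, e, h.1]⟩

theorem cls_two_le {φ : ℝ} : 2 ≤ cls φ ↔ π / 3 < φ := by
  have := pi_pos
  rcases cls_spec φ with h | h | ⟨⟨a, b⟩, c⟩ | h | h <;>
    exact ⟨fun e => by first | omega | linarith only [this, h, h.1] | linarith,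
      fun e => by first | omega | linarith only [h, e, h.1]⟩

theorem cls_three_le {φ : ℝ} : 3 ≤ cls φ ↔ 2 * π / 3 ≤ φ := by
  have := pi_pos
  rcases cls_spec φ with h | h | ⟨⟨a, b⟩, c⟩ | h | h <;>
    exact ⟨fun e => by first | omega | linarith only [h, h.1],
      fun e => by first | omega | linarith [h.1] | linarith only [b, e]⟩

theorem cls_four_le {φ : ℝ} : 4 ≤ cls φ ↔ 2 * π / 3 < φ := by
  have := pi_pos
  rcases cls_spec φ with h | h | ⟨⟨a, b⟩, c⟩ | h | h <;>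
    exact ⟨fun e => by first | omega | linarith only [h, h.1],
      fun e => by first | omega | linarith [h.1] | linarith only [b, e]⟩

theorem cls_le_four (φ : ℝ) : cls φ ≤ 4 := by
  rcases cls_spec φ with h | h | h | h | h <;> omega

theorem cls_eq0 {φ : ℝ} : cls φ = 0 ↔ φ < π / 3 := by
  rw [← not_le, ← cls_one_le]; omega

theorem cls_le1 {φ : ℝ} : cls φ ≤ 1 ↔ φ ≤ π / 3 := by
  rw [← not_lt (a := π / 3), ← cls_two_le]; omega

theorem cls_le2 {φ : ℝ} : cls φ ≤ 2 ↔ φ < 2 * π / 3 := by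
  rw [← not_le (a := 2 * π / 3), ← cls_three_le]; omega

theorem cls_le3 {φ : ℝ} : cls φ ≤ 3 ↔ φ ≤ 2 * π / 3 := by
  rw [← not_lt (a := 2 * π / 3), ← cls_four_le]; omega

theorem cls_eq1 {φ : ℝ} : cls φ = 1 ↔ φ = π / 3 := by
  rw [le_antisymm_iff, le_antisymm_iff, cls_le1, cls_one_le]

theorem cls_eq2 {φ : ℝ} : cls φ = 2 ↔ φ < 2 * π / 3 ∧ π / 3 < φ := by
  rw [le_antisymm_iff, cls_le2, cls_two_le]

theorem cls_eq3 {φ : ℝ} : cls φ = 3 ↔ φ = 2 * π / 3 := by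
  rw [le_antisymm_iff, le_antisymm_iff, cls_le3, cls_three_le]

theorem cls_eq4 {φ : ℝ} : cls φ = 4 ↔ 2 * π / 3 < φ := by
  rw [← cls_four_le]; have := cls_le_four φ; omega

theorem cls_add {φ : ℝ} (h0 : 0 < φ) (h1 : φ < 2 * π / 3) : cls (φ + π / 3) = cls φ + 2 := by
  rcases cls_spec φ with h | h | h | h | h
  · rw [h.2]; exact cls_eq2.mpr ⟨by linarith only [h, h.1], by linarith only [h0]⟩
  · rw [h.2]; exact cls_eq3.mpr (by linarith only [h, h.1])
  · rw [h.2]; exact cls_eq4.mpr (by linarith only [h, h.1.1])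
  · linarith only [h1, h, h.1]
  · linarith only [h1, h, h.1]

namespace LModel

variable {X : Type} (M : LModel X)

/-- the combinatorial data -/
noncomputable def data (k : ℕ) : CombData X where
  ca := fun x => cls (M.arc x).φa
  cb := fun x => cls (M.arc x).φb
  L := M.L
  R := M.R
  up := M.upS
  Top := M.Top
  Od := Od M.arc
  C := fun x => M.Bot x ∧ ∀ y, ¬ Od M.arc y
  nO := k

variable {M}

theorem uch_iff {k : ℕ} {u : X} {n : ℕ} : (M.data k).UCh u (n + 1) ↔ M.UC u n :=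
  ⟨fun h => ⟨fun i hi => cls_le2.mp (h.2.1 i (by omega)), cls_three_le.mp h.2.2⟩,
    fun h => ⟨by omega, fun i hi => cls_le2.mpr (h.1 i (by omega)), cls_three_le.mpr h.2⟩⟩

theorem seg_of {x : X} (h1 : cls (M.arc x).φb = 1) (h2 : ¬ M.Top x) : M.Seg x (M.upS x) := by
  obtain ⟨y, hy⟩ := seg_up (cls_eq1.mp h1) h2
  rwa [hy.up_eq]

theorem faceR_aux (k : ℕ) (u l : X) (h : (M.data k).LEnd u l) : ∃ n m, (M.data k).UCh u n ∧
    (M.data k).LCh l m ∧ (M.data k).REnd (M.L^[n - 1] u) (M.R^[m - 1] l) ∧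
    n + m + (if cls (M.arc u).φa = 1 then 1 else 0) +
      (if cls (M.arc (M.L^[n - 1] u)).φb = 3 then 1 else 0) ≤ 5 ∧
    (n = 4 → M.Top (M.L u) → M.Top (M.L (M.L u)) → ¬ M.Top u ∧ ¬ M.Top (M.L (M.L (M.L u)))) ∧
    (n = 3 → M.Top u → M.Top (M.L u) → M.Top (M.L (M.L u)) →
      m = 1 ∧ cls (M.arc u).φa = 0 ∧ cls (M.arc (M.L (M.L u))).φb = 4) := by
  have hb : M.FBeg u l := by
    rcases h with ⟨p, p1, rfl, rfl⟩ | ⟨y, y1, y2, rfl, rfl⟩
    · exact fbeg_split (cls_eq2.mp p1).2 (cls_eq2.mp p1).1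
    · exact (seg_of y1 y2).fbeg
  obtain ⟨n, m, F⟩ := hb.face
  refine ⟨n + 1, m + 1, uch_iff.mpr F.uch,
    ⟨by omega, fun j hj => cls_two_le.mpr (F.lc j (by omega)), cls_le1.mpr F.fe.low⟩, ?_, ?_, ?_, ?_⟩
  · simp only [Nat.add_sub_cancel]
    obtain ⟨e, ⟨c1, c2⟩ | ⟨c1, c2, c3, c4⟩⟩ := F.fe
    · have p1 := (M.arc (M.L^[n] u)).φb_lt
      have p2 := (M.arc (M.R^[m] l)).φb_pos
      have t := M.TL_L (x := M.R^[m] l) (by linarith only [c2, p1, p2, pi_pos])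
      exact Or.inl ⟨cls_eq0.mpr (by linarith only [c2, p1]), cls_eq4.mpr (by linarith only [c2, p2]),
        (M.R_eq ⟨e.symm.trans t.1, c1.symm.trans t.2.1, by linarith only [c2, t, t.2.2]⟩).symm⟩
    · have s : M.Seg (M.R^[m] l) (M.L^[n] u) := ⟨c1, e.symm, c2, c3, c4⟩
      exact Or.inr ⟨cls_eq1.mpr c1, s.not_top, s.up_eq⟩
  · obtain ⟨b1, b2, b3, b4⟩ := F.bound
    simp only [Nat.add_sub_cancel, cls_eq1, cls_eq3]
    split_ifs with c1 c2 c2
    · have := b4 c1 c2; omega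
    · have := b2 c1; omega
    · have := b3 c2; omega
    · omega
  · intro e
    obtain rfl : n = 3 := by omega
    exact F.g2a
  · intro e t0 t1 t2
    obtain rfl : n = 2 := by omega
    obtain ⟨a1, a2, a3⟩ := F.g2b t0 t1 t2
    exact ⟨by omega, cls_eq0.mpr a2, cls_eq4.mpr a3⟩

theorem faceO_aux {w : ℝ} {k : ℕ} (hk : (w = π ∧ k = 4) ∨ (w = 2 * π / 3 ∧ k = 3))
    (hO : ∀ x, Od M.arc x → ∃ y, Od M.arc y ∧ (M.arc y).b = (M.arc x).b + w) (p : X)
    (hp : Od M.arc p) : ∃ n, (M.data k).UCh (M.R p) n ∧ Od M.arc (M.L^[n - 1] (M.R p)) ∧ n ≤ k ∧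
      (n = k → ¬ ∀ i, i < n → M.Top (M.L^[i] (M.R p))) := by
  have hw : 0 < w := by rcases hk with h | h <;> linarith only [h, h.1, pi_pos]
  obtain ⟨n, n1, n2, n3, n4, n5⟩ := oface hw hO hp
  refine ⟨n + 1, uch_iff.mpr n1, n2, ?_, fun e ht => ?_⟩
  · rcases hk with ⟨rfl, rfl⟩ | ⟨rfl, rfl⟩
    · exact lt_of_mul_third (by push_cast; linarith only [n5])
    · exact lt_of_mul_third (by push_cast; linarith only [n5])
  rcases hk with ⟨rfl, rfl⟩ | ⟨rfl, rfl⟩
  · obtain rfl : n = 3 := by omega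
    have t0 : TL (M.arc (M.R p)) (M.arc (M.L^[1] (M.R p))) := n1.tl 0 (by omega)
    have t1 : TL (M.arc (M.L^[1] (M.R p))) (M.arc (M.L^[2] (M.R p))) := n1.tl 1 (by omega)
    have t2 : TL (M.arc (M.L^[2] (M.R p))) (M.arc (M.L^[3] (M.R p))) := n1.tl 2 (by omega)
    have p0 := top_top t0 (ht 0 (by omega)) (ht 1 (by omega))
    have p1 := top_top t1 (ht 1 (by omega)) (ht 2 (by omega))
    have p2 := top_top t2 (ht 2 (by omega)) (ht 3 (by omega))
    exact Tiii_orig _ _ t0 n3.le p0 p1 (by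
      linarith only [n4, p1, p2, t1, t2, (M.arc (M.L^[2] (M.R p))).vt, (M.arc (M.L^[3] (M.R p))).hab, t1.1, t1.2.2, t2.1])
  · obtain rfl : n = 2 := by omega
    have t0 : TL (M.arc (M.R p)) (M.arc (M.L^[1] (M.R p))) := n1.tl 0 (by omega)
    have t1 : TL (M.arc (M.L^[1] (M.R p))) (M.arc (M.L^[2] (M.R p))) := n1.tl 1 (by omega)
    exact Tii_orig _ _ _ t0 t1 n3.le (top_top t0 (ht 0 (by omega)) (ht 1 (by omega)))
      (top_top t1 (ht 1 (by omega)) (ht 2 (by omega))) n1.2 n4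

theorem covU (hl : ∀ y, Od M.arc y → ∀ x, ∃ q, Od M.arc q ∧ (M.arc q).b < (M.arc x).b) {x : X}
    (h : ¬ (M.Bot x ∧ ∀ y, ¬ Od M.arc y)) : ∃ u i, (M.arc u).φa ≤ π / 3 ∧
      (∀ j, j < i → (M.arc (M.L^[j] u)).φb < 2 * π / 3) ∧ M.L^[i] u = x := by
  by_cases b : M.Bot x
  · push Not at h
    obtain ⟨y, hy⟩ := h b
    obtain ⟨q, q1, q2⟩ := hl y hy x
    exact covU2 b q1 q2
  · exact covU1 b

variable (M) in
/-- the combinatorial model -/
noncomputable def comb {w : ℝ} {k : ℕ} (hk : (w = π ∧ k = 4) ∨ (w = 2 * π / 3 ∧ k = 3))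
    (hO : ∀ x, Od M.arc x → ∃ y, Od M.arc y ∧ (M.arc y).b = (M.arc x).b + w)
    (hl : ∀ y, Od M.arc y → ∀ x, ∃ q, Od M.arc q ∧ (M.arc q).b < (M.arc x).b) : Comb X where
  toCombData := M.data k
  ca4 := fun _ => cls_le_four _
  cb4 := fun _ => cls_le_four _
  caL := fun x h => by
    have h' := cls_le2.mp h
    show cls (M.arc (M.L x)).φa = cls (M.arc x).φb + 2
    rw [(M.TL_L h').2.2, cls_add (M.arc x).φb_pos h']
  caR := fun x h => by
    have t := (M.TR_R (cls_two_le.mp h)).2.2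
    show cls (M.arc (M.R x)).φa + 2 = cls (M.arc x).φb
    rw [← cls_add (M.arc _).φa_pos (by linarith [(M.arc x).φb_lt]), t, sub_add_cancel]
  injL := fun x y hx hy e => M.TL_inj (M.TL_L (cls_le2.mp hx))
    (by have := M.TL_L (cls_le2.mp hy); rwa [← show M.L x = M.L y from e] at this)
  injR := fun x y hx hy e => M.TR_inj (M.TR_R (cls_two_le.mp hx))
    (by have := M.TR_R (cls_two_le.mp hy); rwa [← show M.R x = M.R y from e] at this)
  surL := fun y h => by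
    obtain ⟨x, t⟩ := M.exL' y (cls_two_le.mp h)
    exact ⟨x, cls_le2.mpr (by linarith [t.2.2, (M.arc y).φa_lt]), M.L_eq t⟩
  surR := fun y h => by
    obtain ⟨x, t⟩ := M.exR' y (cls_le2.mp h)
    exact ⟨x, cls_two_le.mpr (by linarith [t.2.2, (M.arc y).φa_pos]), M.R_eq t⟩
  up3 := fun _ h1 h2 => ⟨cls_eq3.mpr (seg_of h1 h2).2.2.1, (seg_of h1 h2).not_od⟩
  upinj := fun x y h1 h2 h3 h4 e => (seg_of h1 h2).inj
    (by have := seg_of h3 h4; rwa [← show M.upS x = M.upS y from e] at this)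
  upsur := fun y h1 h2 => by
    obtain ⟨x, s⟩ := seg_down (cls_eq3.mp h1) h2
    exact ⟨x, cls_eq1.mpr s.1, s.not_top, s.up_eq⟩
  od3 := fun _ h => cls_eq3.mpr h.1
  top1 := fun _ h => cls_one_le.mpr h.φb
  top3 := fun _ h => cls_le3.mpr h.φa
  topL := fun _ h => top_TL (M.TL_L (by linarith [cls_eq1.mp h, pi_pos])) (cls_eq1.mp h)
  topR := fun _ h => top_TR (M.TR_R (cls_two_le.mp h))
  cenb := fun x h => cls_le2.mpr (lt_of_le_of_ne h.1.φb fun e => h.2 x ⟨e, h.1.nbb⟩)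
  cena := fun x h => cls_two_le.mpr (lt_of_le_of_ne h.1.φa fun e => by
    obtain ⟨p, t⟩ := M.exR' x (by linarith [pi_pos])
    have e' : (M.arc p).φb = 2 * π / 3 := by linarith [t.2.2]
    exact h.2 p (od_iff.mpr ⟨(bot_TR t e').mp h.1, e'⟩))
  cenL := fun _ h => and_congr_left' (bot_TL (M.TL_L (cls_le2.mp h)))
  cenO := fun _ y h => h.2 y
  covU := fun _ h => by
    obtain ⟨u, i, a1, a2, a3⟩ := covU hl h
    exact ⟨u, i, cls_le1.mpr a1, fun j hj => cls_le2.mpr (a2 j hj), a3⟩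
  covL := fun _ h => by
    obtain ⟨u, i, a1, a2, a3⟩ := covL h
    exact ⟨u, i, cls_three_le.mpr a1, fun j hj => cls_two_le.mpr (a2 j hj), a3⟩
  faceR := faceR_aux k
  faceO := faceO_aux hk hO
  bt := fun u n hu hc t0 tn i hi => by
    obtain ⟨n, rfl⟩ := Nat.exists_eq_add_of_le' hc.1
    exact bt (w := w) (by rcases hk with h | h <;> linarith [h.1, pi_pos])
      (by rcases hk with h | h <;> linarith [h.1, pi_pos]) hO (cls_le1.mp hu) (uch_iff.mp hc) t0 tn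
      i (by omega)
  cap := fun p n tp h1 h2 tg hC hc => by
    obtain ⟨n, rfl⟩ := Nat.exists_eq_add_of_le' hc.1
    obtain ⟨u, i, a1, a2, rfl⟩ := covU hl hC
    have := cap_le (w := w) (by rcases hk with h | h <;> linarith [h.1, pi_pos])
      (by rcases hk with h | h <;> linarith [h.1, pi_pos]) hO a1 a2 tp (cls_eq2.mp h1).2
      (cls_eq2.mp h1).1 (cls_eq0.mp h2) tg (uch_iff.mp hc)
    omega

end LModel

end Pool.Agent.Work.MP_dd6b33_gt
end

-- merged part: Pool.Agent.Work.MP_dd6b33_gt.CountBasic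
section
/-!
Counting tools and the chains of the faces of the combinatorial model.
-/

namespace Pool.Agent.Work.MP_dd6b33_gt

open Finset

namespace CountAux

open Classical in
/-- indicator of a proposition -/
noncomputable def ind (p : Prop) : ℕ := if p then 1 else 0

lemma ind_pos {p : Prop} (h : p) : ind p = 1 := by simp [ind, h]
lemma ind_neg {p : Prop} (h : ¬ p) : ind p = 0 := by simp [ind, h]
lemma ind_le (p : Prop) : ind p ≤ 1 := by
  by_cases h : p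
  · rw [ind_pos h]
  · rw [ind_neg h]; omega
lemma ind_mono {p q : Prop} (h : p → q) : ind p ≤ ind q := by
  by_cases hp : p
  · rw [ind_pos hp, ind_pos (h hp)]
  · rw [ind_neg hp]; omega
lemma ind_ite (p : Prop) [Decidable p] : (if p then 1 else 0) = ind p := by
  by_cases h : p
  · rw [ind_pos h, if_pos h]
  · rw [ind_neg h, if_neg h]

section cnt

variable {E : Type} [Fintype E]

/-- number of points with a property -/
noncomputable def cnt (P : E → Prop) : ℕ := ∑ x, ind (P x)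

open Classical in
lemma cnt_eq_card (P : E → Prop) : cnt P = (univ.filter P).card := by
  rw [card_filter, cnt]
  exact sum_congr rfl (fun x _ => (ind_ite _).symm)

lemma cnt_eq_ncard (P : E → Prop) : cnt P = {x | P x}.ncard := by
  classical
  rw [cnt_eq_card, ← Set.ncard_coe_finset]
  congr 1
  ext x
  simp

lemma cnt_rel {P Q : E → Prop} (r : E → E → Prop) (h1 : ∀ x, P x → ∃ y, Q y ∧ r x y)
    (h2 : ∀ x x' y, P x → P x' → Q y → r x y → r x' y → x = x') : cnt P ≤ cnt Q := by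
  classical
  rw [cnt_eq_card, cnt_eq_card]
  choose! f hf using h1
  refine card_le_card_of_injOn f ?_ ?_
  · intro x hx
    simp only [coe_filter, mem_univ, true_and, Set.mem_ofPred_eq] at hx ⊢
    exact (hf x hx).1
  · intro x hx x' hx' hxx
    simp only [coe_filter, mem_univ, true_and, Set.mem_ofPred_eq] at hx hx'
    exact h2 x x' (f x) hx hx' (hf x hx).1 (hf x hx).2 (hxx ▸ (hf x' hx').2)

lemma cnt_bij {P Q : E → Prop} (f : E → E) (h1 : ∀ x, P x → Q (f x))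
    (h2 : ∀ x x', P x → P x' → f x = f x' → x = x') (h3 : ∀ y, Q y → ∃ x, P x ∧ f x = y) :
    cnt P = cnt Q := by
  apply le_antisymm
  · exact cnt_rel (fun x y => f x = y) (fun x hx => ⟨f x, h1 x hx, rfl⟩)
      (fun x x' y hx hx' _ e e' => h2 x x' hx hx' (e.trans e'.symm))
  · exact cnt_rel (fun y x => f x = y) h3 (fun y y' x _ _ _ e e' => e.symm.trans e')

lemma cnt_pos {P : E → Prop} (h : 0 < cnt P) : ∃ x, P x := by
  by_contra hc
  push Not at hc
  have : cnt P = 0 := sum_eq_zero (fun x _ => ind_neg (hc x))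
  omega

lemma cnt_zero {P : E → Prop} (h : cnt P = 0) (x : E) : ¬ P x := by
  intro hx
  have h1 : ind (P x) ≤ cnt P :=
    single_le_sum (f := fun x => ind (P x)) (fun _ _ => Nat.zero_le _) (mem_univ x)
  rw [ind_pos hx] at h1
  omega

lemma cnt_eq_zero {P : E → Prop} (h : ∀ x, ¬ P x) : cnt P = 0 :=
  sum_eq_zero (fun x _ => ind_neg (h x))

lemma cnt_split (P Q : E → Prop) :
    cnt P = cnt (fun x => P x ∧ Q x) + cnt (fun x => P x ∧ ¬ Q x) := by
  simp only [cnt, ← sum_add_distrib]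
  refine sum_congr rfl (fun x _ => ?_)
  by_cases hp : P x <;> by_cases hq : Q x <;> simp [ind, hp, hq]

lemma cnt_mono {P Q : E → Prop} (h : ∀ x, P x → Q x) : cnt P ≤ cnt Q :=
  sum_le_sum (fun x _ => ind_mono (h x))

lemma cnt_congr {P Q : E → Prop} (h : ∀ x, P x ↔ Q x) : cnt P = cnt Q :=
  le_antisymm (cnt_mono fun x => (h x).1) (cnt_mono fun x => (h x).2)

lemma cnt_lt {P Q : E → Prop} (h : ∀ x, P x → Q x) (y : E) (hq : Q y) (hp : ¬ P y) :
    cnt P < cnt Q := by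
  refine sum_lt_sum (fun x _ => ind_mono (h x)) ⟨y, mem_univ y, ?_⟩
  rw [ind_pos hq, ind_neg hp]
  omega

end cnt

variable {E : Type} (K : Comb E)

/-- top arcs that start at a junction which is not the foot of a ray -/
def PS (x : E) : Prop := K.Top x ∧ K.ca x ≤ 2

/-- start of a chord -/
def Ch (p : E) : Prop := K.Top p ∧ K.cb p = 2 ∧ K.cb (K.L p) = 0 ∧ K.Top (K.L (K.L p))

/-- faces at the origin -/
def Orig (u : E) : Prop := ∃ p, K.Od p ∧ K.R p = u

variable {K}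

lemma uch_unique {u : E} {n n' : ℕ} (h : K.UCh u n) (h' : K.UCh u n') : n = n' := by
  obtain ⟨a1, a2, a3⟩ := h
  obtain ⟨b1, b2, b3⟩ := h'
  rcases lt_trichotomy n n' with hlt | hlt | hlt
  · have := b2 (n - 1) (by omega); omega
  · exact hlt
  · have := a2 (n' - 1) (by omega); omega

lemma lch_unique {l : E} {m m' : ℕ} (h : K.LCh l m) (h' : K.LCh l m') : m = m' := by
  obtain ⟨a1, a2, a3⟩ := h
  obtain ⟨b1, b2, b3⟩ := h'
  rcases lt_trichotomy m m' with hlt | hlt | hlt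
  · have := b2 (m - 1) (by omega); omega
  · exact hlt
  · have := a2 (m' - 1) (by omega); omega

lemma lend_unique {u l l' : E} (h : K.LEnd u l) (h' : K.LEnd u l') : l = l' := by
  rcases h with ⟨p, p1, p2, p3⟩ | ⟨y, y1, y2, y3, y4⟩ <;>
    rcases h' with ⟨q, q1, q2, q3⟩ | ⟨z, z1, z2, z3, z4⟩
  · have := K.injR p q (by omega) (by omega) (p2.trans q2.symm)
    rw [← p3, ← q3, this]
  · have h3 := (K.up3 z z1 z2).1
    have := K.injR p (K.up z) (by omega) (by omega) (p2.trans z4.symm)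
    rw [← this] at h3; omega
  · have h3 := (K.up3 y y1 y2).1
    have := K.injR q (K.up y) (by omega) (by omega) (q2.trans y4.symm)
    rw [← this] at h3; omega
  · have h3 := (K.up3 y y1 y2).1
    have h4 := (K.up3 z z1 z2).1
    have := K.injR (K.up y) (K.up z) (by omega) (by omega) (y4.trans z4.symm)
    have := K.upinj y z y1 y2 z1 z2 this
    rw [← y3, ← z3, this]

lemma lend_ca {u l : E} (h : K.LEnd u l) : K.ca u ≤ 1 := by
  rcases h with ⟨p, p1, p2, p3⟩ | ⟨y, y1, y2, y3, y4⟩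
  · have := K.caR p (by omega); rw [p2] at this; omega
  · have h3 := (K.up3 y y1 y2).1
    have := K.caR (K.up y) (by omega); rw [y4] at this; omega

lemma lend_not_orig {u l : E} (h : K.LEnd u l) : ¬ Orig K u := by
  rintro ⟨q, q1, q2⟩
  have q3 := K.od3 q q1
  rcases h with ⟨p, p1, p2, p3⟩ | ⟨y, y1, y2, y3, y4⟩
  · have := K.injR p q (by omega) (by omega) (p2.trans q2.symm)
    rw [this] at p1; omega
  · have h3 := K.up3 y y1 y2
    have := K.injR (K.up y) q (by omega) (by omega) (y4.trans q2.symm)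
    rw [this] at h3; exact h3.2 q1

lemma face_cases {u : E} (h : K.ca u ≤ 1) : Orig K u ∨ ∃ l, K.LEnd u l := by
  obtain ⟨p, p1, p2⟩ := K.surR u (by omega)
  have h1 := K.caR p p1
  rw [p2] at h1
  by_cases h2 : K.cb p = 2
  · exact Or.inr ⟨K.L p, Or.inl ⟨p, h2, p2, rfl⟩⟩
  · by_cases ho : K.Od p
    · exact Or.inl ⟨p, ho, p2⟩
    · obtain ⟨y, y1, y2, y3⟩ := K.upsur p (by omega) ho
      exact Or.inr ⟨K.L y, Or.inr ⟨y, y1, y2, rfl, by rw [y3, p2]⟩⟩

variable (K)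

/-- length of the upper chain -/
noncomputable def nn (u : E) : ℕ := sInf {n | K.UCh u n}

/-- length of the lower chain -/
noncomputable def mm (u : E) : ℕ := sInf {m | ∃ l, K.LEnd u l ∧ K.LCh l m}

open Classical in
/-- first lower arc -/
noncomputable def ll (u : E) : E := if h : ∃ l, K.LEnd u l then h.choose else u

variable {K}

lemma nn_eq {u : E} {n : ℕ} (h : K.UCh u n) : nn K u = n :=
  uch_unique (Nat.sInf_mem (s := {n | K.UCh u n}) ⟨n, h⟩) h

lemma mm_eq {u l : E} {m : ℕ} (h : K.LEnd u l) (h' : K.LCh l m) : mm K u = m := by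
  obtain ⟨l', a, b⟩ := Nat.sInf_mem (s := {m | ∃ l, K.LEnd u l ∧ K.LCh l m}) ⟨m, l, h, h'⟩
  rw [lend_unique a h] at b
  exact lch_unique b h'

lemma mm_orig {u : E} (h : Orig K u) : mm K u = 0 := by
  have : {m | ∃ l, K.LEnd u l ∧ K.LCh l m} = ∅ := by
    ext m
    simp only [Set.mem_ofPred_eq, Set.mem_empty_iff_false, iff_false]
    rintro ⟨l, a, _⟩
    exact lend_not_orig a h
  rw [mm, this, Nat.sInf_empty]

lemma ll_eq {u l : E} (h : K.LEnd u l) : ll K u = l := by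
  have h1 : ∃ l, K.LEnd u l := ⟨l, h⟩
  rw [ll, dif_pos h1]
  exact lend_unique h1.choose_spec h

lemma face_uch (hO : K.nO ≤ 4) {u : E} (h : K.ca u ≤ 1) : K.UCh u (nn K u) ∧ nn K u ≤ 4 := by
  rcases face_cases h with ⟨p, p1, p2⟩ | ⟨l, hl⟩
  · obtain ⟨n, a, _, b, _⟩ := K.faceO p p1
    rw [p2] at a
    rw [nn_eq a]
    exact ⟨a, by omega⟩
  · obtain ⟨n, m, a, b, _, c, _⟩ := K.faceR u l hl
    rw [nn_eq a]
    have := b.1
    exact ⟨a, by omega⟩

lemma chain_notC {u : E} (h : K.ca u ≤ 1) (i : ℕ) (hi : ∀ j, j < i → K.cb (K.L^[j] u) ≤ 2) :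
    ¬ K.C (K.L^[i] u) := by
  induction i with
  | zero => intro hc; have := K.cena _ hc; simp only [Function.iterate_zero, id] at this; omega
  | succ i ih =>
    rw [Function.iterate_succ_apply', K.cenL _ (hi i (by omega))]
    exact ih (fun j hj => hi j (by omega))

lemma chain_disj {u u' : E} (h : K.ca u ≤ 1) (h' : K.ca u' ≤ 1) (i i' : ℕ)
    (hi : ∀ j, j < i → K.cb (K.L^[j] u) ≤ 2) (hi' : ∀ j, j < i' → K.cb (K.L^[j] u') ≤ 2)
    (e : K.L^[i] u = K.L^[i'] u') : u = u' := by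
  induction i generalizing i' with
  | zero =>
    cases i' with
    | zero => exact e
    | succ i' =>
      rw [Function.iterate_succ_apply'] at e
      have := K.caL _ (hi' i' (by omega))
      rw [← e] at this
      simp only [Function.iterate_zero, id] at this
      omega
  | succ i ih =>
    cases i' with
    | zero =>
      rw [Function.iterate_succ_apply'] at e
      have := K.caL _ (hi i (by omega))
      rw [e] at this
      simp only [Function.iterate_zero, id] at this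
      omega
    | succ i' =>
      rw [Function.iterate_succ_apply', Function.iterate_succ_apply'] at e
      exact ih i' (fun j hj => hi j (by omega)) (fun j hj => hi' j (by omega))
        (K.injL _ _ (hi i (by omega)) (hi' i' (by omega)) e)

lemma lt_of_uch {u : E} {n i : ℕ} (h : K.UCh u n) (hi : ∀ j, j < i → K.cb (K.L^[j] u) ≤ 2) :
    i < n := by
  obtain ⟨a1, _, a3⟩ := h
  by_contra hc
  have := hi (n - 1) (by omega)
  omega

lemma lt_of_lch {l : E} {m i : ℕ} (h : K.LCh l m) (hi : ∀ j, j < i → 2 ≤ K.cb (K.R^[j] l)) :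
    i < m := by
  obtain ⟨a1, _, a3⟩ := h
  by_contra hc
  have := hi (m - 1) (by omega)
  omega

lemma low_top {l : E} (j : ℕ) (hj : ∀ i, i < j → 2 ≤ K.cb (K.R^[i] l)) (h : K.Top l) :
    K.Top (K.R^[j] l) := by
  induction j with
  | zero => exact h
  | succ j ih =>
    rw [Function.iterate_succ_apply', K.topR _ (hj j (by omega))]
    exact ih (fun i hi => hj i (by omega))

section cover

variable [Fintype E]

variable (K) in
/-- the faces -/
def FF : Finset E := univ.filter (fun u => K.ca u ≤ 1)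

lemma mem_FF {u : E} : u ∈ FF K ↔ K.ca u ≤ 1 := by simp [FF]

lemma sum_FF (P : E → Prop) : ∑ u ∈ FF K, ind (P u) = cnt (fun u => K.ca u ≤ 1 ∧ P u) := by
  rw [FF, sum_filter, cnt]
  refine sum_congr rfl (fun x _ => ?_)
  by_cases hp : K.ca x ≤ 1
  · rw [if_pos hp]
    exact le_antisymm (ind_mono fun h => ⟨hp, h⟩) (ind_mono fun h => h.2)
  · rw [if_neg hp, ind_neg (fun h => hp h.1)]

lemma card_FF : (FF K).card = cnt (fun u => K.ca u ≤ 1) := by
  rw [FF, card_filter, cnt]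
  exact sum_congr rfl (fun x _ => ind_ite _)

lemma cover_up (hO : K.nO ≤ 4) (P : E → Prop) (hP : ∀ x, P x → ¬ K.C x) :
    cnt P ≤ ∑ u ∈ FF K, ∑ i ∈ range (nn K u), ind (P (K.L^[i] u)) := by
  classical
  rw [cnt_eq_card]
  have hsub : univ.filter P ⊆ (FF K).biUnion (fun u =>
      ((range (nn K u)).filter (fun i => P (K.L^[i] u))).image (fun i => K.L^[i] u)) := by
    intro x hx
    have hx' : P x := (mem_filter.1 hx).2
    obtain ⟨u, i, a, b, c⟩ := K.covU x (hP x hx')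
    refine mem_biUnion.2 ⟨u, mem_FF.2 a, mem_image.2 ⟨i, mem_filter.2 ⟨mem_range.2 ?_, ?_⟩, c⟩⟩
    · exact lt_of_uch (face_uch hO a).1 b
    · rw [c]; exact hx'
  refine le_trans (le_of_eq ?_) ((card_le_card hsub).trans (card_biUnion_le.trans
    (sum_le_sum (fun u _ => card_image_le.trans (le_of_eq ?_)))))
  · congr
  · rw [card_filter]
    exact sum_congr rfl (fun x _ => ind_ite _)

lemma cover_low : cnt (fun x => ¬ K.Top x) ≤ ∑ u ∈ FF K, mm K u := by
  classical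
  rw [cnt_eq_card]
  have hsub : univ.filter (fun x => ¬ K.Top x) ⊆ (FF K).biUnion (fun u =>
      (range (mm K u)).image (fun i => K.R^[i] (ll K u))) := by
    intro x hx
    have hx' : ¬ K.Top x := (mem_filter.1 hx).2
    obtain ⟨l, j, a, b, c⟩ := K.covL x hx'
    have hl : ¬ K.Top l := fun h => hx' (c ▸ low_top j b h)
    obtain ⟨y, y1, y2⟩ := K.surL l (by omega)
    have y3 := K.caL y y1
    rw [y2] at y3
    have : ∃ u, K.LEnd u l := by
      by_cases h2 : K.cb y = 2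
      · exact ⟨K.R y, Or.inl ⟨y, h2, rfl, y2⟩⟩
      · have h1 : K.cb y = 1 := by omega
        refine ⟨K.R (K.up y), Or.inr ⟨y, h1, ?_, y2, rfl⟩⟩
        rw [← K.topL y h1, y2]; exact hl
    obtain ⟨u, hu⟩ := this
    obtain ⟨n, m, _, hm, _⟩ := K.faceR u l hu
    refine mem_biUnion.2 ⟨u, mem_FF.2 (lend_ca hu), mem_image.2 ⟨j, mem_range.2 ?_, ?_⟩⟩
    · rw [mm_eq hu hm]; exact lt_of_lch hm b
    · rw [ll_eq hu]; exact c
  refine le_trans (le_of_eq ?_) ((card_le_card hsub).trans (card_biUnion_le.trans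
    (sum_le_sum (fun u _ => card_image_le.trans (le_of_eq ?_)))))
  · congr
  · rw [card_range]

end cover

end CountAux

end Pool.Agent.Work.MP_dd6b33_gt
end

-- merged part: Pool.Agent.Work.MP_dd6b33_gt.CountFace
section
/-!
The local inequality for one face.
-/

namespace Pool.Agent.Work.MP_dd6b33_gt

open Finset

namespace CountAux

variable {E : Type} (K : Comb E)

/-- number of arcs of type `PS` in the upper chain -/
noncomputable def tt (u : E) : ℕ := ∑ i ∈ range (nn K u), ind (PS K (K.L^[i] u))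

/-- number of radial sides -/
noncomputable def rho (u : E) : ℕ := ind (K.ca u = 1) + ind (K.cb (K.L^[nn K u - 1] u) = 3)

/-- the bound -/
noncomputable def beta (u : E) : ℕ := 6 + (K.nO - 3) * ind (Orig K u)

/-- the chain contains a chord -/
def Bad (u : E) : Prop := ∃ i, i + 1 < nn K u ∧ Ch K (K.L^[i] u)

/-- cap of a non-central chord -/
def CapN (u : E) : Prop := ∃ p, Ch K p ∧ ¬ K.C p ∧ K.R p = u

/-- cap of a central chord -/
def CapC (u : E) : Prop := ∃ p, Ch K p ∧ K.C p ∧ K.R p = u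

variable {K}

lemma adj {x : E} (h : K.cb x ≤ 2) (ht : K.Top x) : ¬ PS K (K.L x) := by
  intro h2
  have := K.caL x h
  have := K.top1 x ht
  have := h2.2
  omega

lemma chord {x : E} (ht : K.Top x) (h : K.cb x ≤ 2) (h' : K.cb (K.L x) ≤ 2)
    (hp : PS K (K.L (K.L x))) : Ch K x := by
  have h1 := K.caL _ h'
  have h2 := hp.2
  have h3 : K.cb (K.L x) = 0 := by omega
  refine ⟨ht, ?_, h3, hp.1⟩
  by_contra h4
  have h5 := K.top1 x ht
  have h6 := (K.topL x (by omega)).2 ht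
  have := K.top1 _ h6
  omega

/-- between two top arcs there is a top arc unless there is a chord -/
lemma mid_top {x : E} (ht : K.Top x) (h : K.cb x ≤ 2) (h' : K.cb (K.L x) ≤ 2)
    (hp : K.Top (K.L (K.L x))) (hc : ¬ Ch K x) : K.Top (K.L x) := by
  have h1 := K.caL _ h'
  have h2 := K.top3 _ hp
  by_cases h3 : K.cb (K.L x) = 1
  · exact (K.topL _ h3).1 hp
  · exact absurd (chord ht h h' ⟨hp, by omega⟩) hc

lemma mu0_le (hO : 3 ≤ K.nO) {u : E} (h : K.ca u ≤ 1) :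
    nn K u + mm K u + rho K u + 1 ≤ beta K u := by
  rcases face_cases h with ⟨p, p1, p2⟩ | ⟨l, hl⟩
  · have ho : Orig K u := ⟨p, p1, p2⟩
    obtain ⟨n, a, _, b, _⟩ := K.faceO p p1
    rw [p2] at a
    have r1 := ind_le (K.ca u = 1)
    have r2 := ind_le (K.cb (K.L^[nn K u - 1] u) = 3)
    rw [beta, ind_pos ho, mm_orig ho, rho]
    have := nn_eq a
    omega
  · obtain ⟨n, m, a, b, _, c, _⟩ := K.faceR u l hl
    rw [beta, ind_neg (lend_not_orig hl), rho, nn_eq a, mm_eq hl b]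
    rw [ind_ite, ind_ite] at c
    omega

lemma tt_le (hO : K.nO ≤ 4) {u : E} (h : K.ca u ≤ 1) : tt K u ≤ 1 + ind (Bad K u) := by
  obtain ⟨hu, a4⟩ := face_uch hO h
  obtain ⟨a1, a2, a3⟩ := id hu
  have hb := K.bt u _ h hu
  have b0 : 1 < nn K u → Ch K u → Bad K u := fun e c => ⟨0, e, c⟩
  have b1 : 2 < nn K u → Ch K (K.L u) → Bad K u := fun e c => ⟨1, e, c⟩
  rw [tt]
  generalize nn K u = n at *
  have i0 := ind_le (PS K u)
  have i1 := ind_le (PS K (K.L u))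
  have i2 := ind_le (PS K (K.L (K.L u)))
  have i3 := ind_le (PS K (K.L (K.L (K.L u))))
  interval_cases n
  · simp only [sum_range_succ, sum_range_zero]
    change 0 + ind (PS K u) ≤ _
    omega
  · simp only [sum_range_succ, sum_range_zero]
    change 0 + ind (PS K u) + ind (PS K (K.L u)) ≤ _
    have c0 : K.cb u ≤ 2 := a2 0 (by omega)
    by_cases p0 : PS K u
    · rw [ind_neg (adj c0 p0.1)]; omega
    · rw [ind_neg p0]; omega
  · simp only [sum_range_succ, sum_range_zero]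
    change 0 + ind (PS K u) + ind (PS K (K.L u)) + ind (PS K (K.L (K.L u))) ≤ _
    have c0 : K.cb u ≤ 2 := a2 0 (by omega)
    have c1 : K.cb (K.L u) ≤ 2 := a2 1 (by omega)
    by_cases p1 : PS K (K.L u)
    · rw [ind_neg (adj c1 p1.1), ind_neg (fun p0 : PS K u => adj c0 p0.1 p1)]; omega
    · rw [ind_neg p1]
      by_cases p0 : PS K u
      · by_cases p2 : PS K (K.L (K.L u))
        · rw [ind_pos (b0 (by omega) (chord p0.1 c0 c1 p2))]; omega
        · rw [ind_neg p2]; omega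
      · rw [ind_neg p0]; omega
  · simp only [sum_range_succ, sum_range_zero]
    change 0 + ind (PS K u) + ind (PS K (K.L u)) + ind (PS K (K.L (K.L u))) +
      ind (PS K (K.L (K.L (K.L u)))) ≤ _
    have c0 : K.cb u ≤ 2 := a2 0 (by omega)
    have c1 : K.cb (K.L u) ≤ 2 := a2 1 (by omega)
    have c2 : K.cb (K.L (K.L u)) ≤ 2 := a2 2 (by omega)
    by_cases p1 : PS K (K.L u)
    · rw [ind_neg (adj c1 p1.1), ind_neg (fun p0 : PS K u => adj c0 p0.1 p1)]
      by_cases p3 : PS K (K.L (K.L (K.L u)))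
      · rw [ind_pos (b1 (by omega) (chord p1.1 c1 c2 p3))]; omega
      · rw [ind_neg p3]; omega
    · rw [ind_neg p1]
      by_cases p2 : PS K (K.L (K.L u))
      · rw [ind_neg (adj c2 p2.1)]
        by_cases p0 : PS K u
        · rw [ind_pos (b0 (by omega) (chord p0.1 c0 c1 p2))]; omega
        · rw [ind_neg p0]; omega
      · rw [ind_neg p2]
        by_cases p0 : PS K u
        · by_cases p3 : PS K (K.L (K.L (K.L u)))
          · have : K.Top (K.L (K.L u)) := hb p0.1 p3.1 2 (by omega)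
            exact absurd p3 (adj c2 this)
          · rw [ind_neg p3]; omega
        · rw [ind_neg p0]; omega

lemma tt_top {u : E} {n : ℕ} (hu : K.UCh u n) (h : ∀ i, i < n → K.Top (K.L^[i] u)) :
    tt K u ≤ 1 := by
  rw [tt, nn_eq hu]
  obtain ⟨a1, a2, _⟩ := hu
  obtain ⟨k, rfl⟩ : ∃ k, n = k + 1 := ⟨n - 1, by omega⟩
  rw [sum_range_succ']
  have : ∑ i ∈ range k, ind (PS K (K.L^[i + 1] u)) = 0 := by
    refine sum_eq_zero (fun i hi => ind_neg ?_)
    have hi' := mem_range.1 hi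
    rw [Function.iterate_succ_apply']
    exact adj (a2 i (by omega)) (h i (by omega))
  have := ind_le (PS K (K.L^[0] u))
  omega

/-- a face whose first lower arc ends in class zero -/
lemma face_zero {u l : E} {n m : ℕ} (hm : K.LCh l m) (h0 : K.cb l ≤ 1)
    (hr : K.REnd (K.L^[n - 1] u) (K.R^[m - 1] l)) : m = 1 ∧ K.REnd (K.L^[n - 1] u) l := by
  have : m = 1 := lch_unique hm ⟨le_rfl, fun j hj => by omega, h0⟩
  subst this
  exact ⟨rfl, hr⟩

lemma cap_le {p : E} (hp : Ch K p) :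
    nn K (K.R p) + mm K (K.R p) + rho K (K.R p) + tt K (K.R p) + 1 + ind (¬ K.C p)
      ≤ beta K (K.R p) := by
  obtain ⟨p1, p2, p3, p4⟩ := hp
  have hl : K.LEnd (K.R p) (K.L p) := Or.inl ⟨p, p2, rfl, rfl⟩
  obtain ⟨n, m, a, b, r, c, d, _⟩ := K.faceR _ _ hl
  obtain ⟨rfl, r'⟩ := face_zero b (by omega) r
  have hca := K.caR p (by omega)
  have ht0 : K.Top (K.R p) := (K.topR p (by omega)).2 p1
  rcases r' with ⟨_, r2, r3⟩ | ⟨r1, _⟩
  · have hlast : K.Top (K.L^[n - 1] (K.R p)) := by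
      rw [← K.topR _ (by omega), ← r3]; exact p4
    have hall := K.bt _ _ (by omega) a ht0 hlast
    have h1 := tt_top a hall
    have h2 : n ≠ 4 := by
      rintro rfl
      exact (d rfl (hall 1 (by omega)) (hall 2 (by omega))).1 ht0
    have h3 := K.cap p n p1 p2 p3 p4
    rw [beta, rho, nn_eq a, mm_eq hl b, ind_neg (show ¬ K.ca (K.R p) = 1 by omega),
      ind_neg (show ¬ K.cb (K.L^[n - 1] (K.R p)) = 3 by omega)]
    by_cases hc : K.C p
    · rw [ind_neg (not_not.2 hc)]; omega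
    · have := h3 hc a
      rw [ind_pos hc]; omega
  · omega

lemma local_le (hO : 3 ≤ K.nO) (hO' : K.nO ≤ 4) {u : E} (h : K.ca u ≤ 1) :
    nn K u + mm K u + rho K u + tt K u + 2 * ind (CapN K u) + ind (CapC K u)
      ≤ beta K u + ind (Bad K u) := by
  by_cases hN : CapN K u
  · obtain ⟨p, p1, p2, rfl⟩ := id hN
    have hC : ¬ CapC K (K.R p) := by
      rintro ⟨q, q1, q2, q3⟩
      have := K.injR q p (by have := q1.2.1; omega) (by have := p1.2.1; omega) q3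
      exact p2 (this ▸ q2)
    have := cap_le p1
    rw [ind_pos p2] at this
    rw [ind_pos hN, ind_neg hC]
    omega
  · by_cases hC : CapC K u
    · obtain ⟨p, p1, p2, rfl⟩ := id hC
      have := cap_le p1
      rw [ind_neg hN, ind_pos hC]
      omega
    · have := mu0_le hO h
      have := tt_le hO' h
      rw [ind_neg hN, ind_neg hC]
      omega

end CountAux

end Pool.Agent.Work.MP_dd6b33_gt
end

-- merged part: Pool.Agent.Work.MP_dd6b33_gt.CountInj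
section
/-!
The pigeonhole argument in the tight case.
-/

namespace Pool.Agent.Work.MP_dd6b33_gt

open Finset

namespace CountAux

variable {E : Type} {K : Comb E}

/-- the tight case -/
structure Tight (K : Comb E) : Prop where
  hO : K.nO ≤ 4
  ch : ∀ p, Ch K p → K.C p
  five : ∀ u, K.ca u ≤ 1 → ¬ CapC K u → ¬ Orig K u → nn K u + mm K u + rho K u = 5

lemma Tight.face (T : Tight K) {u l : E} (hl : K.LEnd u l) (hc : ¬ CapC K u) :
    ∃ n m, K.UCh u n ∧ K.LCh l m ∧ K.REnd (K.L^[n - 1] u) (K.R^[m - 1] l) ∧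
      n + m + ind (K.ca u = 1) + ind (K.cb (K.L^[n - 1] u) = 3) = 5 ∧
      (n = 4 → K.Top (K.L u) → K.Top (K.L (K.L u)) →
        ¬ K.Top u ∧ ¬ K.Top (K.L (K.L (K.L u)))) ∧
      (n = 3 → K.Top u → K.Top (K.L (K.L u)) →
        m = 1 ∧ K.ca u = 0 ∧ K.cb (K.L (K.L u)) = 4) := by
  obtain ⟨n, m, a, b, r, _, d, e⟩ := K.faceR u l hl
  have h5 := T.five u (lend_ca hl) hc (lend_not_orig hl)
  rw [rho, nn_eq a, mm_eq hl b] at h5
  refine ⟨n, m, a, b, r, by omega, d, ?_⟩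
  rintro rfl t0 t2
  exact e rfl t0 (K.bt u 3 (lend_ca hl) a t0 t2 1 (by omega)) t2

lemma not_cap {w : E} (h2 : 2 ≤ K.cb w) (hc : ¬ Ch K w) : ¬ CapC K (K.R w) := by
  rintro ⟨q, q1, _, q3⟩
  have := K.injR q w (by have := q1.2.1; omega) h2 q3
  exact hc (this ▸ q1)

lemma Tight.c1 (T : Tight K) {w w' : E} (tw : K.Top w) (tw' : K.Top w') (cw : K.cb w = 2)
    (cw' : K.cb w' = 2) (hc : ¬ Ch K w') (h0 : K.cb (K.L w') = 0) (h4 : K.cb (K.L w) = 4)
    (e : K.R (K.L w) = K.L (K.L w')) : False := by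
  have hl : K.LEnd (K.R w') (K.L w') := Or.inl ⟨w', cw', rfl, rfl⟩
  obtain ⟨n, m, a, b, r, c, d, _⟩ := T.face hl (not_cap (by omega) hc)
  obtain ⟨rfl, r'⟩ := face_zero b (by omega) r
  have hca := K.caR w' (by omega)
  have ht0 : K.Top (K.R w') := (K.topR w' (by omega)).2 tw'
  rcases r' with ⟨_, r2, r3⟩ | ⟨r1, _⟩
  · rw [ind_neg (by omega), ind_neg (by omega)] at c
    obtain rfl : n = 4 := by omega
    have c0 : K.cb (K.R w') ≤ 2 := a.2.1 0 (by omega)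
    have c1 : K.cb (K.L (K.R w')) ≤ 2 := a.2.1 1 (by omega)
    have c2 : K.cb (K.L (K.L (K.R w'))) ≤ 2 := a.2.1 2 (by omega)
    have e1 : K.L (K.L (K.L (K.R w'))) = K.L w :=
      K.injR _ _ (le_trans (by omega) r2.ge) (by omega) (r3.symm.trans e.symm)
    have e2 : K.L (K.L (K.R w')) = w := K.injL _ _ c2 (by omega) e1
    have t2 : K.Top (K.L (K.L (K.R w'))) := e2 ▸ tw
    have t1 := mid_top ht0 c0 c1 t2 (fun h => by
      have := K.cena _ (T.ch _ h); omega)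
    exact (d rfl t1 t2).1 ht0
  · omega

lemma Tight.c2 (T : Tight K) {v w w' : E} (tv : ¬ K.Top v) (cv : K.cb v = 2)
    (h0 : K.cb (K.L v) = 0) (e : K.L (K.L v) = K.R w) (e' : K.L (K.R v) = K.R w')
    (tw : K.Top w) (tw' : K.Top w') (cw : K.cb w = 4) (cw' : K.cb w' = 4)
    (hC : ¬ K.C (K.R w')) : False := by
  have hl : K.LEnd (K.R v) (K.L v) := Or.inl ⟨v, cv, rfl, rfl⟩
  obtain ⟨n, m, a, b, r, c, d, _⟩ := T.face hl (not_cap (by omega) (fun h => tv h.1))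
  obtain ⟨rfl, r'⟩ := face_zero b (by omega) r
  have hca := K.caR v (by omega)
  rcases r' with ⟨_, r2, r3⟩ | ⟨r1, _⟩
  · rw [ind_neg (by omega), ind_neg (by omega)] at c
    obtain rfl : n = 4 := by omega
    have c1 : K.cb (K.L (K.R v)) ≤ 2 := a.2.1 1 (by omega)
    have c2 : K.cb (K.L (K.L (K.R v))) ≤ 2 := a.2.1 2 (by omega)
    have e1 : K.L (K.L (K.L (K.R v))) = w :=
      K.injR _ _ (le_trans (by omega) r2.ge) (by omega) (r3.symm.trans e)
    have t3 : K.Top (K.L (K.L (K.L (K.R v)))) := e1 ▸ tw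
    have t1 : K.Top (K.L (K.R v)) := by rw [e', K.topR _ (by omega)]; exact tw'
    have t2 := mid_top t1 c1 c2 t3 (fun h => hC (e' ▸ T.ch _ h))
    exact (d rfl t1 t2).2 t3
  · omega

lemma Tight.c3 (T : Tight K) {w : E} (tw : K.Top w) (cw : K.cb w = 2)
    (h1 : K.cb (K.L w) ≤ 2) (h0 : K.cb (K.L (K.L w)) = 0) (t3 : K.Top (K.L (K.L (K.L w))))
    (hC : ¬ K.C (K.L (K.L (K.L w)))) : False := by
  rw [K.cenL _ (by omega), K.cenL _ h1, K.cenL _ (by omega)] at hC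
  obtain ⟨u, i, a, b, c⟩ := K.covU w hC
  obtain ⟨hu, h4⟩ := face_uch T.hO a
  have hlt : i + 3 < nn K u := by
    refine lt_of_uch hu (fun j hj => ?_)
    by_cases hji : j < i
    · exact b j hji
    · obtain ⟨k, rfl⟩ : ∃ k, j = k + i := ⟨j - i, by omega⟩
      rw [Function.iterate_add_apply, c]
      have hk : k < 3 := by omega
      interval_cases k
      · exact cw.le
      · exact h1
      · exact le_trans h0.le (by omega)
  obtain rfl : i = 0 := by omega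
  have hn : nn K u = 4 := by omega
  rw [hn] at hu
  obtain rfl : u = w := c
  have : K.Top (K.L (K.L u)) := K.bt u 4 a hu tw t3 2 (by omega)
  have := K.top1 _ this
  omega

lemma Tight.c4 (T : Tight K) {w w' : E} (tw : K.Top w) (cw : K.cb w = 2) (hc : ¬ Ch K w)
    (h2 : 2 ≤ K.cb (K.L w)) (h0 : K.cb (K.R (K.L w)) = 0) (e : K.L (K.R (K.L w)) = K.R w')
    (tw' : K.Top w') (cw' : K.cb w' = 4) : False := by
  have hl : K.LEnd (K.R w) (K.L w) := Or.inl ⟨w, cw, rfl, rfl⟩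
  obtain ⟨n, m, a, b, r, c, _, d⟩ := T.face hl (not_cap (by omega) hc)
  obtain rfl : m = 2 := lch_unique b ⟨by omega, fun j hj => by
    obtain rfl : j = 0 := by omega
    exact h2, le_trans h0.le (by omega)⟩
  have hca := K.caR w (by omega)
  have ht0 : K.Top (K.R w) := (K.topR w (by omega)).2 tw
  rcases r with ⟨_, r2, r3⟩ | ⟨r1, _⟩
  · rw [ind_neg (by omega), ind_neg (by omega)] at c
    obtain rfl : n = 3 := by omega
    have e1 : K.L (K.L (K.R w)) = w' :=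
      K.injR _ _ (le_trans (by omega) r2.ge) (by omega) (r3.symm.trans e)
    have := (d rfl ht0 (e1 ▸ tw')).1
    omega
  · have : K.cb (K.R (K.L w)) = 1 := r1
    omega

lemma Tight.c5 (T : Tight K) {w : E} (tw : K.Top w) (cw : K.cb w = 2) (hc : ¬ Ch K w)
    (h1 : K.cb (K.L w) = 1) (tv : ¬ K.Top (K.L w)) (tu : K.Top (K.up (K.L w))) : False := by
  have hl : K.LEnd (K.R w) (K.L w) := Or.inl ⟨w, cw, rfl, rfl⟩
  obtain ⟨n, m, a, b, r, c, _, d⟩ := T.face hl (not_cap (by omega) hc)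
  obtain ⟨rfl, r'⟩ := face_zero b (by omega) r
  have hca := K.caR w (by omega)
  have ht0 : K.Top (K.R w) := (K.topR w (by omega)).2 tw
  have h3 := (K.up3 _ h1 tv).1
  rcases r' with ⟨r1, _⟩ | ⟨_, _, r3⟩
  · omega
  · rw [ind_neg (by omega), ind_pos (r3 ▸ h3)] at c
    obtain rfl : n = 3 := by omega
    have e1 : K.up (K.L w) = K.L (K.L (K.R w)) := r3
    have := (d rfl ht0 (e1 ▸ tu)).2.2
    rw [← e1] at this
    omega

lemma Tight.c6 (T : Tight K) {v w : E} (cv : K.cb v = 1) (tv : ¬ K.Top v)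
    (h0 : K.cb (K.L v) = 0) (e : K.L (K.L v) = K.R w) (cw : K.cb w = 4) (tw : K.Top w)
    (tu : K.Top (K.up v)) : False := by
  have hl : K.LEnd (K.R (K.up v)) (K.L v) := Or.inr ⟨v, cv, tv, rfl, rfl⟩
  have h3 := (K.up3 _ cv tv).1
  obtain ⟨n, m, a, b, r, c, _, d⟩ := T.face hl (not_cap (by omega) (fun h => by
    have := h.2.1; omega))
  obtain ⟨rfl, r'⟩ := face_zero b (by omega) r
  have hca := K.caR (K.up v) (by omega)
  have ht0 : K.Top (K.R (K.up v)) := (K.topR _ (by omega)).2 tu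
  rcases r' with ⟨_, r2, r3⟩ | ⟨r1, _⟩
  · rw [ind_pos (by omega), ind_neg (by omega)] at c
    obtain rfl : n = 3 := by omega
    have e1 : K.L (K.L (K.R (K.up v))) = w :=
      K.injR _ _ (le_trans (by omega) r2.ge) (by omega) (r3.symm.trans e)
    have := (d rfl ht0 (e1 ▸ tw)).2.1
    omega
  · omega

variable (K) in
/-- the domain of the injection -/
def WW (w : E) : Prop := K.Top w ∧ 2 ≤ K.cb w ∧ ¬ K.C (K.R w) ∧ ¬ K.Od w ∧ ¬ Ch K w

variable (K) in
/-- the injection as a relation -/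
def VV (w v : E) : Prop :=
  (K.cb w = 2 ∧ v = K.L w) ∨
  (K.cb w = 2 ∧ K.cb (K.L w) = 0 ∧ K.cb v = 4 ∧ K.R v = K.L (K.L w)) ∨
  (K.cb w = 4 ∧ K.cb v ≤ 2 ∧ K.cb (K.L v) = 0 ∧ K.L (K.L v) = K.R w) ∨
  (K.cb w = 4 ∧ 2 ≤ K.cb v ∧ K.cb (K.R v) = 0 ∧ K.L (K.R v) = K.R w) ∨
  (K.cb w = 3 ∧ K.cb v = 1 ∧ K.up v = w)

lemma Tight.ex (T : Tight K) (w : E) (hw : WW K w) :
    ∃ v, (1 ≤ K.cb v ∧ ¬ K.Top v) ∧ VV K w v := by
  obtain ⟨tw, c2, hC, hO, hc⟩ := hw
  have c4 := K.cb4 w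
  have hcases : K.cb w = 2 ∨ K.cb w = 3 ∨ K.cb w = 4 := by omega
  rcases hcases with h | h | h
  · have h1 := K.caL w (by omega)
    by_cases h0 : K.cb (K.L w) = 0
    · have h2 := K.caL (K.L w) (by omega)
      obtain ⟨p, p1, p2⟩ := K.surR (K.L (K.L w)) (by omega)
      have h3 := K.caR p p1
      rw [p2] at h3
      refine ⟨p, ⟨by omega, fun tp => hc ⟨tw, h, h0, ?_⟩⟩,
        Or.inr (Or.inl ⟨h, h0, by omega, p2⟩)⟩
      rw [← p2, K.topR p p1]; exact tp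
    · refine ⟨K.L w, ⟨by omega, fun t => ?_⟩, Or.inl ⟨h, rfl⟩⟩
      have := K.top3 _ t
      omega
  · obtain ⟨y, y1, y2, y3⟩ := K.upsur w h hO
    exact ⟨y, ⟨by omega, y2⟩, Or.inr (Or.inr (Or.inr (Or.inr ⟨h, y1, y3⟩)))⟩
  · have h1 := K.caR w c2
    obtain ⟨e, e1, e2⟩ := K.surL (K.R w) (by omega)
    have e3 := K.caL e e1
    rw [e2] at e3
    have e0 : K.cb e = 0 := by omega
    have te : ¬ K.Top e := fun t => by have := K.top1 _ t; omega
    by_cases h3 : 3 ≤ K.ca e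
    · obtain ⟨p, p1, p2⟩ := K.surL e (by omega)
      have p3 := K.caL p p1
      rw [p2] at p3
      refine ⟨p, ⟨by omega, fun tp => ?_⟩,
        Or.inr (Or.inr (Or.inl ⟨h, p1, p2 ▸ e0, by rw [p2, e2]⟩))⟩
      by_cases hp : K.cb p = 1
      · exact te (p2 ▸ (K.topL p hp).2 tp)
      · have hch : Ch K p := ⟨tp, by omega, p2 ▸ e0, by
          rw [p2, e2, K.topR _ c2]; exact tw⟩
        have := T.ch p hch
        rw [← K.cenL p p1, p2, ← K.cenL e e1, e2] at this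
        exact hC this
    · obtain ⟨p, p1, p2⟩ := K.surR e (by omega)
      refine ⟨p, ⟨by omega, fun tp => te (p2 ▸ (K.topR p p1).2 tp)⟩,
        Or.inr (Or.inr (Or.inr (Or.inl ⟨h, p1, p2 ▸ e0, by rw [p2, e2]⟩)))⟩

lemma Tight.inj (T : Tight K) (w w' v : E) (hw : WW K w) (hw' : WW K w')
    (hv : 1 ≤ K.cb v ∧ ¬ K.Top v) (h : VV K w v) (h' : VV K w' v) : w = w' := by
  obtain ⟨tw, c2, hC, _, hc⟩ := hw
  obtain ⟨tw', c2', hC', _, hc'⟩ := hw'
  obtain ⟨v1, tv⟩ := hv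
  have tR : K.Top (K.R w) := (K.topR w c2).2 tw
  have tR' : K.Top (K.R w') := (K.topR w' c2').2 tw'
  rcases h with ⟨a1, a2⟩ | ⟨a1, a2, a3, a4⟩ | ⟨a1, a2, a3, a4⟩ | ⟨a1, a2, a3, a4⟩ |
      ⟨a1, a2, a3⟩ <;>
    rcases h' with ⟨b1, b2⟩ | ⟨b1, b2, b3, b4⟩ | ⟨b1, b2, b3, b4⟩ | ⟨b1, b2, b3, b4⟩ |
      ⟨b1, b2, b3⟩
  · exact K.injL _ _ (by omega) (by omega) (a2.symm.trans b2)
  · subst a2; exact (T.c1 tw tw' a1 b1 hc' b2 b3 b4).elim
  · subst a2; exact (T.c3 tw a1 b2 b3 (b4 ▸ tR') (b4 ▸ hC')).elim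
  · subst a2; exact (T.c4 tw a1 hc b2 b3 b4 tw' b1).elim
  · subst a2; exact (T.c5 tw a1 hc b2 tv (b3 ▸ tw')).elim
  · subst b2; exact (T.c1 tw' tw b1 a1 hc a2 a3 a4).elim
  · exact K.injL _ _ (by omega) (by omega)
      (K.injL _ _ (by omega) (by omega) (a4.symm.trans b4))
  · omega
  · rw [a4] at b3 b4
    exact (T.c3 tw a1 (by omega) b3 (b4 ▸ tR') (b4 ▸ hC')).elim
  · omega
  · subst b2; exact (T.c3 tw' b1 a2 a3 (a4 ▸ tR) (a4 ▸ hC)).elim
  · omega
  · exact K.injR _ _ c2 c2' (a4.symm.trans b4)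
  · exact (T.c2 tv (by omega) a3 a4 b4 tw tw' a1 b1 hC').elim
  · exact (T.c6 b2 tv a3 a4 a1 tw (b3 ▸ tw')).elim
  · subst b2; exact (T.c4 tw' b1 hc' a2 a3 a4 tw a1).elim
  · rw [b4] at a3 a4
    exact (T.c3 tw' b1 (by omega) a3 (a4 ▸ tR) (a4 ▸ hC)).elim
  · exact (T.c2 tv (by omega) b3 b4 a4 tw' tw b1 a1 hC).elim
  · exact K.injR _ _ c2 c2' (a4.symm.trans b4)
  · omega
  · subst b2; exact (T.c5 tw' b1 hc' a2 tv (a3 ▸ tw)).elim
  · omega
  · exact (T.c6 a2 tv b3 b4 b1 tw' (a3 ▸ tw)).elim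
  · omega
  · exact a3.symm.trans b3

lemma Tight.cnt_le [Fintype E] (T : Tight K) :
    cnt (WW K) ≤ cnt (fun v => 1 ≤ K.cb v ∧ ¬ K.Top v) :=
  cnt_rel (VV K) T.ex T.inj

end CountAux

end Pool.Agent.Work.MP_dd6b33_gt
end

-- merged part: Pool.Agent.Work.MP_dd6b33_gt.Count
section
/-!
The counting theorem: at most five rays.
-/

namespace Pool.Agent.Work.MP_dd6b33_gt

open Finset

namespace CountAux

variable {E : Type} [Fintype E] (K : Comb E)

lemma cnt_L (i : ℕ) (hi : i ≤ 2) :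
    cnt (fun x => K.cb x = i) = cnt (fun x => K.ca x = i + 2) := by
  refine cnt_bij K.L (fun x hx => ?_) (fun x x' hx hx' e => K.injL x x' (by omega) (by omega) e)
    (fun y hy => ?_)
  · have := K.caL x (by omega); omega
  · obtain ⟨x, x1, x2⟩ := K.surL y (by omega)
    have := K.caL x x1
    rw [x2] at this
    exact ⟨x, by omega, x2⟩

lemma cnt_R (i : ℕ) (hi : i ≤ 2) :
    cnt (fun x => K.cb x = i + 2) = cnt (fun x => K.ca x = i) := by
  refine cnt_bij K.R (fun x hx => ?_) (fun x x' hx hx' e => K.injR x x' (by omega) (by omega) e)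
    (fun y hy => ?_)
  · have := K.caR x (by omega); omega
  · obtain ⟨x, x1, x2⟩ := K.surR y (by omega)
    have := K.caR x x1
    rw [x2] at this
    exact ⟨x, by omega, x2⟩

lemma cnt_five (f : E → ℕ) (hf : ∀ x, f x ≤ 4) :
    cnt (fun _ : E => True) = cnt (fun x => f x = 0) + cnt (fun x => f x = 1) +
      cnt (fun x => f x = 2) + cnt (fun x => f x = 3) + cnt (fun x => f x = 4) := by
  simp only [cnt, ← sum_add_distrib]
  refine sum_congr rfl (fun x _ => ?_)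
  have := hf x
  generalize f x = k at *
  interval_cases k <;> simp [ind]

lemma cnt_compl (P : E → Prop) : cnt (fun _ : E => True) = cnt P + cnt (fun x => ¬ P x) := by
  rw [cnt_split (fun _ : E => True) P]
  simp only [true_and]

lemma cnt_up : cnt (fun x => K.cb x = 1) + cnt K.Od =
    cnt (fun x => K.cb x = 3) + cnt (fun x => K.Top x ∧ K.cb x = 1) := by
  have h1 := cnt_split (fun x => K.cb x = 1) K.Top
  have h2 := cnt_split (fun x => K.cb x = 3) K.Od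
  have h3 : cnt (fun x => K.cb x = 1 ∧ ¬ K.Top x) = cnt (fun x => K.cb x = 3 ∧ ¬ K.Od x) :=
    cnt_bij K.up (fun x hx => K.up3 x hx.1 hx.2)
      (fun x x' hx hx' e => K.upinj x x' hx.1 hx.2 hx'.1 hx'.2 e)
      (fun y hy => by
        obtain ⟨x, a, b, c⟩ := K.upsur y hy.1 hy.2
        exact ⟨x, ⟨a, b⟩, c⟩)
  have h4 : cnt (fun x => K.cb x = 3 ∧ K.Od x) = cnt K.Od :=
    cnt_congr (fun x => ⟨fun h => h.2, fun h => ⟨K.od3 x h, h⟩⟩)
  have h5 : cnt (fun x => K.cb x = 1 ∧ K.Top x) = cnt (fun x => K.Top x ∧ K.cb x = 1) :=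
    cnt_congr (fun x => and_comm)
  omega

lemma cnt_top : cnt K.Top =
    cnt (fun x => K.Top x ∧ K.cb x = 1) + cnt (fun x => K.Top x ∧ 2 ≤ K.cb x) := by
  rw [cnt_split K.Top (fun x => K.cb x = 1)]
  congr 1
  exact cnt_congr (fun x => ⟨fun h => ⟨h.1, by have := K.top1 x h.1; omega⟩,
    fun h => ⟨h.1, by omega⟩⟩)

lemma cnt_ps : cnt (fun x => K.Top x ∧ 2 ≤ K.cb x) = cnt (PS K) := by
  refine cnt_bij K.R (fun x hx => ⟨(K.topR x hx.2).2 hx.1, ?_⟩)
    (fun x x' hx hx' e => K.injR x x' hx.2 hx'.2 e) (fun y hy => ?_)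
  · have := K.caR x hx.2
    have := K.cb4 x
    omega
  · obtain ⟨x, x1, x2⟩ := K.surR y hy.2
    exact ⟨x, ⟨(K.topR x x1).1 (x2 ▸ hy.1), x1⟩, x2⟩

lemma cnt_faces : (FF K).card = cnt (fun x => K.ca x = 0) + cnt (fun x => K.ca x = 1) := by
  rw [card_FF, cnt_split _ (fun x => K.ca x = 0)]
  congr 1
  · exact cnt_congr (fun x => by omega)
  · exact cnt_congr (fun x => by omega)

lemma sum_nn (hO : K.nO ≤ 4) : cnt (fun x => ¬ K.C x) ≤ ∑ u ∈ FF K, nn K u := by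
  refine (cover_up hO _ (fun _ h => h)).trans (sum_le_sum (fun u _ => ?_))
  calc _ ≤ ∑ _i ∈ range (nn K u), 1 := sum_le_sum (fun i _ => ind_le _)
    _ = _ := by simp

lemma sum_rho (hO : K.nO ≤ 4) :
    cnt (fun x => K.ca x = 1) + cnt (fun x => K.cb x = 3) ≤ ∑ u ∈ FF K, rho K u := by
  simp only [rho, sum_add_distrib]
  refine add_le_add ?_ ?_
  · rw [sum_FF]
    exact cnt_mono (fun x hx => ⟨by omega, hx⟩)
  · refine (cover_up (K := K) hO _ (fun x h hc => by have := K.cenb x hc; omega)).trans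
      (sum_le_sum (fun u hu => ?_))
    obtain ⟨⟨a1, a2, _⟩, _⟩ := face_uch hO (mem_FF.1 hu)
    generalize nn K u = n at *
    obtain ⟨k, rfl⟩ : ∃ k, n = k + 1 := ⟨n - 1, by omega⟩
    rw [sum_range_succ, sum_eq_zero (fun i hi => ind_neg (by
      have := a2 i (by have := mem_range.1 hi; omega); omega))]
    simp

lemma sum_tt (hO : K.nO ≤ 4) : cnt (fun x => PS K x ∧ ¬ K.C x) ≤ ∑ u ∈ FF K, tt K u :=
  (cover_up hO _ (fun _ h => h.2)).trans
    (sum_le_sum (fun _ _ => sum_le_sum (fun _ _ => ind_mono (fun h => h.1))))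

lemma sum_capN : cnt (fun p => Ch K p ∧ ¬ K.C p) ≤ ∑ u ∈ FF K, ind (CapN K u) := by
  rw [sum_FF]
  refine cnt_rel (fun p u => K.R p = u) (fun p hp => ⟨K.R p, ⟨?_, p, hp.1, hp.2, rfl⟩, rfl⟩)
    (fun p p' u hp hp' _ e e' => K.injR p p' hp.1.2.1.ge hp'.1.2.1.ge (e.trans e'.symm))
  have := K.caR p hp.1.2.1.ge
  have := hp.1.2.1
  omega

lemma sum_capC : cnt (fun p => Ch K p ∧ K.C p) ≤ ∑ u ∈ FF K, ind (CapC K u) := by
  rw [sum_FF]
  refine cnt_rel (fun p u => K.R p = u) (fun p hp => ⟨K.R p, ⟨?_, p, hp.1, hp.2, rfl⟩, rfl⟩)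
    (fun p p' u hp hp' _ e e' => K.injR p p' hp.1.2.1.ge hp'.1.2.1.ge (e.trans e'.symm))
  have := K.caR p hp.1.2.1.ge
  have := hp.1.2.1
  omega

lemma sum_beta : ∑ u ∈ FF K, beta K u ≤ 6 * (FF K).card + (K.nO - 3) * cnt K.Od := by
  simp only [beta, sum_add_distrib, sum_const, smul_eq_mul, ← mul_sum]
  refine add_le_add (by omega) (Nat.mul_le_mul_left _ ?_)
  rw [sum_FF]
  exact cnt_rel (fun u p => K.R p = u) (fun u hu => hu.2)
    (fun u u' p _ _ _ e e' => e.symm.trans e')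

omit [Fintype E] in
lemma bad_notC (hO : K.nO ≤ 4) {u : E} (hu : K.ca u ≤ 1) {i : ℕ} (hi : i < nn K u) :
    ¬ K.C (K.L^[i] u) :=
  chain_notC hu i (fun j hj => (face_uch hO hu).1.2.1 j (by omega))

omit [Fintype E] in
lemma face_disj (hO : K.nO ≤ 4) {u u' : E} (hu : K.ca u ≤ 1) (hu' : K.ca u' ≤ 1) {i i' : ℕ}
    (hi : i < nn K u) (hi' : i' < nn K u') (e : K.L^[i] u = K.L^[i'] u') : u = u' :=
  chain_disj hu hu' i i' (fun j hj => (face_uch hO hu).1.2.1 j (by omega))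
    (fun j hj => (face_uch hO hu').1.2.1 j (by omega)) e

lemma sum_bad (hO : K.nO ≤ 4) :
    ∑ u ∈ FF K, ind (Bad K u) ≤ cnt (fun p => Ch K p ∧ ¬ K.C p) := by
  rw [sum_FF]
  refine cnt_rel (fun u p => ∃ i, i < nn K u ∧ K.L^[i] u = p) (fun u hu => ?_)
    (fun u u' p hu hu' _ e e' => ?_)
  · obtain ⟨h1, i, h2, h3⟩ := hu
    exact ⟨_, ⟨h3, bad_notC K hO h1 (by omega)⟩, i, by omega, rfl⟩
  · obtain ⟨i, a, b⟩ := e
    obtain ⟨i', a', b'⟩ := e'
    exact face_disj K hO hu.1 hu'.1 a a' (b.trans b'.symm)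

lemma central :
    2 * cnt (fun x => PS K x ∧ K.C x) ≤ cnt K.C ∧
    3 * cnt (fun x => PS K x ∧ K.C x) ≤ cnt K.C + cnt (fun p => Ch K p ∧ K.C p) := by
  have pred : ∀ a, PS K a ∧ K.C a → ∃ q, K.cb q = 0 ∧ K.C q ∧ ¬ K.Top q ∧ K.L q = a := by
    rintro a ⟨⟨a1, a2⟩, a3⟩
    have a4 := K.cena a a3
    obtain ⟨q, q1, q2⟩ := K.surL a a4
    have q3 := K.caL q q1
    rw [q2] at q3
    refine ⟨q, by omega, (K.cenL q q1).1 (q2 ▸ a3), fun t => ?_, q2⟩
    have := K.top1 q t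
    omega
  have h1 : cnt (fun x => PS K x ∧ K.C x) ≤ cnt (fun x => K.C x ∧ K.Top x) :=
    cnt_mono (fun x hx => ⟨hx.2, hx.1.1⟩)
  have h2 : cnt (fun x => PS K x ∧ K.C x) ≤
      cnt (fun x => (K.C x ∧ ¬ K.Top x) ∧ K.Top (K.L x)) := by
    refine cnt_rel (fun a q => K.L q = a) (fun a ha => ?_)
      (fun a a' q _ _ _ e e' => e.symm.trans e')
    obtain ⟨q, _, q2, q3, q4⟩ := pred a ha
    exact ⟨q, ⟨⟨q2, q3⟩, q4 ▸ ha.1.1⟩, q4⟩
  have h3 : cnt (fun x => PS K x ∧ K.C x) ≤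
      cnt (fun x => ((K.C x ∧ ¬ K.Top x) ∧ ¬ K.Top (K.L x)) ∨ (Ch K x ∧ K.C x)) := by
    refine cnt_rel (fun a q => K.L (K.L q) = a) (fun a ha => ?_)
      (fun a a' q _ _ _ e e' => e.symm.trans e')
    obtain ⟨q, q1, q2, q3, q4⟩ := pred a ha
    obtain ⟨s, s1, s2⟩ := K.surL q (K.cena q q2)
    have s3 : K.C s := (K.cenL s s1).1 (s2 ▸ q2)
    refine ⟨s, ?_, by rw [s2, q4]⟩
    by_cases ts : K.Top s
    · refine Or.inr ⟨chord ts s1 (by rw [s2]; omega) (by rw [s2, q4]; exact ha.1), s3⟩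
    · exact Or.inl ⟨⟨s3, ts⟩, s2 ▸ q3⟩
  have h4 : cnt (fun x => ((K.C x ∧ ¬ K.Top x) ∧ ¬ K.Top (K.L x)) ∨ (Ch K x ∧ K.C x)) ≤
      cnt (fun x => (K.C x ∧ ¬ K.Top x) ∧ ¬ K.Top (K.L x)) + cnt (fun p => Ch K p ∧ K.C p) := by
    rw [cnt_split _ (fun p => Ch K p ∧ K.C p), add_comm]
    exact add_le_add (cnt_mono fun x h => h.1.resolve_right h.2) (cnt_mono fun x h => h.2)
  have h5 := cnt_split K.C K.Top
  have h6 := cnt_split (fun x => K.C x ∧ ¬ K.Top x) (fun x => K.Top (K.L x))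
  omega

lemma cnt_ww (hch : ∀ p, Ch K p → K.C p) :
    cnt (fun x => K.Top x ∧ 2 ≤ K.cb x) ≤ cnt (WW K) + cnt (fun x => PS K x ∧ K.C x) +
      cnt (fun x => K.Od x ∧ K.Top x) + cnt (fun p => Ch K p ∧ K.C p) := by
  have h1 : cnt (fun x => K.Top x ∧ 2 ≤ K.cb x ∧ K.C (K.R x)) ≤
      cnt (fun x => PS K x ∧ K.C x) := by
    refine cnt_rel (fun x y => K.R x = y) (fun x hx => ⟨K.R x, ⟨⟨(K.topR x hx.2.1).2 hx.1, ?_⟩,
      hx.2.2⟩, rfl⟩) (fun x x' y hx hx' _ e e' => K.injR x x' hx.2.1 hx'.2.1 (e.trans e'.symm))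
    have := K.caR x hx.2.1
    have := K.cb4 x
    omega
  refine le_trans ?_ (add_le_add (add_le_add (add_le_add le_rfl h1) le_rfl) le_rfl)
  simp only [cnt, ← sum_add_distrib]
  refine sum_le_sum (fun x _ => ?_)
  by_cases h : K.Top x ∧ 2 ≤ K.cb x
  · rw [ind_pos h]
    by_cases a : K.C (K.R x)
    · rw [ind_pos (show K.Top x ∧ 2 ≤ K.cb x ∧ K.C (K.R x) from ⟨h.1, h.2, a⟩)]; omega
    · by_cases b : K.Od x
      · rw [ind_pos (show K.Od x ∧ K.Top x from ⟨b, h.1⟩)]; omega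
      · by_cases c : Ch K x
        · rw [ind_pos (show Ch K x ∧ K.C x from ⟨c, hch x c⟩)]; omega
        · rw [ind_pos (show WW K x from ⟨h.1, h.2, a, b, c⟩)]; omega
  · rw [ind_neg h]; omega

lemma cnt_i0 : cnt (fun _ : E => True) =
    cnt (fun x => K.cb x = 0) + cnt K.Top + cnt (fun v => 1 ≤ K.cb v ∧ ¬ K.Top v) := by
  rw [cnt_compl (fun x => K.cb x = 0), cnt_split (fun x => ¬ K.cb x = 0) K.Top, add_assoc]
  congr 2
  · exact cnt_congr (fun x => ⟨fun h => h.2, fun h => ⟨by have := K.top1 x h; omega, h⟩⟩)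
  · exact cnt_congr (fun x => ⟨fun h => ⟨by omega, h.2⟩, fun h => ⟨by omega, h.2⟩⟩)

theorem count (h5 : cnt K.C ≤ 5)
    (ho : (K.nO = 4 ∧ cnt K.Od ≤ 2) ∨ (K.nO = 3 ∧ cnt K.Od ≤ 3)) :
    cnt (fun x => K.Top x ∧ K.cb x = 1) ≤ 5 := by
  by_contra hN
  have hO : 3 ≤ K.nO := by omega
  have hO' : K.nO ≤ 4 := by omega
  have l0 := cnt_L K 0 (by omega)
  have l1 := cnt_L K 1 (by omega)
  have l2 := cnt_L K 2 (by omega)
  have r0 := cnt_R K 0 (by omega)
  have r1 := cnt_R K 1 (by omega)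
  have r2 := cnt_R K 2 (by omega)
  simp only [zero_add, Nat.reduceAdd] at l0 l1 l2 r0 r1 r2
  have ta := cnt_five K.ca K.ca4
  have tb := cnt_five K.cb K.cb4
  have tc := cnt_compl K.C
  have td := cnt_compl K.Top
  have hup := cnt_up K
  have htop := cnt_top K
  have hps := cnt_ps K
  have hps' := cnt_split (PS K) K.C
  have hF := cnt_faces K
  have s1 := sum_nn K hO'
  have s2 := cover_low (K := K)
  have s3 := sum_rho K hO'
  have s4 := sum_tt K hO'
  have s5 := sum_capN K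
  have s6 := sum_capC K
  have s7 := sum_beta K
  have s8 := sum_bad K hO'
  obtain ⟨c1, c2⟩ := central K
  have c3 : cnt K.C = 0 ∨ cnt K.Od = 0 := by
    by_cases h : cnt K.C = 0
    · exact Or.inl h
    · obtain ⟨x, hx⟩ := cnt_pos (Nat.pos_of_ne_zero h)
      exact Or.inr (cnt_eq_zero (fun y => K.cenO x y hx))
  have c4 : cnt (fun p => Ch K p ∧ K.C p) ≤ cnt K.C := cnt_mono (fun x h => h.2)
  have hloc : ∀ u ∈ FF K, nn K u + mm K u + rho K u + tt K u + 2 * ind (CapN K u) +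
      ind (CapC K u) ≤ beta K u + ind (Bad K u) := fun u hu => local_le hO hO' (mem_FF.1 hu)
  have hsum := sum_le_sum hloc
  have hK : (K.nO - 3) * cnt K.Od + 2 * cnt K.Od ≤ 6 ∧ (K.nO - 3) * cnt K.Od ≤ cnt K.Od := by
    rcases ho with ⟨a, b⟩ | ⟨a, b⟩ <;> rw [a] <;> omega
  have key : cnt (fun p => Ch K p ∧ ¬ K.C p) = 0 ∧
      ∑ u ∈ FF K, (nn K u + mm K u + rho K u + tt K u + 2 * ind (CapN K u) + ind (CapC K u)) =
        ∑ u ∈ FF K, (beta K u + ind (Bad K u)) ∧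
      ((cnt K.C = 0 ∧ 0 < cnt K.Od) ∨ (cnt K.Od = 0 ∧
        cnt (fun p => Ch K p ∧ K.C p) < cnt (fun x => PS K x ∧ K.C x))) := by
    simp only [sum_add_distrib, ← mul_sum] at hsum ⊢
    generalize (K.nO - 3) * cnt K.Od = z at *
    omega
  obtain ⟨k1, k2, k3⟩ := key
  have hch : ∀ p, Ch K p → K.C p := fun p hp => by
    by_contra hc
    exact cnt_zero k1 p ⟨hp, hc⟩
  have heq := (sum_eq_sum_iff_of_le hloc).1 k2
  have hnc : ∀ u, K.ca u ≤ 1 → ¬ CapC K u →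
      tt K u = 1 ∧ nn K u + mm K u + rho K u + 1 = beta K u := by
    intro u hu hc
    have e := heq u (mem_FF.2 hu)
    have nb : ¬ Bad K u := by
      rintro ⟨i, a, b⟩
      exact bad_notC K hO' hu (by omega) (hch _ b)
    have nN : ¬ CapN K u := by
      rintro ⟨p, a, b, _⟩
      exact b (hch p a)
    have t1 := tt_le hO' hu
    have t2 := mu0_le hO hu
    rw [ind_neg nb] at e t1
    rw [ind_neg nN, ind_neg hc] at e
    omega
  have T : Tight K := ⟨hO', hch, fun u hu hc hor => by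
    have := (hnc u hu hc).2
    rw [beta, ind_neg hor] at this
    omega⟩
  have f1 : (FF K).card ≤ cnt (fun x => PS K x ∧ ¬ K.C x) := by
    rw [card_FF]
    refine cnt_rel (fun u p => ∃ i, i < nn K u ∧ K.L^[i] u = p) (fun u hu => ?_)
      (fun u u' p hu hu' _ e e' => ?_)
    · have : ∃ i, i < nn K u ∧ PS K (K.L^[i] u) := by
        by_cases hc : CapC K u
        · obtain ⟨p, a, _, rfl⟩ := hc
          exact ⟨0, (face_uch hO' hu).1.1, (K.topR p a.2.1.ge).2 a.1, le_trans hu (by omega)⟩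
        · by_contra hn
          push Not at hn
          have h0 : tt K u = 0 := sum_eq_zero (fun i hi => ind_neg (hn i (mem_range.1 hi)))
          have := (hnc u hu hc).1
          omega
      obtain ⟨i, a, b⟩ := this
      exact ⟨_, ⟨b, bad_notC K hO' hu a⟩, i, a, rfl⟩
    · obtain ⟨i, a, b⟩ := e
      obtain ⟨i', a', b'⟩ := e'
      exact face_disj K hO' hu hu' a a' (b.trans b'.symm)
  have f2 := T.cnt_le
  have f3 := cnt_ww K hch
  have f4 := cnt_i0 K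
  have f5 : cnt (fun x => K.Od x ∧ K.Top x) ≤ cnt K.Od := cnt_mono (fun x h => h.1)
  rcases k3 with ⟨a, b⟩ | ⟨a, b⟩
  · have f6 : cnt (fun x => K.Od x ∧ K.Top x) < cnt K.Od := by
      obtain ⟨p, hp⟩ := cnt_pos b
      have : ∃ y, K.Od y ∧ ¬ K.Top y := by
        by_contra hn
        push Not at hn
        obtain ⟨n, u1, u2, u3, u4⟩ := K.faceO p hp
        have p3 := K.od3 p hp
        have hca := K.caR p (by omega)
        have hor : Orig K (K.R p) := ⟨p, hp, rfl⟩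
        have hc : ¬ CapC K (K.R p) := by
          rintro ⟨q, _, q2, _⟩
          exact cnt_zero a q q2
        have e := (hnc _ (by omega) hc).2
        have i1 := ind_le (K.ca (K.R p) = 1)
        have i2 := ind_le (K.cb (K.L^[nn K (K.R p) - 1] (K.R p)) = 3)
        rw [beta, ind_pos hor, mm_orig hor, rho] at e
        have := nn_eq u1
        exact u4 (by omega) (K.bt _ n (by omega) u1
          ((K.topR p (by omega)).2 (hn p hp)) (hn _ u2))
      obtain ⟨y, y1, y2⟩ := this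
      exact cnt_lt (fun x h => h.1) y y1 (fun h => y2 h.2)
    omega
  · omega

end CountAux

theorem Comb.count {E : Type} [Finite E] (K : Comb E) (h5 : {x | K.C x}.ncard ≤ 5)
    (ho : (K.nO = 4 ∧ {x | K.Od x}.ncard ≤ 2) ∨ (K.nO = 3 ∧ {x | K.Od x}.ncard ≤ 3)) :
    {x | K.Top x ∧ K.cb x = 1}.ncard ≤ 5 := by
  have := Fintype.ofFinite E
  rw [← CountAux.cnt_eq_ncard] at h5 ho ⊢
  exact CountAux.count K h5 ho

end Pool.Agent.Work.MP_dd6b33_gt
end

-- merged part: Pool.Agent.Work.MP_dd6b33_gt.Descend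
section
/-!
Descent of the combinatorial model along the covering, and five points on a circle.
-/

namespace Pool.Agent.Work.MP_dd6b33_gt

namespace DescendAux

variable {E : Type}

/-- the map induced on the base -/
def dn (f : E × ℤ → E × ℤ) (e : E) : E := (f (e, 0)).1

lemma fst_eq {f : E × ℤ → E × ℤ} (hf : ∀ e k, f (e, k) = ((f (e, 0)).1, (f (e, 0)).2 + k))
    (x : E × ℤ) : (f x).1 = dn f x.1 := by
  obtain ⟨e, k⟩ := x
  rw [hf]; rfl

lemma fst_iter {f : E × ℤ → E × ℤ} (hf : ∀ e k, f (e, k) = ((f (e, 0)).1, (f (e, 0)).2 + k))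
    (i : ℕ) (x : E × ℤ) : (f^[i] x).1 = (dn f)^[i] x.1 := by
  induction i with
  | zero => rfl
  | succ i ih => rw [Function.iterate_succ_apply', Function.iterate_succ_apply', fst_eq hf, ih]

/-- a preimage downstairs lifts to a preimage of any lift -/
lemma lift {f : E × ℤ → E × ℤ} (hf : ∀ e k, f (e, k) = ((f (e, 0)).1, (f (e, 0)).2 + k))
    {e : E} {y : E × ℤ} (h : dn f e = y.1) : ∃ k, f (e, k) = y := by
  refine ⟨y.2 - (f (e, 0)).2, ?_⟩
  rw [hf]
  refine Prod.ext h ?_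
  simp

end DescendAux

open DescendAux in
theorem Comb.descend {E : Type} (K : Comb (E × ℤ))
    (hca : ∀ e k, K.ca (e, k) = K.ca (e, 0)) (hcb : ∀ e k, K.cb (e, k) = K.cb (e, 0))
    (hT : ∀ e k, K.Top (e, k) ↔ K.Top (e, 0)) (hO : ∀ e k, K.Od (e, k) ↔ K.Od (e, 0))
    (hC : ∀ e k, K.C (e, k) ↔ K.C (e, 0))
    (hL : ∀ e k, K.L (e, k) = ((K.L (e, 0)).1, (K.L (e, 0)).2 + k))
    (hR : ∀ e k, K.R (e, k) = ((K.R (e, 0)).1, (K.R (e, 0)).2 + k))
    (hU : ∀ e k, K.up (e, k) = ((K.up (e, 0)).1, (K.up (e, 0)).2 + k)) :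
    ∃ K' : Comb E, (∀ e, K'.cb e = K.cb (e, 0)) ∧ (∀ e, K'.Top e ↔ K.Top (e, 0)) ∧
      (∀ e, K'.Od e ↔ K.Od (e, 0)) ∧ (∀ e, K'.C e ↔ K.C (e, 0)) ∧ K'.nO = K.nO := by
  let D : CombData E :=
    { ca := fun e => K.ca (e, 0), cb := fun e => K.cb (e, 0), L := dn K.L, R := dn K.R,
      up := dn K.up, Top := fun e => K.Top (e, 0), Od := fun e => K.Od (e, 0),
      C := fun e => K.C (e, 0), nO := K.nO }
  have ca : ∀ x : E × ℤ, K.ca x = D.ca x.1 := fun x => hca x.1 x.2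
  have cb : ∀ x : E × ℤ, K.cb x = D.cb x.1 := fun x => hcb x.1 x.2
  have tp : ∀ x : E × ℤ, K.Top x ↔ D.Top x.1 := fun x => hT x.1 x.2
  have od : ∀ x : E × ℤ, K.Od x ↔ D.Od x.1 := fun x => hO x.1 x.2
  have cc : ∀ x : E × ℤ, K.C x ↔ D.C x.1 := fun x => hC x.1 x.2
  have fL : ∀ x : E × ℤ, (K.L x).1 = D.L x.1 := fst_eq hL
  have fR : ∀ x : E × ℤ, (K.R x).1 = D.R x.1 := fst_eq hR
  have fU : ∀ x : E × ℤ, (K.up x).1 = D.up x.1 := fst_eq hU
  have iL : ∀ i (x : E × ℤ), (K.L^[i] x).1 = D.L^[i] x.1 := fst_iter hL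
  have iR : ∀ i (x : E × ℤ), (K.R^[i] x).1 = D.R^[i] x.1 := fst_iter hR
  have uch : ∀ (x : E × ℤ) n, K.toCombData.UCh x n ↔ D.UCh x.1 n := by
    intro x n
    simp only [CombData.UCh, cb, iL]
  have lch : ∀ (x : E × ℤ) n, K.toCombData.LCh x n ↔ D.LCh x.1 n := by
    intro x n
    simp only [CombData.LCh, cb, iR]
  have rend : ∀ x y : E × ℤ, K.toCombData.REnd x y → D.REnd x.1 y.1 := by
    intro x y h
    rcases h with ⟨h1, h2, h3⟩ | ⟨h1, h2, h3⟩
    · exact Or.inl ⟨by rw [← cb, h1], by rw [← cb, h2], by rw [← fL, ← fR, h3]⟩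
    · exact Or.inr ⟨by rw [← cb, h1], by rwa [← tp], by rw [← fU, h3]⟩
  have lend : ∀ u l : E, D.LEnd u l → ∃ x y : E × ℤ, x.1 = u ∧ y.1 = l ∧ K.toCombData.LEnd x y := by
    intro u l h
    rcases h with ⟨p, h1, h2, h3⟩ | ⟨y, h1, h2, h3, h4⟩
    · exact ⟨K.R (p, 0), K.L (p, 0), h2, h3, Or.inl ⟨(p, 0), h1, rfl, rfl⟩⟩
    · refine ⟨K.R (K.up (y, 0)), K.L (y, 0), ?_, h3, Or.inr ⟨(y, 0), h1, h2, rfl, rfl⟩⟩
      rw [fR, fU]; exact h4
  refine ⟨{ D with
    ca4 := fun x => K.ca4 _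
    cb4 := fun x => K.cb4 _
    caL := fun x h => ?_
    caR := fun x h => ?_
    injL := fun x y hx hy h => ?_
    injR := fun x y hx hy h => ?_
    surL := fun y h => ?_
    surR := fun y h => ?_
    up3 := fun x h1 h2 => ?_
    upinj := fun x y h1 h2 h3 h4 h => ?_
    upsur := fun y h1 h2 => ?_
    od3 := fun x h => K.od3 _ h
    top1 := fun x h => K.top1 _ h
    top3 := fun x h => K.top3 _ h
    topL := fun x h => ?_
    topR := fun x h => ?_
    cenb := fun x h => K.cenb _ h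
    cena := fun x h => K.cena _ h
    cenL := fun x h => ?_
    cenO := fun x y h => K.cenO _ _ h
    covU := fun x h => ?_
    covL := fun x h => ?_
    faceR := fun u l h => ?_
    faceO := fun p h => ?_
    bt := fun u n h1 h2 h3 h4 i hi => ?_
    cap := fun p n h1 h2 h3 h4 h5 h6 => ?_ }, fun _ => rfl, fun _ => Iff.rfl, fun _ => Iff.rfl,
      fun _ => Iff.rfl, rfl⟩
  · have := K.caL (x, 0) h
    rw [ca, fL] at this; exact this
  · have := K.caR (x, 0) h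
    rw [ca, fR] at this; exact this
  · obtain ⟨k, hk⟩ := lift hL (e := y) (y := K.L (x, 0)) h.symm
    have := K.injL (x, 0) (y, k) hx (by rw [cb]; exact hy) hk.symm
    exact congrArg Prod.fst this
  · obtain ⟨k, hk⟩ := lift hR (e := y) (y := K.R (x, 0)) h.symm
    have := K.injR (x, 0) (y, k) hx (by rw [cb]; exact hy) hk.symm
    exact congrArg Prod.fst this
  · obtain ⟨x, h1, h2⟩ := K.surL (y, 0) h
    exact ⟨x.1, by rw [← cb]; exact h1, by rw [← fL, h2]⟩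
  · obtain ⟨x, h1, h2⟩ := K.surR (y, 0) h
    exact ⟨x.1, by rw [← cb]; exact h1, by rw [← fR, h2]⟩
  · have := K.up3 (x, 0) h1 h2
    rw [cb, od, fU] at this; exact this
  · obtain ⟨k, hk⟩ := lift hU (e := y) (y := K.up (x, 0)) h.symm
    have := K.upinj (x, 0) (y, k) h1 h2 (by rw [cb]; exact h3) (by rw [tp]; exact h4) hk.symm
    exact congrArg Prod.fst this
  · obtain ⟨x, g1, g2, g3⟩ := K.upsur (y, 0) h1 h2
    exact ⟨x.1, by rw [← cb]; exact g1, by rw [← tp]; exact g2, by rw [← fU, g3]⟩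
  · have := K.topL (x, 0) h
    rw [tp, fL] at this; exact this
  · have := K.topR (x, 0) h
    rw [tp, fR] at this; exact this
  · have := K.cenL (x, 0) h
    rw [cc, fL] at this; exact this
  · obtain ⟨u, i, g1, g2, g3⟩ := K.covU (x, 0) h
    refine ⟨u.1, i, by rw [← ca]; exact g1, fun j hj => ?_, by rw [← iL, g3]⟩
    rw [← iL, ← cb]; exact g2 j hj
  · obtain ⟨u, i, g1, g2, g3⟩ := K.covL (x, 0) h
    refine ⟨u.1, i, by rw [← ca]; exact g1, fun j hj => ?_, by rw [← iR, g3]⟩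
    rw [← iR, ← cb]; exact g2 j hj
  · obtain ⟨x, y, rfl, rfl, hxy⟩ := lend u l h
    obtain ⟨n, m, g1, g2, g3, g4, g5, g6⟩ := K.faceR x y hxy
    refine ⟨n, m, (uch _ _).1 g1, (lch _ _).1 g2, ?_, ?_, ?_, ?_⟩
    · have := rend _ _ g3
      rwa [iL, iR] at this
    · simpa only [ca, cb, iL] using g4
    · simpa only [tp, fL] using g5
    · simpa only [tp, fL, ca, cb] using g6
  · obtain ⟨n, g1, g2, g3, g4⟩ := K.faceO (p, 0) h
    refine ⟨n, ?_, ?_, g3, ?_⟩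
    · have := (uch _ _).1 g1
      rwa [fR] at this
    · rwa [od, iL, fR] at g2
    · simpa only [tp, iL, fR] using g4
  · have := K.bt (u, 0) n h1 ((uch _ _).2 h2) h3 (by rw [tp, iL]; exact h4) i hi
    rwa [tp, iL] at this
  · exact K.cap (p, 0) n h1 h2 (by rw [cb, fL]; exact h3) (by rw [tp, fL, fL]; exact h4) h5
      ((uch _ _).2 (by rw [fR]; exact h6))

open Real in
theorem circ5 {E : Type} (S : Set E) (ϑ : E → ℝ)
    (h : ∀ e ∈ S, ∀ e' ∈ S, e ≠ e' → ∀ k : ℤ, Real.pi / 3 < |ϑ e - ϑ e' - 2 * Real.pi * k|) :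
    S.ncard ≤ 5 := by
  rcases S.eq_empty_or_nonempty with rfl | ⟨e0, he0⟩
  · simp
  have hp : 0 < 2 * π := by positivity
  have hp3 : 0 < π / 3 := by positivity
  -- offsets in `[0, 2π)`
  have hoff : ∀ e, ∃ k : ℤ, 0 ≤ ϑ e - ϑ e0 - 2 * π * k ∧ ϑ e - ϑ e0 - 2 * π * k < 2 * π := by
    intro e
    refine ⟨⌊(ϑ e - ϑ e0) / (2 * π)⌋, ?_, ?_⟩
    · have := Int.floor_le ((ϑ e - ϑ e0) / (2 * π))
      rw [le_div_iff₀ hp] at this
      linarith only [this]
    · have := Int.lt_floor_add_one ((ϑ e - ϑ e0) / (2 * π))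
      rw [div_lt_iff₀ hp] at this
      linarith only [this]
  choose k hk0 hk1 using hoff
  set o : E → ℝ := fun e => ϑ e - ϑ e0 - 2 * π * k e with ho
  have hlow : ∀ e ∈ S, e ≠ e0 → π / 3 < o e ∧ o e < 5 * (π / 3) := by
    intro e he hne
    have h1 := h e he e0 he0 hne (k e)
    have h2 := h e he e0 he0 hne (k e + 1)
    rw [abs_of_nonneg (hk0 e)] at h1
    rw [abs_of_neg (by push_cast; linarith only [hk1, hk1 e])] at h2
    push_cast at h2
    exact ⟨h1, by simp only [ho]; linarith only [h2]⟩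
  let g : E → ℤ := fun e => ⌈o e / (π / 3)⌉
  have hmap : ∀ e ∈ S \ {e0}, g e ∈ (Finset.Icc (2 : ℤ) 5 : Set ℤ) := by
    intro e he
    obtain ⟨h1, h2⟩ := hlow e he.1 he.2
    simp only [Finset.coe_Icc, Set.mem_Icc, g]
    constructor
    · have : (1 : ℤ) < ⌈o e / (π / 3)⌉ := by
        rw [Int.lt_ceil, lt_div_iff₀ hp3]; push_cast; linarith only [h1]
      omega
    · rw [Int.ceil_le, div_le_iff₀ hp3]; push_cast; linarith only [h2]
  have hinj : Set.InjOn g (S \ {e0}) := by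
    intro a ha b hb hab
    by_contra hne
    have h1 := h a ha.1 b hb.1 hne (k a - k b)
    have e1 : ϑ a - ϑ b - 2 * π * ((k a - k b : ℤ) : ℝ) = o a - o b := by
      simp only [ho]; push_cast; ring
    rw [e1] at h1
    have a1 := Int.le_ceil (o a / (π / 3))
    have a2 := Int.ceil_lt_add_one (o a / (π / 3))
    have b1 := Int.le_ceil (o b / (π / 3))
    have b2 := Int.ceil_lt_add_one (o b / (π / 3))
    have hab' : ((⌈o a / (π / 3)⌉ : ℤ) : ℝ) = ((⌈o b / (π / 3)⌉ : ℤ) : ℝ) := by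
      exact_mod_cast hab
    have c1 : (o a - o b) / (π / 3) < 1 := by rw [sub_div]; linarith only [a1, b2, hab']
    have c2 : -1 < (o a - o b) / (π / 3) := by rw [sub_div]; linarith only [a2, b1, hab']
    rw [div_lt_iff₀ hp3] at c1
    rw [lt_div_iff₀ hp3] at c2
    have : |o a - o b| < π / 3 := abs_lt.2 ⟨by linarith only [c2], by linarith only [c1]⟩
    linarith only [h1, this]
  have hfin : (S \ {e0}).ncard ≤ 4 := by
    have := Set.ncard_le_ncard_of_injOn g hmap hinj (Finset.finite_toSet _)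
    rw [Set.ncard_coe_finset] at this
    simpa using this
  have hS : S = insert e0 (S \ {e0}) := by
    rw [Set.insert_sdiff_singleton, Set.insert_eq_of_mem he0]
  rw [hS]
  exact (Set.ncard_insert_le _ _).trans (by omega)

end Pool.Agent.Work.MP_dd6b33_gt
end

-- merged part: Pool.Agent.Work.MP_dd6b33_gt.ExtractCurve
section
/-!
Single shrinker curves in the complex plane: radial pieces and polar arcs.
-/

namespace Pool.Agent.Work.MP_dd6b33_gt

open Set Real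

/-- A curve `γ` with unit tangent `τ` and speed `v` solving the shrinker equation. -/
structure Nice (D : Set ℝ) (γ τ : ℝ → ℂ) (v : ℝ → ℝ) : Prop where
  cγ : ContinuousOn γ D
  cτ : ContinuousOn τ D
  cv : ContinuousOn v D
  vpos : ∀ t ∈ D, 0 < v t
  τn : ∀ t ∈ D, ‖τ t‖ = 1
  dγ : ∀ t ∈ interior D, HasDerivAt γ (v t * τ t) t
  dτ : ∀ t ∈ interior D,
    HasDerivAt τ (v t * ((starRingEnd ℂ) (γ t) * τ t).im * Complex.I * τ t) t

theorem const_of_deriv {D : Set ℝ} (hD : Convex ℝ D) {f : ℝ → ℝ} (hc : ContinuousOn f D)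
    (hd : ∀ t ∈ interior D, HasDerivAt f 0 t) {s t : ℝ} (hs : s ∈ D) (ht : t ∈ D) : f s = f t := by
  have h1 : MonotoneOn f D := monotoneOn_of_deriv_nonneg hD hc
    (fun x hx => (hd x hx).differentiableAt.differentiableWithinAt)
    (fun x hx => by rw [(hd x hx).deriv])
  have h2 : AntitoneOn f D := antitoneOn_of_deriv_nonpos hD hc
    (fun x hx => (hd x hx).differentiableAt.differentiableWithinAt)
    (fun x hx => by rw [(hd x hx).deriv])
  rcases le_total s t with h | h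
  · exact le_antisymm (h1 hs ht h) (h2 hs ht h)
  · exact le_antisymm (h2 ht hs h) (h1 ht hs h)

theorem hasDerivAt_re {f : ℝ → ℂ} {f' : ℂ} {t : ℝ} (h : HasDerivAt f f' t) :
    HasDerivAt (fun s => (f s).re) f'.re t :=
  Complex.reCLM.hasFDerivAt.comp_hasDerivAt t h

theorem hasDerivAt_im {f : ℝ → ℂ} {f' : ℂ} {t : ℝ} (h : HasDerivAt f f' t) :
    HasDerivAt (fun s => (f s).im) f'.im t :=
  Complex.imCLM.hasFDerivAt.comp_hasDerivAt t h

theorem hasDerivAt_conj {f : ℝ → ℂ} {f' : ℂ} {t : ℝ} (h : HasDerivAt f f' t) :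
    HasDerivAt (fun s => (starRingEnd ℂ) (f s)) ((starRingEnd ℂ) f') t :=
  (Complex.conjCLE : ℂ →L[ℝ] ℂ).hasFDerivAt.comp_hasDerivAt t h

theorem const_of_deriv_c {D : Set ℝ} (hD : Convex ℝ D) {f : ℝ → ℂ} (hc : ContinuousOn f D)
    (hd : ∀ t ∈ interior D, HasDerivAt f 0 t) {s t : ℝ} (hs : s ∈ D) (ht : t ∈ D) : f s = f t :=
  Complex.ext
    (const_of_deriv hD (f := fun s => (f s).re) (Complex.continuous_re.comp_continuousOn hc)
      (fun t ht => hasDerivAt_re (hd t ht)) hs ht)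
    (const_of_deriv hD (f := fun s => (f s).im) (Complex.continuous_im.comp_continuousOn hc)
      (fun t ht => hasDerivAt_im (hd t ht)) hs ht)

theorem conj_mul_self_of_norm {u : ℂ} (h : ‖u‖ = 1) : (starRingEnd ℂ) u * u = 1 := by
  rw [Complex.conj_mul', h]; simp

namespace Nice

variable {D : Set ℝ} {γ τ : ℝ → ℂ} {v : ℝ → ℝ}

theorem cw (h : Nice D γ τ v) : ContinuousOn (fun t => (starRingEnd ℂ) (γ t) * τ t) D :=
  (Complex.continuous_conj.comp_continuousOn h.cγ).mul h.cτ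

theorem dw (h : Nice D γ τ v) {t : ℝ} (ht : t ∈ interior D) :
    HasDerivAt (fun t => (starRingEnd ℂ) (γ t) * τ t)
      (v t + v t * ((starRingEnd ℂ) (γ t) * τ t).im * Complex.I *
        ((starRingEnd ℂ) (γ t) * τ t)) t := by
  refine ((hasDerivAt_conj (h.dγ t ht)).mul (h.dτ t ht)).congr_deriv ?_
  rw [map_mul, Complex.conj_ofReal, mul_assoc (v t : ℂ) _ (τ t),
    conj_mul_self_of_norm (h.τn t (interior_subset ht))]
  ring

theorem dn (h : Nice D γ τ v) {t : ℝ} (ht : t ∈ interior D) :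
    HasDerivAt (fun t => ‖γ t‖ ^ 2) (2 * v t * ((starRingEnd ℂ) (γ t) * τ t).re) t := by
  have h1 := hasDerivAt_re ((hasDerivAt_conj (h.dγ t ht)).mul (h.dγ t ht))
  have h2 : (fun t => ‖γ t‖ ^ 2) = fun s => ((starRingEnd ℂ) (γ s) * γ s).re := by
    funext s
    rw [Complex.conj_mul', ← Complex.ofReal_pow, Complex.ofReal_re]
  rw [h2]
  refine h1.congr_deriv ?_
  simp
  ring

theorem cconst (h : Nice D γ τ v) (hD : Convex ℝ D) {s t : ℝ} (hs : s ∈ D) (ht : t ∈ D) :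
    exp (-(‖γ s‖ ^ 2) / 2) * ((starRingEnd ℂ) (γ s) * τ s).im =
      exp (-(‖γ t‖ ^ 2) / 2) * ((starRingEnd ℂ) (γ t) * τ t).im := by
  refine const_of_deriv hD
    (f := fun s => exp (-(‖γ s‖ ^ 2) / 2) * ((starRingEnd ℂ) (γ s) * τ s).im) ?_ ?_ hs ht
  · exact (((h.cγ.norm.pow 2).neg.div_const 2).rexp).mul
      (Complex.continuous_im.comp_continuousOn h.cw)
  · intro x hx
    refine ((((h.dn hx).neg.div_const 2).exp).mul (hasDerivAt_im (h.dw hx))).congr_deriv ?_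
    simp
    ring

theorem radial (h : Nice D γ τ v) (hD : Convex ℝ D) (h0 : 0 ∈ D)
    (hp : ∀ t ∈ D, ((starRingEnd ℂ) (γ t) * τ t).im = 0) :
    ∃ σ : ℝ → ℝ, ContinuousOn σ D ∧ StrictMonoOn σ D ∧ σ 0 = 0 ∧
      ∀ t ∈ D, τ t = τ 0 ∧ γ t = γ 0 + σ t * τ 0 := by
  have hτ : ∀ t ∈ D, τ t = τ 0 := fun t ht =>
    const_of_deriv_c hD h.cτ (fun x hx => by
      have := h.dτ x hx
      rw [hp x (interior_subset hx)] at this
      simpa using this) ht h0
  have hu := conj_mul_self_of_norm (h.τn 0 h0)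
  have hc : ContinuousOn (fun t => (starRingEnd ℂ) (τ 0) * (γ t - γ 0)) D :=
    continuousOn_const.mul (h.cγ.sub continuousOn_const)
  have hd : ∀ t ∈ interior D,
      HasDerivAt (fun t => (starRingEnd ℂ) (τ 0) * (γ t - γ 0)) (v t) t := fun t ht => by
    refine (((h.dγ t ht).sub_const (γ 0)).const_mul ((starRingEnd ℂ) (τ 0))).congr_deriv ?_
    rw [hτ t (interior_subset ht), mul_left_comm, hu, mul_one]
  refine ⟨fun t => ((starRingEnd ℂ) (τ 0) * (γ t - γ 0)).re,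
    Complex.continuous_re.comp_continuousOn hc, ?_, by simp, fun t ht => ⟨hτ t ht, ?_⟩⟩
  · refine strictMonoOn_of_deriv_pos hD (Complex.continuous_re.comp_continuousOn hc) fun x hx => ?_
    rw [(hasDerivAt_re (hd x hx)).deriv, Complex.ofReal_re]
    exact h.vpos x (interior_subset hx)
  · have him : ((starRingEnd ℂ) (τ 0) * (γ t - γ 0)).im = 0 := by
      have := const_of_deriv hD (f := fun t => ((starRingEnd ℂ) (τ 0) * (γ t - γ 0)).im)
        (Complex.continuous_im.comp_continuousOn hc)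
        (fun x hx => by simpa using hasDerivAt_im (hd x hx)) ht h0
      simpa using this
    have h2 : ((((starRingEnd ℂ) (τ 0) * (γ t - γ 0)).re : ℝ) : ℂ) =
        (starRingEnd ℂ) (τ 0) * (γ t - γ 0) :=
      Complex.ext (Complex.ofReal_re _) (by rw [Complex.ofReal_im, him])
    rw [h2, mul_right_comm, hu]
    ring

theorem rev (h : Nice (Icc 0 1) γ τ v) :
    Nice (Icc 0 1) (fun t => γ (1 - t)) (fun t => -τ (1 - t)) (fun t => v (1 - t)) := by
  have hm : MapsTo (fun t : ℝ => 1 - t) (Icc 0 1) (Icc 0 1) := fun t ht =>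
    ⟨by linarith [ht.2], by linarith [ht.1]⟩
  have hi : ∀ t ∈ interior (Icc (0 : ℝ) 1), 1 - t ∈ interior (Icc (0 : ℝ) 1) := fun t ht => by
    rw [interior_Icc] at ht ⊢
    exact ⟨by linarith [ht.2], by linarith [ht.1]⟩
  have hc : ContinuousOn (fun t : ℝ => 1 - t) (Icc 0 1) := by fun_prop
  refine ⟨h.cγ.comp hc hm, (h.cτ.comp hc hm).neg, h.cv.comp hc hm, fun t ht => h.vpos _ (hm ht),
    fun t ht => by rw [norm_neg]; exact h.τn _ (hm ht), fun t ht => ?_, fun t ht => ?_⟩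
  · refine ((h.dγ _ (hi t ht)).comp_const_sub 1 t).congr_deriv ?_
    ring
  · refine ((h.dτ _ (hi t ht)).comp_const_sub 1 t).neg.congr_deriv ?_
    simp only [mul_neg, Complex.neg_im, Complex.ofReal_neg]
    ring

theorem arc (h : Nice (Icc 0 1) γ τ v)
    (hp : ∀ t ∈ Icc (0 : ℝ) 1, 0 < ((starRingEnd ℂ) (γ t) * τ t).im) :
    ∃ A : Arc, ∃ T : ℝ → ℝ, T A.a = 0 ∧ T A.b = 1 ∧ StrictMono T ∧
      ∀ θ ∈ Icc A.a A.b, γ (T θ) = A.r θ * ei θ ∧ τ (T θ) = ei (θ + A.φ θ) := by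
  have hγ0 : ∀ t ∈ Icc (0 : ℝ) 1, γ t ≠ 0 := fun t ht h0 => by
    have := hp t ht
    rw [h0] at this
    simp at this
  set cl : ℝ → ℝ := fun t => max 0 (min 1 t) with hcl
  have hclc : Continuous cl := by fun_prop
  have hclm : ∀ t, cl t ∈ Icc (0 : ℝ) 1 := fun t =>
    ⟨le_max_left _ _, max_le zero_le_one (min_le_left _ _)⟩
  have hcle : ∀ t ∈ Icc (0 : ℝ) 1, cl t = t := fun t ht => by
    simp only [hcl]
    rw [min_eq_right ht.2, max_eq_right ht.1]
  set G : ℝ → ℂ := fun t => v t * τ t / γ t with hG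
  have hGc : ContinuousOn G (Icc 0 1) :=
    ((Complex.continuous_ofReal.comp_continuousOn h.cv).mul h.cτ).div h.cγ hγ0
  have hFc : Continuous fun t => G (cl t) := hGc.comp_continuous hclc hclm
  set L : ℝ → ℂ := fun t => Complex.log (γ 0) + ∫ s in (0 : ℝ)..t, G (cl s) with hL
  have hLd : ∀ t, HasDerivAt L (G (cl t)) t := fun t =>
    ((hFc.integral_hasStrictDerivAt 0 t).hasDerivAt).const_add _
  have hLc : Continuous L := continuous_iff_continuousAt.2 fun t => (hLd t).continuousAt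
  have hexp : ∀ t ∈ Icc (0 : ℝ) 1, γ t = Complex.exp (L t) := fun t ht => by
    have h1 := const_of_deriv_c (convex_Icc (0 : ℝ) 1) (f := fun t => γ t * Complex.exp (-L t))
      (h.cγ.mul (by fun_prop)) (fun x hx => by
        have hx' := interior_subset hx
        refine ((h.dγ x hx).mul (hLd x).neg.cexp).congr_deriv ?_
        rw [hcle x hx']
        simp only [hG, Pi.neg_apply]
        field_simp [hγ0 x hx']
        ring) ht ⟨le_rfl, zero_le_one⟩
    have h2 : L 0 = Complex.log (γ 0) := by simp [hL]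
    simp only [h2, Complex.exp_neg, Complex.exp_log (hγ0 0 ⟨le_rfl, zero_le_one⟩)] at h1
    rw [mul_inv_cancel₀ (hγ0 0 ⟨le_rfl, zero_le_one⟩)] at h1
    exact (mul_inv_eq_one₀ (Complex.exp_ne_zero _)).1 h1
  set R : ℝ → ℝ := fun t => exp (L t).re with hR
  set θ : ℝ → ℝ := fun t => (L t).im with hθ
  set φ : ℝ → ℝ := fun t => (Complex.log ((starRingEnd ℂ) (γ t) * τ t)).im with hφ
  have hRp : ∀ t, 0 < R t := fun t => exp_pos _
  have hpol : ∀ t ∈ Icc (0 : ℝ) 1, γ t = R t * ei (θ t) := fun t ht => by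
    rw [hexp t ht]
    simp only [hR, hθ, ei]
    rw [Complex.ofReal_exp, ← Complex.exp_add, Complex.re_add_im]
  have hφ0 : ∀ t ∈ Icc (0 : ℝ) 1, 0 < φ t := fun t ht => by
    simp only [hφ]
    rw [Complex.log_im]
    refine lt_of_le_of_ne (Complex.arg_nonneg_iff.2 (hp t ht).le) fun h0 => ?_
    exact (hp t ht).ne' (Complex.arg_eq_zero_iff.1 h0.symm).2
  have hφ1 : ∀ t ∈ Icc (0 : ℝ) 1, φ t < π := fun t ht => by
    simp only [hφ]
    rw [Complex.log_im]
    exact Complex.arg_lt_pi_iff.2 (Or.inr (hp t ht).ne')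
  have hw : ∀ t ∈ Icc (0 : ℝ) 1, (starRingEnd ℂ) (γ t) * τ t = R t * ei (φ t) := fun t ht => by
    have h1 := Complex.norm_mul_exp_arg_mul_I ((starRingEnd ℂ) (γ t) * τ t)
    have h2 : ‖(starRingEnd ℂ) (γ t) * τ t‖ = R t := by
      rw [norm_mul, h.τn t ht, mul_one, Complex.norm_conj, hpol t ht, norm_mul, norm_ei, mul_one,
        Complex.norm_real, Real.norm_of_nonneg (hRp t).le]
    rw [h2] at h1
    simp only [hφ]
    rw [Complex.log_im]
    exact h1.symm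
  have hτ : ∀ t ∈ Icc (0 : ℝ) 1, τ t = ei (θ t + φ t) := fun t ht => by
    have h1 := hw t ht
    rw [hpol t ht, map_mul, Complex.conj_ofReal, mul_assoc] at h1
    have h2 := mul_left_cancel₀ (by exact_mod_cast (hRp t).ne') h1
    rw [ei_add, ← h2, ← mul_assoc, mul_comm (ei _), conj_mul_self_of_norm (norm_ei _), one_mul]
  have hGe : ∀ t ∈ Icc (0 : ℝ) 1, G t = ((v t / R t : ℝ) : ℂ) * ei (φ t) := fun t ht => by
    simp only [hG]
    rw [hτ t ht, hpol t ht, ei_add]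
    have := ei_ne_zero (θ t)
    have : (R t : ℂ) ≠ 0 := by exact_mod_cast (hRp t).ne'
    push_cast
    field_simp
  have hGim : ∀ t ∈ Icc (0 : ℝ) 1, (G t).im = v t / R t * sin (φ t) := fun t ht => by
    rw [hGe t ht, Complex.im_ofReal_mul, ei_im]
  have hGre : ∀ t ∈ Icc (0 : ℝ) 1, (G t).re = v t / R t * cos (φ t) := fun t ht => by
    rw [hGe t ht, Complex.re_ofReal_mul, ei_re]
  have hsin : ∀ t ∈ Icc (0 : ℝ) 1, 0 < sin (φ t) := fun t ht =>
    sin_pos_of_pos_of_lt_pi (hφ0 t ht) (hφ1 t ht)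
  have hGp : ∀ t ∈ Icc (0 : ℝ) 1, 0 < (G t).im := fun t ht => by
    rw [hGim t ht]
    exact mul_pos (div_pos (h.vpos t ht) (hRp t)) (hsin t ht)
  have hθd : ∀ t, HasDerivAt θ (G (cl t)).im t := fun t => hasDerivAt_im (hLd t)
  have hθm : StrictMono θ := strictMono_of_deriv_pos fun t => by
    rw [(hθd t).deriv]; exact hGp _ (hclm t)
  obtain ⟨t0, ht0, hmin⟩ := isCompact_Icc.exists_isMinOn (nonempty_Icc.2 zero_le_one)
    (Complex.continuous_im.comp_continuousOn hGc)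
  have hm := hGp t0 ht0
  have hgrow : ∀ x y, x ≤ y → (G t0).im * (y - x) ≤ θ y - θ x := fun x y hxy =>
    mul_sub_le_image_sub_of_le_deriv (fun t => (hθd t).differentiableAt)
      (fun t => by rw [(hθd t).deriv]; exact hmin (hclm t)) hxy
  have hθc : Continuous θ := Complex.continuous_im.comp hLc
  have hsurj : Function.Surjective θ := by
    intro y
    set M := |y - θ 0| / (G t0).im with hM
    have hM0 : 0 ≤ M := div_nonneg (abs_nonneg _) hm.le
    have hM1 : (G t0).im * M = |y - θ 0| := by rw [hM]; field_simp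
    have h1 := hgrow 0 M hM0
    have h2 := hgrow (-M) 0 (by linarith only [hM0])
    have h3 := le_abs_self (y - θ 0)
    have h4 := neg_abs_le (y - θ 0)
    rw [sub_zero] at h1
    rw [sub_neg_eq_add, zero_add] at h2
    obtain ⟨x, -, hx⟩ := intermediate_value_Icc (show -M ≤ M by linarith only [hM0]) hθc.continuousOn
      (show y ∈ Icc (θ (-M)) (θ M) from ⟨by linarith only [hM1, h2, h4], by linarith only [hM1, h1, h3]⟩)
    exact ⟨x, hx⟩
  set e := hθm.orderIsoOfSurjective θ hsurj with he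
  have he1 : ∀ y, θ (e.symm y) = y := fun y => e.apply_symm_apply y
  have he2 : ∀ t, e.symm (θ t) = t := fun t => e.symm_apply_apply t
  have hTc : Continuous e.symm := e.symm.continuous
  have hTm : ∀ y ∈ Icc (θ 0) (θ 1), e.symm y ∈ Icc (0 : ℝ) 1 := fun y hy =>
    ⟨by rw [← he2 0]; exact e.symm.monotone hy.1, by rw [← he2 1]; exact e.symm.monotone hy.2⟩
  have hTi : ∀ y ∈ Ioo (θ 0) (θ 1), e.symm y ∈ interior (Icc (0 : ℝ) 1) := fun y hy => by
    rw [interior_Icc]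
    exact ⟨by rw [← he2 0]; exact e.symm.strictMono hy.1,
      by rw [← he2 1]; exact e.symm.strictMono hy.2⟩
  have hTd : ∀ y, HasDerivAt e.symm (G (cl (e.symm y))).im⁻¹ y := fun y =>
    HasDerivAt.of_local_left_inverse hTc.continuousAt (hθd _) (hGp _ (hclm _)).ne'
      (Filter.Eventually.of_forall he1)
  have hslit : ∀ t ∈ Icc (0 : ℝ) 1, (starRingEnd ℂ) (γ t) * τ t ∈ Complex.slitPlane :=
    fun t ht => Or.inr (hp t ht).ne'
  have hφc : ContinuousOn φ (Icc 0 1) :=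
    Complex.continuous_im.comp_continuousOn (h.cw.clog hslit)
  have hRd : ∀ t, HasDerivAt R (R t * (G (cl t)).re) t := fun t => (hasDerivAt_re (hLd t)).exp
  have hφd : ∀ t ∈ interior (Icc (0 : ℝ) 1),
      HasDerivAt φ (v t / R t * sin (φ t) * (R t ^ 2 - 1)) t := fun t ht => by
    have ht' := interior_subset ht
    refine (hasDerivAt_im ((h.dw ht).clog_real (hslit t ht'))).congr_deriv ?_
    have hR0 : (R t : ℂ) ≠ 0 := by exact_mod_cast (hRp t).ne'
    have hE := ei_ne_zero (φ t)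
    have h1 : ((starRingEnd ℂ) (γ t) * τ t).im = R t * sin (φ t) := by
      rw [hw t ht', Complex.im_ofReal_mul, ei_im]
    have h2 : ei (φ t) * ei (-φ t) = 1 := by rw [← ei_add, add_neg_cancel, ei_zero]
    have h3 : ((v t : ℂ) + v t * ((R t * sin (φ t) : ℝ) : ℂ) * Complex.I * (R t * ei (φ t))) /
        (R t * ei (φ t)) = ((v t / R t : ℝ) : ℂ) * ei (-φ t) +
          ((v t * (R t * sin (φ t)) : ℝ) : ℂ) * Complex.I := by
      rw [eq_inv_of_mul_eq_one_right h2]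
      push_cast
      field_simp
    rw [h1, hw t ht', h3, Complex.add_im, Complex.im_ofReal_mul, Complex.im_ofReal_mul, ei_im,
      Complex.I_im, sin_neg]
    have := (hRp t).ne'
    field_simp
    ring
  refine ⟨⟨θ 0, θ 1, fun y => R (e.symm y), fun y => φ (e.symm y), hθm zero_lt_one, ?_,
    hφc.comp hTc.continuousOn hTm, fun y _ => hRp _, fun y hy => hφ0 _ (hTm y hy),
    fun y hy => hφ1 _ (hTm y hy), fun y hy => ?_, fun y hy => ?_⟩, e.symm, he2 0, he2 1,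
    e.symm.strictMono, fun y hy => ⟨?_, ?_⟩⟩
  · exact ((continuous_iff_continuousAt.2 fun t => (hRd t).continuousAt).comp hTc).continuousOn
  · have hi := interior_subset (hTi y hy)
    refine ((hRd _).comp y (hTd y)).congr_deriv ?_
    rw [hcle _ hi, hGim _ hi, hGre _ hi]
    have := (hRp (e.symm y)).ne'
    have := (h.vpos _ hi).ne'
    have := (hsin _ hi).ne'
    field_simp
  · have hi := interior_subset (hTi y hy)
    refine ((hφd _ (hTi y hy)).comp y (hTd y)).congr_deriv ?_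
    rw [hcle _ hi, hGim _ hi]
    have := (hRp (e.symm y)).ne'
    have := (h.vpos _ hi).ne'
    have := (hsin _ hi).ne'
    field_simp
  · rw [hpol _ (hTm y hy), he1]
  · rw [hτ _ (hTm y hy), he1]

end Nice

end Pool.Agent.Work.MP_dd6b33_gt
end

-- merged part: Pool.Agent.Work.MP_dd6b33_gt.ExtractNice
section
/-!
Transport of a regular shrinker along a linear isometry, and the first order form of the
shrinker equation in the complex plane.
-/

namespace Pool.Agent.Work.MP_dd6b33_gt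

open Set Real

theorem dom_uniqueDiffOn (u : Bool) : UniqueDiffOn ℝ (dom u) := by
  unfold dom
  split_ifs
  · exact uniqueDiffOn_Ici 0
  · exact uniqueDiffOn_Icc zero_lt_one

theorem dom_convex (u : Bool) : Convex ℝ (dom u) := by
  unfold dom
  split_ifs
  · exact convex_Ici 0
  · exact convex_Icc 0 1

theorem dom_false : dom false = Icc 0 1 := by simp [dom]

theorem dom_true : dom true = Ici 0 := by simp [dom]

theorem IsEnd.mem {u : Bool} {t : ℝ} (h : IsEnd u t) : t ∈ dom u := by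
  rcases h with rfl | ⟨rfl, rfl⟩
  · cases u
    · rw [dom_false]; exact ⟨le_rfl, zero_le_one⟩
    · rw [dom_true]; exact self_mem_Ici
  · rw [dom_false]; exact ⟨zero_le_one, le_rfl⟩

section transport

variable {V V' : Type} [NormedAddCommGroup V] [InnerProductSpace ℝ V] [NormedAddCommGroup V']
  [InnerProductSpace ℝ V'] (L : V ≃ₗᵢ[ℝ] V') {u : Bool} {γ : ℝ → V} {t : ℝ}

theorem derivWithin_iso (f : ℝ → V) (ht : t ∈ dom u) :
    derivWithin (L ∘ f) (dom u) t = L (derivWithin f (dom u) t) := by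
  unfold derivWithin
  rw [L.comp_fderivWithin (dom_uniqueDiffOn u t ht)]
  rfl

theorem vel_iso (ht : t ∈ dom u) : vel u (L ∘ γ) t = L (vel u γ t) := derivWithin_iso L γ ht

theorem acc_iso (ht : t ∈ dom u) : acc u (L ∘ γ) t = L (acc u γ t) := by
  unfold acc
  rw [← derivWithin_iso L _ ht]
  exact derivWithin_congr (fun s hs => vel_iso L hs) (vel_iso L ht)

theorem tang_iso (ht : t ∈ dom u) : tang u (L ∘ γ) t = L (tang u γ t) := by
  unfold tang
  rw [vel_iso L ht, L.norm_map, map_smul]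

theorem perp_iso (ht : t ∈ dom u) (w : V) : perp u (L ∘ γ) t (L w) = L (perp u γ t w) := by
  unfold perp
  rw [tang_iso L ht, L.inner_map_map, map_sub, map_smul]

theorem curv_iso (ht : t ∈ dom u) : curv u (L ∘ γ) t = L (curv u γ t) := by
  unfold curv
  rw [vel_iso L ht, acc_iso L ht, perp_iso L ht, L.norm_map, map_smul]

theorem inTang_iso (ht : t ∈ dom u) : inTang u (L ∘ γ) t = L (inTang u γ t) := by
  unfold inTang
  split_ifs
  · exact tang_iso L ht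
  · rw [tang_iso L ht, map_neg]

/-- the image of a regular shrinker under a linear isometry -/
def RegularShrinker.map {ι : Type} (S : RegularShrinker V ι) (L : V ≃ₗᵢ[ℝ] V') :
    RegularShrinker V' ι where
  unb := S.unb
  γ := fun i => L ∘ S.γ i
  smooth := fun i => L.contDiff.comp_contDiffOn (S.smooth i)
  regular := fun i t ht => by
    rw [vel_iso L ht]
    exact fun h => S.regular i t ht (L.injective (h.trans (map_zero L).symm))
  proper := fun i hi => by simpa using S.proper i hi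
  embedded := fun i j s hs t ht h => S.embedded i j s hs t ht (L.injective h)
  triple := fun i s hs => by
    rw [← S.triple i s hs]
    congr 1
    ext p
    simp
  angle := fun i s j t hs ht h hne => by
    rw [inTang_iso L hs.mem, inTang_iso L ht.mem, ← S.angle i s j t hs ht (L.injective h) hne]
    exact L.toLinearIsometry.angle_map _ _
  connected := by
    have h := S.connected.image L L.continuous.continuousOn
    rw [image_iUnion] at h
    simpa only [image_comp] using h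
  shrink := fun i t ht => by
    rw [curv_iso L ht, Function.comp_apply, perp_iso L ht, ← map_add, S.shrink i t ht, map_zero]

end transport

theorem norm_tang {u : Bool} {γ : ℝ → ℂ} {t : ℝ} (h : vel u γ t ≠ 0) : ‖tang u γ t‖ = 1 := by
  unfold tang
  rw [norm_smul, norm_inv, norm_norm, inv_mul_cancel₀ (norm_ne_zero_iff.2 h)]

theorem nice_of_shrink {u : Bool} {γ : ℝ → ℂ} (hs : ContDiffOn ℝ 2 γ (dom u))
    (hr : ∀ t ∈ dom u, vel u γ t ≠ 0)
    (he : ∀ t ∈ dom u, curv u γ t + perp u γ t (γ t) = 0) :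
    Nice (dom u) γ (tang u γ) (fun t => ‖vel u γ t‖) := by
  have h1 : ContDiffOn ℝ 1 (vel u γ) (dom u) :=
    hs.derivWithin (dom_uniqueDiffOn u) (by norm_num)
  have hc := h1.continuousOn
  have hv : ∀ t ∈ dom u, (‖vel u γ t‖ : ℂ) * tang u γ t = vel u γ t := fun t ht => by
    unfold tang
    have : (‖vel u γ t‖ : ℂ) ≠ 0 := by exact_mod_cast norm_ne_zero_iff.2 (hr t ht)
    rw [Complex.real_smul]
    push_cast
    field_simp
  refine ⟨hs.continuousOn, (hc.norm.inv₀ fun t ht => norm_ne_zero_iff.2 (hr t ht)).smul hc,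
    hc.norm, fun t ht => norm_pos_iff.2 (hr t ht), fun t ht => norm_tang (hr t ht),
    fun t ht => ?_, fun t ht => ?_⟩
  · rw [hv t (interior_subset ht)]
    exact ((hs.differentiableOn (by norm_num)) t (interior_subset ht)).hasDerivWithinAt.hasDerivAt
      (mem_interior_iff_mem_nhds.1 ht)
  · have ht' := interior_subset ht
    have hd : HasDerivAt (vel u γ) (acc u γ t) t :=
      ((h1.differentiableOn (by norm_num)) t ht').hasDerivWithinAt.hasDerivAt
        (mem_interior_iff_mem_nhds.1 ht)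
    have hn0 : ‖vel u γ t‖ ≠ 0 := norm_ne_zero_iff.2 (hr t ht')
    have hn : HasDerivAt (fun s => ‖vel u γ s‖) (inner ℝ (acc u γ t) (tang u γ t)) t := by
      have h2 := hd.norm_sq.sqrt (pow_ne_zero 2 hn0)
      simp only [sqrt_sq (norm_nonneg _)] at h2
      refine h2.congr_deriv ?_
      unfold tang
      rw [real_inner_smul_right, real_inner_comm]
      field_simp
    have h3 := (hn.inv hn0).smul hd
    refine HasDerivAt.congr_deriv (f := tang u γ) h3 ?_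
    have h4 := he t ht'
    have h5 := hv t ht'
    have h6 := conj_mul_self_of_norm (norm_tang (hr t ht'))
    unfold curv perp at h4
    rw [Complex.inner (γ t)] at h4
    set τ := tang u γ t
    set g := vel u γ t
    set a := acc u γ t
    set q : ℝ := inner ℝ a τ
    set v : ℝ := ‖g‖ with hvdef
    have hv0 : (v : ℂ) ≠ 0 := by exact_mod_cast hn0
    have h7 : γ t - (τ * (starRingEnd ℂ) (γ t)).re • τ =
        -((((starRingEnd ℂ) (γ t) * τ).im : ℝ) : ℂ) * Complex.I * τ := by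
      have h8 : γ t = (starRingEnd ℂ) ((starRingEnd ℂ) (γ t) * τ) * τ := by
        rw [map_mul, Complex.conj_conj, mul_assoc, h6, mul_one]
      rw [mul_comm τ]
      set w := (starRingEnd ℂ) (γ t) * τ
      have h9 : (starRingEnd ℂ) w = w.re - w.im * Complex.I := by
        apply Complex.ext <;> simp
      rw [h8, h9, Complex.real_smul]
      ring
    rw [h7] at h4
    simp only [Pi.inv_apply, Complex.real_smul] at h4 ⊢
    rw [← hvdef, ← h5]
    push_cast at h4 ⊢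
    field_simp at h4 ⊢
    linear_combination h4

end Pool.Agent.Work.MP_dd6b33_gt
end

-- merged part: Pool.Agent.Work.MP_dd6b33_gt.Extract
section
/-!
From a regular shrinker to the sweep model.
-/

namespace Pool.Agent.Work.MP_dd6b33_gt

open Set Real

theorem inTang_zero (u : Bool) (γ : ℝ → ℂ) : inTang u γ 0 = tang u γ 0 := by simp [inTang]

theorem inTang_one (u : Bool) (γ : ℝ → ℂ) : inTang u γ 1 = -tang u γ 1 := by simp [inTang]

theorem unit_cases {z : ℂ} (h : ‖z‖ = 1) (hr : z.re = -1 / 2) :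
    z = ei (2 * π / 3) ∨ z = (starRingEnd ℂ) (ei (2 * π / 3)) := by
  have h3 : cos (2 * π / 3) = -1 / 2 := by
    rw [show 2 * π / 3 = π - π / 3 by ring, cos_pi_sub, cos_pi_div_three]; norm_num
  have h1 : z.re ^ 2 + z.im ^ 2 = 1 := by
    have := Complex.sq_norm z
    rw [h, Complex.normSq_apply] at this
    linarith only [this]
  have h2 := sin_sq_add_cos_sq (2 * π / 3)
  rw [h3] at h2
  rw [hr] at h1
  have h4 : z.im ^ 2 = sin (2 * π / 3) ^ 2 := by linarith only [h1, h2]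
  rcases sq_eq_sq_iff_eq_or_eq_neg.1 h4 with h5 | h5
  · exact Or.inl (Complex.ext (by rw [ei_re, h3, hr]) (by rw [ei_im, h5]))
  · exact Or.inr (Complex.ext (by rw [Complex.conj_re, ei_re, h3, hr])
      (by rw [Complex.conj_im, ei_im, h5]))

namespace RegularShrinker

variable {ι : Type} (S : RegularShrinker ℂ ι)

theorem nice (i : ι) : Nice (dom (S.unb i)) (S.γ i) (tang (S.unb i) (S.γ i))
    (fun t => ‖vel (S.unb i) (S.γ i) t‖) :=
  nice_of_shrink (S.smooth i) (S.regular i) (S.shrink i)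

/-- the curve lies on a line through the origin -/
def Rad (i : ι) : Prop :=
  ∀ t ∈ dom (S.unb i), ((starRingEnd ℂ) (S.γ i t) * tang (S.unb i) (S.γ i) t).im = 0

/-- the interior points of a curve -/
def In (i : ι) : Set ℂ := S.γ i '' {t | t ∈ dom (S.unb i) ∧ ¬ IsEnd (S.unb i) t}

theorem zero_mem (i : ι) : (0 : ℝ) ∈ dom (S.unb i) := IsEnd.mem (Or.inl rfl)

theorem norm_inTang (i : ι) {t : ℝ} (ht : t ∈ dom (S.unb i)) : ‖inTang (S.unb i) (S.γ i) t‖ = 1 := by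
  unfold inTang
  split_ifs
  · exact norm_tang (S.regular i t ht)
  · rw [norm_neg]; exact norm_tang (S.regular i t ht)

theorem rad_of_unb {i : ι} (hi : S.unb i = true) : S.Rad i := by
  intro t ht
  have hN := S.nice i
  set c := exp (-(‖S.γ i t‖ ^ 2) / 2) * ((starRingEnd ℂ) (S.γ i t) * tang (S.unb i) (S.γ i) t).im
    with hc
  by_contra h0
  have hc0 : 0 < |c| := abs_pos.2 (mul_ne_zero (exp_pos _).ne' h0)
  obtain ⟨s, hs1, hs2⟩ := (((S.proper i hi).eventually (Filter.eventually_gt_atTop (2 / |c|))).and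
    (Filter.eventually_ge_atTop 0)).exists
  have hs : s ∈ dom (S.unb i) := by rw [hi, dom_true]; exact hs2
  have h1 := hN.cconst (dom_convex _) ht hs
  rw [← hc] at h1
  set r := ‖S.γ i s‖ with hr
  have hr0 : 0 < r := lt_trans (by positivity) hs1
  have h2 : |((starRingEnd ℂ) (S.γ i s) * tang (S.unb i) (S.γ i) s).im| ≤ r := by
    refine (Complex.abs_im_le_norm _).trans ?_
    rw [norm_mul, hN.τn s hs, Complex.norm_conj, mul_one]
  have h3 : |c| ≤ exp (-(r ^ 2) / 2) * r := by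
    rw [h1, abs_mul, abs_of_pos (exp_pos _)]
    exact mul_le_mul_of_nonneg_left h2 (exp_pos _).le
  have h4 : r ^ 2 / 2 + 1 ≤ exp (r ^ 2 / 2) := add_one_le_exp _
  have h5 : exp (-(r ^ 2) / 2) * exp (r ^ 2 / 2) = 1 := by
    rw [← exp_add, show -(r ^ 2) / 2 + r ^ 2 / 2 = 0 by ring, exp_zero]
  have h6 : |c| * exp (r ^ 2 / 2) ≤ r := by
    have := mul_le_mul_of_nonneg_right h3 (exp_pos (r ^ 2 / 2)).le
    rwa [mul_right_comm, h5, one_mul] at this
  rw [div_lt_iff₀ hc0] at hs1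
  linarith only [hs1, hc0, h6, h4, mul_le_mul_of_nonneg_left h4 hc0.le, mul_pos_of_neg_of_neg (Mathlib.Tactic.Linarith.sub_neg_of_lt hc0) (Mathlib.Tactic.Linarith.sub_neg_of_lt hc0), mul_nonneg_of_nonpos_of_nonpos (le_of_lt (Mathlib.Tactic.Linarith.sub_neg_of_lt hc0)) (Mathlib.Tactic.Linarith.sub_nonpos_of_le h6), mul_nonneg_of_nonpos_of_nonpos (le_of_lt (Mathlib.Tactic.Linarith.sub_neg_of_lt hc0)) (Mathlib.Tactic.Linarith.sub_nonpos_of_le (mul_le_mul_of_nonneg_left h4 (LT.lt.le hc0))), mul_pos_of_neg_of_neg (Mathlib.Tactic.Linarith.sub_neg_of_lt hs1) (Mathlib.Tactic.Linarith.sub_neg_of_lt hs1)]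

theorem arc_data {i : ι} (hi : ¬ S.Rad i) :
    S.unb i = false ∧ ∃ A : Arc, ∃ s0 s1 : ℝ, ∃ T : ℝ → ℝ,
      ((s0 = 0 ∧ s1 = 1) ∨ (s0 = 1 ∧ s1 = 0)) ∧ S.γ i s0 = A.ra * ei A.a ∧
      inTang (S.unb i) (S.γ i) s0 = ei (A.a + A.φa) ∧ S.γ i s1 = A.rb * ei A.b ∧
      inTang (S.unb i) (S.γ i) s1 = -ei (A.b + A.φb) ∧ Function.Injective T ∧
      (∀ θ ∈ Icc A.a A.b, T θ ∈ Icc (0 : ℝ) 1 ∧ S.γ i (T θ) = A.r θ * ei θ) ∧
      ∀ θ ∈ Ioo A.a A.b, T θ ∈ Ioo (0 : ℝ) 1 := by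
  have hu : S.unb i = false := by
    by_contra h
    exact hi (S.rad_of_unb (by simpa using h))
  refine ⟨hu, ?_⟩
  have hN := S.nice i
  have hi' : ∃ t ∈ Icc (0 : ℝ) 1, ((starRingEnd ℂ) (S.γ i t) * tang false (S.γ i) t).im ≠ 0 := by
    by_contra h
    apply hi
    intro t ht
    rw [hu] at ht ⊢
    rw [dom_false] at ht
    by_contra h2
    exact h ⟨t, ht, h2⟩
  rw [hu] at hN ⊢
  rw [dom_false] at hN
  obtain ⟨t0, ht0, h0⟩ := hi'
  rcases lt_or_gt_of_ne h0 with hneg | hpos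
  · have hp : ∀ t ∈ Icc (0 : ℝ) 1,
        0 < ((starRingEnd ℂ) (S.γ i (1 - t)) * -tang false (S.γ i) (1 - t)).im := by
      intro t ht
      have h1 := hN.cconst (convex_Icc 0 1) ht0
        (show 1 - t ∈ Icc (0 : ℝ) 1 from ⟨by linarith [ht.2], by linarith [ht.1]⟩)
      have h2 := mul_neg_of_pos_of_neg (exp_pos (-(‖S.γ i t0‖ ^ 2) / 2)) hneg
      rw [h1] at h2
      rw [mul_neg, Complex.neg_im, neg_pos]
      exact neg_of_mul_neg_left (mul_comm (exp _) _ ▸ h2) (exp_pos _).le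
    obtain ⟨A, T, ha, hb, hT, hA⟩ := hN.rev.arc hp
    have h1 := hA A.a ⟨le_rfl, A.hab.le⟩
    have h2 := hA A.b ⟨A.hab.le, le_rfl⟩
    simp only [ha, hb, sub_zero, sub_self] at h1 h2
    refine ⟨A, 1, 0, fun θ => 1 - T θ, Or.inr ⟨rfl, rfl⟩, h1.1, by rw [inTang_one]; exact h1.2,
      h2.1, by rw [inTang_zero]; exact neg_eq_iff_eq_neg.1 h2.2,
      fun x y hxy => hT.injective (by simpa using hxy), fun θ hθ => ⟨⟨?_, ?_⟩, (hA θ hθ).1⟩,
      fun θ hθ => ⟨?_, ?_⟩⟩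
    · linarith [hT.monotone hθ.2]
    · linarith [hT.monotone hθ.1]
    · linarith [hT hθ.2]
    · linarith [hT hθ.1]
  · have hp : ∀ t ∈ Icc (0 : ℝ) 1, 0 < ((starRingEnd ℂ) (S.γ i t) * tang false (S.γ i) t).im := by
      intro t ht
      have h1 := hN.cconst (convex_Icc 0 1) ht0 ht
      have h2 := mul_pos (exp_pos (-(‖S.γ i t0‖ ^ 2) / 2)) hpos
      rw [h1] at h2
      exact pos_of_mul_pos_left (mul_comm (exp _) _ ▸ h2) (exp_pos _).le
    obtain ⟨A, T, ha, hb, hT, hA⟩ := hN.arc hp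
    have h1 := hA A.a ⟨le_rfl, A.hab.le⟩
    have h2 := hA A.b ⟨A.hab.le, le_rfl⟩
    simp only [ha, hb] at h1 h2
    refine ⟨A, 0, 1, T, Or.inl ⟨rfl, rfl⟩, h1.1, by rw [inTang_zero]; exact h1.2,
      h2.1, by rw [inTang_one, h2.2]; rfl, hT.injective, fun θ hθ => ⟨⟨?_, ?_⟩, (hA θ hθ).1⟩,
      fun θ hθ => ⟨?_, ?_⟩⟩
    · linarith [hT.monotone hθ.1]
    · linarith [hT.monotone hθ.2]
    · linarith [hT hθ.1]
    · linarith [hT hθ.2]

theorem rad_unb {i : ι} (hi : S.unb i = true) {s : ℝ} (hs : 0 < s) :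
    S.γ i 0 + s * inTang (S.unb i) (S.γ i) 0 ∈ S.In i := by
  obtain ⟨σ, hc, hmono, h0, hσ⟩ :=
    (S.nice i).radial (dom_convex _) (S.zero_mem i) (S.rad_of_unb hi)
  have hτ := (S.nice i).τn 0 (S.zero_mem i)
  obtain ⟨t, ht1, ht2⟩ := (((S.proper i hi).eventually
    (Filter.eventually_gt_atTop (‖S.γ i 0‖ + s))).and (Filter.eventually_ge_atTop 0)).exists
  have hD : dom (S.unb i) = Ici 0 := by rw [hi, dom_true]
  have hm : ∀ x, 0 ≤ x → x ∈ dom (S.unb i) := fun x hx => by rw [hD]; exact hx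
  have hσ0 : 0 ≤ σ t := by
    rcases ht2.eq_or_lt with h | h
    · rw [← h, h0]
    · rw [← h0]
      exact (hmono (hm 0 le_rfl) (hm t ht2) h).le
  have h1 : s ≤ σ t := by
    have h2 := norm_add_le (S.γ i 0) (σ t * tang (S.unb i) (S.γ i) 0)
    rw [← (hσ t (hm t ht2)).2, norm_mul, hτ, Complex.norm_real, Real.norm_of_nonneg hσ0] at h2
    linarith
  obtain ⟨x, hx, hx2⟩ := intermediate_value_Icc ht2 (hc.mono fun x hx => hm x hx.1)
    (show s ∈ Icc (σ 0) (σ t) from ⟨by rw [h0]; exact hs.le, h1⟩)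
  refine ⟨x, ⟨hm x hx.1, ?_⟩, ?_⟩
  · rintro (rfl | ⟨h, -⟩)
    · rw [h0] at hx2; linarith
    · rw [hi] at h; exact absurd h (by simp)
  · rw [inTang_zero, (hσ x (hm x hx.1)).2, hx2]

theorem rad_bd {i : ι} (hr : S.Rad i) (hi : S.unb i = false) :
    ∃ l : ℝ, 0 < l ∧ S.γ i 1 = S.γ i 0 + l * inTang (S.unb i) (S.γ i) 0 ∧
      inTang (S.unb i) (S.γ i) 1 = -inTang (S.unb i) (S.γ i) 0 ∧
      ∀ s : ℝ, 0 < s → s < l → S.γ i 0 + s * inTang (S.unb i) (S.γ i) 0 ∈ S.In i := by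
  obtain ⟨σ, hc, hmono, h0, hσ⟩ := (S.nice i).radial (dom_convex _) (S.zero_mem i) hr
  have hD : dom (S.unb i) = Icc 0 1 := by rw [hi, dom_false]
  have h1 : (1 : ℝ) ∈ dom (S.unb i) := by rw [hD]; exact ⟨zero_le_one, le_rfl⟩
  refine ⟨σ 1, h0 ▸ hmono (S.zero_mem i) h1 zero_lt_one, by rw [inTang_zero]; exact (hσ 1 h1).2,
    by rw [inTang_one, inTang_zero, (hσ 1 h1).1], fun s hs hs1 => ?_⟩
  obtain ⟨x, hx, hx2⟩ := intermediate_value_Icc zero_le_one (hD ▸ hc)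
    (show s ∈ Icc (σ 0) (σ 1) from ⟨by rw [h0]; exact hs.le, hs1.le⟩)
  refine ⟨x, ⟨hD ▸ hx, ?_⟩, ?_⟩
  · rintro (rfl | ⟨-, rfl⟩)
    · rw [h0] at hx2; linarith only [hs, hx2]
    · linarith
  · rw [inTang_zero, (hσ x (hD ▸ hx)).2, hx2]

/-- the ends of the curves -/
abbrev W : Type := {p : ι × ℝ // IsEnd (S.unb p.1) p.2}

instance [Finite ι] : Finite S.W := by
  have h : {p : ι × ℝ | IsEnd (S.unb p.1) p.2}.Finite := by
    refine ((finite_univ (α := ι)).prod (toFinite ({0, 1} : Set ℝ))).subset fun p hp => ⟨trivial, ?_⟩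
    rcases hp with h | ⟨-, h⟩
    · exact Or.inl h
    · exact Or.inr h
  exact h.to_subtype

theorem ang (w y : S.W) (h : S.γ w.1.1 w.1.2 = S.γ y.1.1 y.1.2) (hne : w ≠ y) :
    ((starRingEnd ℂ) (inTang (S.unb w.1.1) (S.γ w.1.1) w.1.2) *
      inTang (S.unb y.1.1) (S.γ y.1.1) y.1.2).re = -1 / 2 := by
  have h1 := S.angle _ _ _ _ w.2 y.2 h fun h2 => hne (Subtype.ext h2)
  have h2 := InnerProductGeometry.cos_angle (inTang (S.unb w.1.1) (S.γ w.1.1) w.1.2)
    (inTang (S.unb y.1.1) (S.γ y.1.1) y.1.2)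
  rw [h1, S.norm_inTang _ w.2.mem, S.norm_inTang _ y.2.mem, Complex.inner, mul_one, div_one,
    show 2 * π / 3 = π - π / 3 by ring, cos_pi_sub, cos_pi_div_three, mul_comm] at h2
  rw [← h2]
  norm_num

theorem ncard_ends (w : S.W) : {y : S.W | S.γ y.1.1 y.1.2 = S.γ w.1.1 w.1.2}.ncard = 3 := by
  rw [← S.triple _ _ w.2, ← ncard_image_of_injective _ Subtype.val_injective]
  congr 1
  ext p
  constructor
  · rintro ⟨y, hy, rfl⟩
    exact ⟨y.2, hy⟩
  · rintro ⟨h1, h2⟩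
    exact ⟨⟨p, h1⟩, h2, rfl⟩

theorem rot (w : S.W) : ∃ y : S.W, S.γ y.1.1 y.1.2 = S.γ w.1.1 w.1.2 ∧
    inTang (S.unb y.1.1) (S.γ y.1.1) y.1.2 =
      ei (2 * π / 3) * inTang (S.unb w.1.1) (S.γ w.1.1) w.1.2 := by
  have h1 := ncard_sdiff_singleton_of_mem
    (show w ∈ {y : S.W | S.γ y.1.1 y.1.2 = S.γ w.1.1 w.1.2} from rfl)
  rw [S.ncard_ends w] at h1
  obtain ⟨y, z, hyz, hs⟩ := ncard_eq_two.1 h1
  have hy : y ∈ {y : S.W | S.γ y.1.1 y.1.2 = S.γ w.1.1 w.1.2} \ {w} := by rw [hs]; simp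
  have hz : z ∈ {y : S.W | S.γ y.1.1 y.1.2 = S.γ w.1.1 w.1.2} \ {w} := by rw [hs]; simp
  have hw := S.norm_inTang _ w.2.mem
  have hu := conj_mul_self_of_norm hw
  have key : ∀ x : S.W, x ∈ {y : S.W | S.γ y.1.1 y.1.2 = S.γ w.1.1 w.1.2} \ {w} →
      inTang (S.unb x.1.1) (S.γ x.1.1) x.1.2 =
        ei (2 * π / 3) * inTang (S.unb w.1.1) (S.γ w.1.1) w.1.2 ∨
      inTang (S.unb x.1.1) (S.γ x.1.1) x.1.2 =
        (starRingEnd ℂ) (ei (2 * π / 3)) * inTang (S.unb w.1.1) (S.γ w.1.1) w.1.2 := by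
    intro x hx
    have h2 := S.ang w x hx.1.symm fun h => hx.2 h.symm
    have h3 : ‖(starRingEnd ℂ) (inTang (S.unb w.1.1) (S.γ w.1.1) w.1.2) *
        inTang (S.unb x.1.1) (S.γ x.1.1) x.1.2‖ = 1 := by
      rw [norm_mul, Complex.norm_conj, hw, S.norm_inTang _ x.2.mem, mul_one]
    rcases unit_cases h3 h2 with h4 | h4
    · left
      rw [← h4, mul_right_comm, hu, one_mul]
    · right
      rw [← h4, mul_right_comm, hu, one_mul]
  rcases key y hy with h2 | h2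
  · exact ⟨y, hy.1, h2⟩
  rcases key z hz with h3 | h3
  · exact ⟨z, hz.1, h3⟩
  exfalso
  have h4 := S.ang y z (hy.1.trans hz.1.symm) hyz
  rw [h3, ← h2, conj_mul_self_of_norm (S.norm_inTang _ y.2.mem)] at h4
  norm_num at h4

theorem exists_net : ∃ N : Net ι S.W, N.unb = fun i => S.unb i = true := by
  have hA := fun e : {i // ¬ S.Rad i} => (S.arc_data e.2).2
  have hu := fun e : {i // ¬ S.Rad i} => (S.arc_data e.2).1
  choose A s0 s1 T h01 hp0 hd0 hp1 hd1 hT hT1 hT2 using hA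
  have he0 : ∀ e : {i // ¬ S.Rad i}, IsEnd (S.unb e.1) (s0 e) := fun e => by
    rcases h01 e with h | h
    · exact Or.inl h.1
    · exact Or.inr ⟨hu e, h.1⟩
  have he1 : ∀ e : {i // ¬ S.Rad i}, IsEnd (S.unb e.1) (s1 e) := fun e => by
    rcases h01 e with h | h
    · exact Or.inr ⟨hu e, h.2⟩
    · exact Or.inl h.2
  have hdom : ∀ e : {i // ¬ S.Rad i}, dom (S.unb e.1) = Icc 0 1 := fun e => by
    rw [hu e, dom_false]
  refine ⟨{
    cv := fun w => w.1.1
    pt := fun w => S.γ w.1.1 w.1.2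
    dir := fun w => inTang (S.unb w.1.1) (S.γ w.1.1) w.1.2
    unb := fun i => S.unb i = true
    rad := S.Rad
    In := S.In
    All := fun i => S.γ i '' dom (S.unb i)
    A := A
    st := fun e => ⟨(e.1, s0 e), he0 e⟩
    tm := fun e => ⟨(e.1, s1 e), he1 e⟩
    dn := fun w => S.norm_inTang _ w.2.mem
    rot := S.rot
    ang := S.ang
    three := fun w => (S.ncard_ends w).le
    two := ?_
    emb := ?_
    ptI := ?_
    IA := fun i => image_mono fun t ht => ht.1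
    unb_rad := fun i => S.rad_of_unb
    has_end := fun i => ⟨⟨(i, 0), Or.inl rfl⟩, rfl⟩
    st_cv := fun e => rfl
    tm_cv := fun e => rfl
    ends := ?_
    st_pt := hp0
    st_dir := hd0
    tm_pt := hp1
    tm_dir := hd1
    arcA := fun e θ hθ => ⟨T e θ, hdom e ▸ (hT1 e θ hθ).1, (hT1 e θ hθ).2⟩
    arcE := ?_
    rad_im := ?_
    rad_unb := ?_
    rad_bd := ?_ }, rfl⟩
  · rintro ⟨⟨i, s⟩, hs⟩ ⟨⟨j, t⟩, ht⟩ ⟨⟨k, u⟩, hu⟩ h1 h2 h3 h4
    simp only at h1 h2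
    subst h1 h2
    have h5 : t ≠ s := fun h => h3 (by subst h; rfl)
    have h6 : u ≠ s := fun h => h4 (by subst h; rfl)
    have h7 : t = u := by
      have a1 : s = 0 ∨ s = 1 := hs.imp id And.right
      have a2 : t = 0 ∨ t = 1 := ht.imp id And.right
      have a3 : u = 0 ∨ u = 1 := hu.imp id And.right
      rcases a1 with a1 | a1 <;> rcases a2 with a2 | a2 <;> rcases a3 with a3 | a3 <;>
        first
          | exact a2.trans a3.symm
          | exact absurd (a2.trans a1.symm) h5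
          | exact absurd (a3.trans a1.symm) h6
    subst h7
    rfl
  · rintro i j z ⟨s, hs, rfl⟩ ⟨t, ht, h⟩
    rcases S.embedded i j s hs.1 t ht h.symm with h1 | h1
    · exact h1.1
    · exact absurd h1.1 hs.2
  · rintro w i ⟨s, hs, h⟩
    rcases S.embedded i _ s hs.1 _ w.2.mem h with ⟨rfl, rfl⟩ | h1
    · exact hs.2 w.2
    · exact hs.2 h1.1
  · rintro e ⟨⟨i, s⟩, hs⟩ h
    simp only at h
    subst h
    have h1 : s = s0 e ∨ s = s1 e := by
      have a1 : s = 0 ∨ s = 1 := hs.imp id And.right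
      rcases a1 with a1 | a1 <;> rcases h01 e with h | h <;>
        first
          | exact Or.inl (a1.trans h.1.symm)
          | exact Or.inr (a1.trans h.2.symm)
    rcases h1 with rfl | rfl
    · exact Or.inl rfl
    · exact Or.inr rfl
  · intro e e' θ θ' hθ hθ' h
    have h1 := hT1 e θ (Ioo_subset_Icc_self hθ)
    have h2 := hT1 e' θ' hθ'
    have h3 := hT2 e θ hθ
    rcases S.embedded e.1 e'.1 (T e θ) (hdom e ▸ h1.1) (T e' θ') (hdom e' ▸ h2.1)
      (by rw [h1.2, h2.2, h]) with ⟨h4, h5⟩ | ⟨h4 | ⟨-, h4⟩, -⟩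
    · obtain rfl : e = e' := Subtype.ext h4
      exact ⟨rfl, hT e h5⟩
    · exact absurd h4 h3.1.ne'
    · exact absurd h4 h3.2.ne
  · intro w hw
    have h := hw w.1.2 w.2.mem
    unfold inTang
    split_ifs
    · exact h
    · rw [mul_neg, Complex.neg_im, h, neg_zero]
  · rintro ⟨⟨i, s⟩, hs⟩ hi t ht
    simp only at hi
    rcases hs with hs | ⟨hs, -⟩
    · simp only at hs
      subst hs
      exact S.rad_unb hi ht
    · simp only at hs
      rw [hi] at hs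
      exact absurd hs (by simp)
  · rintro ⟨⟨i, s⟩, hs⟩ hr hi
    simp only at hr hi
    have hi' : S.unb i = false := by simpa using hi
    obtain ⟨l, hl, h1, h2, h3⟩ := S.rad_bd hr hi'
    rcases hs with hs | ⟨-, hs⟩
    · simp only at hs
      subst hs
      exact ⟨⟨(i, 1), Or.inr ⟨hi', rfl⟩⟩, l, rfl, fun h => by simpa using congrArg (·.1.2) h, hl,
        h1, h2, h3⟩
    · simp only at hs
      subst hs
      refine ⟨⟨(i, 0), Or.inl rfl⟩, l, rfl, fun h => by simpa using congrArg (·.1.2) h, hl,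
        ?_, ?_, fun s hs0 hs1 => ?_⟩
      · simp only
        rw [h1, h2]
        ring
      · simp only
        rw [h2, neg_neg]
      · simp only
        have := h3 (l - s) (by linarith) (by linarith)
        rw [h1, h2]
        convert this using 1
        push_cast
        ring

end RegularShrinker

theorem extract {ι : Type} [Finite ι] (S : RegularShrinker (EuclideanSpace ℝ (Fin 2)) ι) :
    {i | S.unb i = true}.ncard ≤ 3 ∨ ∃ (E : Type) (_ : Finite E) (M : GModel E),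
      {i | S.unb i = true}.ncard ≤ {e | Ray M.arc (e, 0)}.ncard := by
  obtain ⟨N, hN⟩ := (S.map Complex.orthonormalBasisOneI.repr.symm).exists_net
  have h := N.count
  rw [hN] at h
  rcases h with h | h
  · exact Or.inl h
  · exact Or.inr ⟨N.E, inferInstance, N.model, h⟩

end Pool.Agent.Work.MP_dd6b33_gt
end

-- merged part: Pool.Agent.Work.MP_dd6b33_gt.Main
section
/-!
The periodic model has at most five halflines.
-/

namespace Pool.Agent.Work.MP_dd6b33_gt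

open Set Real

namespace GModel

variable {E : Type} (M : GModel E)

/-- deck transformation -/
def τ (j : ℤ) (x : E × ℤ) : E × ℤ := (x.1, x.2 + j)

theorem τ_τ (j : ℤ) (x : E × ℤ) : τ j (τ (-j) x) = x := by simp [τ]

theorem τ_τ' (j : ℤ) (x : E × ℤ) : τ (-j) (τ j x) = x := by simp [τ]

theorem ta (j : ℤ) (x : E × ℤ) : (M.arc (τ j x)).a = (M.arc x).a + 2 * π * j := by
  obtain ⟨e, k⟩ := x
  simp only [τ]
  rw [M.sh e (k + j), M.sh e k]
  simp
  ring

theorem tb (j : ℤ) (x : E × ℤ) : (M.arc (τ j x)).b = (M.arc x).b + 2 * π * j := by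
  obtain ⟨e, k⟩ := x
  simp only [τ]
  rw [M.sh e (k + j), M.sh e k]
  simp
  ring

theorem tr (j : ℤ) (x : E × ℤ) (t : ℝ) : (M.arc (τ j x)).r (t + 2 * π * j) = (M.arc x).r t := by
  obtain ⟨e, k⟩ := x
  simp only [τ]
  rw [M.sh e (k + j), M.sh e k]
  simp only [Arc.shift_r]
  congr 1
  push_cast
  ring

theorem tφa (j : ℤ) (x : E × ℤ) : (M.arc (τ j x)).φa = (M.arc x).φa := by
  obtain ⟨e, k⟩ := x
  simp only [τ]
  rw [M.sh e (k + j), M.sh e k]
  simp

theorem tφb (j : ℤ) (x : E × ℤ) : (M.arc (τ j x)).φb = (M.arc x).φb := by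
  obtain ⟨e, k⟩ := x
  simp only [τ]
  rw [M.sh e (k + j), M.sh e k]
  simp

theorem tra (j : ℤ) (x : E × ℤ) : (M.arc (τ j x)).ra = (M.arc x).ra := by
  unfold Arc.ra; rw [ta, tr]

theorem trb (j : ℤ) (x : E × ℤ) : (M.arc (τ j x)).rb = (M.arc x).rb := by
  unfold Arc.rb; rw [tb, tr]

theorem all_τ (j : ℤ) (θ : ℝ) (P : ℝ → Prop)
    (h : ∀ z, (M.arc z).a ≤ θ → θ ≤ (M.arc z).b → P ((M.arc z).r θ)) :
    ∀ z, (M.arc z).a ≤ θ + 2 * π * j → θ + 2 * π * j ≤ (M.arc z).b →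
      P ((M.arc z).r (θ + 2 * π * j)) := by
  intro z a1 a2
  rw [← τ_τ j z] at a1 a2 ⊢
  rw [ta] at a1
  rw [tb] at a2
  rw [tr]
  exact h _ (by linarith) (by linarith)

theorem top_τ (j : ℤ) {x : E × ℤ} (h : M.Top x) : M.Top (τ j x) := by
  intro θ a1 a2
  rw [ta] at a1
  rw [tb] at a2
  obtain ⟨σ, rfl⟩ : ∃ σ, θ = σ + 2 * π * j := ⟨θ - 2 * π * j, by ring⟩
  rw [tr]
  exact M.all_τ j σ (fun v => v ≤ (M.arc x).r σ) (h σ (by linarith) (by linarith))

theorem bot_τ (j : ℤ) {x : E × ℤ} (h : M.Bot x) : M.Bot (τ j x) := by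
  intro θ a1 a2
  rw [ta] at a1
  rw [tb] at a2
  obtain ⟨σ, rfl⟩ : ∃ σ, θ = σ + 2 * π * j := ⟨θ - 2 * π * j, by ring⟩
  rw [tr]
  exact M.all_τ j σ (fun v => (M.arc x).r σ ≤ v) (h σ (by linarith) (by linarith))

theorem top_iff (j : ℤ) (x : E × ℤ) : M.Top (τ j x) ↔ M.Top x :=
  ⟨fun h => τ_τ' j x ▸ M.top_τ (-j) h, M.top_τ j⟩

theorem bot_iff (j : ℤ) (x : E × ℤ) : M.Bot (τ j x) ↔ M.Bot x :=
  ⟨fun h => τ_τ' j x ▸ M.bot_τ (-j) h, M.bot_τ j⟩

theorem od_iff' (j : ℤ) (x : E × ℤ) : Od M.arc (τ j x) ↔ Od M.arc x := by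
  rw [LModel.od_iff, LModel.od_iff, bot_iff, tφb]

theorem seg_τ (j : ℤ) {x y : E × ℤ} (h : M.Seg x y) : M.Seg (τ j x) (τ j y) := by
  obtain ⟨a1, a2, a3, a4, a5⟩ := h
  refine ⟨by rwa [tφb], by rw [tb, tb, a2], by rwa [tφb], by rwa [trb, trb], ?_⟩
  rw [tb, trb, trb]
  exact M.all_τ j _ (fun v => v ≤ (M.arc x).rb ∨ (M.arc y).rb ≤ v) a5

theorem L_τ (j : ℤ) (x : E × ℤ) : M.L (τ j x) = τ j (M.L x) := by
  by_cases h : (M.arc x).φb < 2 * π / 3
  · obtain ⟨a1, a2, a3⟩ := M.TL_L h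
    exact M.L_eq ⟨by rw [ta, tb, a1], by rw [tra, trb, a2], by rw [tφa, tφb, a3]⟩
  · unfold LModel.L
    rw [dif_neg h, dif_neg (by rwa [tφb])]

theorem R_τ (j : ℤ) (x : E × ℤ) : M.R (τ j x) = τ j (M.R x) := by
  by_cases h : π / 3 < (M.arc x).φb
  · obtain ⟨a1, a2, a3⟩ := M.TR_R h
    exact M.R_eq ⟨by rw [ta, tb, a1], by rw [tra, trb, a2], by rw [tφa, tφb, a3]⟩
  · unfold LModel.R
    rw [dif_neg h, dif_neg (by rwa [tφb])]

theorem up_τ (j : ℤ) (x : E × ℤ) : M.upS (τ j x) = τ j (M.upS x) := by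
  by_cases h : ∃ y, M.Seg x y
  · obtain ⟨y, hy⟩ := h
    rw [hy.up_eq, (M.seg_τ j hy).up_eq]
  · unfold LModel.upS
    rw [dif_neg h, dif_neg fun ⟨y, hy⟩ => h ⟨_, τ_τ' j x ▸ M.seg_τ (-j) hy⟩]

theorem od_left (y : E × ℤ) (h : Od M.arc y) (x : E × ℤ) :
    ∃ q, Od M.arc q ∧ (M.arc q).b < (M.arc x).b := by
  obtain ⟨j, hj⟩ := exists_int_lt (((M.arc x).b - (M.arc y).b) / (2 * π))
  rw [lt_div_iff₀ (by positivity)] at hj
  exact ⟨τ j y, (M.od_iff' j y).mpr h, by rw [tb]; linarith⟩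

theorem pair_eq (e : E) (k : ℤ) : (e, k) = τ k (e, 0) := by simp [τ]

theorem five_aux [Finite E] {w : ℝ} {k : ℕ} (hk : (w = π ∧ k = 4) ∨ (w = 2 * π / 3 ∧ k = 3))
    (hO : ∀ x, Od M.arc x → ∃ y, Od M.arc y ∧ (M.arc y).b = (M.arc x).b + w)
    (ho : (k = 4 ∧ {e | Od M.arc (e, 0)}.ncard ≤ 2) ∨ (k = 3 ∧ {e | Od M.arc (e, 0)}.ncard ≤ 3)) :
    {e | Ray M.arc (e, 0)}.ncard ≤ 5 := by
  obtain ⟨K, k1, k2, k3, k4, k5⟩ := (M.toLModel.comb hk hO M.od_left).descend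
    (fun e j => by rw [pair_eq e j]; exact congrArg cls (M.tφa j _))
    (fun e j => by rw [pair_eq e j]; exact congrArg cls (M.tφb j _))
    (fun e j => by rw [pair_eq e j]; exact M.top_iff j _)
    (fun e j => by rw [pair_eq e j]; exact M.od_iff' j _)
    (fun e j => by rw [pair_eq e j]; exact and_congr_left' (M.bot_iff j _))
    (fun e j => by rw [pair_eq e j]; exact M.L_τ j _)
    (fun e j => by rw [pair_eq e j]; exact M.R_τ j _)
    (fun e j => by rw [pair_eq e j]; exact M.up_τ j _)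
  have e1 : {x | K.Od x} = {e | Od M.arc (e, 0)} := Set.ext k3
  have e2 : {x | K.Top x ∧ K.cb x = 1} = {e | Ray M.arc (e, 0)} := Set.ext fun e => by
    show K.Top e ∧ K.cb e = 1 ↔ Ray M.arc (e, 0)
    rw [k1, k2, LModel.ray_iff]
    exact and_congr_right' cls_eq1
  rw [← e2]
  refine K.count (circ5 _ (fun e => (M.arc (e, 0)).a + (M.arc (e, 0)).φa)
    fun e he e' he' hne j => ?_) (by rw [e1, k5]; exact ho)
  have h1 := (k4 e).mp he
  have h2 := (k4 e').mp he'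
  have := LModel.central h1.2 h1.1 (M.bot_τ j h2.1) (fun h => hne (congrArg Prod.fst h))
  rw [ta, tφa] at this
  convert this using 2
  ring

theorem five [Finite E] : {e | Ray M.arc (e, 0)}.ncard ≤ 5 := by
  rcases M.orig with ⟨h1, h2⟩ | ⟨h1, h2⟩
  · exact M.five_aux (Or.inl ⟨rfl, rfl⟩) h1 (Or.inl ⟨rfl, h2⟩)
  · exact M.five_aux (Or.inr ⟨rfl, rfl⟩) h1 (Or.inr ⟨rfl, h2⟩)

end GModel

theorem at_most_five {ι : Type} [Finite ι] (S : RegularShrinker (EuclideanSpace ℝ (Fin 2)) ι) :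
    {i | S.unb i = true}.ncard ≤ 5 := by
  rcases extract S with h | ⟨E, _, M, h⟩
  · omega
  · exact h.trans M.five

end Pool.Agent.Work.MP_dd6b33_gt
end
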